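import Pool.Agent.Lib_helper87.JO.GamC

/-!
# JO part L2: the local factor for holomorphic forms

`Psi_w(g) = Phi(g) conj Phi(g g_w)`, `w = x + i v`; for a holomorphic form of weight `k` the
Mellin transform of the `n`-th term `y^k v^{k/2} e^{-2 pi n y (1+v+ix)}` is `locY k v x s` times the
Mellin transform of `y^k e^{-4 pi n y}`, and `locY` is explicit.
-/

set_option autoImplicit false

open MeasureTheory Complex

namespace Pool.Agent.JOL

/-- the local factor of `Psi_w`, `w = x + i v` -/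
noncomputable def locY (k v x : ℝ) (s : ℂ) : ℂ :=
  ((v ^ (k / 2) : ℝ) : ℂ) * (2 / (1 + v + I * x)) ^ ((k : ℂ) + s)

theorem locY_re (v x : ℝ) : (1 + (v : ℂ) + I * x).re = 1 + v := by simp

theorem locY_im (v x : ℝ) : (1 + (v : ℂ) + I * x).im = x := by simp

/-- Mellin transform of one term -/
theorem locY_mellin {k n v : ℝ} (hn : 0 < n) (hv : 0 < v) (x : ℝ) {s : ℂ}
    (hs : 0 < ((k : ℂ) + s).re) :
    ∫ y in Set.Ioi (0 : ℝ), (y : ℂ) ^ ((k : ℂ) + s - 1) *
        (((v ^ (k / 2) : ℝ) : ℂ) * cexp (-(2 * Real.pi * n * (1 + v + I * x) * y))) =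
      locY k v x s * ∫ y in Set.Ioi (0 : ℝ), (y : ℂ) ^ ((k : ℂ) + s - 1) *
        cexp (-(4 * Real.pi * n * y)) := by
  have hpi := Real.pi_pos
  have h1 : 0 < (2 * Real.pi * n * (1 + v + I * x) : ℂ).re := by
    have h2 : (2 * Real.pi * n * (1 + v + I * x) : ℂ) =
        ((2 * Real.pi * n : ℝ) : ℂ) * (1 + v + I * x) := by push_cast; ring
    rw [h2, Complex.re_ofReal_mul, locY_re]
    positivity
  have h3 : 0 < (4 * Real.pi * n : ℂ).re := by
    have h2 : (4 * Real.pi * n : ℂ) = ((4 * Real.pi * n : ℝ) : ℂ) := by push_cast; ring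
    rw [h2, Complex.ofReal_re]
    positivity
  have e1 := gg_integral hs h1
  have e2 := gg_integral hs h3
  rw [e2]
  have e3 : ∫ y in Set.Ioi (0 : ℝ), (y : ℂ) ^ ((k : ℂ) + s - 1) *
        (((v ^ (k / 2) : ℝ) : ℂ) * cexp (-(2 * Real.pi * n * (1 + v + I * x) * y))) =
      ((v ^ (k / 2) : ℝ) : ℂ) * ∫ y in Set.Ioi (0 : ℝ), (y : ℂ) ^ ((k : ℂ) + s - 1) *
        cexp (-(2 * Real.pi * n * (1 + v + I * x) * y)) := by
    rw [← integral_const_mul]
    congr 1
    funext y
    ring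
  rw [e3, e1]
  have hz : (1 + (v : ℂ) + I * x) ≠ 0 := by
    intro h0
    have := locY_re v x
    rw [h0] at this
    simp at this
    linarith
  have hn0 : (n : ℂ) ≠ 0 := by exact_mod_cast hn.ne'
  have hpi0 : (Real.pi : ℂ) ≠ 0 := by exact_mod_cast hpi.ne'
  have e4 : (1 / (2 * Real.pi * n * (1 + v + I * x)) : ℂ) =
      ((1 / (4 * Real.pi * n) : ℝ) : ℂ) * (2 / (1 + v + I * x)) := by
    push_cast
    field_simp
    norm_num
  have e5 : (1 / (4 * Real.pi * n) : ℂ) = ((1 / (4 * Real.pi * n) : ℝ) : ℂ) := by push_cast; ring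
  have hpos : 0 < 1 / (4 * Real.pi * n) := by positivity
  rw [e4, e5]
  unfold locY
  have e6 : (((1 / (4 * Real.pi * n) : ℝ) : ℂ) * (2 / (1 + v + I * x))) ^ ((k : ℂ) + s) =
      (((1 / (4 * Real.pi * n) : ℝ) : ℂ)) ^ ((k : ℂ) + s) *
        (2 / (1 + v + I * x)) ^ ((k : ℂ) + s) := by
    have hne : (2 / (1 + v + I * x) : ℂ) ≠ 0 := div_ne_zero two_ne_zero hz
    have hrne : (((1 / (4 * Real.pi * n) : ℝ) : ℂ)) ≠ 0 := by exact_mod_cast hpos.ne'
    rw [Complex.cpow_def_of_ne_zero (mul_ne_zero hrne hne), Complex.cpow_def_of_ne_zero hrne,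
      Complex.cpow_def_of_ne_zero hne, ← Complex.exp_add, Complex.log_ofReal_mul hpos hne,
      Complex.ofReal_log hpos.le]
    congr 1
    ring
  rw [e6]
  ring

/-- the size of the local factor -/
theorem norm_locY {k v : ℝ} (hv : 0 < v) (x σ κ : ℝ) :
    ‖locY k v x (σ + κ * I)‖ = v ^ (k / 2) * (2 / √((1 + v) ^ 2 + x ^ 2)) ^ (k + σ) *
      Real.exp (κ * Real.arctan (x / (1 + v))) := by
  have hz : (1 + (v : ℂ) + I * x) ≠ 0 := by
    intro h0
    have := locY_re v x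
    rw [h0] at this
    simp at this
    linarith
  have hne : (2 / (1 + v + I * x) : ℂ) ≠ 0 := div_ne_zero two_ne_zero hz
  unfold locY
  rw [norm_mul, Complex.norm_real, Real.norm_of_nonneg (Real.rpow_nonneg hv.le _),
    Complex.norm_cpow_of_ne_zero hne]
  have h1 : ‖(2 / (1 + v + I * x) : ℂ)‖ = 2 / √((1 + v) ^ 2 + x ^ 2) := by
    rw [norm_div, Complex.norm_def (1 + (v : ℂ) + I * x), Complex.normSq_apply, locY_re, locY_im]
    simp
    ring_nf
  have h2 : ((k : ℂ) + ((σ : ℂ) + κ * I)).re = k + σ := by simp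
  have h3 : ((k : ℂ) + ((σ : ℂ) + κ * I)).im = κ := by simp
  have h4 : (2 / (1 + v + I * x) : ℂ).arg = -Real.arctan (x / (1 + v)) := by
    have h5 : (2 / (1 + v + I * x) : ℂ) = ((2 : ℝ) : ℂ) * (1 + v + I * x)⁻¹ := by
      push_cast; ring
    have hre : 0 < (1 + (v : ℂ) + I * x).re := by rw [locY_re]; linarith
    have h6 : Real.arctan (x / (1 + v)) = (1 + (v : ℂ) + I * x).arg := by
      apply Real.arctan_eq_of_tan_eq
      · rw [Complex.tan_arg, locY_re, locY_im]
      · exact ⟨Complex.neg_pi_div_two_lt_arg_iff.2 (Or.inl hre),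
          Complex.arg_lt_pi_div_two_iff.2 (Or.inl hre)⟩
    rw [h5, Complex.arg_real_mul _ (by norm_num), Complex.arg_inv,
      if_neg (by intro h6; have := Complex.arg_eq_pi_iff.1 h6; linarith [this.1]), h6]
  rw [h1, h2, h3, h4, ← mul_div_assoc, div_eq_mul_inv, ← Real.exp_neg]
  congr 2
  ring

theorem norm_locY_neg {k v : ℝ} (hv : 0 < v) (x σ κ : ℝ) :
    ‖locY k v (-x) (σ + (-κ : ℝ) * I)‖ = ‖locY k v x (σ + κ * I)‖ := by
  rw [norm_locY hv, norm_locY hv, neg_sq, neg_div, Real.arctan_neg, neg_mul_neg]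

/-- upper bound -/
theorem sq_norm_locY_le {k v : ℝ} (hv : 0 < v) (x σ κ : ℝ) :
    ‖locY k v x (σ + κ * I)‖ ^ 2 ≤ v ^ k * (4 / ((1 + v) ^ 2 + x ^ 2)) ^ (k + σ) *
      Real.exp (Real.pi * |κ|) := by
  have hq : 0 < (1 + v) ^ 2 + x ^ 2 := by positivity
  have h0 : ‖locY k v x (σ + κ * I)‖ ^ 2 = v ^ k * (4 / ((1 + v) ^ 2 + x ^ 2)) ^ (k + σ) *
      Real.exp (2 * (κ * Real.arctan (x / (1 + v)))) := by
    rw [norm_locY hv, mul_pow, mul_pow, ← Real.exp_nat_mul]
    congr 1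
    · congr 1
      · rw [← Real.rpow_natCast, ← Real.rpow_mul hv.le]
        congr 1
        push_cast
        ring
      · rw [← Real.rpow_natCast, ← Real.rpow_mul (by positivity), mul_comm (k + σ),
          Real.rpow_mul (by positivity)]
        congr 1
        rw [Real.rpow_natCast, div_pow, Real.sq_sqrt hq.le]
        norm_num
  rw [h0]
  apply mul_le_mul_of_nonneg_left _ (by positivity)
  apply Real.exp_le_exp.2
  have h1 := Real.neg_pi_div_two_lt_arctan (x / (1 + v))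
  have h2 := Real.arctan_lt_pi_div_two (x / (1 + v))
  have h3 : |Real.arctan (x / (1 + v))| ≤ Real.pi / 2 := abs_le.2 ⟨h1.le, h2.le⟩
  calc 2 * (κ * Real.arctan (x / (1 + v))) ≤ 2 * (|κ| * |Real.arctan (x / (1 + v))|) := by
        rw [← abs_mul]
        have := le_abs_self (κ * Real.arctan (x / (1 + v)))
        linarith
    _ ≤ 2 * (|κ| * (Real.pi / 2)) := by
        have := mul_le_mul_of_nonneg_left h3 (abs_nonneg κ)
        linarith
    _ = Real.pi * |κ| := by ring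

/-- exact square -/
theorem sq_norm_locY {k v : ℝ} (hv : 0 < v) (x σ κ : ℝ) :
    ‖locY k v x (σ + κ * I)‖ ^ 2 = v ^ k * (4 / ((1 + v) ^ 2 + x ^ 2)) ^ (k + σ) *
      Real.exp (2 * (κ * Real.arctan (x / (1 + v)))) := by
  have hq : 0 < (1 + v) ^ 2 + x ^ 2 := by positivity
  rw [norm_locY hv, mul_pow, mul_pow, ← Real.exp_nat_mul]
  congr 1
  congr 1
  · rw [← Real.rpow_natCast, ← Real.rpow_mul hv.le]
    congr 1
    push_cast
    ring
  · rw [← Real.rpow_natCast, ← Real.rpow_mul (by positivity), mul_comm (k + σ),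
      Real.rpow_mul (by positivity)]
    congr 1
    rw [Real.rpow_natCast, div_pow, Real.sq_sqrt hq.le]
    norm_num

/-- lower bound on the region `x in [K, 2K]`, `v in [1, 2]`, `kappa in [K, 2K]` -/
theorem le_sq_norm_locY {k K v x σ κ : ℝ} (hk : 0 ≤ k) (ha : 0 ≤ k + σ) (hK : 1 ≤ K)
    (hv : v ∈ Set.Icc (1 : ℝ) 2) (hx : x ∈ Set.Icc K (2 * K)) (hκ : κ ∈ Set.Icc K (2 * K)) :
    Real.exp (-12) * (4 / 13) ^ (k + σ) * K ^ (-2 * (k + σ)) * Real.exp (Real.pi * κ) ≤
      ‖locY k v x (σ + κ * I)‖ ^ 2 := by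
  obtain ⟨hv1, hv2⟩ := hv
  obtain ⟨hx1, hx2⟩ := hx
  obtain ⟨hκ1, hκ2⟩ := hκ
  have hv0 : 0 < v := by linarith
  have hK0 : 0 < K := by linarith
  have hx0 : 0 < x := by linarith
  rw [sq_norm_locY hv0]
  have h1 : 1 ≤ v ^ k := Real.one_le_rpow hv1 hk
  have h2 : (4 / 13) ^ (k + σ) * K ^ (-2 * (k + σ)) ≤ (4 / ((1 + v) ^ 2 + x ^ 2)) ^ (k + σ) := by
    have h3 : K ^ (-2 * (k + σ)) = (1 / K ^ 2) ^ (k + σ) := by
      rw [Real.rpow_mul hK0.le]
      congr 1
      rw [Real.rpow_neg hK0.le, one_div]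
      norm_num
    rw [h3, ← Real.mul_rpow (by norm_num) (by positivity)]
    apply Real.rpow_le_rpow (by positivity) _ ha
    rw [div_mul_div_comm, mul_one]
    apply div_le_div_of_nonneg_left (by norm_num) (by positivity)
    nlinarith
  have h4 : Real.pi * κ - 12 ≤ 2 * (κ * Real.arctan (x / (1 + v))) := by
    have h5 : Real.arctan (x / (1 + v)) = Real.pi / 2 - Real.arctan ((1 + v) / x) := by
      have h6 := Real.arctan_inv_of_pos (x := (1 + v) / x) (by positivity)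
      rw [inv_div] at h6
      exact h6
    have h7 : Real.arctan ((1 + v) / x) ≤ (1 + v) / x := by
      have h8 : 0 < (1 + v) / x := by positivity
      have h9 := Real.lt_tan (x := Real.arctan ((1 + v) / x)) (Real.arctan_pos.2 h8)
        (Real.arctan_lt_pi_div_two _)
      rw [Real.tan_arctan] at h9
      exact h9.le
    have h10 : (1 + v) / x ≤ 3 / K := by
      apply div_le_div₀ (by norm_num) (by linarith) hK0 hx1
    have h11 : κ * ((1 + v) / x) ≤ 6 := by
      calc κ * ((1 + v) / x) ≤ (2 * K) * (3 / K) :=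
            mul_le_mul hκ2 h10 (by positivity) (by positivity)
        _ = 6 := by field_simp; norm_num
    have h12 : κ * Real.arctan ((1 + v) / x) ≤ 6 := by
      refine le_trans (mul_le_mul_of_nonneg_left h7 (by linarith)) h11
    rw [h5]
    nlinarith
  have h13 : Real.exp (-12) * Real.exp (Real.pi * κ) ≤
      Real.exp (2 * (κ * Real.arctan (x / (1 + v)))) := by
    rw [← Real.exp_add]
    apply Real.exp_le_exp.2
    linarith
  calc Real.exp (-12) * (4 / 13) ^ (k + σ) * K ^ (-2 * (k + σ)) * Real.exp (Real.pi * κ)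
      = (1 * ((4 / 13) ^ (k + σ) * K ^ (-2 * (k + σ)))) *
        (Real.exp (-12) * Real.exp (Real.pi * κ)) := by ring
    _ ≤ (v ^ k * (4 / ((1 + v) ^ 2 + x ^ 2)) ^ (k + σ)) *
        Real.exp (2 * (κ * Real.arctan (x / (1 + v)))) := by
        apply mul_le_mul _ h13 (by positivity) (by positivity)
        exact mul_le_mul h1 h2 (by positivity) (by positivity)

/-- lower bound for the average over the region -/
theorem le_lintegral_locY {k K σ κ : ℝ} (hk : 0 ≤ k) (ha : 0 ≤ k + σ) (hK : 1 ≤ K)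
    (hκ : κ ∈ Set.Icc K (2 * K)) :
    ENNReal.ofReal (Real.exp (-12) * (4 / 13) ^ (k + σ) / 4 * K ^ (1 - 2 * (k + σ)) *
      Real.exp (Real.pi * κ)) ≤
    ∫⁻ x in Set.Icc K (2 * K), ∫⁻ v in Set.Icc (1 : ℝ) 2,
      ENNReal.ofReal (‖locY k v x (σ + κ * I)‖ ^ 2 / v ^ 2) := by
  have hK0 : 0 < K := by linarith
  set c := Real.exp (-12) * (4 / 13) ^ (k + σ) * K ^ (-2 * (k + σ)) * Real.exp (Real.pi * κ)
    with hc
  have hc0 : 0 ≤ c := by positivity
  have h1 : ∀ x ∈ Set.Icc K (2 * K), ENNReal.ofReal (c / 4) ≤ ∫⁻ v in Set.Icc (1 : ℝ) 2,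
      ENNReal.ofReal (‖locY k v x (σ + κ * I)‖ ^ 2 / v ^ 2) := by
    intro x hx
    calc ENNReal.ofReal (c / 4) = ∫⁻ _ in Set.Icc (1 : ℝ) 2, ENNReal.ofReal (c / 4) := by
          rw [setLIntegral_const, Real.volume_Icc]
          norm_num
      _ ≤ _ := by
          apply setLIntegral_mono' measurableSet_Icc
          intro v hv
          apply ENNReal.ofReal_le_ofReal
          have h2 := le_sq_norm_locY hk ha hK hv hx hκ
          have hv0 : 0 < v := by linarith [hv.1]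
          rw [div_le_div_iff₀ (by norm_num) (by positivity)]
          have h3 : v ^ 2 ≤ 4 := by nlinarith [hv.1, hv.2]
          calc c * v ^ 2 ≤ c * 4 := mul_le_mul_of_nonneg_left h3 hc0
            _ ≤ ‖locY k v x (σ + κ * I)‖ ^ 2 * 4 := mul_le_mul_of_nonneg_right h2 (by norm_num)
  calc ENNReal.ofReal (Real.exp (-12) * (4 / 13) ^ (k + σ) / 4 * K ^ (1 - 2 * (k + σ)) *
      Real.exp (Real.pi * κ)) = ∫⁻ _ in Set.Icc K (2 * K), ENNReal.ofReal (c / 4) := by
        rw [setLIntegral_const, Real.volume_Icc, ← ENNReal.ofReal_mul (by positivity)]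
        congr 1
        rw [hc, show (1 : ℝ) - 2 * (k + σ) = -2 * (k + σ) + 1 by ring, Real.rpow_add hK0,
          Real.rpow_one]
        ring
    _ ≤ _ := setLIntegral_mono' measurableSet_Icc h1

end Pool.Agent.JOL
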