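import Mathlib

/-!
# The Laplace transform of a power for complex parameters
-/

set_option autoImplicit false

namespace Pool.Agent.JOL

open Complex MeasureTheory Filter Topology

theorem gg_int {x c : ℝ} (hx : 0 < x) (hc : 0 < c) :
    IntegrableOn (fun t : ℝ => t ^ (x - 1) * Real.exp (-(c * t))) (Set.Ioi 0) := by
  have h := integrableOn_rpow_mul_exp_neg_mul_rpow (p := 1) (s := x - 1) (b := c)
    (by linarith) one_pos hc
  refine h.congr_fun (fun t _ => ?_) measurableSet_Ioi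
  simp only [Real.rpow_one, neg_mul]

theorem gg_norm {a r : ℂ} {t : ℝ} (ht : 0 < t) :
    ‖(t : ℂ) ^ (a - 1) * cexp (-(r * t))‖ = t ^ (a.re - 1) * Real.exp (-(r.re * t)) := by
  rw [norm_mul, norm_cpow_eq_rpow_re_of_pos ht, Complex.norm_exp]
  simp

theorem gg_meas {a r : ℂ} : AEStronglyMeasurable (fun t : ℝ => (t : ℂ) ^ (a - 1) * cexp (-(r * t)))
    (volume.restrict (Set.Ioi 0)) := by
  refine ContinuousOn.aestronglyMeasurable ?_ measurableSet_Ioi
  intro t ht
  refine ContinuousAt.continuousWithinAt ?_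
  refine ContinuousAt.mul ?_ (by fun_prop)
  exact (continuousAt_ofReal_cpow_const _ _ (Or.inr (ne_of_gt ht)))

theorem gg_int' {a r : ℂ} (ha : 0 < a.re) (hr : 0 < r.re) :
    Integrable (fun t : ℝ => (t : ℂ) ^ (a - 1) * cexp (-(r * t)))
      (volume.restrict (Set.Ioi 0)) := by
  refine (gg_int ha hr).mono' gg_meas ?_
  filter_upwards [ae_restrict_mem measurableSet_Ioi] with t ht
  exact (gg_norm ht).le

theorem gg_diff {a : ℂ} (ha : 0 < a.re) {r : ℂ} (hr : 0 < r.re) :
    DifferentiableAt ℂ (fun r : ℂ => ∫ t : ℝ in Set.Ioi 0, (t : ℂ) ^ (a - 1) * cexp (-(r * t))) r := by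
  have hr2 : 0 < r.re / 2 := by linarith
  have key := hasDerivAt_integral_of_dominated_loc_of_deriv_le (𝕜 := ℂ)
    (μ := volume.restrict (Set.Ioi (0 : ℝ))) (x₀ := r) (s := {z : ℂ | r.re / 2 < z.re})
    (F := fun (r : ℂ) (t : ℝ) => (t : ℂ) ^ (a - 1) * cexp (-(r * t)))
    (F' := fun (r : ℂ) (t : ℝ) => (t : ℂ) ^ (a - 1) * (cexp (-(r * t)) * (-t)))
    (bound := fun t => t ^ (a.re + 1 - 1) * Real.exp (-(r.re / 2 * t)))
    ((isOpen_lt continuous_const continuous_re).mem_nhds (by simp only [Set.mem_ofPred_eq]; linarith))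
    (Eventually.of_forall fun _ => gg_meas) (gg_int' ha hr) ?_ ?_ ?_ ?_
  · exact key.2.differentiableAt
  · have h1 : (fun t : ℝ => (t : ℂ) ^ (a - 1) * (cexp (-(r * t)) * (-t))) =
        fun t : ℝ => ((t : ℂ) ^ (a - 1) * cexp (-(r * t))) * (-(t : ℂ)) := by
      funext t; ring
    rw [h1]
    exact gg_meas.mul (by fun_prop)
  · filter_upwards [ae_restrict_mem measurableSet_Ioi] with t ht z hz
    have ht0 : 0 < t := ht
    have h1 : (t : ℂ) ^ (a - 1) * (cexp (-(z * t)) * (-t)) =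
        ((t : ℂ) ^ (a - 1) * cexp (-(z * t))) * (-(t : ℂ)) := by ring
    rw [h1, norm_mul, gg_norm ht0, norm_neg, norm_real, Real.norm_of_nonneg ht0.le]
    have h2 : t ^ (a.re + 1 - 1) = t ^ (a.re - 1) * t := by
      rw [add_sub_cancel_right, Real.rpow_sub_one ht0.ne']
      field_simp
    rw [h2]
    have h3 : Real.exp (-(z.re * t)) ≤ Real.exp (-(r.re / 2 * t)) := by
      apply Real.exp_le_exp.2
      have : r.re / 2 * t ≤ z.re * t := mul_le_mul_of_nonneg_right (le_of_lt hz) ht0.le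
      linarith
    have h4 : 0 ≤ t ^ (a.re - 1) := Real.rpow_nonneg ht0.le _
    calc t ^ (a.re - 1) * Real.exp (-(z.re * t)) * t
        ≤ t ^ (a.re - 1) * Real.exp (-(r.re / 2 * t)) * t := by gcongr
      _ = t ^ (a.re - 1) * t * Real.exp (-(r.re / 2 * t)) := by ring
  · exact gg_int (by linarith) hr2
  · filter_upwards with t z _
    refine HasDerivAt.const_mul _ ?_
    have h1 : HasDerivAt (fun z : ℂ => -(z * t)) (-t) z := by
      simpa using ((hasDerivAt_id' z).mul_const (t : ℂ)).fun_neg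
    exact h1.cexp

/-- the Laplace transform of a power for complex parameters -/
theorem gg_integral {a r : ℂ} (ha : 0 < a.re) (hr : 0 < r.re) :
    ∫ t : ℝ in Set.Ioi 0, (t : ℂ) ^ (a - 1) * cexp (-(r * t)) = (1 / r) ^ a * Gamma a := by
  set U : Set ℂ := {z : ℂ | 0 < z.re} with hU
  have hUo : IsOpen U := isOpen_lt continuous_const continuous_re
  have hUc : IsPreconnected U := (convex_halfSpace_re_gt 0).isPreconnected
  have hF : AnalyticOnNhd ℂ (fun r : ℂ => ∫ t : ℝ in Set.Ioi 0, (t : ℂ) ^ (a - 1) *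
      cexp (-(r * t))) U := by
    refine DifferentiableOn.analyticOnNhd (fun z hz => ?_) hUo
    exact (gg_diff ha hz).differentiableWithinAt
  have hG : AnalyticOnNhd ℂ (fun r : ℂ => (1 / r) ^ a * Gamma a) U := by
    refine DifferentiableOn.analyticOnNhd (fun z hz => ?_) hUo
    refine DifferentiableAt.differentiableWithinAt ?_
    have hz0 : z ≠ 0 := by
      rintro rfl
      exact lt_irrefl _ (show (0 : ℝ) < (0 : ℂ).re from hz)
    have h1 : (1 / z) ∈ slitPlane := by
      rw [one_div]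
      refine Or.inl ?_
      rw [inv_re]
      exact div_pos hz (normSq_pos.2 hz0)
    have h2 : DifferentiableAt ℂ (fun r : ℂ => 1 / r) z := by
      simpa using (differentiableAt_inv hz0)
    exact (DifferentiableAt.cpow_const h2 h1).mul_const _
  have hseq : Tendsto (fun n : ℕ => (1 : ℂ) + 1 / (n + 1)) atTop (𝓝[≠] (1 : ℂ)) := by
    refine tendsto_nhdsWithin_iff.2 ⟨?_, Eventually.of_forall fun n => ?_⟩
    · have h1 : Tendsto (fun n : ℕ => (1 : ℂ) / (n + 1)) atTop (𝓝 0) :=
        tendsto_one_div_add_atTop_nhds_zero_nat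
      simpa using h1.const_add (1 : ℂ)
    · have h1 : (1 : ℂ) / (n + 1) ≠ 0 := by
        have : ((n : ℂ) + 1) ≠ 0 := by exact_mod_cast Nat.succ_ne_zero n
        exact one_div_ne_zero this
      simpa using h1
  have hfreq : ∃ᶠ z in 𝓝[≠] (1 : ℂ), (∫ t : ℝ in Set.Ioi 0, (t : ℂ) ^ (a - 1) *
      cexp (-(z * t))) = (1 / z) ^ a * Gamma a := by
    refine hseq.frequently (Frequently.of_forall fun n => ?_)
    have h1 : (1 : ℂ) + 1 / (n + 1) = ((1 + 1 / (n + 1) : ℝ) : ℂ) := by push_cast; ring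
    rw [h1]
    exact integral_cpow_mul_exp_neg_mul_Ioi ha (by positivity)
  exact hF.eqOn_of_preconnected_of_frequently_eq hG hUc (by simp [hU]) hfreq hr

end Pool.Agent.JOL
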