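import Mathlib

/-!
# Jutila's question (MP_f4574f_nt), part B: many admissible primes

If `∑_{n ≤ x} |λ(n)|² ≤ C x` then one of the intervals `[n, 2n]`, `[2n, 4n]` contains at least
`n^{1-e}` primes `p ∤ N` with `|λ(p)| ≤ p^{1/8}`.
-/

namespace Pool.Agent.JOL

open Finset Filter Topology

/-- admissible primes in `[P, 2P]` -/
noncomputable def goodP (N : ℕ) (lam : ℕ → ℂ) (P : ℕ) : Finset ℕ := by
  classical
  exact {p ∈ Finset.Icc P (2 * P) | p.Prime ∧ ¬ p ∣ N ∧ ‖lam p‖ ≤ (p : ℝ) ^ (1 / 8 : ℝ)}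

theorem mem_goodP {N : ℕ} {lam : ℕ → ℂ} {P p : ℕ} :
    p ∈ goodP N lam P ↔ (P ≤ p ∧ p ≤ 2 * P) ∧ p.Prime ∧ ¬ p ∣ N ∧
      ‖lam p‖ ≤ (p : ℝ) ^ (1 / 8 : ℝ) := by
  classical
  simp only [goodP, Finset.mem_filter, Finset.mem_Icc]

theorem evt_log {δ r : ℝ} (hδ : 0 < δ) (hr : 0 < r) :
    ∀ᶠ n : ℕ in atTop, Real.log (4 * n + 1) ≤ δ * (n : ℝ) ^ r := by
  have h1 : ∀ᶠ x : ℝ in atTop, Real.log x ≤ δ / 2 * x ^ r := by
    have := (isLittleO_log_rpow_atTop hr).def (show 0 < δ / 2 by positivity)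
    filter_upwards [this, eventually_ge_atTop (1 : ℝ)] with x hx h1
    rw [Real.norm_of_nonneg (Real.log_nonneg h1),
      Real.norm_of_nonneg (Real.rpow_nonneg (by linarith) _)] at hx
    exact hx
  have h2 : ∀ᶠ x : ℝ in atTop, Real.log 5 ≤ δ / 2 * x ^ r := by
    have h3 : Tendsto (fun x : ℝ => δ / 2 * x ^ r) atTop atTop :=
      (tendsto_rpow_atTop hr).const_mul_atTop (by positivity)
    exact h3.eventually_ge_atTop _
  have h3 := tendsto_natCast_atTop_atTop (R := ℝ)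
  filter_upwards [h3.eventually h1, h3.eventually h2, eventually_ge_atTop 1] with n h4 h5 h6
  have h7 : (1 : ℝ) ≤ n := by exact_mod_cast h6
  calc Real.log (4 * n + 1) ≤ Real.log (5 * n) := Real.log_le_log (by linarith) (by linarith)
    _ = Real.log 5 + Real.log n := Real.log_mul (by norm_num) (by linarith)
    _ ≤ δ * (n : ℝ) ^ r := by linarith

/-- the primes in `(n, 4n]` -/
theorem card_primes {e : ℝ} (he : 0 < e) (he1 : e ≤ 1 / 8) :
    ∀ᶠ n : ℕ in atTop, 5 * (n : ℝ) ^ (1 - e) ≤ #{p ∈ Finset.Ioc n (4 * n) | p.Prime} := by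
  have hl2 : 0 < Real.log 2 := Real.log_pos one_lt_two
  have hδ : 0 < Real.log 2 / 5 := by positivity
  filter_upwards [evt_log hδ he, eventually_ge_atTop 1] with n h1 h2
  have hn : (1 : ℝ) ≤ n := by exact_mod_cast h2
  have hn0 : (0 : ℝ) < n := by linarith
  set L := Real.log (4 * n + 1) with hL
  have hLpos : 0 < L := Real.log_pos (by linarith)
  have h3 := Chebyshev.theta_ge (4 * n)
  have h4 := Chebyshev.theta_le_log4_mul_x (x := (n : ℝ)) hn0.le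
  have hlog4 : Real.log 4 = 2 * Real.log 2 := by
    rw [show (4 : ℝ) = 2 ^ 2 by norm_num, Real.log_pow]; norm_num
  have h5 : Chebyshev.theta ((4 * n : ℕ) : ℝ) - Chebyshev.theta (n : ℝ) =
      ∑ p ∈ Finset.Ioc n (4 * n) with p.Prime, Real.log p := by
    rw [Chebyshev.theta, Chebyshev.theta, Nat.floor_natCast, Nat.floor_natCast, sub_eq_iff_eq_add]
    rw [← Finset.sum_union]
    · refine Finset.sum_congr ?_ fun _ _ => rfl
      ext p
      simp only [Finset.mem_filter, Finset.mem_union, Finset.mem_Ioc]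
      constructor
      · rintro ⟨⟨a, b⟩, c⟩
        by_cases h : n < p
        · exact Or.inl ⟨⟨h, b⟩, c⟩
        · exact Or.inr ⟨⟨a, by omega⟩, c⟩
      · rintro (⟨⟨a, b⟩, c⟩ | ⟨⟨a, b⟩, c⟩)
        · exact ⟨⟨by omega, b⟩, c⟩
        · exact ⟨⟨a, by omega⟩, c⟩
    · rw [Finset.disjoint_left]
      intro p hp hq
      simp only [Finset.mem_filter, Finset.mem_Ioc] at hp hq
      omega
  have h6 : ∑ p ∈ Finset.Ioc n (4 * n) with p.Prime, Real.log p ≤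
      #{p ∈ Finset.Ioc n (4 * n) | p.Prime} * L := by
    rw [← nsmul_eq_mul]
    apply Finset.sum_le_card_nsmul
    intro p hp
    simp only [Finset.mem_filter, Finset.mem_Ioc] at hp
    apply Real.log_le_log (by exact_mod_cast hp.2.pos)
    have : (p : ℝ) ≤ 4 * n := by exact_mod_cast hp.1.2
    linarith
  -- the error terms
  have h7 : (n : ℝ) ^ e ≤ (n : ℝ) ^ (1 / 2 : ℝ) :=
    Real.rpow_le_rpow_of_exponent_le hn (by linarith)
  have h8 : (n : ℝ) ^ (1 / 2 : ℝ) * (n : ℝ) ^ (1 / 2 : ℝ) = n := by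
    rw [← Real.rpow_add hn0]; norm_num
  have hs0 : 0 ≤ (n : ℝ) ^ (1 / 2 : ℝ) := Real.rpow_nonneg hn0.le _
  have hs1 : 1 ≤ (n : ℝ) ^ (1 / 2 : ℝ) := Real.one_le_rpow hn (by norm_num)
  have h9 : √((4 * n : ℕ) : ℝ) = 2 * (n : ℝ) ^ (1 / 2 : ℝ) := by
    push_cast
    rw [Real.sqrt_mul (by norm_num), ← Real.sqrt_eq_rpow]
    congr 1
    rw [show (4 : ℝ) = 2 ^ 2 by norm_num, Real.sqrt_sq (by norm_num)]
  have h10 : Real.log ((4 * n : ℕ) : ℝ) ≤ L := by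
    apply Real.log_le_log
    · push_cast; linarith
    · push_cast; linarith
  have h11 : Real.log (((4 * n : ℕ) : ℝ) + 1) = L := by rw [hL]; push_cast; rfl
  have h12 : L ≤ Real.log 2 / 5 * (n : ℝ) ^ (1 / 2 : ℝ) :=
    h1.trans (mul_le_mul_of_nonneg_left h7 hδ.le)
  have h13 : L + 2 * √((4 * n : ℕ) : ℝ) * Real.log ((4 * n : ℕ) : ℝ) ≤ Real.log 2 * n := by
    rw [h9]
    have a1 : 2 * (2 * (n : ℝ) ^ (1 / 2 : ℝ)) * Real.log ((4 * n : ℕ) : ℝ) ≤
        2 * (2 * (n : ℝ) ^ (1 / 2 : ℝ)) * (Real.log 2 / 5 * (n : ℝ) ^ (1 / 2 : ℝ)) := by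
      apply mul_le_mul_of_nonneg_left (h10.trans h12) (by positivity)
    have a2 : 2 * (2 * (n : ℝ) ^ (1 / 2 : ℝ)) * (Real.log 2 / 5 * (n : ℝ) ^ (1 / 2 : ℝ)) =
        4 / 5 * Real.log 2 * n := by
      linear_combination (4 / 5 * Real.log 2) * h8
    have a3 : Real.log 2 / 5 * (n : ℝ) ^ (1 / 2 : ℝ) ≤ Real.log 2 / 5 * n := by
      apply mul_le_mul_of_nonneg_left _ hδ.le
      nlinarith
    linarith
  have h14 : Real.log 2 * n ≤ #{p ∈ Finset.Ioc n (4 * n) | p.Prime} * L := by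
    rw [h11] at h3
    have h15 : ((4 * n : ℕ) : ℝ) * Real.log 2 = 4 * (Real.log 2 * n) := by push_cast; ring
    rw [h15] at h3
    rw [hlog4] at h4
    linarith
  have h16 : Real.log 2 * n ≤ #{p ∈ Finset.Ioc n (4 * n) | p.Prime} *
      (Real.log 2 / 5 * (n : ℝ) ^ e) :=
    h14.trans (mul_le_mul_of_nonneg_left h1 (Nat.cast_nonneg _))
  have h17 : (n : ℝ) = (n : ℝ) ^ (1 - e) * (n : ℝ) ^ e := by
    rw [← Real.rpow_add hn0]; simp
  have hpe : 0 < (n : ℝ) ^ e := Real.rpow_pos_of_pos hn0 _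
  have h18 : (Real.log 2 / 5 * (n : ℝ) ^ e) * (5 * (n : ℝ) ^ (1 - e)) ≤
      (Real.log 2 / 5 * (n : ℝ) ^ e) * #{p ∈ Finset.Ioc n (4 * n) | p.Prime} := by
    calc (Real.log 2 / 5 * (n : ℝ) ^ e) * (5 * (n : ℝ) ^ (1 - e)) =
        Real.log 2 * ((n : ℝ) ^ (1 - e) * (n : ℝ) ^ e) := by ring
      _ = Real.log 2 * n := by rw [← h17]
      _ ≤ _ := by linarith
  exact le_of_mul_le_mul_left h18 (by positivity)

theorem many_primes (N : ℕ) (hN : 0 < N) (lam : ℕ → ℂ) (C : ℝ)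
    (hlam : ∀ x : ℕ, ∑ n ∈ Finset.Icc 1 x, ‖lam n‖ ^ 2 ≤ C * x) {e : ℝ} (he : 0 < e)
    (he1 : e ≤ 1 / 8) :
    ∃ n0 : ℕ, ∀ n : ℕ, n0 ≤ n → ∃ P : ℕ, (P = n ∨ P = 2 * n) ∧
      (n : ℝ) ^ (1 - e) ≤ #(goodP N lam P) := by
  classical
  have hC0 : 0 ≤ C := by
    have := hlam 1
    have h2 : 0 ≤ ∑ n ∈ Finset.Icc 1 1, ‖lam n‖ ^ 2 := Finset.sum_nonneg fun _ _ => by positivity
    simp only [Nat.cast_one, mul_one] at this
    linarith
  have hev1 : ∀ᶠ n : ℕ in atTop, (N : ℝ) ≤ (n : ℝ) ^ (1 - e) := by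
    have h3 : Tendsto (fun n : ℕ => (n : ℝ) ^ (1 - e)) atTop atTop :=
      (tendsto_rpow_atTop (by linarith : 0 < 1 - e)).comp tendsto_natCast_atTop_atTop
    exact h3.eventually_ge_atTop _
  have hev2 : ∀ᶠ n : ℕ in atTop, 4 * C ≤ (n : ℝ) ^ (1 / 4 - e) := by
    have h3 : Tendsto (fun n : ℕ => (n : ℝ) ^ (1 / 4 - e)) atTop atTop :=
      (tendsto_rpow_atTop (by linarith : 0 < 1 / 4 - e)).comp tendsto_natCast_atTop_atTop
    exact h3.eventually_ge_atTop _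
  obtain ⟨n0, hn0⟩ := eventually_atTop.1
    ((card_primes he he1).and (hev1.and (hev2.and (eventually_ge_atTop 1))))
  refine ⟨n0, fun n hn => ?_⟩
  obtain ⟨h1, h2, h3, h4⟩ := hn0 n hn
  have hn1 : (1 : ℝ) ≤ n := by exact_mod_cast h4
  have hnp : (0 : ℝ) < n := by linarith
  set A := ({p ∈ Finset.Ioc n (4 * n) | p.Prime} : Finset ℕ) with hA
  set Bd := ({p ∈ A | (p : ℝ) ^ (1 / 8 : ℝ) < ‖lam p‖} : Finset ℕ) with hBd
  have h5 : A ⊆ goodP N lam n ∪ goodP N lam (2 * n) ∪ N.divisors ∪ Bd := by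
    intro p hp
    have hp' := hp
    rw [hA, Finset.mem_filter, Finset.mem_Ioc] at hp'
    simp only [Finset.mem_union, mem_goodP, Nat.mem_divisors]
    by_cases hb : (p : ℝ) ^ (1 / 8 : ℝ) < ‖lam p‖
    · right
      rw [hBd, Finset.mem_filter]
      exact ⟨hp, hb⟩
    left
    by_cases hd : p ∣ N
    · right; exact ⟨hd, hN.ne'⟩
    left
    by_cases h2n : p ≤ 2 * n
    · left; exact ⟨⟨hp'.1.1.le, h2n⟩, hp'.2, hd, not_lt.1 hb⟩
    · right; exact ⟨⟨by omega, by omega⟩, hp'.2, hd, not_lt.1 hb⟩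
  -- the bad primes
  have h6 : (#Bd : ℝ) ≤ (n : ℝ) ^ (1 - e) := by
    have h7 : (#Bd : ℝ) * (n : ℝ) ^ (1 / 4 : ℝ) ≤ C * (4 * n) := by
      have h8 : ∑ p ∈ Bd, ‖lam p‖ ^ 2 ≤ C * (4 * n) := by
        have h9 := hlam (4 * n)
        push_cast at h9
        refine le_trans (Finset.sum_le_sum_of_subset_of_nonneg ?_ fun _ _ _ => by positivity) h9
        intro p hp
        rw [hBd, hA, Finset.mem_filter, Finset.mem_filter, Finset.mem_Ioc] at hp
        rw [Finset.mem_Icc]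
        omega
      refine le_trans ?_ h8
      rw [← nsmul_eq_mul]
      apply Finset.card_nsmul_le_sum
      intro p hp
      rw [hBd, hA, Finset.mem_filter, Finset.mem_filter, Finset.mem_Ioc] at hp
      have hp1 : (n : ℝ) ≤ p := by exact_mod_cast hp.1.1.1.le
      have hp0 : (0 : ℝ) < p := by linarith
      calc (n : ℝ) ^ (1 / 4 : ℝ) ≤ (p : ℝ) ^ (1 / 4 : ℝ) :=
            Real.rpow_le_rpow hnp.le hp1 (by norm_num)
        _ = ((p : ℝ) ^ (1 / 8 : ℝ)) ^ 2 := by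
            rw [← Real.rpow_natCast, ← Real.rpow_mul hp0.le]; norm_num
        _ ≤ ‖lam p‖ ^ 2 := pow_le_pow_left₀ (Real.rpow_nonneg hp0.le _) hp.2.le 2
    have h10 : C * (4 * n) ≤ (n : ℝ) ^ (1 - e) * (n : ℝ) ^ (1 / 4 : ℝ) := by
      have h11 : (n : ℝ) ^ (1 - e) * (n : ℝ) ^ (1 / 4 : ℝ) = (n : ℝ) ^ (1 / 4 - e) * n := by
        nth_rewrite 4 [← Real.rpow_one (n : ℝ)]
        rw [← Real.rpow_add hnp, ← Real.rpow_add hnp]
        congr 1; ring
      rw [h11]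
      nlinarith
    exact le_of_mul_le_mul_right (h7.trans h10) (Real.rpow_pos_of_pos hnp _)
  have h12 : (#(N.divisors) : ℝ) ≤ (n : ℝ) ^ (1 - e) := by
    refine le_trans ?_ h2
    exact_mod_cast Nat.card_divisors_le_self N
  have h13 : (#A : ℝ) ≤ #(goodP N lam n) + #(goodP N lam (2 * n)) + #(N.divisors) + #Bd := by
    have := (Finset.card_le_card h5).trans (Finset.card_union_le _ _)
    have h14 := Finset.card_union_le (goodP N lam n ∪ goodP N lam (2 * n)) N.divisors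
    have h15 := Finset.card_union_le (goodP N lam n) (goodP N lam (2 * n))
    exact_mod_cast by omega
  have hpos : 0 ≤ (n : ℝ) ^ (1 - e) := Real.rpow_nonneg hnp.le _
  by_cases hc : (n : ℝ) ^ (1 - e) ≤ #(goodP N lam n)
  · exact ⟨n, Or.inl rfl, hc⟩
  · refine ⟨2 * n, Or.inr rfl, ?_⟩
    rw [not_le] at hc
    linarith

end Pool.Agent.JOL
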