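import Mathlib

/-!
# Jutila's question (MP_f4574f_nt), part B: the exceptional set

For a finite set `Q` of primes `≤ R` and `S(κ) = ∑_{p ∈ Q} p^{2iκ}` we bound the Gaussian mean of
`|S|^{2m}`, and the measure of `{|κ| ≤ 2K : |S(κ)| ≥ s}`.
-/

namespace Pool.Agent.JOL

open MeasureTheory Finset
open scoped ComplexConjugate

/-- the prime sum -/
noncomputable def pS (Q : Finset ℕ) (κ : ℝ) : ℂ :=
  ∑ p ∈ Q, Complex.exp (Complex.I * ((2 * κ * Real.log p : ℝ) : ℂ))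

theorem pS_eq (Q : Finset ℕ) (hQ : ∀ p ∈ Q, 0 < p) (κ : ℝ) :
    pS Q κ = ∑ p ∈ Q, (p : ℂ) ^ (2 * Complex.I * κ) := by
  refine Finset.sum_congr rfl fun p hp => ?_
  have h1 : (p : ℂ) ≠ 0 := by
    exact_mod_cast (hQ p hp).ne'
  rw [Complex.cpow_def_of_ne_zero h1, ← Complex.natCast_log]
  congr 1
  push_cast
  ring

/-- the number of `m`-tuples of primes with a given product is at most `m^m` -/
theorem card_fib (Q : Finset ℕ) (hQ : ∀ p ∈ Q, p.Prime) (m n : ℕ) :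
    #{g ∈ Fintype.piFinset (fun _ : Fin m => Q) | ∏ i, g i = n} ≤ m ^ m := by
  classical
  rcases Finset.eq_empty_or_nonempty {g ∈ Fintype.piFinset (fun _ : Fin m => Q) | ∏ i, g i = n}
    with h | ⟨g0, hg0⟩
  · rw [h]; simp
  rw [Finset.mem_filter, Fintype.mem_piFinset] at hg0
  have hsub : {g ∈ Fintype.piFinset (fun _ : Fin m => Q) | ∏ i, g i = n} ⊆
      Fintype.piFinset (fun _ : Fin m => (Finset.univ.image g0)) := by
    intro g hg
    rw [Finset.mem_filter, Fintype.mem_piFinset] at hg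
    rw [Fintype.mem_piFinset]
    intro i
    have h1 : g i ∣ ∏ j, g0 j := by
      rw [hg0.2, ← hg.2]
      exact Finset.dvd_prod_of_mem g (Finset.mem_univ i)
    obtain ⟨j, -, hj⟩ := (Prime.dvd_finsetProd_iff (hQ _ (hg.1 i)).prime _).1 h1
    have h2 := (Nat.prime_dvd_prime_iff_eq (hQ _ (hg.1 i)) (hQ _ (hg0.1 j))).1 hj
    rw [h2]
    exact Finset.mem_image_of_mem _ (Finset.mem_univ j)
  refine (Finset.card_le_card hsub).trans ?_
  rw [Fintype.card_piFinset_const]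
  refine Nat.pow_le_pow_left ?_ m
  exact (Finset.card_image_le).trans (by simp)

/-- the constant `∑_{j ∈ ℤ} 1/(1+(j/D)²)` is finite -/
theorem summable_D (D : ℝ) (hD : 0 < D) :
    Summable (fun j : ℤ => 1 / (1 + ((j : ℝ) / D) ^ 2)) := by
  have h1 : Summable (fun j : ℤ => D ^ 2 * (1 / (j : ℝ) ^ 2)) :=
    (Real.summable_one_div_int_pow.2 one_lt_two).mul_left _
  have h2 : Summable (fun j : ℤ => if j = 0 then (1 : ℝ) else 0) := by
    refine summable_of_ne_finset_zero (s := {0}) ?_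
    intro b hb
    rw [if_neg (by simpa using hb)]
  refine Summable.of_nonneg_of_le (fun j => by positivity) (fun j => ?_) (h1.add h2)
  by_cases hj : j = 0
  · subst hj; simp
  · have hj' : (j : ℝ) ≠ 0 := by exact_mod_cast hj
    rw [if_neg hj, add_zero]
    rw [div_pow, mul_one_div]
    have h3 : 0 < (j : ℝ) ^ 2 / D ^ 2 := by positivity
    calc 1 / (1 + (j : ℝ) ^ 2 / D ^ 2) ≤ 1 / ((j : ℝ) ^ 2 / D ^ 2) :=
          one_div_le_one_div_of_le h3 (by linarith)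
      _ = D ^ 2 / (j : ℝ) ^ 2 := by rw [one_div_div]

/-- the constant -/
noncomputable def cD (D : ℝ) : ℝ := ∑' j : ℤ, 1 / (1 + ((j : ℝ) / D) ^ 2)

theorem cD_nonneg (D : ℝ) : 0 ≤ cD D := tsum_nonneg fun j => by positivity

theorem log_sub_le {M n n' : ℕ} (hn : 1 ≤ n) (hnM : n ≤ M) (hn' : 1 ≤ n') (hnM' : n' ≤ M) :
    |(n : ℝ) - n'| / M ≤ |Real.log n - Real.log n'| := by
  wlog h : n' ≤ n with H
  · have := H hn' hnM' hn hnM (by omega)
    rwa [abs_sub_comm, abs_sub_comm (Real.log n)]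
  have h1 : (0 : ℝ) < n := by exact_mod_cast hn
  have h2 : (0 : ℝ) < n' := by exact_mod_cast hn'
  have h3 : (n' : ℝ) ≤ n := by exact_mod_cast h
  have h4 : (n : ℝ) ≤ M := by exact_mod_cast hnM
  have h5 : (0 : ℝ) < M := by linarith
  rw [abs_of_nonneg (by linarith), abs_of_nonneg (by linarith [Real.log_le_log h2 h3])]
  have h6 : Real.log (n' / n) ≤ (n' : ℝ) / n - 1 := Real.log_le_sub_one_of_pos (by positivity)
  rw [Real.log_div h2.ne' h1.ne'] at h6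
  have h7 : ((n : ℝ) - n') / M ≤ (n - n') / n :=
    div_le_div_of_nonneg_left (by linarith) h1 h4
  have h8 : ((n : ℝ) - n') / n = 1 - n' / n := by field_simp
  linarith

theorem sum_gauss_le {M : ℕ} {K D : ℝ} (hK : 0 < K) (hD : 0 < D) (hM : (M : ℝ) ≤ D * K) {n : ℕ}
    (hn : 1 ≤ n) (hnM : n ≤ M) :
    ∑ n' ∈ Finset.Icc 1 M, Real.exp (-(K ^ 2 * (Real.log n - Real.log n') ^ 2)) ≤ cD D := by
  classical
  have h1 : ∀ n' ∈ Finset.Icc 1 M, Real.exp (-(K ^ 2 * (Real.log n - Real.log n') ^ 2)) ≤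
      1 / (1 + ((((n : ℤ) - n' : ℤ) : ℝ) / D) ^ 2) := by
    intro n' hn'
    rw [Finset.mem_Icc] at hn'
    have h2 := log_sub_le hn hnM hn'.1 hn'.2
    have hM0 : (0 : ℝ) < M := by
      have : 1 ≤ M := hn.trans hnM
      exact_mod_cast this
    have h3 : |((((n : ℤ) - n' : ℤ) : ℝ) / D)| ≤ |K * (Real.log n - Real.log n')| := by
      rw [abs_mul, abs_of_pos hK, abs_div, abs_of_pos hD]
      push_cast
      have h4 : |(n : ℝ) - n'| / D ≤ K * (|(n : ℝ) - n'| / M) := by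
        rw [div_le_iff₀ hD]
        have h5 : 0 ≤ |(n : ℝ) - n'| := abs_nonneg _
        calc |(n : ℝ) - n'| = |(n : ℝ) - n'| / M * M := by field_simp
          _ ≤ |(n : ℝ) - n'| / M * (D * K) := by
              apply mul_le_mul_of_nonneg_left hM; positivity
          _ = _ := by ring
      exact h4.trans (mul_le_mul_of_nonneg_left h2 hK.le)
    have h6 := sq_le_sq.2 h3
    rw [mul_pow] at h6
    rw [Real.exp_neg, ← one_div]
    apply one_div_le_one_div_of_le (by positivity)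
    have h7 := Real.add_one_le_exp (K ^ 2 * (Real.log n - Real.log n') ^ 2)
    linarith
  refine (Finset.sum_le_sum h1).trans ?_
  have hinj : Set.InjOn (fun n' : ℕ => (n : ℤ) - n') (Finset.Icc 1 M : Finset ℕ) := by
    intro a _ b _ hab
    simp only at hab
    omega
  rw [← Finset.sum_image (f := fun j : ℤ => 1 / (1 + ((j : ℝ) / D) ^ 2)) hinj]
  exact (summable_D D hD).sum_le_tsum _ (fun j _ => by positivity)

/-- the Gaussian integral -/
theorem gauss_int (K : ℝ) (hK : 0 < K) (t : ℝ) :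
    ∫ κ : ℝ, (Real.exp (-(κ / K) ^ 2) : ℂ) * Complex.exp (Complex.I * ((2 * κ * t : ℝ) : ℂ)) =
      ((K * √Real.pi * Real.exp (-(K ^ 2 * t ^ 2)) : ℝ) : ℂ) := by
  have hb : 0 < ((1 / K ^ 2 : ℝ) : ℂ).re := by
    rw [Complex.ofReal_re]; positivity
  have h := fourierIntegral_gaussian hb (2 * t)
  have h1 : (fun κ : ℝ => (Real.exp (-(κ / K) ^ 2) : ℂ) *
      Complex.exp (Complex.I * ((2 * κ * t : ℝ) : ℂ))) = (fun x : ℝ =>
      Complex.exp (Complex.I * (2 * t) * x) * Complex.exp (-((1 / K ^ 2 : ℝ) : ℂ) * x ^ 2)) := by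
    funext x
    rw [mul_comm, Complex.ofReal_exp]
    congr 2
    · push_cast; ring
    · push_cast; field_simp
  rw [h1, h]
  have h2 : ((Real.pi : ℂ) / ((1 / K ^ 2 : ℝ) : ℂ)) ^ (1 / 2 : ℂ) = ((K * √Real.pi : ℝ) : ℂ) := by
    have h3 : ((Real.pi : ℂ) / ((1 / K ^ 2 : ℝ) : ℂ)) = ((Real.pi * K ^ 2 : ℝ) : ℂ) := by
      have : (K : ℂ) ≠ 0 := by exact_mod_cast hK.ne'
      push_cast; field_simp
    have h4 : (1 / 2 : ℂ) = ((1 / 2 : ℝ) : ℂ) := by push_cast; rfl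
    rw [h3, h4, ← Complex.ofReal_cpow (by positivity), ← Real.sqrt_eq_rpow,
      Real.sqrt_mul Real.pi_pos.le, Real.sqrt_sq hK.le, mul_comm]
  rw [h2]
  push_cast
  congr 2
  have : (K : ℂ) ≠ 0 := by exact_mod_cast hK.ne'
  field_simp
  ring

theorem gauss_integrable (K : ℝ) (hK : 0 < K) (t : ℝ) :
    Integrable (fun κ : ℝ => (Real.exp (-(κ / K) ^ 2) : ℂ) *
      Complex.exp (Complex.I * ((2 * κ * t : ℝ) : ℂ))) := by
  have hb : 0 < ((1 / K ^ 2 : ℝ) : ℂ).re := by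
    rw [Complex.ofReal_re]; positivity
  have h := integrable_cexp_quadratic hb (Complex.I * (2 * t)) 0
  refine h.congr (Filter.Eventually.of_forall fun x => ?_)
  simp only
  rw [Complex.ofReal_exp, ← Complex.exp_add]
  congr 1
  have : (K : ℂ) ≠ 0 := by exact_mod_cast hK.ne'
  push_cast; field_simp; ring

/-- the expansion of `|S|^{2m}` -/
theorem pS_pow (Q : Finset ℕ) (hQ : ∀ p ∈ Q, 0 < p) (m : ℕ) (κ : ℝ) :
    ((‖pS Q κ‖ ^ (2 * m) : ℝ) : ℂ) =
      ∑ f ∈ Fintype.piFinset (fun _ : Fin m => Q), ∑ g ∈ Fintype.piFinset (fun _ : Fin m => Q),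
        Complex.exp (Complex.I * ((2 * κ * (Real.log ((∏ i, f i : ℕ) : ℝ) -
          Real.log ((∏ i, g i : ℕ) : ℝ)) : ℝ) : ℂ)) := by
  have h1 : ∀ f ∈ Fintype.piFinset (fun _ : Fin m => Q),
      (∏ i, Complex.exp (Complex.I * ((2 * κ * Real.log (f i) : ℝ) : ℂ))) =
      Complex.exp (Complex.I * ((2 * κ * Real.log ((∏ i, f i : ℕ) : ℝ) : ℝ) : ℂ)) := by
    intro f hf
    rw [Fintype.mem_piFinset] at hf
    rw [← Complex.exp_sum]
    congr 1
    rw [Nat.cast_prod, Real.log_prod (fun i _ => by exact_mod_cast (hQ _ (hf i)).ne')]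
    push_cast
    rw [Finset.mul_sum, Finset.mul_sum]
  have h2 : pS Q κ ^ m = ∑ f ∈ Fintype.piFinset (fun _ : Fin m => Q),
      Complex.exp (Complex.I * ((2 * κ * Real.log ((∏ i, f i : ℕ) : ℝ) : ℝ) : ℂ)) := by
    rw [pS, Finset.sum_pow']
    exact Finset.sum_congr rfl h1
  have h3 : ((‖pS Q κ‖ ^ (2 * m) : ℝ) : ℂ) = (pS Q κ ^ m) * conj (pS Q κ ^ m) := by
    rw [Complex.mul_conj, Complex.normSq_eq_norm_sq, norm_pow, ← pow_mul, mul_comm m 2]
  rw [h3, h2, map_sum, Finset.sum_mul_sum]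
  refine Finset.sum_congr rfl fun f _ => Finset.sum_congr rfl fun g _ => ?_
  rw [← Complex.exp_conj, ← Complex.exp_add]
  congr 1
  rw [map_mul, Complex.conj_I, Complex.conj_ofReal]
  push_cast
  ring

/-- the Gaussian mean of `|S|^{2m}` -/
theorem moment (Q : Finset ℕ) (hQ : ∀ p ∈ Q, p.Prime) (R m : ℕ) (hR : ∀ p ∈ Q, p ≤ R) {K D : ℝ}
    (hK : 0 < K) (hD : 0 < D) (hM : ((R ^ m : ℕ) : ℝ) ≤ D * K) :
    Integrable (fun κ : ℝ => Real.exp (-(κ / K) ^ 2) * ‖pS Q κ‖ ^ (2 * m)) ∧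
    ∫ κ : ℝ, Real.exp (-(κ / K) ^ 2) * ‖pS Q κ‖ ^ (2 * m) ≤
      K * √Real.pi * (m ^ m * cD D) * (#Q : ℝ) ^ m := by
  classical
  set T := Fintype.piFinset (fun _ : Fin m => Q) with hT
  have hQ0 : ∀ p ∈ Q, 0 < p := fun p hp => (hQ p hp).pos
  have h1 : (fun κ : ℝ => ((Real.exp (-(κ / K) ^ 2) * ‖pS Q κ‖ ^ (2 * m) : ℝ) : ℂ)) =
      fun κ : ℝ => ∑ f ∈ T, ∑ g ∈ T, (Real.exp (-(κ / K) ^ 2) : ℂ) *
        Complex.exp (Complex.I * ((2 * κ * (Real.log ((∏ i, f i : ℕ) : ℝ) -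
          Real.log ((∏ i, g i : ℕ) : ℝ)) : ℝ) : ℂ)) := by
    funext κ
    rw [Complex.ofReal_mul, pS_pow Q hQ0 m κ, Finset.mul_sum]
    refine Finset.sum_congr rfl fun f _ => ?_
    rw [Finset.mul_sum]
  have hint : ∀ f ∈ T, Integrable (fun κ : ℝ => ∑ g ∈ T, (Real.exp (-(κ / K) ^ 2) : ℂ) *
        Complex.exp (Complex.I * ((2 * κ * (Real.log ((∏ i, f i : ℕ) : ℝ) -
          Real.log ((∏ i, g i : ℕ) : ℝ)) : ℝ) : ℂ))) := fun f _ =>
    integrable_finsetSum _ fun g _ => gauss_integrable K hK _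
  have hI : Integrable (fun κ : ℝ => ((Real.exp (-(κ / K) ^ 2) * ‖pS Q κ‖ ^ (2 * m) : ℝ) : ℂ)) := by
    rw [h1]
    exact integrable_finsetSum _ hint
  have hIr : Integrable (fun κ : ℝ => Real.exp (-(κ / K) ^ 2) * ‖pS Q κ‖ ^ (2 * m)) := by
    refine hI.re.congr (Filter.Eventually.of_forall fun κ => ?_)
    exact Complex.ofReal_re _
  refine ⟨hIr, ?_⟩
  have h2 : ((∫ κ : ℝ, Real.exp (-(κ / K) ^ 2) * ‖pS Q κ‖ ^ (2 * m) : ℝ) : ℂ) =
      ((∑ f ∈ T, ∑ g ∈ T, K * √Real.pi * Real.exp (-(K ^ 2 * (Real.log ((∏ i, f i : ℕ) : ℝ) -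
          Real.log ((∏ i, g i : ℕ) : ℝ)) ^ 2)) : ℝ) : ℂ) := by
    rw [← integral_complex_ofReal, h1, integral_finsetSum _ hint]
    rw [Complex.ofReal_sum]
    refine Finset.sum_congr rfl fun f _ => ?_
    rw [integral_finsetSum _ (fun g _ => gauss_integrable K hK _), Complex.ofReal_sum]
    exact Finset.sum_congr rfl fun g _ => gauss_int K hK _
  have h3 := Complex.ofReal_injective h2
  rw [h3]
  have hmem : ∀ f ∈ T, 1 ≤ ∏ i, f i ∧ ∏ i, f i ≤ R ^ m := by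
    intro f hf
    rw [hT, Fintype.mem_piFinset] at hf
    constructor
    · exact Finset.one_le_prod' fun i _ => hQ0 _ (hf i)
    · calc ∏ i, f i ≤ ∏ _i : Fin m, R := Finset.prod_le_prod' fun i _ => hR _ (hf i)
        _ = R ^ m := by simp
  have h4 : ∀ f ∈ T, ∑ g ∈ T, K * √Real.pi * Real.exp (-(K ^ 2 * (Real.log ((∏ i, f i : ℕ) : ℝ) -
          Real.log ((∏ i, g i : ℕ) : ℝ)) ^ 2)) ≤ K * √Real.pi * (m ^ m * cD D) := by
    intro f hf
    rw [← Finset.mul_sum]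
    apply mul_le_mul_of_nonneg_left _ (by positivity)
    have h5 : ∀ g ∈ T, ∏ i, g i ∈ Finset.Icc 1 (R ^ m) := fun g hg => by
      rw [Finset.mem_Icc]; exact hmem g hg
    rw [← Finset.sum_fiberwise_of_maps_to h5]
    calc ∑ n ∈ Finset.Icc 1 (R ^ m), ∑ g ∈ T with ∏ i, g i = n,
          Real.exp (-(K ^ 2 * (Real.log ((∏ i, f i : ℕ) : ℝ) -
          Real.log ((∏ i, g i : ℕ) : ℝ)) ^ 2))
        ≤ ∑ n ∈ Finset.Icc 1 (R ^ m), (m ^ m : ℝ) *
          Real.exp (-(K ^ 2 * (Real.log ((∏ i, f i : ℕ) : ℝ) - Real.log (n : ℝ)) ^ 2)) := by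
          refine Finset.sum_le_sum fun n _ => ?_
          have h6 : ∀ g ∈ ({g ∈ T | ∏ i, g i = n} : Finset (Fin m → ℕ)),
              Real.exp (-(K ^ 2 * (Real.log ((∏ i, f i : ℕ) : ℝ) -
              Real.log ((∏ i, g i : ℕ) : ℝ)) ^ 2)) =
              Real.exp (-(K ^ 2 * (Real.log ((∏ i, f i : ℕ) : ℝ) - Real.log (n : ℝ)) ^ 2)) := by
            intro g hg
            rw [Finset.mem_filter] at hg
            rw [hg.2]
          rw [Finset.sum_congr rfl h6, Finset.sum_const, nsmul_eq_mul]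
          apply mul_le_mul_of_nonneg_right _ (Real.exp_pos _).le
          have h7 := card_fib Q hQ m n
          exact_mod_cast h7
      _ = m ^ m * ∑ n ∈ Finset.Icc 1 (R ^ m),
          Real.exp (-(K ^ 2 * (Real.log ((∏ i, f i : ℕ) : ℝ) - Real.log (n : ℝ)) ^ 2)) := by
          rw [Finset.mul_sum]
      _ ≤ m ^ m * cD D := by
          apply mul_le_mul_of_nonneg_left _ (by positivity)
          exact sum_gauss_le hK hD hM (hmem f hf).1 (hmem f hf).2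
  refine (Finset.sum_le_sum h4).trans ?_
  rw [Finset.sum_const, nsmul_eq_mul, hT, Fintype.card_piFinset_const]
  push_cast
  linarith

/-- the measure of the exceptional set -/
theorem exc_measure (Q : Finset ℕ) (hQ : ∀ p ∈ Q, p.Prime) (R m : ℕ) (hR : ∀ p ∈ Q, p ≤ R)
    {K D s : ℝ} (hK : 0 < K) (hD : 0 < D) (hM : ((R ^ m : ℕ) : ℝ) ≤ D * K) (hs : 0 < s) :
    volume {κ : ℝ | |κ| ≤ 2 * K ∧ s ≤ ‖pS Q κ‖} ≤
      ENNReal.ofReal (Real.exp 4 * (K * √Real.pi * (m ^ m * cD D) * (#Q : ℝ) ^ m) /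
        s ^ (2 * m)) := by
  obtain ⟨h1, h2⟩ := moment Q hQ R m hR hK hD hM
  set F : ℝ → ℝ := fun κ => Real.exp (-(κ / K) ^ 2) * ‖pS Q κ‖ ^ (2 * m) with hF
  have h3 : {κ : ℝ | |κ| ≤ 2 * K ∧ s ≤ ‖pS Q κ‖} ⊆ {κ : ℝ | Real.exp (-4) * s ^ (2 * m) ≤ F κ} := by
    intro κ hκ
    obtain ⟨ha, hb⟩ := hκ
    have h4 : (κ / K) ^ 2 ≤ 4 := by
      rw [div_pow, div_le_iff₀ (by positivity)]
      have := sq_le_sq' (by linarith [abs_le.1 ha]) (abs_le.1 ha).2
      nlinarith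
    change Real.exp (-4) * s ^ (2 * m) ≤ Real.exp (-(κ / K) ^ 2) * ‖pS Q κ‖ ^ (2 * m)
    apply mul_le_mul (Real.exp_le_exp.2 (by linarith)) (pow_le_pow_left₀ hs.le hb _)
      (by positivity) (Real.exp_pos _).le
  have hc : 0 < Real.exp (-4) * s ^ (2 * m) := by positivity
  have h5 : ENNReal.ofReal (Real.exp (-4) * s ^ (2 * m)) *
      volume {κ : ℝ | Real.exp (-4) * s ^ (2 * m) ≤ F κ} ≤ ENNReal.ofReal (∫ κ, F κ) := by
    have h6 := mul_meas_ge_le_lintegral₀ (μ := volume) (f := fun κ => ENNReal.ofReal (F κ))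
      (h1.1.aemeasurable.ennreal_ofReal) (ENNReal.ofReal (Real.exp (-4) * s ^ (2 * m)))
    rw [← ofReal_integral_eq_lintegral_ofReal h1 (Filter.Eventually.of_forall fun κ => by
      simp only [hF]; positivity)] at h6
    refine le_trans ?_ h6
    gcongr
    intro hh
    exact ENNReal.ofReal_le_ofReal hh
  have h7 : volume {κ : ℝ | Real.exp (-4) * s ^ (2 * m) ≤ F κ} ≤
      ENNReal.ofReal (∫ κ, F κ) / ENNReal.ofReal (Real.exp (-4) * s ^ (2 * m)) := by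
    rw [ENNReal.le_div_iff_mul_le (Or.inl (by simpa using hc)) (Or.inl ENNReal.ofReal_ne_top),
      mul_comm]
    exact h5
  refine (measure_mono h3).trans (h7.trans ?_)
  rw [← ENNReal.ofReal_div_of_pos hc]
  apply ENNReal.ofReal_le_ofReal
  rw [div_le_div_iff₀ hc (by positivity)]
  have h8 : Real.exp 4 * Real.exp (-4) = 1 := by rw [← Real.exp_add]; simp
  calc (∫ κ, F κ) * s ^ (2 * m)
      ≤ (K * √Real.pi * (m ^ m * cD D) * (#Q : ℝ) ^ m) * s ^ (2 * m) :=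
        mul_le_mul_of_nonneg_right h2 (by positivity)
    _ = (Real.exp 4 * Real.exp (-4)) * ((K * √Real.pi * (m ^ m * cD D) * (#Q : ℝ) ^ m) *
        s ^ (2 * m)) := by rw [h8, one_mul]
    _ = _ := by ring

end Pool.Agent.JOL
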