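import Mathlib
import Pool.Agent.Lib_helper87.JO.B1

/-!
# Jutila's question (MP_f4574f_nt), part B: the amplifier is invertible off the exceptional set
-/

namespace Pool.Agent.JOL

open MeasureTheory Finset
open scoped ComplexConjugate

/-- the amplified function -/
noncomputable def AP {N : ℕ} (PP : Finset ℕ) (a : ZMod N × ZMod N → ℝ → ℂ)
    (v : ZMod N × ZMod N) (κ : ℝ) : ℂ :=
  ∑ p ∈ PP, ((p : ℂ) ^ (2 * Complex.I * κ) * a ((p : ZMod N)⁻¹ * v.1, (p : ZMod N)⁻¹ * v.2) κ +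
    a v κ + (p : ℂ) ^ (-(2 * Complex.I * κ)) * a ((p : ZMod N) * v.1, (p : ZMod N) * v.2) κ)

/-- the class of a prime -/
noncomputable def cls (N p : ℕ) : (ZMod N)ˣ :=
  if h : p.Coprime N then ZMod.unitOfCoprime p h else 1

theorem cls_coe {N p : ℕ} (h : p.Coprime N) : ((cls N p : (ZMod N)ˣ) : ZMod N) = p := by
  rw [cls, dif_pos h, ZMod.coe_unitOfCoprime]

/-- the primes of one class -/
noncomputable def QQ (N : ℕ) (PP : Finset ℕ) (r : (ZMod N)ˣ) : Finset ℕ := by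
  classical
  exact {p ∈ PP | cls N p = r}

/-- the exceptional set -/
noncomputable def Exc (N : ℕ) [NeZero N] (PP : Finset ℕ) (K : ℝ) : Set ℝ :=
  ⋃ r : (ZMod N)ˣ, {κ : ℝ | |κ| ≤ 2 * K ∧
    (#PP : ℝ) / (4 * Fintype.card (ZMod N)ˣ) ≤ ‖pS (QQ N PP r) κ‖}

/-- the vector of a function of rows -/
noncomputable def vecA {N : ℕ} (V : Finset (ZMod N × ZMod N)) (a : ZMod N × ZMod N → ℂ)
    (u : ZMod N) : EuclideanSpace ℂ V :=
  WithLp.toLp 2 (fun v : V => a (u * v.1.1, u * v.1.2))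

theorem norm_vecA {N : ℕ} (V : Finset (ZMod N × ZMod N))
    (hV : ∀ u : (ZMod N)ˣ, ∀ v ∈ V, ((u : ZMod N) * v.1, (u : ZMod N) * v.2) ∈ V)
    (a : ZMod N × ZMod N → ℂ) (u : (ZMod N)ˣ) :
    ‖vecA V a (u : ZMod N)‖ = √(∑ v ∈ V, ‖a v‖ ^ 2) := by
  rw [EuclideanSpace.norm_eq]
  congr 1
  have e : ∑ v : V, ‖(vecA V a (u : ZMod N)) v‖ ^ 2 =
      ∑ v ∈ V, ‖a ((u : ZMod N) * v.1, (u : ZMod N) * v.2)‖ ^ 2 := by
    rw [← Finset.sum_coe_sort V]
    rfl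
  rw [e]
  refine Finset.sum_nbij' (fun v => ((u : ZMod N) * v.1, (u : ZMod N) * v.2))
    (fun v => (((u⁻¹ : (ZMod N)ˣ) : ZMod N) * v.1, ((u⁻¹ : (ZMod N)ˣ) : ZMod N) * v.2))
    (fun v hv => hV u v hv) (fun v hv => hV u⁻¹ v hv) ?_ ?_ (fun _ _ => rfl)
  · rintro ⟨x, y⟩ _
    simp only [← mul_assoc, ← Units.val_mul, inv_mul_cancel, Units.val_one, one_mul]
  · rintro ⟨x, y⟩ _
    simp only [← mul_assoc, ← Units.val_mul, mul_inv_cancel, Units.val_one, one_mul]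

/-- the amplified vector -/
theorem vecA_AP {N : ℕ} [NeZero N] (V : Finset (ZMod N × ZMod N)) (PP : Finset ℕ)
    (hPP : ∀ p ∈ PP, p.Prime ∧ ¬ p ∣ N) (a : ZMod N × ZMod N → ℝ → ℂ) (κ : ℝ) :
    vecA V (fun v => AP PP a v κ) 1 = (#PP : ℂ) • vecA V (fun v => a v κ) 1 +
      ∑ r : (ZMod N)ˣ, (pS (QQ N PP r) κ • vecA V (fun v => a v κ) ((r⁻¹ : (ZMod N)ˣ) : ZMod N) +
        conj (pS (QQ N PP r) κ) • vecA V (fun v => a v κ) (r : ZMod N)) := by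
  classical
  have hc : ∀ p ∈ PP, p.Coprime N := fun p hp =>
    (Nat.Prime.coprime_iff_not_dvd (hPP p hp).1).2 (hPP p hp).2
  ext v
  simp only [vecA, PiLp.add_apply, PiLp.smul_apply, WithLp.ofLp_sum, Finset.sum_apply,
    smul_eq_mul, one_mul]
  rw [AP]
  have h1 : ∀ p ∈ PP, ((p : ℂ) ^ (2 * Complex.I * κ) *
        a ((p : ZMod N)⁻¹ * v.1.1, (p : ZMod N)⁻¹ * v.1.2) κ +
      a v.1 κ + (p : ℂ) ^ (-(2 * Complex.I * κ)) * a ((p : ZMod N) * v.1.1,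
        (p : ZMod N) * v.1.2) κ) = a v.1 κ +
      (Complex.exp (Complex.I * ((2 * κ * Real.log p : ℝ) : ℂ)) *
        a ((((cls N p)⁻¹ : (ZMod N)ˣ) : ZMod N) * v.1.1,
          (((cls N p)⁻¹ : (ZMod N)ˣ) : ZMod N) * v.1.2) κ +
      conj (Complex.exp (Complex.I * ((2 * κ * Real.log p : ℝ) : ℂ))) *
        a (((cls N p : (ZMod N)ˣ) : ZMod N) * v.1.1,
          ((cls N p : (ZMod N)ˣ) : ZMod N) * v.1.2) κ) := by
    intro p hp
    have h2 : (p : ℂ) ≠ 0 := by exact_mod_cast (hPP p hp).1.ne_zero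
    have h3 : (p : ℂ) ^ (2 * Complex.I * κ) =
        Complex.exp (Complex.I * ((2 * κ * Real.log p : ℝ) : ℂ)) := by
      rw [Complex.cpow_def_of_ne_zero h2, ← Complex.natCast_log]
      congr 1
      push_cast
      ring
    have h4 : (p : ℂ) ^ (-(2 * Complex.I * κ)) =
        conj (Complex.exp (Complex.I * ((2 * κ * Real.log p : ℝ) : ℂ))) := by
      rw [Complex.cpow_def_of_ne_zero h2, ← Complex.natCast_log, ← Complex.exp_conj]
      congr 1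
      rw [map_mul, Complex.conj_I, Complex.conj_ofReal]
      push_cast
      ring
    rw [← ZMod.inv_coe_unit, cls_coe (hc p hp), h3, h4]
    ring
  rw [Finset.sum_congr rfl h1, Finset.sum_add_distrib, Finset.sum_const, nsmul_eq_mul]
  congr 1
  rw [← Finset.sum_fiberwise PP (cls N)]
  refine Finset.sum_congr rfl fun r _ => ?_
  rw [pS, map_sum, Finset.sum_mul, Finset.sum_mul, ← Finset.sum_add_distrib]
  refine Finset.sum_congr ?_ fun p hp => ?_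
  · rw [QQ]
  · rw [QQ, Finset.mem_filter] at hp
    rw [hp.2]

theorem card_QQ (N : ℕ) (PP : Finset ℕ) (r : (ZMod N)ˣ) : #(QQ N PP r) ≤ #PP := by
  classical
  rw [QQ]
  exact Finset.card_filter_le _ _

/-- off the exceptional set the amplifier is bounded below -/
theorem AP_lower {N : ℕ} [NeZero N] (V : Finset (ZMod N × ZMod N))
    (hV : ∀ u : (ZMod N)ˣ, ∀ v ∈ V, ((u : ZMod N) * v.1, (u : ZMod N) * v.2) ∈ V)
    (PP : Finset ℕ) (hPP : ∀ p ∈ PP, p.Prime ∧ ¬ p ∣ N) (a : ZMod N × ZMod N → ℝ → ℂ)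
    {K κ : ℝ} (hκ : |κ| ≤ 2 * K) (hE : κ ∉ Exc N PP K) :
    (#PP : ℝ) ^ 2 / 4 * ∑ v ∈ V, ‖a v κ‖ ^ 2 ≤ ∑ v ∈ V, ‖AP PP a v κ‖ ^ 2 := by
  classical
  set φ : ℝ := ((Fintype.card (ZMod N)ˣ : ℕ) : ℝ) with hφ
  have hφ0 : 0 < φ := by
    rw [hφ]; exact_mod_cast Fintype.card_pos
  have hS : ∀ r : (ZMod N)ˣ, ‖pS (QQ N PP r) κ‖ ≤ (#PP : ℝ) / (4 * φ) := by
    intro r
    by_contra hcon
    rw [not_le] at hcon
    exact hE (Set.mem_iUnion.2 ⟨r, hκ, hcon.le⟩)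
  set x := √(∑ v ∈ V, ‖a v κ‖ ^ 2) with hx
  have hx0 : 0 ≤ x := Real.sqrt_nonneg _
  have hn : ∀ u : (ZMod N)ˣ, ‖vecA V (fun v => a v κ) (u : ZMod N)‖ = x := fun u =>
    norm_vecA V hV _ u
  have hn1 : ‖vecA V (fun v => a v κ) (1 : ZMod N)‖ = x := by
    have := hn 1
    rwa [Units.val_one] at this
  have hy : ‖vecA V (fun v => AP PP a v κ) 1‖ = √(∑ v ∈ V, ‖AP PP a v κ‖ ^ 2) := by
    have := norm_vecA V hV (fun v => AP PP a v κ) 1
    rwa [Units.val_one] at this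
  have hle : (#PP : ℝ) / 2 * x ≤ √(∑ v ∈ V, ‖AP PP a v κ‖ ^ 2) := by
    rw [← hy, vecA_AP V PP hPP a κ]
    set y := ∑ r : (ZMod N)ˣ, (pS (QQ N PP r) κ •
      vecA V (fun v => a v κ) ((r⁻¹ : (ZMod N)ˣ) : ZMod N) +
        conj (pS (QQ N PP r) κ) • vecA V (fun v => a v κ) (r : ZMod N)) with hyd
    have h1 : ‖y‖ ≤ (#PP : ℝ) / 2 * x := by
      rw [hyd]
      refine (norm_sum_le _ _).trans ?_
      calc ∑ r : (ZMod N)ˣ, ‖pS (QQ N PP r) κ •
            vecA V (fun v => a v κ) ((r⁻¹ : (ZMod N)ˣ) : ZMod N) +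
            conj (pS (QQ N PP r) κ) • vecA V (fun v => a v κ) (r : ZMod N)‖
          ≤ ∑ _r : (ZMod N)ˣ, 2 * ((#PP : ℝ) / (4 * φ) * x) := by
            refine Finset.sum_le_sum fun r _ => ?_
            refine (norm_add_le _ _).trans ?_
            rw [norm_smul, norm_smul, hn, hn, RCLike.norm_conj]
            have := mul_le_mul_of_nonneg_right (hS r) hx0
            linarith
        _ = (#PP : ℝ) / 2 * x := by
            rw [Finset.sum_const, nsmul_eq_mul, Finset.card_univ, ← hφ]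
            field_simp
            ring
    have h2 : ‖(#PP : ℂ) • vecA V (fun v => a v κ) 1‖ = #PP * x := by
      rw [norm_smul, hn1]
      simp
    have h3 := norm_sub_norm_le ((#PP : ℂ) • vecA V (fun v => a v κ) 1) (-y)
    rw [sub_neg_eq_add, norm_neg, h2] at h3
    linarith
  have h4 : ((#PP : ℝ) / 2 * x) ^ 2 ≤ (√(∑ v ∈ V, ‖AP PP a v κ‖ ^ 2)) ^ 2 :=
    pow_le_pow_left₀ (by positivity) hle 2
  rw [Real.sq_sqrt (Finset.sum_nonneg fun _ _ => by positivity), mul_pow, hx,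
    Real.sq_sqrt (Finset.sum_nonneg fun _ _ => by positivity)] at h4
  calc (#PP : ℝ) ^ 2 / 4 * ∑ v ∈ V, ‖a v κ‖ ^ 2
      = ((#PP : ℝ) / 2) ^ 2 * ∑ v ∈ V, ‖a v κ‖ ^ 2 := by ring
    _ ≤ _ := h4

/-- the constant in the measure bound -/
noncomputable def cE (N : ℕ) [NeZero N] (m : ℕ) (D : ℝ) : ℝ :=
  (Fintype.card (ZMod N)ˣ) * (Real.exp 4 * √Real.pi * (m ^ m * cD D) *
    (4 * Fintype.card (ZMod N)ˣ) ^ (2 * m))

theorem cE_nonneg (N : ℕ) [NeZero N] (m : ℕ) (D : ℝ) : 0 ≤ cE N m D := by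
  unfold cE
  have := cD_nonneg D
  positivity

/-- the measure of the exceptional set -/
theorem vol_Exc (N : ℕ) [NeZero N] (PP : Finset ℕ) (hPP : ∀ p ∈ PP, p.Prime) (hne : 0 < #PP)
    (R m : ℕ) (hR : ∀ p ∈ PP, p ≤ R) {K D : ℝ} (hK : 0 < K) (hD : 0 < D)
    (hM : ((R ^ m : ℕ) : ℝ) ≤ D * K) :
    volume (Exc N PP K) ≤ ENNReal.ofReal (cE N m D * K / (#PP : ℝ) ^ m) := by
  classical
  set φ : ℝ := ((Fintype.card (ZMod N)ˣ : ℕ) : ℝ) with hφ
  have hφ0 : 0 < φ := by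
    rw [hφ]; exact_mod_cast Fintype.card_pos
  have hP0 : (0 : ℝ) < #PP := by exact_mod_cast hne
  have hcd := cD_nonneg D
  have h1 : ∀ r : (ZMod N)ˣ, volume {κ : ℝ | |κ| ≤ 2 * K ∧
      (#PP : ℝ) / (4 * φ) ≤ ‖pS (QQ N PP r) κ‖} ≤
      ENNReal.ofReal (Real.exp 4 * √Real.pi * (m ^ m * cD D) * (4 * φ) ^ (2 * m) * K /
        (#PP : ℝ) ^ m) := by
    intro r
    have hsub : ∀ p ∈ QQ N PP r, p ∈ PP := by
      intro p hp
      rw [QQ, Finset.mem_filter] at hp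
      exact hp.1
    refine (exc_measure (QQ N PP r) (fun p hp => hPP p (hsub p hp)) R m
      (fun p hp => hR p (hsub p hp)) hK hD hM (by positivity)).trans ?_
    apply ENNReal.ofReal_le_ofReal
    have h2 : (#(QQ N PP r) : ℝ) ^ m ≤ (#PP : ℝ) ^ m := by
      apply pow_le_pow_left₀ (Nat.cast_nonneg _)
      exact_mod_cast card_QQ N PP r
    have h3 : ((#PP : ℝ) / (4 * φ)) ^ (2 * m) = ((#PP : ℝ) ^ m * (#PP : ℝ) ^ m) /
        (4 * φ) ^ (2 * m) := by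
      rw [div_pow]
      congr 1
      rw [two_mul, pow_add]
    rw [h3, div_div_eq_mul_div, div_le_div_iff₀ (by positivity) (by positivity)]
    have h4 : 0 ≤ Real.exp 4 * K * √Real.pi * (m ^ m * cD D) * (4 * φ) ^ (2 * m) *
        (#PP : ℝ) ^ m := by positivity
    have h5 := mul_le_mul_of_nonneg_left h2 h4
    calc _ = Real.exp 4 * K * √Real.pi * (m ^ m * cD D) * (4 * φ) ^ (2 * m) *
        (#PP : ℝ) ^ m * (#(QQ N PP r) : ℝ) ^ m := by ring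
      _ ≤ _ := h5
      _ = _ := by ring
  rw [Exc]
  refine (measure_iUnion_le _).trans ?_
  rw [tsum_fintype]
  refine (Finset.sum_le_sum fun r _ => h1 r).trans ?_
  rw [Finset.sum_const, nsmul_eq_mul, Finset.card_univ]
  have h6 : ((Fintype.card (ZMod N)ˣ : ℕ) : ENNReal) = ENNReal.ofReal φ := by
    rw [hφ, ENNReal.ofReal_natCast]
  rw [h6, ← ENNReal.ofReal_mul hφ0.le]
  apply ENNReal.ofReal_le_ofReal
  rw [cE, ← hφ]
  apply le_of_eq
  ring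

end Pool.Agent.JOL
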