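import Mathlib
import Pool.Agent.Lib_helper87.JO.B2
import Pool.Agent.Lib_helper87.JO.B3

/-!
# Jutila's question (MP_f4574f_nt), part B: the bound on a dyadic block
-/

namespace Pool.Agent.JOL

open MeasureTheory Finset
open scoped ComplexConjugate ENNReal

/-- the dyadic block -/
def blk (K : ℝ) : Set ℝ := {κ : ℝ | K ≤ |κ| ∧ |κ| ≤ 2 * K}

/-- Cauchy's inequality with explicit powers -/
theorem block_cs {a Z : ℝ → ℂ} (ha : AEMeasurable a) (S : Set ℝ) {K A0 B0 x y : ℝ} (hK : 0 < K)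
    (hA0 : 0 ≤ A0) (hB0 : 0 ≤ B0)
    (h1 : ∫⁻ κ in S, ENNReal.ofReal (‖a κ‖ ^ 2 * Real.exp (Real.pi * |κ|)) ≤
      ENNReal.ofReal (A0 * K ^ (2 * x)))
    (h2 : ∫⁻ κ in S, ENNReal.ofReal (‖Z κ‖ ^ 2) ≤ ENNReal.ofReal (B0 * K ^ (2 * y))) :
    ∫⁻ κ in S, ENNReal.ofReal (‖a κ‖ * ‖Z κ‖ * Real.exp (Real.pi / 2 * |κ|)) ≤
      ENNReal.ofReal ((A0 + B0) * K ^ (x + y)) := by
  set t : ℝ := K ^ (y - x) with ht
  have ht0 : 0 < t := Real.rpow_pos_of_pos hK _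
  have hpt : ∀ κ : ℝ, ENNReal.ofReal (‖a κ‖ * ‖Z κ‖ * Real.exp (Real.pi / 2 * |κ|)) ≤
      ENNReal.ofReal t * ENNReal.ofReal (‖a κ‖ ^ 2 * Real.exp (Real.pi * |κ|)) +
        ENNReal.ofReal t⁻¹ * ENNReal.ofReal (‖Z κ‖ ^ 2) := by
    intro κ
    rw [← ENNReal.ofReal_mul ht0.le, ← ENNReal.ofReal_mul (by positivity),
      ← ENNReal.ofReal_add (by positivity) (by positivity)]
    apply ENNReal.ofReal_le_ofReal
    have he : Real.exp (Real.pi * |κ|) = Real.exp (Real.pi / 2 * |κ|) ^ 2 := by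
      rw [← Real.exp_nat_mul]; congr 1; push_cast; ring
    rw [he]
    set w := Real.exp (Real.pi / 2 * |κ|)
    set X := ‖a κ‖ * w with hX
    set Y := ‖Z κ‖ with hY
    have hX0 : 0 ≤ X := by positivity
    have hY0 : 0 ≤ Y := by positivity
    have h3 : 0 ≤ (t * X - Y) ^ 2 := sq_nonneg _
    have h4 : X * Y ≤ t * X ^ 2 + t⁻¹ * Y ^ 2 := by
      have h5 : t⁻¹ * (t * X - Y) ^ 2 = t * X ^ 2 - 2 * (X * Y) + t⁻¹ * Y ^ 2 := by
        field_simp; ring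
      have h6 : 0 ≤ t⁻¹ * (t * X - Y) ^ 2 := by positivity
      have h7 : 0 ≤ X * Y := by positivity
      linarith
    calc ‖a κ‖ * Y * w = X * Y := by rw [hX]; ring
      _ ≤ t * X ^ 2 + t⁻¹ * Y ^ 2 := h4
      _ = _ := by rw [hX]; ring
  have hm : AEMeasurable (fun κ => ENNReal.ofReal t *
      ENNReal.ofReal (‖a κ‖ ^ 2 * Real.exp (Real.pi * |κ|))) (volume.restrict S) := by
    have h8 : AEMeasurable (fun κ => ‖a κ‖ ^ 2 * Real.exp (Real.pi * |κ|)) :=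
      (ha.norm.pow_const 2).mul
        (by fun_prop : Measurable fun κ : ℝ => Real.exp (Real.pi * |κ|)).aemeasurable
    exact (h8.ennreal_ofReal.const_mul _).restrict
  calc ∫⁻ κ in S, ENNReal.ofReal (‖a κ‖ * ‖Z κ‖ * Real.exp (Real.pi / 2 * |κ|))
      ≤ ∫⁻ κ in S, (ENNReal.ofReal t * ENNReal.ofReal (‖a κ‖ ^ 2 * Real.exp (Real.pi * |κ|)) +
        ENNReal.ofReal t⁻¹ * ENNReal.ofReal (‖Z κ‖ ^ 2)) := lintegral_mono hpt
    _ = ENNReal.ofReal t * (∫⁻ κ in S, ENNReal.ofReal (‖a κ‖ ^ 2 * Real.exp (Real.pi * |κ|))) +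
        ENNReal.ofReal t⁻¹ * (∫⁻ κ in S, ENNReal.ofReal (‖Z κ‖ ^ 2)) := by
        rw [lintegral_add_left' hm, lintegral_const_mul' _ _ ENNReal.ofReal_ne_top,
          lintegral_const_mul' _ _ ENNReal.ofReal_ne_top]
    _ ≤ ENNReal.ofReal t * ENNReal.ofReal (A0 * K ^ (2 * x)) +
        ENNReal.ofReal t⁻¹ * ENNReal.ofReal (B0 * K ^ (2 * y)) := by gcongr
    _ = ENNReal.ofReal ((A0 + B0) * K ^ (x + y)) := by
        rw [← ENNReal.ofReal_mul ht0.le, ← ENNReal.ofReal_mul (by positivity),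
          ← ENNReal.ofReal_add (by positivity) (by positivity)]
        congr 1
        have e1 : t * K ^ (2 * x) = K ^ (x + y) := by
          rw [ht, ← Real.rpow_add hK]; congr 1; ring
        have e2 : t⁻¹ * K ^ (2 * y) = K ^ (x + y) := by
          rw [ht, ← Real.rpow_neg hK.le, ← Real.rpow_add hK]; congr 1; ring
        linear_combination A0 * e1 + B0 * e2

theorem AP_aemeas {N : ℕ} [NeZero N] (V : Finset (ZMod N × ZMod N))
    (hV : ∀ u : (ZMod N)ˣ, ∀ v ∈ V, ((u : ZMod N) * v.1, (u : ZMod N) * v.2) ∈ V)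
    (PP : Finset ℕ) (hPP : ∀ p ∈ PP, p.Prime ∧ ¬ p ∣ N) (a : ZMod N × ZMod N → ℝ → ℂ)
    (ham : ∀ v ∈ V, AEMeasurable (a v)) {v : ZMod N × ZMod N} (hv : v ∈ V) :
    AEMeasurable (fun κ => AP PP a v κ) := by
  have hc : ∀ p ∈ PP, p.Coprime N := fun p hp =>
    (Nat.Prime.coprime_iff_not_dvd (hPP p hp).1).2 (hPP p hp).2
  unfold AP
  refine Finset.aemeasurable_fun_sum _ fun p hp => ?_
  have h0 : (p : ℂ) ≠ 0 := by exact_mod_cast (hPP p hp).1.ne_zero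
  have h1 : AEMeasurable (a ((p : ZMod N)⁻¹ * v.1, (p : ZMod N)⁻¹ * v.2)) := by
    apply ham
    have := hV (cls N p)⁻¹ v hv
    rwa [← ZMod.inv_coe_unit, cls_coe (hc p hp)] at this
  have h2 : AEMeasurable (a ((p : ZMod N) * v.1, (p : ZMod N) * v.2)) := by
    apply ham
    have := hV (cls N p) v hv
    rwa [cls_coe (hc p hp)] at this
  have h3 : Continuous (fun κ : ℝ => (p : ℂ) ^ (2 * Complex.I * κ)) :=
    Continuous.const_cpow (by fun_prop) (Or.inl h0)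
  have h4 : Continuous (fun κ : ℝ => (p : ℂ) ^ (-(2 * Complex.I * κ))) :=
    Continuous.const_cpow (by fun_prop) (Or.inl h0)
  exact ((h3.measurable.aemeasurable.mul h1).add (ham v hv)).add
    (h4.measurable.aemeasurable.mul h2)

/-- off the exceptional set -/
theorem off_bound {N : ℕ} [NeZero N] (V : Finset (ZMod N × ZMod N))
    (hV : ∀ u : (ZMod N)ˣ, ∀ v ∈ V, ((u : ZMod N) * v.1, (u : ZMod N) * v.2) ∈ V)
    (PP : Finset ℕ) (hPP : ∀ p ∈ PP, p.Prime ∧ ¬ p ∣ N) (hne : 0 < #PP)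
    (a : ZMod N × ZMod N → ℝ → ℂ) (ham : ∀ v ∈ V, AEMeasurable (a v)) {K B : ℝ}
    (hA : ∑ v ∈ V, ∫⁻ κ in blk K,
      ENNReal.ofReal (‖AP PP a v κ‖ ^ 2 * Real.exp (Real.pi * |κ|)) ≤ ENNReal.ofReal B)
    {v : ZMod N × ZMod N} (hv : v ∈ V) :
    ∫⁻ κ in blk K \ Exc N PP K, ENNReal.ofReal (‖a v κ‖ ^ 2 * Real.exp (Real.pi * |κ|)) ≤
      ENNReal.ofReal (4 / (#PP : ℝ) ^ 2 * B) := by
  have hP0 : (0 : ℝ) < #PP := by exact_mod_cast hne
  have hmeas : MeasurableSet (blk K \ Exc N PP K) := by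
    apply MeasurableSet.diff
    · have h1 : MeasurableSet {κ : ℝ | K ≤ |κ|} :=
        (isClosed_le continuous_const continuous_abs).measurableSet
      have h2 : MeasurableSet {κ : ℝ | |κ| ≤ 2 * K} :=
        (isClosed_le continuous_abs continuous_const).measurableSet
      exact h1.inter h2
    · refine MeasurableSet.iUnion fun r => ?_
      have h1 : Continuous (fun κ : ℝ => ‖pS (QQ N PP r) κ‖) := by
        unfold pS
        fun_prop
      have h2 : MeasurableSet {κ : ℝ | |κ| ≤ 2 * K} :=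
        (isClosed_le continuous_abs continuous_const).measurableSet
      have h3 : MeasurableSet {κ : ℝ | (#PP : ℝ) / (4 * Fintype.card (ZMod N)ˣ) ≤
          ‖pS (QQ N PP r) κ‖} := (isClosed_le continuous_const h1).measurableSet
      exact h2.inter h3
  have haem : ∀ w ∈ V, AEMeasurable
      (fun κ => ENNReal.ofReal (‖AP PP a w κ‖ ^ 2 * Real.exp (Real.pi * |κ|)))
      (volume.restrict (blk K \ Exc N PP K)) := by
    intro w hw
    have h8 : AEMeasurable (fun κ => ‖AP PP a w κ‖ ^ 2 * Real.exp (Real.pi * |κ|)) :=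
      ((AP_aemeas V hV PP hPP a ham hw).norm.pow_const 2).mul
        (by fun_prop : Measurable fun κ : ℝ => Real.exp (Real.pi * |κ|)).aemeasurable
    exact h8.ennreal_ofReal.restrict
  calc ∫⁻ κ in blk K \ Exc N PP K, ENNReal.ofReal (‖a v κ‖ ^ 2 * Real.exp (Real.pi * |κ|))
      ≤ ∫⁻ κ in blk K \ Exc N PP K, ENNReal.ofReal (4 / (#PP : ℝ) ^ 2) * ∑ w ∈ V,
        ENNReal.ofReal (‖AP PP a w κ‖ ^ 2 * Real.exp (Real.pi * |κ|)) := by
        apply setLIntegral_mono' hmeas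
        intro κ hκ
        have h1 := AP_lower V hV PP hPP a hκ.1.2 hκ.2
        rw [← ENNReal.ofReal_sum_of_nonneg (fun _ _ => by positivity),
          ← ENNReal.ofReal_mul (by positivity)]
        apply ENNReal.ofReal_le_ofReal
        rw [← Finset.sum_mul, ← mul_assoc]
        apply mul_le_mul_of_nonneg_right _ (Real.exp_pos _).le
        rw [div_mul_eq_mul_div, le_div_iff₀ (by positivity)]
        have h2 : ‖a v κ‖ ^ 2 ≤ ∑ w ∈ V, ‖a w κ‖ ^ 2 :=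
          Finset.single_le_sum (f := fun w => ‖a w κ‖ ^ 2) (fun _ _ => by positivity) hv
        have h3 := mul_le_mul_of_nonneg_right h2 (show 0 ≤ (#PP : ℝ) ^ 2 by positivity)
        linarith
    _ = ENNReal.ofReal (4 / (#PP : ℝ) ^ 2) * ∑ w ∈ V, ∫⁻ κ in blk K \ Exc N PP K,
        ENNReal.ofReal (‖AP PP a w κ‖ ^ 2 * Real.exp (Real.pi * |κ|)) := by
        rw [lintegral_const_mul' _ _ ENNReal.ofReal_ne_top, lintegral_finsetSum' _ haem]
    _ ≤ ENNReal.ofReal (4 / (#PP : ℝ) ^ 2) * ∑ w ∈ V, ∫⁻ κ in blk K,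
        ENNReal.ofReal (‖AP PP a w κ‖ ^ 2 * Real.exp (Real.pi * |κ|)) := by
        gcongr with w hw
        exact Set.sdiff_subset
    _ ≤ ENNReal.ofReal (4 / (#PP : ℝ) ^ 2) * ENNReal.ofReal B := by gcongr
    _ = _ := by rw [← ENNReal.ofReal_mul (by positivity)]

/-- on the exceptional set -/
theorem on_bound {Z : ℝ → ℂ} {C d : ℝ} (hC : 0 ≤ C) (hd0 : 0 < d) (hd1 : d ≤ 1 / 2)
    (hZ : ∀ κ : ℝ, ‖Z κ‖ ≤ C * (1 + |κ|) ^ (1 / 2 - d)) {K M : ℝ} (hK : 1 ≤ K)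
    {E : Set ℝ} (hM : 0 ≤ M) (hE : volume E ≤ ENNReal.ofReal M) :
    ∫⁻ κ in blk K ∩ E, ENNReal.ofReal (‖Z κ‖ ^ 2) ≤
      ENNReal.ofReal (3 * C ^ 2 * K ^ (1 - 2 * d) * M) := by
  have hK0 : 0 < K := by linarith
  have hmb : MeasurableSet (blk K) := by
    have h1 : MeasurableSet {κ : ℝ | K ≤ |κ|} :=
      (isClosed_le continuous_const continuous_abs).measurableSet
    have h2 : MeasurableSet {κ : ℝ | |κ| ≤ 2 * K} :=
      (isClosed_le continuous_abs continuous_const).measurableSet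
    exact h1.inter h2
  have hpt : ∀ κ ∈ blk K, ENNReal.ofReal (‖Z κ‖ ^ 2) ≤
      ENNReal.ofReal (3 * C ^ 2 * K ^ (1 - 2 * d)) := by
    intro κ hκ
    apply ENNReal.ofReal_le_ofReal
    have h1 : (1 + |κ|) ^ (1 / 2 - d) ≤ (3 * K) ^ (1 / 2 - d) :=
      Real.rpow_le_rpow (by positivity) (by linarith [hκ.2]) (by linarith)
    have h2 : ‖Z κ‖ ≤ C * (3 * K) ^ (1 / 2 - d) :=
      (hZ κ).trans (mul_le_mul_of_nonneg_left h1 hC)
    calc ‖Z κ‖ ^ 2 ≤ (C * (3 * K) ^ (1 / 2 - d)) ^ 2 := pow_le_pow_left₀ (norm_nonneg _) h2 2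
      _ = C ^ 2 * (3 * K) ^ (1 - 2 * d) := by
          rw [mul_pow, ← Real.rpow_natCast ((3 * K) ^ (1 / 2 - d)), ← Real.rpow_mul (by positivity)]
          congr 2
          push_cast; ring
      _ = C ^ 2 * (3 ^ (1 - 2 * d) * K ^ (1 - 2 * d)) := by
          rw [Real.mul_rpow (by norm_num) hK0.le]
      _ ≤ C ^ 2 * (3 * K ^ (1 - 2 * d)) := by
          have h3 : (3 : ℝ) ^ (1 - 2 * d) ≤ 3 := by
            calc (3 : ℝ) ^ (1 - 2 * d) ≤ 3 ^ (1 : ℝ) :=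
                  Real.rpow_le_rpow_of_exponent_le (by norm_num) (by linarith)
              _ = 3 := Real.rpow_one 3
          have h4 : 0 ≤ K ^ (1 - 2 * d) := Real.rpow_nonneg hK0.le _
          gcongr
      _ = _ := by ring
  have h0 : 0 ≤ 3 * C ^ 2 * K ^ (1 - 2 * d) := by
    have : 0 ≤ K ^ (1 - 2 * d) := Real.rpow_nonneg hK0.le _
    positivity
  calc ∫⁻ κ in blk K ∩ E, ENNReal.ofReal (‖Z κ‖ ^ 2)
      ≤ ∫⁻ κ in blk K ∩ E, ENNReal.ofReal (3 * C ^ 2 * K ^ (1 - 2 * d)) := by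
        apply lintegral_mono_ae
        have h5 : ∀ᵐ κ ∂(volume.restrict (blk K ∩ E)), κ ∈ blk K :=
          ae_restrict_of_ae_restrict_of_subset Set.inter_subset_left (ae_restrict_mem hmb)
        filter_upwards [h5] with κ hκ
        exact hpt κ hκ
    _ ≤ ENNReal.ofReal (3 * C ^ 2 * K ^ (1 - 2 * d)) * volume E := by
        rw [setLIntegral_const]
        gcongr
        exact Set.inter_subset_right
    _ ≤ ENNReal.ofReal (3 * C ^ 2 * K ^ (1 - 2 * d)) * ENNReal.ofReal M := by gcongr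
    _ = _ := by rw [← ENNReal.ofReal_mul h0]

end Pool.Agent.JOL
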