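import Mathlib
import Pool.Agent.Lib_helper87.JO.B4

/-!
# Jutila's question (MP_f4574f_nt), part B: the final estimate
-/

namespace Pool.Agent.JOL

open MeasureTheory Finset
open scoped ComplexConjugate ENNReal

/-- the bound on a dyadic block: `∑_v ∫_{K ≤ |κ| ≤ 2K} |a_v Z_v| e^{π|κ|/2} ≪ K^{k+1/2-δ}` -/
theorem core {N : ℕ} [NeZero N] (V : Finset (ZMod N × ZMod N))
    (hV : ∀ u : (ZMod N)ˣ, ∀ v ∈ V, ((u : ZMod N) * v.1, (u : ZMod N) * v.2) ∈ V)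
    (k : ℕ) (lam : ℕ → ℂ)
    (hlam : ∃ C : ℝ, ∀ x : ℕ, ∑ n ∈ Finset.Icc 1 x, ‖lam n‖ ^ 2 ≤ C * x)
    (a : ZMod N × ZMod N → ℝ → ℂ) (ham : ∀ v ∈ V, AEMeasurable (a v))
    (hA : ∃ d : ℝ, 0 < d ∧ ∃ C : ℝ, ∀ K : ℝ, 1 ≤ K → ∀ P : ℕ, 1 ≤ P → (P : ℝ) ≤ K ^ d →
      ∀ PP : Finset ℕ, (∀ p ∈ PP, p.Prime ∧ ¬ p ∣ N ∧ P ≤ p ∧ p ≤ 2 * P ∧
        ‖lam p‖ ≤ (p : ℝ) ^ (1 / 8 : ℝ)) →
      ∑ v ∈ V, ∫⁻ κ in blk K,
        ENNReal.ofReal (‖AP PP a v κ‖ ^ 2 * Real.exp (Real.pi * |κ|)) ≤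
        ENNReal.ofReal (C * (P : ℝ) ^ (3 / 2 : ℝ) * K ^ (2 * k)))
    (h1 : ∃ C : ℝ, ∀ K : ℝ, 1 ≤ K → ∑ v ∈ V, ∫⁻ κ in blk K,
        ENNReal.ofReal (‖a v κ‖ ^ 2 * Real.exp (Real.pi * |κ|)) ≤
        ENNReal.ofReal (C * K ^ (2 * k)))
    (Z : ZMod N × ZMod N → ℝ → ℂ)
    (hZ1 : ∀ e : ℝ, 0 < e → ∃ C : ℝ, ∀ K : ℝ, 1 ≤ K → ∀ v ∈ V,
      ∫⁻ κ in {κ : ℝ | |κ| ≤ K}, ENNReal.ofReal (‖Z v κ‖ ^ 2) ≤ ENNReal.ofReal (C * K ^ (1 + e)))
    (hZ2 : ∃ d : ℝ, 0 < d ∧ ∃ C : ℝ, ∀ v ∈ V, ∀ κ : ℝ, ‖Z v κ‖ ≤ C * (1 + |κ|) ^ (1 / 2 - d)) :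
    ∃ δ : ℝ, 0 < δ ∧ δ < 1 ∧ ∃ C : ℝ, 0 ≤ C ∧ ∀ K : ℝ, 1 ≤ K → ∀ v ∈ V,
      ∫⁻ κ in blk K, ENNReal.ofReal (‖a v κ‖ * ‖Z v κ‖ * Real.exp (Real.pi / 2 * |κ|)) ≤
        ENNReal.ofReal (C * K ^ ((k : ℝ) + 1 / 2 - δ)) := by
  classical
  have hN : 0 < N := Nat.pos_of_ne_zero (NeZero.ne N)
  obtain ⟨CL, hCL⟩ := hlam
  obtain ⟨d1, hd1, CA', hA'⟩ := hA
  obtain ⟨C1', h1'⟩ := h1
  obtain ⟨d2', hd2', CZ', hZ'⟩ := hZ2
  -- normalised constants
  set CA := |CA'| with hCA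
  set C1 := |C1'| with hC1
  set CZ := |CZ'| with hCZ
  have hCA0 : 0 ≤ CA := abs_nonneg _
  have hC10 : 0 ≤ C1 := abs_nonneg _
  have hCZ0 : 0 ≤ CZ := abs_nonneg _
  set d := min d2' (1 / 2) with hd
  have hd0 : 0 < d := lt_min hd2' (by norm_num)
  have hdh : d ≤ 1 / 2 := min_le_right _ _
  have hZp : ∀ v ∈ V, ∀ κ : ℝ, ‖Z v κ‖ ≤ CZ * (1 + |κ|) ^ (1 / 2 - d) := by
    intro v hv κ
    refine (hZ' v hv κ).trans ?_
    have e1 : (1 : ℝ) ≤ 1 + |κ| := by linarith [abs_nonneg κ]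
    have e2 : (1 + |κ|) ^ (1 / 2 - d2') ≤ (1 + |κ|) ^ (1 / 2 - d) :=
      Real.rpow_le_rpow_of_exponent_le e1 (by linarith [min_le_left d2' (1 / 2)])
    have e3 : 0 ≤ (1 + |κ|) ^ (1 / 2 - d2') := Real.rpow_nonneg (by linarith) _
    calc CZ' * (1 + |κ|) ^ (1 / 2 - d2') ≤ CZ * (1 + |κ|) ^ (1 / 2 - d2') :=
          mul_le_mul_of_nonneg_right (le_abs_self _) e3
      _ ≤ _ := mul_le_mul_of_nonneg_left e2 hCZ0
  set e' := min (1 / 8) d with he'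
  have he'0 : 0 < e' := lt_min (by norm_num) hd0
  have he'8 : e' ≤ 1 / 8 := min_le_left _ _
  have he'd : e' ≤ d := min_le_right _ _
  obtain ⟨n0, hn0⟩ := many_primes N hN lam CL hCL he'0 he'8
  -- the exponent m
  obtain ⟨m, hm⟩ := exists_nat_ge (1 / d1)
  have hm0 : 0 < (m : ℝ) := lt_of_lt_of_le (by positivity) hm
  have hmN : 0 < m := by exact_mod_cast hm0
  have hmd : 1 / (m : ℝ) ≤ d1 := by
    rw [div_le_iff₀ hm0]
    rw [div_le_iff₀ hd1] at hm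
    linarith
  set ρ := 1 / (4 * (m : ℝ)) with hρ
  have hρ0 : 0 < ρ := by positivity
  have hρ4 : ρ ≤ 1 / 4 := by
    rw [hρ]
    apply one_div_le_one_div_of_le (by norm_num)
    have : (1 : ℝ) ≤ m := by exact_mod_cast hmN
    linarith
  obtain ⟨CY', hY'⟩ := hZ1 (ρ / 2) (by positivity)
  set CY := |CY'| with hCY
  have hCY0 : 0 ≤ CY := abs_nonneg _
  have hY : ∀ K : ℝ, 1 ≤ K → ∀ v ∈ V, ∀ S ⊆ blk K,
      ∫⁻ κ in S, ENNReal.ofReal (‖Z v κ‖ ^ 2) ≤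
        ENNReal.ofReal (4 * CY * K ^ (2 * ((1 + ρ / 2) / 2))) := by
    intro K hK v hv S hS
    have hK0 : 0 < K := by linarith
    calc ∫⁻ κ in S, ENNReal.ofReal (‖Z v κ‖ ^ 2)
        ≤ ∫⁻ κ in {κ : ℝ | |κ| ≤ 2 * K}, ENNReal.ofReal (‖Z v κ‖ ^ 2) :=
          lintegral_mono_set fun κ hκ => (hS hκ).2
      _ ≤ ENNReal.ofReal (CY' * (2 * K) ^ (1 + ρ / 2)) := hY' (2 * K) (by linarith) v hv
      _ ≤ _ := by
          apply ENNReal.ofReal_le_ofReal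
          rw [Real.mul_rpow (by norm_num) hK0.le]
          have e1 : (2 : ℝ) ^ (1 + ρ / 2) ≤ 4 := by
            calc (2 : ℝ) ^ (1 + ρ / 2) ≤ 2 ^ (2 : ℝ) :=
                  Real.rpow_le_rpow_of_exponent_le (by norm_num) (by linarith)
              _ = 4 := by norm_num
          have e2 : 0 ≤ K ^ (1 + ρ / 2) := Real.rpow_nonneg hK0.le _
          have e3 : 2 * ((1 + ρ / 2) / 2) = 1 + ρ / 2 := by ring
          rw [e3]
          calc CY' * (2 ^ (1 + ρ / 2) * K ^ (1 + ρ / 2))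
              ≤ CY * (2 ^ (1 + ρ / 2) * K ^ (1 + ρ / 2)) :=
                mul_le_mul_of_nonneg_right (le_abs_self _) (by positivity)
            _ ≤ CY * (4 * K ^ (1 + ρ / 2)) := by gcongr
            _ = _ := by ring
  have hU : ∀ K : ℝ, 1 ≤ K → ∀ v ∈ V, ∀ S ⊆ blk K,
      ∫⁻ κ in S, ENNReal.ofReal (‖a v κ‖ ^ 2 * Real.exp (Real.pi * |κ|)) ≤
        ENNReal.ofReal (C1 * K ^ (2 * (k : ℝ))) := by
    intro K hK v hv S hS
    have hK0 : 0 < K := by linarith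
    calc ∫⁻ κ in S, ENNReal.ofReal (‖a v κ‖ ^ 2 * Real.exp (Real.pi * |κ|))
        ≤ ∫⁻ κ in blk K, ENNReal.ofReal (‖a v κ‖ ^ 2 * Real.exp (Real.pi * |κ|)) :=
          lintegral_mono_set hS
      _ ≤ ∑ w ∈ V, ∫⁻ κ in blk K, ENNReal.ofReal (‖a w κ‖ ^ 2 * Real.exp (Real.pi * |κ|)) :=
          Finset.single_le_sum
            (f := fun w => ∫⁻ κ in blk K, ENNReal.ofReal (‖a w κ‖ ^ 2 * Real.exp (Real.pi * |κ|)))
            (fun _ _ => bot_le) hv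
      _ ≤ ENNReal.ofReal (C1' * K ^ (2 * k)) := h1' K hK
      _ ≤ _ := by
          apply ENNReal.ofReal_le_ofReal
          have e1 : K ^ (2 * (k : ℝ)) = K ^ (2 * k) := by
            rw [← Real.rpow_natCast]; push_cast; rfl
          rw [e1]
          exact mul_le_mul_of_nonneg_right (le_abs_self _) (by positivity)
  set δ := min (ρ / 4) (d / 2) with hδ
  have hδ0 : 0 < δ := lt_min (by positivity) (by positivity)
  have hδ1 : δ ≤ ρ / 4 := min_le_left _ _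
  have hδ2 : δ ≤ d / 2 := min_le_right _ _
  set K0 : ℝ := (4 * (max n0 1 : ℕ) : ℝ) ^ m with hK0def
  have hK01 : 1 ≤ K0 := by
    rw [hK0def]
    apply one_le_pow₀
    have : (1 : ℝ) ≤ (max n0 1 : ℕ) := by exact_mod_cast le_max_right n0 1
    linarith
  set Ca := 64 * CA + 4 * CY with hCa
  set Cb := C1 + 3 * CZ ^ 2 * (cE N m (2 ^ m) * 4 ^ m) with hCb
  set Cc := (C1 + 4 * CY) * K0 ^ ((k : ℝ) + (1 + ρ / 2) / 2) with hCc
  have hcE := cE_nonneg N m (2 ^ m)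
  have hCa0 : 0 ≤ Ca := by positivity
  have hCb0 : 0 ≤ Cb := by positivity
  have hCc0 : 0 ≤ Cc := by
    have : 0 ≤ K0 ^ ((k : ℝ) + (1 + ρ / 2) / 2) := Real.rpow_nonneg (by linarith) _
    positivity
  refine ⟨δ, hδ0, by linarith, Ca + Cb + Cc, by positivity, ?_⟩
  intro K hK v hv
  have hKp : 0 < K := by linarith
  have hk0 : (0 : ℝ) ≤ k := Nat.cast_nonneg k
  have hKδ : 1 ≤ K ^ ((k : ℝ) + 1 / 2 - δ) := Real.one_le_rpow hK (by linarith)
  rcases lt_or_ge K K0 with hlt | hge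
  · -- small K
    have e1 := block_cs (ham v hv) (blk K) (Z := Z v) hKp hC10 (by positivity : 0 ≤ 4 * CY)
      (hU K hK v hv _ subset_rfl) (hY K hK v hv _ subset_rfl)
    refine e1.trans (ENNReal.ofReal_le_ofReal ?_)
    have e2 : K ^ ((k : ℝ) + (1 + ρ / 2) / 2) ≤ K0 ^ ((k : ℝ) + (1 + ρ / 2) / 2) :=
      Real.rpow_le_rpow hKp.le hlt.le (by positivity)
    calc (C1 + 4 * CY) * K ^ ((k : ℝ) + (1 + ρ / 2) / 2) ≤ Cc := by
          rw [hCc]; exact mul_le_mul_of_nonneg_left e2 (by positivity)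
      _ ≤ Cc * K ^ ((k : ℝ) + 1 / 2 - δ) := le_mul_of_one_le_right hCc0 hKδ
      _ ≤ _ := by
          apply mul_le_mul_of_nonneg_right _ (by linarith)
          linarith
  · -- large K
    set y : ℝ := K ^ (1 / (m : ℝ)) with hy
    have hym : y ^ m = K := by
      rw [hy, ← Real.rpow_natCast, ← Real.rpow_mul hKp.le]
      rw [one_div_mul_cancel hm0.ne', Real.rpow_one]
    have hy0 : 0 < y := Real.rpow_pos_of_pos hKp _
    have hy4 : 4 * (max n0 1 : ℕ) ≤ y := by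
      by_contra hcon
      rw [not_le] at hcon
      have h2 : y ^ m < (4 * (max n0 1 : ℕ) : ℝ) ^ m := pow_lt_pow_left₀ hcon hy0.le hmN.ne'
      rw [hym, ← hK0def] at h2
      linarith
    have hmax1 : (1 : ℝ) ≤ (max n0 1 : ℕ) := by exact_mod_cast le_max_right n0 1
    set n := ⌊y / 2⌋₊ with hn
    have hn_le : (n : ℝ) ≤ y / 2 := Nat.floor_le (by positivity)
    have hn_ge : y / 4 ≤ n := by
      have := Nat.lt_floor_add_one (y / 2)
      rw [← hn] at this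
      linarith
    have hnn0 : n0 ≤ n := by
      have h2 : ((max n0 1 : ℕ) : ℝ) ≤ n := by linarith
      have h3 : max n0 1 ≤ n := by exact_mod_cast h2
      exact (le_max_left _ _).trans h3
    have hn1 : 1 ≤ n := by
      have h2 : ((max n0 1 : ℕ) : ℝ) ≤ n := by linarith
      have h3 : max n0 1 ≤ n := by exact_mod_cast h2
      exact (le_max_right _ _).trans h3
    obtain ⟨P, hP, hcard⟩ := hn0 n hnn0
    set PP := goodP N lam P with hPP
    have hP1 : 1 ≤ P := by rcases hP with h | h <;> omega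
    have hP2 : P ≤ 2 * n := by rcases hP with h | h <;> omega
    have hPy : (P : ℝ) ≤ y := by
      have : (P : ℝ) ≤ 2 * n := by exact_mod_cast hP2
      linarith
    have hPK : (P : ℝ) ≤ K ^ d1 :=
      hPy.trans (Real.rpow_le_rpow_of_exponent_le hK hmd)
    have hmem : ∀ p ∈ PP, p.Prime ∧ ¬ p ∣ N ∧ P ≤ p ∧ p ≤ 2 * P ∧
        ‖lam p‖ ≤ (p : ℝ) ^ (1 / 8 : ℝ) := by
      intro p hp
      rw [hPP, mem_goodP] at hp
      exact ⟨hp.2.1, hp.2.2.1, hp.1.1, hp.1.2, hp.2.2.2⟩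
    -- size of PP
    have hc1 : (y / 4) ^ (1 - e') ≤ #PP :=
      (Real.rpow_le_rpow (by positivity) hn_ge (by linarith)).trans hcard
    have hy41 : 0 < (y / 4) ^ (1 - e') := Real.rpow_pos_of_pos (by positivity) _
    have hPPpos : (0 : ℝ) < #PP := by linarith
    have hPPn : 0 < #PP := by exact_mod_cast hPPpos
    have hy_pow : (y / 4) ^ (1 - e') ≥ y ^ (1 - e') / 4 := by
      rw [Real.div_rpow hy0.le (by norm_num)]
      apply div_le_div_of_nonneg_left (Real.rpow_nonneg hy0.le _) (Real.rpow_pos_of_pos (by norm_num) _)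
      calc (4 : ℝ) ^ (1 - e') ≤ 4 ^ (1 : ℝ) :=
            Real.rpow_le_rpow_of_exponent_le (by norm_num) (by linarith)
        _ = 4 := Real.rpow_one 4
    have hc2 : y ^ (1 - e') / 4 ≤ #PP := le_trans hy_pow hc1
    -- the measure of the exceptional set
    have hR : ((((2 * P) ^ m : ℕ)) : ℝ) ≤ 2 ^ m * K := by
      push_cast
      rw [← hym, ← mul_pow]
      apply pow_le_pow_left₀ (by positivity)
      linarith
    have hvol := vol_Exc N PP (fun p hp => (hmem p hp).1) hPPn (2 * P) m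
      (fun p hp => (hmem p hp).2.2.2.1) hKp (by positivity : (0 : ℝ) < 2 ^ m) hR
    have hpow : K ^ (1 - e') / 4 ^ m ≤ (#PP : ℝ) ^ m := by
      calc K ^ (1 - e') / 4 ^ m = (y ^ (1 - e') / 4) ^ m := by
            rw [div_pow]
            congr 1
            rw [hy, ← Real.rpow_natCast, ← Real.rpow_mul hKp.le, ← Real.rpow_mul hKp.le]
            congr 1
            field_simp
        _ ≤ (#PP : ℝ) ^ m := pow_le_pow_left₀ (by positivity) hc2 m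
    have hvol2 : volume (Exc N PP K) ≤ ENNReal.ofReal ((cE N m (2 ^ m) * 4 ^ m) * K ^ e') := by
      refine hvol.trans (ENNReal.ofReal_le_ofReal ?_)
      rw [div_le_iff₀ (by positivity)]
      have e1 : K ^ e' * K ^ (1 - e') = K := by
        rw [← Real.rpow_add hKp]; simp
      have e2 : 0 ≤ K ^ e' := Real.rpow_nonneg hKp.le _
      calc cE N m (2 ^ m) * K = cE N m (2 ^ m) * (K ^ e' * K ^ (1 - e')) := by rw [e1]
        _ = (cE N m (2 ^ m) * 4 ^ m * K ^ e') * (K ^ (1 - e') / 4 ^ m) := by field_simp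
        _ ≤ (cE N m (2 ^ m) * 4 ^ m * K ^ e') * (#PP : ℝ) ^ m :=
            mul_le_mul_of_nonneg_left hpow (by positivity)
    -- off the exceptional set
    have hAK := hA' K hK P hP1 hPK PP hmem
    have hoff := off_bound V hV PP (fun p hp => ⟨(hmem p hp).1, (hmem p hp).2.1⟩) hPPn a ham
      hAK hv
    have hoff2 : ∫⁻ κ in blk K \ Exc N PP K,
        ENNReal.ofReal (‖a v κ‖ ^ 2 * Real.exp (Real.pi * |κ|)) ≤
        ENNReal.ofReal (64 * CA * K ^ (2 * ((k : ℝ) - ρ / 2))) := by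
      refine hoff.trans (ENNReal.ofReal_le_ofReal ?_)
      have e1 : (y ^ (1 - e') / 4) ^ 2 ≤ (#PP : ℝ) ^ 2 := pow_le_pow_left₀ (by positivity) hc2 2
      have e2 : (P : ℝ) ^ (3 / 2 : ℝ) ≤ y ^ (3 / 2 : ℝ) :=
        Real.rpow_le_rpow (Nat.cast_nonneg _) hPy (by norm_num)
      have e3 : K ^ (2 * ((k : ℝ) - ρ / 2)) = K ^ (2 * k) * y ^ (-(1 / 4) : ℝ) := by
        rw [hy, ← Real.rpow_mul hKp.le, ← Real.rpow_natCast, ← Real.rpow_add hKp]
        have e0 : ρ = 1 / (m : ℝ) * (1 / 4) := by rw [hρ]; field_simp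
        congr 1
        rw [e0]; push_cast; ring
      have e4 : y ^ (3 / 2 : ℝ) ≤ y ^ (-(1 / 4) : ℝ) * (y ^ (1 - e')) ^ 2 := by
        rw [← Real.rpow_natCast (y ^ (1 - e')), ← Real.rpow_mul hy0.le, ← Real.rpow_add hy0]
        apply Real.rpow_le_rpow_of_exponent_le (by linarith)
        push_cast
        linarith
      have e5 : 0 ≤ K ^ (2 * k) := by positivity
      have e6 : 0 ≤ y ^ (-(1 / 4) : ℝ) := Real.rpow_nonneg hy0.le _
      rw [e3]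
      calc 4 / (#PP : ℝ) ^ 2 * (CA' * (P : ℝ) ^ (3 / 2 : ℝ) * K ^ (2 * k))
          ≤ 4 / (#PP : ℝ) ^ 2 * (CA * (P : ℝ) ^ (3 / 2 : ℝ) * K ^ (2 * k)) := by
            have : 0 ≤ (P : ℝ) ^ (3 / 2 : ℝ) := Real.rpow_nonneg (Nat.cast_nonneg _) _
            apply mul_le_mul_of_nonneg_left _ (by positivity)
            apply mul_le_mul_of_nonneg_right _ e5
            exact mul_le_mul_of_nonneg_right (le_abs_self _) this
        _ ≤ 4 / (#PP : ℝ) ^ 2 * (CA * (y ^ (-(1 / 4) : ℝ) * (y ^ (1 - e')) ^ 2) * K ^ (2 * k)) := by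
            apply mul_le_mul_of_nonneg_left _ (by positivity)
            apply mul_le_mul_of_nonneg_right _ e5
            exact mul_le_mul_of_nonneg_left (e2.trans e4) hCA0
        _ ≤ 4 / (#PP : ℝ) ^ 2 * (CA * (y ^ (-(1 / 4) : ℝ) * (16 * (#PP : ℝ) ^ 2)) *
              K ^ (2 * k)) := by
            apply mul_le_mul_of_nonneg_left _ (by positivity)
            apply mul_le_mul_of_nonneg_right _ e5
            apply mul_le_mul_of_nonneg_left _ hCA0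
            apply mul_le_mul_of_nonneg_left _ e6
            have : (y ^ (1 - e') / 4) ^ 2 = (y ^ (1 - e')) ^ 2 / 16 := by ring
            rw [this] at e1
            linarith
        _ = 64 * CA * (K ^ (2 * k) * y ^ (-(1 / 4) : ℝ)) := by
            field_simp
            ring
    have hoff3 := block_cs (ham v hv) (blk K \ Exc N PP K) (Z := Z v) hKp
      (by positivity : 0 ≤ 64 * CA) (by positivity : 0 ≤ 4 * CY) hoff2
      (hY K hK v hv _ Set.sdiff_subset)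
    -- on the exceptional set
    have hMn : 0 ≤ (cE N m (2 ^ m) * 4 ^ m) * K ^ e' := by
      have : 0 ≤ K ^ e' := Real.rpow_nonneg hKp.le _
      positivity
    have hon := on_bound hCZ0 hd0 hdh (hZp v hv) hK hMn hvol2
    have hon2 : ∫⁻ κ in blk K ∩ Exc N PP K, ENNReal.ofReal (‖Z v κ‖ ^ 2) ≤
        ENNReal.ofReal (3 * CZ ^ 2 * (cE N m (2 ^ m) * 4 ^ m) *
          K ^ (2 * ((1 - 2 * d + e') / 2))) := by
      refine hon.trans (ENNReal.ofReal_le_ofReal (le_of_eq ?_))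
      have e1 : K ^ (2 * ((1 - 2 * d + e') / 2)) = K ^ (1 - 2 * d) * K ^ e' := by
        rw [← Real.rpow_add hKp]; congr 1; ring
      rw [e1]; ring
    have hon3 := block_cs (ham v hv) (blk K ∩ Exc N PP K) (Z := Z v) hKp hC10
      (by positivity : 0 ≤ 3 * CZ ^ 2 * (cE N m (2 ^ m) * 4 ^ m))
      (hU K hK v hv _ Set.inter_subset_left) hon2
    have hsplit : blk K ⊆ (blk K \ Exc N PP K) ∪ (blk K ∩ Exc N PP K) := by
      intro κ hκ
      by_cases h : κ ∈ Exc N PP K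
      · exact Or.inr ⟨hκ, h⟩
      · exact Or.inl ⟨hκ, h⟩
    calc ∫⁻ κ in blk K, ENNReal.ofReal (‖a v κ‖ * ‖Z v κ‖ * Real.exp (Real.pi / 2 * |κ|))
        ≤ ∫⁻ κ in (blk K \ Exc N PP K) ∪ (blk K ∩ Exc N PP K),
            ENNReal.ofReal (‖a v κ‖ * ‖Z v κ‖ * Real.exp (Real.pi / 2 * |κ|)) :=
          lintegral_mono_set hsplit
      _ ≤ _ := lintegral_union_le _ _ _
      _ ≤ ENNReal.ofReal ((64 * CA + 4 * CY) * K ^ ((k : ℝ) - ρ / 2 + (1 + ρ / 2) / 2)) +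
          ENNReal.ofReal ((C1 + 3 * CZ ^ 2 * (cE N m (2 ^ m) * 4 ^ m)) *
            K ^ ((k : ℝ) + (1 - 2 * d + e') / 2)) := add_le_add hoff3 hon3
      _ ≤ ENNReal.ofReal (Ca * K ^ ((k : ℝ) + 1 / 2 - δ)) +
          ENNReal.ofReal (Cb * K ^ ((k : ℝ) + 1 / 2 - δ)) := by
          have e1 : K ^ ((k : ℝ) - ρ / 2 + (1 + ρ / 2) / 2) ≤ K ^ ((k : ℝ) + 1 / 2 - δ) :=
            Real.rpow_le_rpow_of_exponent_le hK (by linarith)
          have e2 : K ^ ((k : ℝ) + (1 - 2 * d + e') / 2) ≤ K ^ ((k : ℝ) + 1 / 2 - δ) :=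
            Real.rpow_le_rpow_of_exponent_le hK (by linarith)
          exact add_le_add
            (ENNReal.ofReal_le_ofReal (mul_le_mul_of_nonneg_left e1 hCa0))
            (ENNReal.ofReal_le_ofReal (mul_le_mul_of_nonneg_left e2 hCb0))
      _ ≤ ENNReal.ofReal ((Ca + Cb + Cc) * K ^ ((k : ℝ) + 1 / 2 - δ)) := by
          rw [← ENNReal.ofReal_add (by positivity) (by positivity)]
          apply ENNReal.ofReal_le_ofReal
          have : 0 ≤ Cc * K ^ ((k : ℝ) + 1 / 2 - δ) := by positivity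
          linarith

end Pool.Agent.JOL
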