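import Mathlib
import Pool.Agent.Lib_helper87.JO.B5

/-!
# Jutila's question (MP_f4574f_nt), part B: the sum over dyadic blocks
-/

namespace Pool.Agent.JOL

open MeasureTheory Finset
open scoped ComplexConjugate ENNReal

/-- `y^q e^{-cy}` is bounded -/
theorem rpow_exp_bdd {q c : ℝ} (hq : 0 < q) (hc : 0 < c) :
    ∃ C : ℝ, 1 ≤ C ∧ ∀ y : ℝ, 0 < y → y ^ q * Real.exp (-(c * y)) ≤ C := by
  obtain ⟨M, hM⟩ := exists_nat_ge q
  refine ⟨1 + (M.factorial : ℝ) / c ^ M, by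
    have : 0 ≤ (M.factorial : ℝ) / c ^ M := by positivity
    linarith, fun y hy => ?_⟩
  have h1 : y ^ q ≤ 1 + y ^ M := by
    rcases le_or_gt y 1 with h | h
    · have := Real.rpow_le_one hy.le h hq.le
      have h2 : 0 ≤ y ^ M := by positivity
      linarith
    · have : y ^ q ≤ y ^ (M : ℝ) := Real.rpow_le_rpow_of_exponent_le h.le hM
      rw [Real.rpow_natCast] at this
      linarith
  have h2 : (c * y) ^ M / M.factorial ≤ Real.exp (c * y) :=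
    Real.pow_div_factorial_le_exp (c * y) (by positivity) M
  have h3 : y ^ M ≤ (M.factorial : ℝ) / c ^ M * Real.exp (c * y) := by
    rw [div_mul_eq_mul_div, le_div_iff₀ (by positivity)]
    rw [div_le_iff₀ (by positivity), mul_pow] at h2
    linarith
  have h4 : 1 ≤ Real.exp (c * y) := Real.one_le_exp (by positivity)
  have h5 : 0 < Real.exp (c * y) := Real.exp_pos _
  rw [Real.exp_neg, ← div_eq_mul_inv, div_le_iff₀ h5]
  calc y ^ q ≤ 1 + y ^ M := h1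
    _ ≤ Real.exp (c * y) + (M.factorial : ℝ) / c ^ M * Real.exp (c * y) := by linarith
    _ = _ := by ring

/-- the telescoping bound -/
theorem tele {r x : ℝ} (hr : 1 < r) (hx : 0 < x) {M : ℝ} (h1 : M ≤ x) (h2 : M * x ≤ 1) :
    M ≤ 2 * (1 + r) / (r - 1) * (r * x / (1 + r * x) - x / (1 + x)) := by
  have hr1 : 0 < r - 1 := by linarith
  have e1 : r * x / (1 + r * x) - x / (1 + x) = (r - 1) * x / ((1 + x) * (1 + r * x)) := by
    field_simp
    ring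
  rw [e1]
  have e2 : 2 * (1 + r) / (r - 1) * ((r - 1) * x / ((1 + x) * (1 + r * x))) =
      2 * (1 + r) * x / ((1 + x) * (1 + r * x)) := by
    field_simp
  rw [e2, le_div_iff₀ (by positivity)]
  -- M (1+x)(1+rx) ≤ 2 (1+r) x
  have e3 : M * ((1 + x) * (1 + r * x)) = M + (1 + r) * (M * x) + r * x * (M * x) := by ring
  rw [e3]
  have h3 : M * x ≤ x := by
    rcases le_or_gt M 0 with h | h
    · nlinarith
    · rcases le_or_gt x 1 with h4 | h4
      · nlinarith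
      · linarith
  have h4 : r * x * (M * x) ≤ r * x := by
    have : 0 ≤ r * x := by positivity
    nlinarith
  nlinarith

theorem geo_sum {s c : ℝ} (hs : 0 < s) (hc : 0 < c) :
    ∃ C : ℝ, 0 ≤ C ∧ ∀ ε : ℝ, 0 < ε → ∀ n : ℕ,
      ∑ j ∈ Finset.range n, ((2 : ℝ) ^ j) ^ s * Real.exp (-(c * ε * 2 ^ j)) ≤ C * ε ^ (-s) := by
  obtain ⟨C2, hC2, hb⟩ := rpow_exp_bdd (q := 2 * s) (by positivity) hc
  set r : ℝ := 2 ^ s with hr
  have hr1 : 1 < r := Real.one_lt_rpow one_lt_two hs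
  have hr0 : 0 < r - 1 := by linarith
  refine ⟨C2 * (2 * (1 + r) / (r - 1)), by positivity, fun ε hε n => ?_⟩
  set x : ℕ → ℝ := fun j => (ε * 2 ^ j) ^ s with hx
  have hx0 : ∀ j, 0 < x j := fun j => Real.rpow_pos_of_pos (by positivity) _
  have hxs : ∀ j, x (j + 1) = r * x j := by
    intro j
    simp only [hx]
    rw [hr, ← Real.mul_rpow (by norm_num) (by positivity)]
    congr 1
    rw [pow_succ]; ring
  have hterm : ∀ j, x j * Real.exp (-(c * ε * 2 ^ j)) ≤ C2 * (2 * (1 + r) / (r - 1) *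
      (x (j + 1) / (1 + x (j + 1)) - x j / (1 + x j))) := by
    intro j
    have hM1 : C2⁻¹ * (x j * Real.exp (-(c * ε * 2 ^ j))) ≤ x j := by
      have e1 : Real.exp (-(c * ε * 2 ^ j)) ≤ 1 := Real.exp_le_one_iff.2 (by
        have : 0 ≤ c * ε * 2 ^ j := by positivity
        linarith)
      have e2 : C2⁻¹ ≤ 1 := inv_le_one_of_one_le₀ hC2
      have e3 : 0 < Real.exp (-(c * ε * 2 ^ j)) := Real.exp_pos _
      have e4 : x j * Real.exp (-(c * ε * 2 ^ j)) ≤ x j := mul_le_of_le_one_right (hx0 j).le e1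
      have e5 : 0 ≤ x j * Real.exp (-(c * ε * 2 ^ j)) := mul_nonneg (hx0 j).le e3.le
      exact (mul_le_of_le_one_left e5 e2).trans e4
    have hM2 : C2⁻¹ * (x j * Real.exp (-(c * ε * 2 ^ j))) * x j ≤ 1 := by
      have e1 := hb (ε * 2 ^ j) (by positivity)
      have e2 : (ε * 2 ^ j) ^ (2 * s) = x j * x j := by
        simp only [hx]
        rw [← Real.rpow_add (by positivity)]
        congr 1; ring
      rw [e2, ← mul_assoc c] at e1
      have hC20 : 0 < C2 := by linarith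
      rw [mul_assoc, inv_mul_le_iff₀ hC20, mul_one]
      linarith
    have h3 := tele hr1 (hx0 j) hM1 hM2
    rw [← hxs j] at h3
    have hC20 : 0 < C2 := by linarith
    rwa [inv_mul_le_iff₀ hC20] at h3
  have hsum : ∑ j ∈ Finset.range n, x j * Real.exp (-(c * ε * 2 ^ j)) ≤
      C2 * (2 * (1 + r) / (r - 1)) := by
    refine (Finset.sum_le_sum fun j _ => hterm j).trans ?_
    rw [← Finset.mul_sum, ← Finset.mul_sum,
      Finset.sum_range_sub (fun j => x j / (1 + x j))]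
    have e1 : x n / (1 + x n) ≤ 1 := by
      have := hx0 n
      rw [div_le_one (by linarith)]
      linarith
    have e2 : 0 ≤ x 0 / (1 + x 0) := by
      have := hx0 0
      positivity
    rw [← mul_assoc]
    apply mul_le_of_le_one_right (by positivity)
    linarith
  have e3 : ∀ j, ((2 : ℝ) ^ j) ^ s * Real.exp (-(c * ε * 2 ^ j)) =
      ε ^ (-s) * (x j * Real.exp (-(c * ε * 2 ^ j))) := by
    intro j
    simp only [hx]
    rw [Real.mul_rpow hε.le (by positivity), Real.rpow_neg hε.le]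
    have : ε ^ s ≠ 0 := (Real.rpow_pos_of_pos hε _).ne'
    field_simp
  rw [Finset.sum_congr rfl fun j _ => e3 j, ← Finset.mul_sum, mul_comm]
  exact mul_le_mul_of_nonneg_right hsum (Real.rpow_nonneg hε.le _)

/-- the same with a negative exponent -/
theorem geo_sum_neg {s c : ℝ} (hs : s < 0) (hc : 0 < c) :
    ∃ C : ℝ, 0 ≤ C ∧ ∀ ε : ℝ, 0 < ε → ∀ n : ℕ,
      ∑ j ∈ Finset.range n, ((2 : ℝ) ^ j) ^ s * Real.exp (-(c * ε * 2 ^ j)) ≤ C := by
  have h1 : (2 : ℝ) ^ s < 1 := Real.rpow_lt_one_of_one_lt_of_neg one_lt_two hs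
  have h0 : 0 < (2 : ℝ) ^ s := Real.rpow_pos_of_pos two_pos _
  refine ⟨(1 - (2 : ℝ) ^ s)⁻¹, by
    have : 0 < 1 - (2 : ℝ) ^ s := by linarith
    positivity, fun ε hε n => ?_⟩
  have h2 : ∀ j, ((2 : ℝ) ^ j) ^ s * Real.exp (-(c * ε * 2 ^ j)) ≤ ((2 : ℝ) ^ s) ^ j := by
    intro j
    have e1 : Real.exp (-(c * ε * 2 ^ j)) ≤ 1 := Real.exp_le_one_iff.2 (by
      have : 0 ≤ c * ε * 2 ^ j := by positivity
      linarith)
    have e2 : ((2 : ℝ) ^ j) ^ s = ((2 : ℝ) ^ s) ^ j := by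
      rw [← Real.rpow_natCast, ← Real.rpow_mul two_pos.le, mul_comm, Real.rpow_mul two_pos.le,
        Real.rpow_natCast]
    rw [e2]
    exact mul_le_of_le_one_right (by positivity) e1
  refine (Finset.sum_le_sum fun j _ => h2 j).trans ?_
  rw [← tsum_geometric_of_lt_one h0.le h1]
  exact (summable_geometric_of_lt_one h0.le h1).sum_le_tsum _ (fun j _ => by positivity)

/-- covering of the line -/
theorem cover : (Set.univ : Set ℝ) ⊆ {κ : ℝ | |κ| ≤ 1} ∪ ⋃ j : ℕ, blk (2 ^ j) := by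
  intro κ _
  rcases le_or_gt |κ| 1 with h | h
  · exact Or.inl h
  · right
    obtain ⟨j, h1, h2⟩ := exists_nat_pow_near h.le one_lt_two
    refine Set.mem_iUnion.2 ⟨j, h1, ?_⟩
    rw [pow_succ] at h2
    linarith

/-- **Part B.** The final estimate -/
theorem finalEstimate {N : ℕ} [NeZero N] (V : Finset (ZMod N × ZMod N))
    (hV : ∀ u : (ZMod N)ˣ, ∀ v ∈ V, ((u : ZMod N) * v.1, (u : ZMod N) * v.2) ∈ V)
    (k : ℕ) (lam : ℕ → ℂ)
    (hlam : ∃ C : ℝ, ∀ x : ℕ, ∑ n ∈ Finset.Icc 1 x, ‖lam n‖ ^ 2 ≤ C * x)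
    (a : ZMod N × ZMod N → ℝ → ℂ) (ham : ∀ v ∈ V, AEMeasurable (a v))
    (hA : ∃ d : ℝ, 0 < d ∧ ∃ C : ℝ, ∀ K : ℝ, 1 ≤ K → ∀ P : ℕ, 1 ≤ P → (P : ℝ) ≤ K ^ d →
      ∀ PP : Finset ℕ, (∀ p ∈ PP, p.Prime ∧ ¬ p ∣ N ∧ P ≤ p ∧ p ≤ 2 * P ∧
        ‖lam p‖ ≤ (p : ℝ) ^ (1 / 8 : ℝ)) →
      ∑ v ∈ V, ∫⁻ κ in blk K,
        ENNReal.ofReal (‖AP PP a v κ‖ ^ 2 * Real.exp (Real.pi * |κ|)) ≤
        ENNReal.ofReal (C * (P : ℝ) ^ (3 / 2 : ℝ) * K ^ (2 * k)))
    (h1 : ∃ C : ℝ, ∀ K : ℝ, 1 ≤ K → ∑ v ∈ V, ∫⁻ κ in blk K,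
        ENNReal.ofReal (‖a v κ‖ ^ 2 * Real.exp (Real.pi * |κ|)) ≤
        ENNReal.ofReal (C * K ^ (2 * k)))
    (h0 : ∀ v ∈ V, ∫⁻ κ in {κ : ℝ | |κ| ≤ 1}, ENNReal.ofReal (‖a v κ‖ ^ 2) ≠ ⊤)
    (Z : ZMod N × ZMod N → ℝ → ℂ)
    (hZ1 : ∀ e : ℝ, 0 < e → ∃ C : ℝ, ∀ K : ℝ, 1 ≤ K → ∀ v ∈ V,
      ∫⁻ κ in {κ : ℝ | |κ| ≤ K}, ENNReal.ofReal (‖Z v κ‖ ^ 2) ≤ ENNReal.ofReal (C * K ^ (1 + e)))
    (hZ2 : ∃ d : ℝ, 0 < d ∧ ∃ C : ℝ, ∀ v ∈ V, ∀ κ : ℝ, ‖Z v κ‖ ≤ C * (1 + |κ|) ^ (1 / 2 - d)) :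
    ∃ δ : ℝ, 0 < δ ∧ δ < 1 ∧ ∀ c : ℝ, 0 < c → ∃ C : ℝ, 0 ≤ C ∧
      ∀ ε : ℝ, 0 < ε → ε ≤ 1 → ∀ B : ℝ, 0 ≤ B → ∀ H : ℝ → ℂ,
      (∀ κ : ℝ, ‖H κ‖ ≤ B * (1 + |κ|) ^ (-(1 / 2) : ℝ) *
        Real.exp ((Real.pi / 2 - c * ε) * |κ|)) →
      ∑ v ∈ V, ∫⁻ κ, ‖a v κ * Z v κ * H κ‖ₑ ≤
        ENNReal.ofReal (C * B * (if k = 0 then 1 else ε ^ (-(k : ℝ) + δ))) := by
  classical
  obtain ⟨δ, hδ0, hδ1, CK, hCK0, hcore⟩ := core V hV k lam hlam a ham hA h1 Z hZ1 hZ2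
  obtain ⟨d, hd, CZ', hZ⟩ := hZ2
  refine ⟨δ, hδ0, hδ1, fun c hc => ?_⟩
  -- the sum over blocks
  have hgeo : ∃ CG : ℝ, 0 ≤ CG ∧ ∀ ε : ℝ, 0 < ε → ∀ n : ℕ,
      ∑ j ∈ Finset.range n, ((2 : ℝ) ^ j) ^ ((k : ℝ) - δ) * Real.exp (-(c * ε * 2 ^ j)) ≤
        CG * (if k = 0 then 1 else ε ^ (-(k : ℝ) + δ)) := by
    by_cases hk : k = 0
    · obtain ⟨CG, hCG, h⟩ := geo_sum_neg (s := (k : ℝ) - δ) (c := c) (by
        rw [hk]; push_cast; linarith) hc
      refine ⟨CG, hCG, fun ε hε n => ?_⟩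
      rw [if_pos hk, mul_one]
      exact h ε hε n
    · have hk1 : (1 : ℝ) ≤ k := by exact_mod_cast Nat.one_le_iff_ne_zero.2 hk
      obtain ⟨CG, hCG, h⟩ := geo_sum (s := (k : ℝ) - δ) (c := c) (by linarith) hc
      refine ⟨CG, hCG, fun ε hε n => ?_⟩
      rw [if_neg hk]
      have e : -(k : ℝ) + δ = -((k : ℝ) - δ) := by ring
      rw [e]
      exact h ε hε n
  obtain ⟨CG, hCG0, hG⟩ := hgeo
  set CZ := |CZ'| with hCZ
  have hCZ0 : 0 ≤ CZ := abs_nonneg _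
  set Mv : ZMod N × ZMod N → ℝ := fun v =>
    (∫⁻ κ in {κ : ℝ | |κ| ≤ 1}, ENNReal.ofReal (‖a v κ‖ ^ 2)).toReal with hMv
  have hMv0 : ∀ v, 0 ≤ Mv v := fun v => ENNReal.toReal_nonneg
  set CL : ℝ := 2 * CZ * Real.exp (Real.pi / 2) * (2 + ∑ v ∈ V, Mv v) with hCL
  have hsMv : 0 ≤ ∑ v ∈ V, Mv v := Finset.sum_nonneg fun v _ => hMv0 v
  have hCL0 : 0 ≤ CL := by positivity
  refine ⟨(#V : ℝ) * (CL + CK * CG), by positivity, ?_⟩
  intro ε hε hε1 B hB H hH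
  set T : ℝ := (if k = 0 then 1 else ε ^ (-(k : ℝ) + δ)) with hT
  have hT1 : 1 ≤ T := by
    rw [hT]
    split_ifs with hk
    · exact le_rfl
    · have hk1 : (1 : ℝ) ≤ k := by exact_mod_cast Nat.one_le_iff_ne_zero.2 hk
      exact Real.one_le_rpow_of_pos_of_le_one_of_nonpos hε hε1 (by linarith)
  -- the low part
  have hlow : ∀ v ∈ V, ∫⁻ κ in {κ : ℝ | |κ| ≤ 1}, ‖a v κ * Z v κ * H κ‖ₑ ≤
      ENNReal.ofReal (CL * B) := by
    intro v hv
    have hmeas : MeasurableSet {κ : ℝ | |κ| ≤ 1} :=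
      (isClosed_le continuous_abs continuous_const).measurableSet
    have hpt : ∀ κ ∈ {κ : ℝ | |κ| ≤ 1}, ‖a v κ * Z v κ * H κ‖ₑ ≤
        ENNReal.ofReal (2 * CZ * Real.exp (Real.pi / 2) * B) *
          (1 + ENNReal.ofReal (‖a v κ‖ ^ 2)) := by
      intro κ hκ
      have hκ1 : |κ| ≤ 1 := hκ
      rw [← ENNReal.ofReal_one, ← ENNReal.ofReal_add zero_le_one (by positivity),
        ← ENNReal.ofReal_mul (by positivity), ← ofReal_norm]
      apply ENNReal.ofReal_le_ofReal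
      rw [norm_mul, norm_mul]
      have e1 : ‖Z v κ‖ ≤ 2 * CZ := by
        refine (hZ v hv κ).trans ?_
        have e2 : (1 + |κ|) ^ (1 / 2 - d) ≤ 2 := by
          have e3 : (1 : ℝ) ≤ 1 + |κ| := by linarith [abs_nonneg κ]
          calc (1 + |κ|) ^ (1 / 2 - d) ≤ (1 + |κ|) ^ (1 : ℝ) :=
                Real.rpow_le_rpow_of_exponent_le e3 (by linarith)
            _ = 1 + |κ| := Real.rpow_one _
            _ ≤ 2 := by linarith
        have e4 : 0 ≤ (1 + |κ|) ^ (1 / 2 - d) := Real.rpow_nonneg (by positivity) _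
        calc CZ' * (1 + |κ|) ^ (1 / 2 - d) ≤ CZ * (1 + |κ|) ^ (1 / 2 - d) :=
              mul_le_mul_of_nonneg_right (le_abs_self _) e4
          _ ≤ CZ * 2 := mul_le_mul_of_nonneg_left e2 hCZ0
          _ = _ := by ring
      have e5 : ‖H κ‖ ≤ B * Real.exp (Real.pi / 2) := by
        refine (hH κ).trans ?_
        have e6 : (1 + |κ|) ^ (-(1 / 2) : ℝ) ≤ 1 :=
          Real.rpow_le_one_of_one_le_of_nonpos (by linarith [abs_nonneg κ]) (by norm_num)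
        have e7 : Real.exp ((Real.pi / 2 - c * ε) * |κ|) ≤ Real.exp (Real.pi / 2) := by
          apply Real.exp_le_exp.2
          have e8 : 0 ≤ c * ε * |κ| := by positivity
          have e9 : Real.pi / 2 * |κ| ≤ Real.pi / 2 * 1 :=
            mul_le_mul_of_nonneg_left hκ1 (by positivity)
          linarith
        have e10 : 0 ≤ (1 + |κ|) ^ (-(1 / 2) : ℝ) := Real.rpow_nonneg (by positivity) _
        calc B * (1 + |κ|) ^ (-(1 / 2) : ℝ) * Real.exp ((Real.pi / 2 - c * ε) * |κ|)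
            ≤ B * 1 * Real.exp (Real.pi / 2) := by gcongr
          _ = _ := by ring
      have e11 : ‖a v κ‖ ≤ 1 + ‖a v κ‖ ^ 2 := by nlinarith [sq_nonneg (‖a v κ‖ - 1)]
      calc ‖a v κ‖ * ‖Z v κ‖ * ‖H κ‖ ≤ (1 + ‖a v κ‖ ^ 2) * (2 * CZ) *
            (B * Real.exp (Real.pi / 2)) := by gcongr
        _ = _ := by ring
    calc ∫⁻ κ in {κ : ℝ | |κ| ≤ 1}, ‖a v κ * Z v κ * H κ‖ₑ
        ≤ ∫⁻ κ in {κ : ℝ | |κ| ≤ 1}, ENNReal.ofReal (2 * CZ * Real.exp (Real.pi / 2) * B) *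
          (1 + ENNReal.ofReal (‖a v κ‖ ^ 2)) := setLIntegral_mono' hmeas hpt
      _ = ENNReal.ofReal (2 * CZ * Real.exp (Real.pi / 2) * B) *
          ((∫⁻ κ in {κ : ℝ | |κ| ≤ 1}, 1) +
            ∫⁻ κ in {κ : ℝ | |κ| ≤ 1}, ENNReal.ofReal (‖a v κ‖ ^ 2)) := by
          rw [lintegral_const_mul' _ _ ENNReal.ofReal_ne_top, lintegral_add_left measurable_const]
      _ = ENNReal.ofReal (2 * CZ * Real.exp (Real.pi / 2) * B) *
          (ENNReal.ofReal 2 + ENNReal.ofReal (Mv v)) := by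
          congr 2
          · rw [setLIntegral_const, one_mul]
            have : {κ : ℝ | |κ| ≤ 1} = Set.Icc (-1) 1 := by
              ext κ
              exact ⟨fun h => abs_le.1 h, fun h => abs_le.2 h⟩
            rw [this, Real.volume_Icc]
            norm_num
          · rw [hMv]
            simp only
            rw [ENNReal.ofReal_toReal (h0 v hv)]
      _ ≤ ENNReal.ofReal (CL * B) := by
          rw [← ENNReal.ofReal_add (by norm_num) (hMv0 v), ← ENNReal.ofReal_mul (by positivity)]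
          apply ENNReal.ofReal_le_ofReal
          have e1 : Mv v ≤ ∑ w ∈ V, Mv w := Finset.single_le_sum (fun w _ => hMv0 w) hv
          rw [hCL]
          calc 2 * CZ * Real.exp (Real.pi / 2) * B * (2 + Mv v)
              ≤ 2 * CZ * Real.exp (Real.pi / 2) * B * (2 + ∑ w ∈ V, Mv w) := by gcongr
            _ = _ := by ring
  -- the blocks
  have hblk : ∀ v ∈ V, ∀ j : ℕ, ∫⁻ κ in blk (2 ^ j), ‖a v κ * Z v κ * H κ‖ₑ ≤
      ENNReal.ofReal (B * CK * (((2 : ℝ) ^ j) ^ ((k : ℝ) - δ) *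
        Real.exp (-(c * ε * 2 ^ j)))) := by
    intro v hv j
    set K : ℝ := 2 ^ j with hK
    have hK1 : 1 ≤ K := one_le_pow₀ one_le_two
    have hK0 : 0 < K := by linarith
    have hmb : MeasurableSet (blk K) := by
      have h1 : MeasurableSet {κ : ℝ | K ≤ |κ|} :=
        (isClosed_le continuous_const continuous_abs).measurableSet
      have h2 : MeasurableSet {κ : ℝ | |κ| ≤ 2 * K} :=
        (isClosed_le continuous_abs continuous_const).measurableSet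
      exact h1.inter h2
    have hw0 : 0 ≤ B * K ^ (-(1 / 2) : ℝ) * Real.exp (-(c * ε * K)) := by
      have : 0 ≤ K ^ (-(1 / 2) : ℝ) := Real.rpow_nonneg hK0.le _
      positivity
    have hpt : ∀ κ ∈ blk K, ‖a v κ * Z v κ * H κ‖ₑ ≤
        ENNReal.ofReal (B * K ^ (-(1 / 2) : ℝ) * Real.exp (-(c * ε * K))) *
          ENNReal.ofReal (‖a v κ‖ * ‖Z v κ‖ * Real.exp (Real.pi / 2 * |κ|)) := by
      intro κ hκ
      rw [← ENNReal.ofReal_mul hw0, ← ofReal_norm]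
      apply ENNReal.ofReal_le_ofReal
      rw [norm_mul, norm_mul]
      have e1 : (1 + |κ|) ^ (-(1 / 2) : ℝ) ≤ K ^ (-(1 / 2) : ℝ) :=
        Real.rpow_le_rpow_of_nonpos hK0 (by linarith [hκ.1]) (by norm_num)
      have e2 : Real.exp ((Real.pi / 2 - c * ε) * |κ|) ≤
          Real.exp (Real.pi / 2 * |κ|) * Real.exp (-(c * ε * K)) := by
        rw [← Real.exp_add]
        apply Real.exp_le_exp.2
        have : c * ε * K ≤ c * ε * |κ| := mul_le_mul_of_nonneg_left hκ.1 (by positivity)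
        linarith
      have e3 : 0 ≤ K ^ (-(1 / 2) : ℝ) := Real.rpow_nonneg hK0.le _
      have e4 : ‖H κ‖ ≤ B * K ^ (-(1 / 2) : ℝ) *
          (Real.exp (Real.pi / 2 * |κ|) * Real.exp (-(c * ε * K))) := by
        refine (hH κ).trans ?_
        have e5 : 0 ≤ (1 + |κ|) ^ (-(1 / 2) : ℝ) := Real.rpow_nonneg (by positivity) _
        gcongr
      calc ‖a v κ‖ * ‖Z v κ‖ * ‖H κ‖ ≤ ‖a v κ‖ * ‖Z v κ‖ * (B * K ^ (-(1 / 2) : ℝ) *
          (Real.exp (Real.pi / 2 * |κ|) * Real.exp (-(c * ε * K)))) := by gcongr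
        _ = _ := by ring
    calc ∫⁻ κ in blk K, ‖a v κ * Z v κ * H κ‖ₑ
        ≤ ∫⁻ κ in blk K, ENNReal.ofReal (B * K ^ (-(1 / 2) : ℝ) * Real.exp (-(c * ε * K))) *
          ENNReal.ofReal (‖a v κ‖ * ‖Z v κ‖ * Real.exp (Real.pi / 2 * |κ|)) :=
          setLIntegral_mono' hmb hpt
      _ = ENNReal.ofReal (B * K ^ (-(1 / 2) : ℝ) * Real.exp (-(c * ε * K))) *
          ∫⁻ κ in blk K, ENNReal.ofReal (‖a v κ‖ * ‖Z v κ‖ * Real.exp (Real.pi / 2 * |κ|)) :=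
          lintegral_const_mul' _ _ ENNReal.ofReal_ne_top
      _ ≤ ENNReal.ofReal (B * K ^ (-(1 / 2) : ℝ) * Real.exp (-(c * ε * K))) *
          ENNReal.ofReal (CK * K ^ ((k : ℝ) + 1 / 2 - δ)) := by
          gcongr
          exact hcore K hK1 v hv
      _ = _ := by
          rw [← ENNReal.ofReal_mul hw0]
          congr 1
          have e1 : K ^ ((k : ℝ) - δ) = K ^ (-(1 / 2) : ℝ) * K ^ ((k : ℝ) + 1 / 2 - δ) := by
            rw [← Real.rpow_add hK0]; congr 1; ring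
          rw [e1]; ring
  -- everything
  have hone : ∀ v ∈ V, ∫⁻ κ, ‖a v κ * Z v κ * H κ‖ₑ ≤
      ENNReal.ofReal ((CL + CK * CG) * B * T) := by
    intro v hv
    calc ∫⁻ κ, ‖a v κ * Z v κ * H κ‖ₑ = ∫⁻ κ in Set.univ, ‖a v κ * Z v κ * H κ‖ₑ := by
          rw [Measure.restrict_univ]
      _ ≤ ∫⁻ κ in {κ : ℝ | |κ| ≤ 1} ∪ ⋃ j : ℕ, blk (2 ^ j), ‖a v κ * Z v κ * H κ‖ₑ :=
          lintegral_mono_set cover
      _ ≤ (∫⁻ κ in {κ : ℝ | |κ| ≤ 1}, ‖a v κ * Z v κ * H κ‖ₑ) +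
          (∫⁻ κ in ⋃ j : ℕ, blk (2 ^ j), ‖a v κ * Z v κ * H κ‖ₑ) := lintegral_union_le _ _ _
      _ ≤ ENNReal.ofReal (CL * B) + ENNReal.ofReal (B * CK * (CG * T)) := by
          refine add_le_add (hlow v hv) ((lintegral_iUnion_le _ _).trans ?_)
          refine ENNReal.tsum_le_of_sum_range_le fun n => ?_
          refine (Finset.sum_le_sum fun j _ => hblk v hv j).trans ?_
          rw [← ENNReal.ofReal_sum_of_nonneg (fun j _ => by positivity)]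
          apply ENNReal.ofReal_le_ofReal
          rw [← Finset.mul_sum]
          exact mul_le_mul_of_nonneg_left (hG ε hε n) (by positivity)
      _ ≤ _ := by
          have hT0 : 0 ≤ T := by linarith
          rw [← ENNReal.ofReal_add (by positivity) (by positivity)]
          apply ENNReal.ofReal_le_ofReal
          have e1 : CL * B ≤ CL * B * T := le_mul_of_one_le_right (by positivity) hT1
          calc CL * B + B * CK * (CG * T) ≤ CL * B * T + B * CK * (CG * T) := by linarith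
            _ = _ := by ring
  calc ∑ v ∈ V, ∫⁻ κ, ‖a v κ * Z v κ * H κ‖ₑ
      ≤ ∑ _v ∈ V, ENNReal.ofReal ((CL + CK * CG) * B * T) := Finset.sum_le_sum hone
    _ = ENNReal.ofReal ((#V : ℝ) * (CL + CK * CG) * B * T) := by
        rw [Finset.sum_const, nsmul_eq_mul, ← ENNReal.ofReal_natCast,
          ← ENNReal.ofReal_mul (Nat.cast_nonneg _)]
        congr 1
        ring

end Pool.Agent.JOL
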