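import Pool.Agent.Lib_helper87.JO.L3i

/-!
# Project JO, part L3: Maass forms of weight 0
-/

set_option autoImplicit false

namespace Pool.Agent.JOL

open MeasureTheory Filter Topology
open Pool.Agent.JO Pool.Agent.JO.FM
open scoped ComplexConjugate ENNReal

theorem goodNu_cases {ν : ℂ} (h : GoodNu ν) : ν = (ν.re : ℂ) ∨ ν.re = 0 := by
  rcases h.real_or with h1 | h1
  · left
    apply Complex.ext <;> simp [h1]
  · exact Or.inr h1

/-- `k(y) = √(2π) y^σ K_ν(2πy)` -/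
noncomputable def k0 (ν : ℂ) (y : ℝ) : ℂ := ((√(2 * Real.pi) : ℝ) : ℂ) * kb ν.re ν y

noncomputable def k0' (ν : ℂ) (y : ℝ) : ℂ := ((√(2 * Real.pi) : ℝ) : ℂ) * kb' ν.re ν y

theorem khyp0 {ν : ℂ} (h : GoodNu ν) : KHyp ν.re (k0 ν) (k0' ν) := by
  have hA : 0 ≤ √(2 * Real.pi) := Real.sqrt_nonneg _
  refine ⟨h.nonneg, h.lt_half, ?_, ?_, ?_, ?_, ?_, ?_⟩
  · intro y hy
    exact (kb_deriv ν.re ν hy).const_mul _
  · exact (kb'_cont ν.re ν).const_smul ((√(2 * Real.pi) : ℝ) : ℂ)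
  · exact (kb_meas ν.re ν).const_mul _
  · exact (kb'_meas ν.re ν).const_mul _
  · intro ε hε
    obtain ⟨C, hC, hb⟩ := kb_bd ν.re ν (ν.re + ε) (by have := h.nonneg; linarith) (by
      rw [abs_of_nonneg h.nonneg]; linarith)
    refine ⟨√(2 * Real.pi) * C, by positivity, fun y hy => ?_⟩
    rw [k0, norm_mul, Complex.norm_real, Real.norm_of_nonneg hA]
    have h1 := hb y hy
    rw [show ν.re - (ν.re + ε) = -ε by ring] at h1
    calc √(2 * Real.pi) * ‖kb ν.re ν y‖ ≤ √(2 * Real.pi) * (C * y ^ (-ε) * Real.exp (-y)) := by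
          gcongr
      _ = _ := by ring
  · have key : ∃ C : ℝ, 0 ≤ C ∧ ∀ y : ℝ, 0 < y →
        ‖kb' ν.re ν y‖ ≤ C * y ^ (2 * ν.re - 1) * Real.exp (-y) := by
      rcases goodNu_cases h with h1 | h1
      · obtain ⟨C, hC, hb⟩ := kb'_bd1 ν.re h.lt_half
        rw [← h1] at hb
        exact ⟨C, hC, hb⟩
      · obtain ⟨C, hC, hb⟩ := kb'_bd0 ν h1
        refine ⟨C, hC, fun y hy => ?_⟩
        rw [h1, mul_zero, zero_sub]
        exact hb y hy
    obtain ⟨C, hC, hb⟩ := key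
    refine ⟨√(2 * Real.pi) * C, by positivity, fun y hy => ?_⟩
    rw [k0', norm_mul, Complex.norm_real, Real.norm_of_nonneg hA]
    calc √(2 * Real.pi) * ‖kb' ν.re ν y‖
        ≤ √(2 * Real.pi) * (C * y ^ (2 * ν.re - 1) * Real.exp (-y)) := by
          have := hb y hy
          gcongr
      _ = _ := by ring

theorem ww_k0 (ν : ℂ) {y : ℝ} (hy : 0 < y) :
    WW ν (2 * Real.pi * y) = ((y ^ (1 / 2 - ν.re) : ℝ) : ℂ) * k0 ν y := by
  have hpi := Real.pi_pos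
  have e1 : √(2 * Real.pi * y) = √(2 * Real.pi) * (y ^ (1 / 2 - ν.re) * y ^ ν.re) := by
    rw [Real.sqrt_mul (by positivity), ← Real.rpow_add hy, Real.sqrt_eq_rpow y]
    congr 2
    ring
  rw [WW, k0, kb, e1]
  push_cast
  ring

theorem k0_nonzero (ν : ℂ) : ∃ y ∈ Set.Ioo (3 / 20 : ℝ) (9 / 50), k0 ν y ≠ 0 := by
  have hpi := Real.pi_pos
  obtain ⟨x, hx, h⟩ := kan_nonzero (Finset.univ : Finset Unit) (fun _ => ν) (fun _ => 1)
    (by simp) (2 * Real.pi * (3 / 20)) (2 * Real.pi * (9 / 50)) (by positivity)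
    (by nlinarith)
  have hxy : 2 * Real.pi * (x / (2 * Real.pi)) = x := by field_simp
  have h1 : 3 / 20 < x / (2 * Real.pi) := by
    rw [lt_div_iff₀ (by positivity)]; linarith [hx.1]
  have h2 : x / (2 * Real.pi) < 9 / 50 := by
    rw [div_lt_iff₀ (by positivity)]; linarith [hx.2]
  refine ⟨x / (2 * Real.pi), ⟨h1, h2⟩, ?_⟩
  have hy : 0 < x / (2 * Real.pi) := by linarith
  rw [k0, kb, hxy]
  simp only [Finset.univ_unique, one_mul, Finset.sum_const, Finset.card_singleton,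
    one_smul] at h
  have hA : (√(2 * Real.pi) : ℝ) ≠ 0 := (Real.sqrt_pos.2 (by positivity)).ne'
  have hB : (x / (2 * Real.pi)) ^ ν.re ≠ 0 := (Real.rpow_pos_of_pos hy _).ne'
  exact mul_ne_zero (by exact_mod_cast hA) (mul_ne_zero (by exact_mod_cast hB) h)

/-- the closed form -/
noncomputable def Z0 (ν : ℂ) (s : ℂ) : ℂ :=
  (1 - 2 * (ν.re : ℂ) - s) * (((2 * Real.pi : ℝ) : ℂ) ^ s * ((2 : ℂ) ^ (-2 - s) *
    (Complex.Gamma ((1 - s) / 2 + ν) * Complex.Gamma ((1 - s) / 2 - ν)) *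
    (Complex.Gamma ((1 - s) / 2) * Complex.Gamma ((1 - s) / 2)) * (Complex.Gamma (1 - s))⁻¹))

theorem Z0_mellin {ν : ℂ} (h : GoodNu ν) {s : ℂ} (hs : s.re < 0) :
    mellin (fLoc (fun y => WW ν (2 * Real.pi * y)) 1 UpperHalfPlane.I) (-s) =
      ((2 * Real.pi : ℝ) : ℂ) ^ s * ((2 : ℂ) ^ (-2 - s) *
    (Complex.Gamma ((1 - s) / 2 + ν) * Complex.Gamma ((1 - s) / 2 - ν)) *
    (Complex.Gamma ((1 - s) / 2) * Complex.Gamma ((1 - s) / 2)) * (Complex.Gamma (1 - s))⁻¹) := by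
  have hpi := Real.pi_pos
  have hnn := h.nonneg
  have hlt := h.lt_half
  set g : ℝ → ℂ := fun x => (x : ℂ) * (KK ν x * KK ν x) with hg
  have h1 : ∀ y ∈ Set.Ioi (0 : ℝ), fLoc (fun y => WW ν (2 * Real.pi * y)) 1 UpperHalfPlane.I y =
      g (2 * Real.pi * y) := by
    intro y hy
    have hy0 : 0 < y := hy
    have e1 : conj (KK ν (2 * Real.pi * y)) = KK ν (2 * Real.pi * y) :=
      Complex.conj_eq_iff_im.2 (kk_real h _)
    have e2 : ((√(2 * Real.pi * y) : ℝ) : ℂ) * ((√(2 * Real.pi * y) : ℝ) : ℂ) =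
        ((2 * Real.pi * y : ℝ) : ℂ) := by
      rw [← Complex.ofReal_mul, Real.mul_self_sqrt (by positivity)]
    rw [fLoc, UpperHalfPlane.I_im, UpperHalfPlane.I_re, one_mul]
    simp only [one_mul, zero_mul, Complex.ofReal_zero, mul_zero, neg_zero, Complex.exp_zero,
      mul_one, WW, map_mul, Complex.conj_ofReal, e1, hg]
    rw [← e2]
    ring
  have h2 : mellin (fLoc (fun y => WW ν (2 * Real.pi * y)) 1 UpperHalfPlane.I) (-s) =
      mellin (fun y => g (2 * Real.pi * y)) (-s) := by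
    rw [mellin, mellin]
    exact setIntegral_congr_fun measurableSet_Ioi fun y hy => by
      simp only [h1 y hy]
  rw [h2, mellin_comp_mul_left g (-s) (by positivity : (0 : ℝ) < 2 * Real.pi), neg_neg,
    smul_eq_mul, mellin]
  congr 1
  have h3 : |ν.re| + |ν.re| < (1 - s).re := by
    rw [abs_of_nonneg hnn, Complex.sub_re, Complex.one_re]; linarith
  have h4 := kpr_mellin ν ν (1 - s) h3
  have h5 : ∫ t in Set.Ioi (0 : ℝ), (t : ℂ) ^ (-s - 1) • g t =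
      ∫ x in Set.Ioi (0 : ℝ), KK ν x * KK ν x * (x : ℂ) ^ ((1 - s) - 1) := by
    refine setIntegral_congr_fun measurableSet_Ioi fun x hx => ?_
    have hx0 : (0 : ℝ) < x := hx
    have hxc : (x : ℂ) ≠ 0 := by exact_mod_cast hx0.ne'
    have e3 : (x : ℂ) ^ ((1 - s) - 1) = (x : ℂ) ^ (-s - 1) * x := by
      rw [show (1 - s) - 1 = (-s - 1) + 1 by ring, Complex.cpow_add _ _ hxc, Complex.cpow_one]
    simp only [hg, smul_eq_mul]
    rw [e3]
    ring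
  rw [h5, h4]
  rw [show (1 - s + ν + ν) / 2 = (1 - s) / 2 + ν by ring,
    show (1 - s - ν - ν) / 2 = (1 - s) / 2 - ν by ring,
    show (1 - s + ν - ν) / 2 = (1 - s) / 2 by ring,
    show (1 - s - ν + ν) / 2 = (1 - s) / 2 by ring,
    show (1 : ℂ) - s - 3 = -2 - s by ring, div_eq_mul_inv]

theorem Z0_diff {ν : ℂ} (h : GoodNu ν) :
    DifferentiableOn ℂ (Z0 ν) {s | s.re < 3 / 4 ∧ s.im ≠ 0} := by
  intro s hs
  have hre : s.re < 3 / 4 := hs.1
  have him : s.im ≠ 0 := hs.2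
  have hpi := Real.pi_pos
  have hnn := h.nonneg
  have a1 : ∀ m : ℕ, (1 - s) / 2 + ν ≠ -(m : ℂ) := by
    intro m hm
    have h1 := congrArg Complex.re hm
    simp only [Complex.add_re, Complex.neg_re, Complex.natCast_re, Complex.div_ofNat_re,
      Complex.sub_re, Complex.one_re] at h1
    have h2 : (0 : ℝ) ≤ m := Nat.cast_nonneg m
    linarith
  have a2 : ∀ m : ℕ, (1 - s) / 2 - ν ≠ -(m : ℂ) := by
    intro m hm
    rcases h.real_or with h3 | h3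
    · have h1 := congrArg Complex.im hm
      simp only [Complex.sub_im, Complex.neg_im, Complex.natCast_im, Complex.div_ofNat_im,
        Complex.one_im, h3] at h1
      apply him
      linarith
    · have h1 := congrArg Complex.re hm
      simp only [Complex.sub_re, Complex.neg_re, Complex.natCast_re, Complex.div_ofNat_re,
        Complex.one_re, h3] at h1
      have h2 : (0 : ℝ) ≤ m := Nat.cast_nonneg m
      linarith
  have a3 : ∀ m : ℕ, (1 - s) / 2 ≠ -(m : ℂ) := by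
    intro m hm
    have h1 := congrArg Complex.re hm
    simp only [Complex.neg_re, Complex.natCast_re, Complex.div_ofNat_re,
      Complex.sub_re, Complex.one_re] at h1
    have h2 : (0 : ℝ) ≤ m := Nat.cast_nonneg m
    linarith
  have l1 : DifferentiableAt ℂ (fun s : ℂ => (1 - s) / 2) s := by fun_prop
  have d1 : DifferentiableAt ℂ (fun s : ℂ => Complex.Gamma ((1 - s) / 2 + ν)) s :=
    DifferentiableAt.comp (g := Complex.Gamma) s (Complex.differentiableAt_Gamma _ a1)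
      (l1.add_const ν)
  have d2 : DifferentiableAt ℂ (fun s : ℂ => Complex.Gamma ((1 - s) / 2 - ν)) s :=
    DifferentiableAt.comp (g := Complex.Gamma) s (Complex.differentiableAt_Gamma _ a2)
      (l1.sub_const ν)
  have d3 : DifferentiableAt ℂ (fun s : ℂ => Complex.Gamma ((1 - s) / 2)) s :=
    DifferentiableAt.comp (g := Complex.Gamma) s (Complex.differentiableAt_Gamma _ a3) l1
  have d4 : DifferentiableAt ℂ (fun s : ℂ => (Complex.Gamma (1 - s))⁻¹) s := by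
    have l2 : DifferentiableAt ℂ (fun s : ℂ => 1 - s) s := by fun_prop
    exact DifferentiableAt.comp (g := fun s : ℂ => (Complex.Gamma s)⁻¹) s
      (Complex.differentiable_one_div_Gamma _) l2
  have d5 : DifferentiableAt ℂ (fun s : ℂ => ((2 * Real.pi : ℝ) : ℂ) ^ s) s := by
    refine DifferentiableAt.const_cpow differentiableAt_id (Or.inl ?_)
    exact_mod_cast (by positivity : (2 * Real.pi : ℝ) ≠ 0)
  have d6 : DifferentiableAt ℂ (fun s : ℂ => (2 : ℂ) ^ (-2 - s)) s := by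
    refine DifferentiableAt.const_cpow (by fun_prop) (Or.inl two_ne_zero)
  have d7 : DifferentiableAt ℂ (fun s : ℂ => 1 - 2 * (ν.re : ℂ) - s) s := by fun_prop
  unfold Z0
  exact (d7.mul (d5.mul (((d6.mul (d1.mul d2)).mul (d3.mul d3)).mul d4))).differentiableWithinAt

theorem YY0_eq {ν : ℂ} (h : GoodNu ν) (κ : ℝ) (hκ : κ ≠ 0) :
    YY ν.re (k0 ν) (k0' ν) 1 UpperHalfPlane.I ((1 / 2 : ℝ) + (κ : ℂ) * Complex.I) =
      Z0 ν ((1 / 2 : ℝ) + (κ : ℂ) * Complex.I) := by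
  refine ident (YY_diffOn (khyp0 h) abs_one _) (Z0_diff h) (fun s hs _ => ?_) κ hκ
  rw [YY_mellin (khyp0 h) abs_one (W := fun y => WW ν (2 * Real.pi * y))
    (fun y hy => ww_k0 ν hy) UpperHalfPlane.I hs, Z0_mellin h hs, Z0]

/-- at `w = i` the sign does not matter -/
theorem YY_I_sign (σ : ℝ) (k k' : ℝ → ℂ) (ε : ℝ) (s : ℂ) :
    YY σ k k' ε UpperHalfPlane.I s = YY σ k k' 1 UpperHalfPlane.I s := by
  rw [YY, YY]
  congr 1
  refine integral_congr_ae (Eventually.of_forall fun y => ?_)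
  simp only [FF1, EE0, UpperHalfPlane.I_re, mul_zero, zero_mul]

theorem hup0 {ν : ℂ} (h : GoodNu ν) : ∃ C κ0 : ℝ, 0 ≤ C ∧ ∀ κ : ℝ, κ0 ≤ |κ| →
    ‖YY ν.re (k0 ν) (k0' ν) 1 UpperHalfPlane.I ((1 / 2 : ℝ) + (κ : ℂ) * Complex.I)‖ ≤
      C * ‖rr ν.re κ‖ * |κ| ^ (((0 : ℕ) : ℝ) - 1) * Real.exp (-(Real.pi / 2 * |κ|)) := by
  have hnn := h.nonneg
  have hlt := h.lt_half
  have hpi := Real.pi_pos
  obtain ⟨C1, hC1, g1⟩ := gam_shift (1 / 4 + ν.re) ν.im (by linarith) (by linarith)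
  obtain ⟨C2, hC2, g2⟩ := gam_shift (1 / 4 - ν.re) (-ν.im) (by linarith) (by linarith)
  obtain ⟨C3, hC3, g3⟩ := gam_shift (1 / 4) 0 (by linarith) (by linarith)
  refine ⟨(2 * Real.pi) ^ (1 / 2 : ℝ) * (C1 * C2 * (C3 * C3)), 4 * |ν.im| + 4, by positivity,
    fun κ hκ => ?_⟩
  have ht := abs_nonneg ν.im
  have hκ0 : 0 < |κ| := by linarith
  have hκne : κ ≠ 0 := abs_pos.1 hκ0
  rw [YY0_eq h κ hκne, Z0]
  set s : ℂ := ((1 / 2 : ℝ) : ℂ) + (κ : ℂ) * Complex.I with hs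
  have hsre : s.re = 1 / 2 := by simp [hs]
  have e1 : (1 - s) / 2 + ν = ((1 / 4 + ν.re : ℝ) : ℂ) +
      ((ν.im - κ / 2 : ℝ) : ℂ) * Complex.I := by
    conv_lhs => rw [← Complex.re_add_im ν]
    rw [hs]; push_cast; ring
  have e2 : (1 - s) / 2 - ν = ((1 / 4 - ν.re : ℝ) : ℂ) +
      ((-ν.im - κ / 2 : ℝ) : ℂ) * Complex.I := by
    conv_lhs => rw [← Complex.re_add_im ν]
    rw [hs]; push_cast; ring
  have e3 : (1 - s) / 2 = ((1 / 4 : ℝ) : ℂ) + ((0 - κ / 2 : ℝ) : ℂ) * Complex.I := by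
    rw [hs]; push_cast; ring
  have e4 : 1 - s = 1 / 2 + ((-κ : ℝ) : ℂ) * Complex.I := by
    rw [hs]; push_cast; ring
  have b1 := g1 κ hκ
  have b2 := g2 κ (by rw [abs_neg]; exact hκ)
  have b3 := g3 κ (by rw [abs_zero]; linarith)
  have b4 := gam_half_low (-κ)
  rw [abs_neg] at b4
  rw [← e1] at b1
  rw [← e2] at b2
  rw [← e3] at b3
  rw [← e4] at b4
  have n1 : ‖((2 * Real.pi : ℝ) : ℂ) ^ s‖ = (2 * Real.pi) ^ (1 / 2 : ℝ) := by
    rw [Complex.norm_cpow_eq_rpow_re_of_pos (by positivity), hsre]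
  have n2 : ‖(2 : ℂ) ^ (-2 - s)‖ ≤ 1 := by
    have h2 : ((2 : ℝ) : ℂ) = 2 := by norm_num
    rw [← h2, Complex.norm_cpow_eq_rpow_re_of_pos (by norm_num)]
    refine Real.rpow_le_one_of_one_le_of_nonpos (by norm_num) ?_
    rw [h2, Complex.sub_re, hsre]
    norm_num
  have n3 : ‖(Complex.Gamma (1 - s))⁻¹‖ ≤ Real.exp (Real.pi / 2 * |κ|) := by
    rw [norm_inv]
    refine inv_le_of_inv_le₀ (Real.exp_pos _) ?_
    rw [← Real.exp_neg]
    exact b4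
  have hrr : ‖1 - 2 * (ν.re : ℂ) - s‖ = ‖rr ν.re κ‖ := by rw [rr, hs]
  rw [norm_mul, hrr, norm_mul, norm_mul, norm_mul, norm_mul, norm_mul, norm_mul, n1]
  set E := Real.exp (-(Real.pi / 4 * |κ|)) with hE
  have hexp : E * E * (E * E) * Real.exp (Real.pi / 2 * |κ|) =
      Real.exp (-(Real.pi / 2 * |κ|)) := by
    rw [hE, ← Real.exp_add, ← Real.exp_add, ← Real.exp_add]
    congr 1
    ring
  have hpow : |κ| ^ (1 / 4 + ν.re - 1 / 2) * |κ| ^ (1 / 4 - ν.re - 1 / 2) *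
      (|κ| ^ ((1 / 4 : ℝ) - 1 / 2) * |κ| ^ ((1 / 4 : ℝ) - 1 / 2)) = |κ| ^ (((0 : ℕ) : ℝ) - 1) := by
    rw [← Real.rpow_add hκ0, ← Real.rpow_add hκ0, ← Real.rpow_add hκ0]
    congr 1
    push_cast
    ring
  have hE0 : 0 < E := Real.exp_pos _
  have p1 : 0 ≤ |κ| ^ (1 / 4 + ν.re - 1 / 2) := by positivity
  have p2 : 0 ≤ |κ| ^ (1 / 4 - ν.re - 1 / 2) := by positivity
  have p3 : 0 ≤ |κ| ^ ((1 / 4 : ℝ) - 1 / 2) := by positivity
  calc ‖rr ν.re κ‖ * ((2 * Real.pi) ^ (1 / 2 : ℝ) * (‖(2 : ℂ) ^ (-2 - s)‖ *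
        (‖Complex.Gamma ((1 - s) / 2 + ν)‖ * ‖Complex.Gamma ((1 - s) / 2 - ν)‖) *
        (‖Complex.Gamma ((1 - s) / 2)‖ * ‖Complex.Gamma ((1 - s) / 2)‖) *
        ‖(Complex.Gamma (1 - s))⁻¹‖))
      ≤ ‖rr ν.re κ‖ * ((2 * Real.pi) ^ (1 / 2 : ℝ) * (1 *
        ((C1 * |κ| ^ (1 / 4 + ν.re - 1 / 2) * E) * (C2 * |κ| ^ (1 / 4 - ν.re - 1 / 2) * E)) *
        ((C3 * |κ| ^ ((1 / 4 : ℝ) - 1 / 2) * E) * (C3 * |κ| ^ ((1 / 4 : ℝ) - 1 / 2) * E)) *
        Real.exp (Real.pi / 2 * |κ|))) := by gcongr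
    _ = (2 * Real.pi) ^ (1 / 2 : ℝ) * (C1 * C2 * (C3 * C3)) * ‖rr ν.re κ‖ *
        (|κ| ^ (1 / 4 + ν.re - 1 / 2) * |κ| ^ (1 / 4 - ν.re - 1 / 2) *
      (|κ| ^ ((1 / 4 : ℝ) - 1 / 2) * |κ| ^ ((1 / 4 : ℝ) - 1 / 2))) *
        (E * E * (E * E) * Real.exp (Real.pi / 2 * |κ|)) := by ring
    _ = _ := by rw [hexp, hpow]

/-- **Part L3, weight 0.** -/
theorem locData_maass0 {ν : ℂ} (h : GoodNu ν) :
    LocData 0 (fun y => WW ν (2 * Real.pi * y)) (fun y => WW ν (2 * Real.pi * y))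
      (YY ν.re (k0 ν) (k0' ν) 1) (YY ν.re (k0 ν) (k0' ν) (-1)) := by
  obtain ⟨C, κ0, hC, hb⟩ := hup0 h
  refine locData_of (khyp0 h) (khyp0 h) (fun y hy => ww_k0 ν hy) (fun y hy => ww_k0 ν hy)
    (k0_nonzero ν) (k0_nonzero ν) 0 ⟨C, κ0, hC, fun κ hκ => ⟨hb κ hκ, ?_⟩⟩
  rw [YY_I_sign]
  exact hb κ hκ

end Pool.Agent.JOL
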