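import Pool.Agent.Lib_helper87.JO.L3k
import Pool.Agent.Lib_helper42.JO1.Defs

/-!
# Project JO, part L3: Maass forms of weight 1, in the notation of the Maass frame
-/

set_option autoImplicit false

namespace Pool.Agent.JOL

open MeasureTheory Filter Topology
open Pool.Agent.JO Pool.Agent.JO.FM
open scoped ComplexConjugate ENNReal

/-- **Part L3, weight 1**; `hV` is the second half of `Vm_eq`. -/
theorem locData_fm1 {ν : ℂ} (hν : ν.re = 0) (h0 : ν ≠ 0)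
    (hV : ∀ x : ℝ, 0 < x → ν * Pool.Agent.JO.FM1.Vm ν x =
      x * (KK (ν + 1 / 2) x - KK (ν - 1 / 2) x)) :
    LocData 1 (fun y => Pool.Agent.JO.FM1.Wp ν (2 * Real.pi * y))
      (fun y => Pool.Agent.JO.FM1.Vm ν (2 * Real.pi * y))
      (YY 0 (k1 1 1 ν) (k1' 1 1 ν) 1) (YY 0 (k1 ν⁻¹ (-1) ν) (k1' ν⁻¹ (-1) ν) (-1)) := by
  have hpi := Real.pi_pos
  have e1 : ∀ x : ℝ, KK (ν + 1 / 2) x = KK (1 / 2 + ν) x := fun x => by rw [add_comm]
  have e2 : ∀ x : ℝ, KK (ν - 1 / 2) x = KK (1 / 2 - ν) x := fun x => by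
    rw [show ν - 1 / 2 = -(1 / 2 - ν) by ring, kdv_neg]
  refine locData_maass1 hν h0 one_ne_zero (inv_ne_zero h0) (fun y hy => ?_) (fun y hy => ?_)
  · rw [Pool.Agent.JO.FM1.Wp, uc, e1, e2]
    ring
  · have h1 := hV (2 * Real.pi * y) (by positivity)
    rw [e1, e2] at h1
    rw [uc]
    have h2 : Pool.Agent.JO.FM1.Vm ν (2 * Real.pi * y) =
        ν⁻¹ * (ν * Pool.Agent.JO.FM1.Vm ν (2 * Real.pi * y)) := by
      rw [← mul_assoc, inv_mul_cancel₀ h0, one_mul]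
    rw [h2, h1]
    ring

end Pool.Agent.JOL
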