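import Pool.Agent.Lib_helper32.JO.Stmt

/-!
# Project JO, part L3: the local factor, definition and basic properties

`W(y) = y^(1/2-σ) k(y)`, `F_w(y) = v^(1/2-σ) k(y) conj(k(vy)) e(-εxy)`, `w = x + iv`,
`Y(w, s) = -∫_0^∞ F_w'(y) y^(1-2σ-s) dy = (1-2σ-s) ∫_0^∞ W(y) conj(W(vy)) e(-εxy) y^(-s-1) dy`.
-/

set_option autoImplicit false

namespace Pool.Agent.JOL

open MeasureTheory Filter Topology
open scoped ComplexConjugate ENNReal

/-- the hypotheses on `k` -/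
structure KHyp (σ : ℝ) (k k' : ℝ → ℂ) : Prop where
  s0 : 0 ≤ σ
  s1 : σ < 1 / 2
  hd : ∀ y : ℝ, 0 < y → HasDerivAt k (k' y) y
  hc : ContinuousOn k' (Set.Ioi 0)
  m0 : Measurable k
  m1 : Measurable k'
  bd : ∀ ε : ℝ, 0 < ε → ∃ C : ℝ, 0 ≤ C ∧ ∀ y : ℝ, 0 < y → ‖k y‖ ≤ C * y ^ (-ε) * Real.exp (-y)
  bd' : ∃ C : ℝ, 0 ≤ C ∧ ∀ y : ℝ, 0 < y → ‖k' y‖ ≤ C * y ^ (2 * σ - 1) * Real.exp (-y)

/-- `g(y) = v^(1/2-σ) k(y) conj(k(vy))` -/
noncomputable def gg0 (σ : ℝ) (k : ℝ → ℂ) (v y : ℝ) : ℂ :=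
  ((v ^ (1 / 2 - σ) : ℝ) : ℂ) * (k y * conj (k (v * y)))

/-- its derivative -/
noncomputable def gg1 (σ : ℝ) (k k' : ℝ → ℂ) (v y : ℝ) : ℂ :=
  ((v ^ (1 / 2 - σ) : ℝ) : ℂ) * (k' y * conj (k (v * y)) + k y * (v * conj (k' (v * y))))

/-- the character -/
noncomputable def EE0 (ε x y : ℝ) : ℂ := Complex.exp (-(2 * Real.pi * Complex.I * (ε * x * y : ℝ)))

/-- the integrand `-F'` without the power -/
noncomputable def FF1 (σ : ℝ) (k k' : ℝ → ℂ) (ε x v y : ℝ) : ℂ :=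
  (gg1 σ k k' v y - 2 * Real.pi * Complex.I * (ε * x : ℝ) * gg0 σ k v y) * EE0 ε x y

/-- the local factor -/
noncomputable def YY (σ : ℝ) (k k' : ℝ → ℂ) (ε : ℝ) (w : UpperHalfPlane) (s : ℂ) : ℂ :=
  -∫ y in Set.Ioi (0 : ℝ), FF1 σ k k' ε w.re w.im y * (y : ℂ) ^ (1 - 2 * (σ : ℂ) - s)

theorem norm_EE0 (ε x y : ℝ) : ‖EE0 ε x y‖ = 1 := by
  rw [EE0, Complex.norm_exp]
  have : (-(2 * (Real.pi : ℂ) * Complex.I * ((ε * x * y : ℝ) : ℂ))).re = 0 := by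
    have : -(2 * (Real.pi : ℂ) * Complex.I * ((ε * x * y : ℝ) : ℂ)) =
      ((-(2 * Real.pi * (ε * x * y)) : ℝ) : ℂ) * Complex.I := by push_cast; ring
    rw [this, Complex.re_ofReal_mul, Complex.I_re, mul_zero]
  rw [this, Real.exp_zero]

variable {σ : ℝ} {k k' : ℝ → ℂ}

theorem hasDerivAt_gg0 (h : KHyp σ k k') {v y : ℝ} (hv : 0 < v) (hy : 0 < y) :
    HasDerivAt (gg0 σ k v) (gg1 σ k k' v y) y := by
  have h1 : HasDerivAt (fun y : ℝ => k (v * y)) ((v : ℂ) * k' (v * y)) y := by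
    have h2 := (h.hd (v * y) (by positivity)).scomp y ((hasDerivAt_id y).const_mul v)
    simp only [id, mul_one] at h2
    refine h2.congr_deriv ?_
    rw [Complex.real_smul]
  have h3 : HasDerivAt (fun y : ℝ => conj (k (v * y))) ((v : ℂ) * conj (k' (v * y))) y := by
    have := h1.star
    simpa [mul_comm] using this
  unfold gg0 gg1
  exact ((h.hd y hy).mul h3).const_mul _

theorem hasDerivAt_EE0 (ε x y : ℝ) :
    HasDerivAt (EE0 ε x) (-(2 * Real.pi * Complex.I * (ε * x : ℝ)) * EE0 ε x y) y := by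
  have h1 : HasDerivAt (fun y : ℝ => -(2 * (Real.pi : ℂ) * Complex.I * ((ε * x * y : ℝ) : ℂ)))
      (-(2 * Real.pi * Complex.I * (ε * x : ℝ))) y := by
    have h2 : HasDerivAt (fun y : ℝ => ((ε * x * y : ℝ) : ℂ)) ((ε * x : ℝ) : ℂ) y := by
      have := ((hasDerivAt_id y).const_mul (ε * x)).ofReal_comp
      simpa using this
    exact (h2.const_mul _).neg
  have h3 := h1.cexp
  unfold EE0
  refine h3.congr_deriv ?_
  ring

/-- the derivative of `F` -/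
theorem hasDerivAt_F (h : KHyp σ k k') (ε x : ℝ) {v y : ℝ} (hv : 0 < v) (hy : 0 < y) :
    HasDerivAt (fun y => gg0 σ k v y * EE0 ε x y) (FF1 σ k k' ε x v y) y := by
  refine ((hasDerivAt_gg0 h hv hy).mul (hasDerivAt_EE0 ε x y)).congr_deriv ?_
  rw [FF1]
  ring

/-- bounds -/
theorem gg_bounds (h : KHyp σ k k') : ∃ C : ℝ, 0 ≤ C ∧ ∀ v : ℝ, 0 < v → ∀ y : ℝ, 0 < y →
    ‖gg0 σ k v y‖ ≤ C * (v ^ (1 / 2 - σ - (1 - 2 * σ) / 4) + v ^ (1 / 2 - σ + 2 * σ)) *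
      y ^ (-(2 * ((1 - 2 * σ) / 4))) * Real.exp (-y) ∧
    ‖gg1 σ k k' v y‖ ≤ C * (v ^ (1 / 2 - σ - (1 - 2 * σ) / 4) + v ^ (1 / 2 - σ + 2 * σ)) *
      y ^ (-(5 * ((1 - 2 * σ) / 4))) * Real.exp (-y) := by
  have hs := h.s1
  have hs0 := h.s0
  set e := (1 - 2 * σ) / 4 with he
  have he0 : 0 < e := by rw [he]; linarith
  obtain ⟨C1, hC1, h1⟩ := h.bd e he0
  obtain ⟨C2, hC2, h2⟩ := h.bd'
  refine ⟨C1 ^ 2 + C1 * C2, by positivity, fun v hv y hy => ?_⟩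
  have hvy : 0 < v * y := by positivity
  have hexp : Real.exp (-(v * y)) ≤ 1 := Real.exp_le_one_iff.2 (by linarith)
  have hn : ‖((v ^ (1 / 2 - σ) : ℝ) : ℂ)‖ = v ^ (1 / 2 - σ) := by
    rw [Complex.norm_real, Real.norm_of_nonneg (Real.rpow_nonneg hv.le _)]
  have hk1 := h1 y hy
  have hk2 : ‖k (v * y)‖ ≤ C1 * (v ^ (-e) * y ^ (-e)) := by
    refine (h1 _ hvy).trans ?_
    rw [Real.mul_rpow hv.le hy.le]
    exact mul_le_of_le_one_right (by positivity) hexp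
  have hk3 := h2 y hy
  have hk4 : ‖k' (v * y)‖ ≤ C2 * (v ^ (2 * σ - 1) * y ^ (2 * σ - 1)) := by
    refine (h2 _ hvy).trans ?_
    rw [Real.mul_rpow hv.le hy.le]
    exact mul_le_of_le_one_right (by positivity) hexp
  have hve : v ^ (1 / 2 - σ) * v ^ (-e) = v ^ (1 / 2 - σ - e) := by
    rw [← Real.rpow_add hv]; congr 1
  have hve2 : v ^ (1 / 2 - σ) * (v * v ^ (2 * σ - 1)) = v ^ (1 / 2 - σ + 2 * σ) := by
    nth_rewrite 2 [← Real.rpow_one v]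
    rw [← Real.rpow_add hv, ← Real.rpow_add hv]; congr 1; ring
  have hye : y ^ (-e) * y ^ (-e) = y ^ (-(2 * e)) := by
    rw [← Real.rpow_add hy]; congr 1; ring
  have hye2 : y ^ (2 * σ - 1) * y ^ (-e) = y ^ (-(5 * e)) := by
    rw [← Real.rpow_add hy]; congr 1; rw [he]; ring
  have hv1 : 0 ≤ v ^ (1 / 2 - σ - e) := Real.rpow_nonneg hv.le _
  have hv2 : 0 ≤ v ^ (1 / 2 - σ + 2 * σ) := Real.rpow_nonneg hv.le _
  have hy1 : 0 ≤ y ^ (-(2 * e)) := Real.rpow_nonneg hy.le _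
  have hy2 : 0 ≤ y ^ (-(5 * e)) := Real.rpow_nonneg hy.le _
  have hex := Real.exp_pos (-y)
  constructor
  · rw [gg0, norm_mul, norm_mul, hn, RCLike.norm_conj]
    calc v ^ (1 / 2 - σ) * (‖k y‖ * ‖k (v * y)‖)
        ≤ v ^ (1 / 2 - σ) * ((C1 * y ^ (-e) * Real.exp (-y)) * (C1 * (v ^ (-e) * y ^ (-e)))) := by
          gcongr
      _ = C1 ^ 2 * (v ^ (1 / 2 - σ) * v ^ (-e)) * (y ^ (-e) * y ^ (-e)) * Real.exp (-y) := by ring
      _ = C1 ^ 2 * v ^ (1 / 2 - σ - e) * y ^ (-(2 * e)) * Real.exp (-y) := by rw [hve, hye]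
      _ ≤ (C1 ^ 2 + C1 * C2) * (v ^ (1 / 2 - σ - e) + v ^ (1 / 2 - σ + 2 * σ)) *
          y ^ (-(2 * e)) * Real.exp (-y) := by
          have : 0 ≤ C1 * C2 := by positivity
          gcongr
          · linarith
          · linarith
  · rw [gg1, norm_mul, hn]
    have hb : ‖k' y * conj (k (v * y)) + k y * (v * conj (k' (v * y)))‖ ≤
        (C2 * y ^ (2 * σ - 1) * Real.exp (-y)) * (C1 * (v ^ (-e) * y ^ (-e))) +
        (C1 * y ^ (-e) * Real.exp (-y)) * (v * (C2 * (v ^ (2 * σ - 1) * y ^ (2 * σ - 1)))) := by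
      refine (norm_add_le _ _).trans ?_
      rw [norm_mul, norm_mul, norm_mul, RCLike.norm_conj, RCLike.norm_conj, Complex.norm_real,
        Real.norm_of_nonneg hv.le]
      gcongr
    calc v ^ (1 / 2 - σ) * ‖k' y * conj (k (v * y)) + k y * (v * conj (k' (v * y)))‖
        ≤ v ^ (1 / 2 - σ) * ((C2 * y ^ (2 * σ - 1) * Real.exp (-y)) * (C1 * (v ^ (-e) * y ^ (-e))) +
          (C1 * y ^ (-e) * Real.exp (-y)) * (v * (C2 * (v ^ (2 * σ - 1) * y ^ (2 * σ - 1))))) := by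
          gcongr
      _ = (C1 * C2) * (v ^ (1 / 2 - σ) * v ^ (-e) + v ^ (1 / 2 - σ) * (v * v ^ (2 * σ - 1))) *
          (y ^ (2 * σ - 1) * y ^ (-e)) * Real.exp (-y) := by ring
      _ = (C1 * C2) * (v ^ (1 / 2 - σ - e) + v ^ (1 / 2 - σ + 2 * σ)) *
          y ^ (-(5 * e)) * Real.exp (-y) := by rw [hve, hve2, hye2]
      _ ≤ (C1 ^ 2 + C1 * C2) * (v ^ (1 / 2 - σ - e) + v ^ (1 / 2 - σ + 2 * σ)) *
          y ^ (-(5 * e)) * Real.exp (-y) := by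
          have : 0 ≤ C1 ^ 2 := by positivity
          gcongr
          linarith

/-- the bound of the integrand -/
theorem FF1_bound (h : KHyp σ k k') : ∃ C : ℝ, 0 ≤ C ∧ ∀ v : ℝ, 0 < v → ∀ ε x : ℝ, |ε| = 1 →
    ∀ y : ℝ, 0 < y → ‖FF1 σ k k' ε x v y‖ ≤
      C * (v ^ (1 / 2 - σ - (1 - 2 * σ) / 4) + v ^ (1 / 2 - σ + 2 * σ)) *
      ((1 + |x|) * (y ^ (-(5 * ((1 - 2 * σ) / 4))) + y ^ (-(2 * ((1 - 2 * σ) / 4))))) *
        Real.exp (-y) := by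
  obtain ⟨C, hC, hb⟩ := gg_bounds h
  refine ⟨C * (1 + 2 * Real.pi), by positivity, fun v hv ε x hε y hy => ?_⟩
  obtain ⟨h0, h1⟩ := hb v hv y hy
  set V := v ^ (1 / 2 - σ - (1 - 2 * σ) / 4) + v ^ (1 / 2 - σ + 2 * σ) with hV
  have hV0 : 0 ≤ V := by positivity
  set a := y ^ (-(5 * ((1 - 2 * σ) / 4)))
  set b := y ^ (-(2 * ((1 - 2 * σ) / 4)))
  have ha : 0 ≤ a := Real.rpow_nonneg hy.le _
  have hb0 : 0 ≤ b := Real.rpow_nonneg hy.le _
  have hex := (Real.exp_pos (-y)).le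
  rw [FF1, norm_mul, norm_EE0, mul_one]
  refine (norm_sub_le _ _).trans ?_
  have e1 : ‖2 * (Real.pi : ℂ) * Complex.I * ((ε * x : ℝ) : ℂ) * gg0 σ k v y‖ =
      2 * Real.pi * |x| * ‖gg0 σ k v y‖ := by
    rw [norm_mul, norm_mul, norm_mul, norm_mul, Complex.norm_I, Complex.norm_real,
      Complex.norm_real, Real.norm_eq_abs, Real.norm_eq_abs, abs_mul, hε, abs_of_pos Real.pi_pos]
    simp
  rw [e1]
  have hx := abs_nonneg x
  have hpi := Real.pi_pos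
  calc ‖gg1 σ k k' v y‖ + 2 * Real.pi * |x| * ‖gg0 σ k v y‖
      ≤ C * V * a * Real.exp (-y) + 2 * Real.pi * |x| * (C * V * b * Real.exp (-y)) := by
        gcongr
    _ = (C * V * Real.exp (-y)) * (a + 2 * Real.pi * |x| * b) := by ring
    _ ≤ (C * V * Real.exp (-y)) * ((1 + 2 * Real.pi) * ((1 + |x|) * (a + b))) := by
        apply mul_le_mul_of_nonneg_left _ (by positivity)
        have : 0 ≤ |x| * a := by positivity
        have : 0 ≤ |x| * b := by positivity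
        have : 0 ≤ Real.pi * a := by positivity
        have : 0 ≤ Real.pi * b := by positivity
        have : 0 ≤ Real.pi * (|x| * a) := by positivity
        nlinarith
    _ = _ := by ring

end Pool.Agent.JOL
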