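import Pool.Agent.Lib_helper87.JO.L3a

/-!
# Project JO, part L3: the local factor is holomorphic, integration by parts, measurability
-/

set_option autoImplicit false

namespace Pool.Agent.JOL

open MeasureTheory Filter Topology
open Pool.Agent.JO
open scoped ComplexConjugate ENNReal

variable {σ : ℝ} {k k' : ℝ → ℂ}

theorem k_cont (h : KHyp σ k k') : ContinuousOn k (Set.Ioi 0) := fun y hy =>
  (h.hd y hy).continuousAt.continuousWithinAt

theorem kv_cont (h : KHyp σ k k') {v : ℝ} (hv : 0 < v) :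
    ContinuousOn (fun y => k (v * y)) (Set.Ioi 0) :=
  (k_cont h).comp (by fun_prop) fun y hy => mul_pos hv hy

theorem kv_cont' (h : KHyp σ k k') {v : ℝ} (hv : 0 < v) :
    ContinuousOn (fun y => k' (v * y)) (Set.Ioi 0) :=
  h.hc.comp (by fun_prop) fun y hy => mul_pos hv hy

theorem gg0_cont (h : KHyp σ k k') {v : ℝ} (hv : 0 < v) :
    ContinuousOn (gg0 σ k v) (Set.Ioi 0) := by
  unfold gg0
  exact continuousOn_const.mul ((k_cont h).mul (Complex.continuous_conj.comp_continuousOn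
    (kv_cont h hv)))

theorem gg1_cont (h : KHyp σ k k') {v : ℝ} (hv : 0 < v) :
    ContinuousOn (gg1 σ k k' v) (Set.Ioi 0) := by
  unfold gg1
  exact continuousOn_const.mul ((h.hc.mul (Complex.continuous_conj.comp_continuousOn
    (kv_cont h hv))).add ((k_cont h).mul (continuousOn_const.mul
      (Complex.continuous_conj.comp_continuousOn (kv_cont' h hv)))))

theorem EE0_cont (ε x : ℝ) : Continuous (EE0 ε x) := by
  unfold EE0
  fun_prop

theorem FF1_cont (h : KHyp σ k k') (ε x : ℝ) {v : ℝ} (hv : 0 < v) :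
    ContinuousOn (FF1 σ k k' ε x v) (Set.Ioi 0) := by
  unfold FF1
  exact ((gg1_cont h hv).sub (continuousOn_const.mul (gg0_cont h hv))).mul
    (EE0_cont ε x).continuousOn

/-- the dominating function is integrable -/
theorem dom_int {a : ℝ} (ha : -1 < a) :
    IntegrableOn (fun y : ℝ => y ^ a * Real.exp (-y)) (Set.Ioi 0) := by
  have h := Real.GammaIntegral_convergent (s := a + 1) (by linarith)
  refine h.congr_fun (fun y _ => ?_) measurableSet_Ioi
  simp only [add_sub_cancel_right]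
  ring

/-- the integrand of `Y` is integrable for `Re s < 1 - (1-2σ)/4`, and a bound for the integral -/
theorem YY_int (h : KHyp σ k k') {ε x v : ℝ} (hε : |ε| = 1) (hv : 0 < v) {s : ℂ}
    (hs : s.re < 1 - (1 - 2 * σ) / 4) :
    IntegrableOn (fun y : ℝ => FF1 σ k k' ε x v y * (y : ℂ) ^ (1 - 2 * (σ : ℂ) - s))
      (Set.Ioi 0) := by
  obtain ⟨C, hC, hb⟩ := FF1_bound h
  have hs1 := h.s1
  set e := (1 - 2 * σ) / 4 with he
  have he0 : 0 < e := by rw [he]; linarith
  set V := v ^ (1 / 2 - σ - e) + v ^ (1 / 2 - σ + 2 * σ) with hV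
  have hdom : IntegrableOn (fun y : ℝ => C * V * (1 + |x|) * (y ^ (-e - s.re) * Real.exp (-y) +
      y ^ (2 * e - s.re) * Real.exp (-y))) (Set.Ioi 0) :=
    ((dom_int (by linarith)).add (dom_int (by linarith))).const_mul _
  refine Integrable.mono' hdom ?_ ?_
  · refine ContinuousOn.aestronglyMeasurable ?_ measurableSet_Ioi
    refine (FF1_cont h ε x hv).mul ?_
    intro y hy
    have hy0 : (y : ℂ) ≠ 0 := by
      have : y ≠ 0 := ne_of_gt hy
      exact_mod_cast this
    refine ContinuousAt.continuousWithinAt ?_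
    exact (Complex.continuousAt_ofReal_cpow_const y _ (Or.inr (ne_of_gt hy)))
  · rw [ae_restrict_iff' measurableSet_Ioi]
    refine Eventually.of_forall fun y hy => ?_
    have hy0 : 0 < y := hy
    rw [norm_mul, Complex.norm_cpow_eq_rpow_re_of_pos hy0]
    have hre : (1 - 2 * (σ : ℂ) - s).re = 4 * e - s.re := by
      simp only [Complex.sub_re, Complex.one_re, Complex.mul_re, Complex.re_ofNat,
        Complex.ofReal_re, Complex.im_ofNat, Complex.ofReal_im, mul_zero, sub_zero]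
      rw [he]; ring
    rw [hre]
    have h1 := hb v hv ε x hε y hy0
    have hp : 0 ≤ y ^ (4 * e - s.re) := Real.rpow_nonneg hy0.le _
    calc ‖FF1 σ k k' ε x v y‖ * y ^ (4 * e - s.re)
        ≤ (C * V * ((1 + |x|) * (y ^ (-(5 * e)) + y ^ (-(2 * e)))) * Real.exp (-y)) *
          y ^ (4 * e - s.re) := mul_le_mul_of_nonneg_right h1 hp
      _ = C * V * (1 + |x|) * ((y ^ (-(5 * e)) * y ^ (4 * e - s.re)) * Real.exp (-y) +
          (y ^ (-(2 * e)) * y ^ (4 * e - s.re)) * Real.exp (-y)) := by ring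
      _ = _ := by
          rw [← Real.rpow_add hy0, ← Real.rpow_add hy0]
          ring_nf

/-- the bound of `Y` on the critical line -/
theorem YY_bound (h : KHyp σ k k') : ∃ C : ℝ, 0 ≤ C ∧ ∀ (w : UpperHalfPlane) (κ ε : ℝ),
    |ε| = 1 → 1 ≤ w.im → w.im ≤ 2 →
      ‖YY σ k k' ε w ((1 / 2 : ℝ) + (κ : ℂ) * Complex.I)‖ ≤ C * (1 + |w.re|) := by
  obtain ⟨C, hC, hb⟩ := FF1_bound h
  have hs1 := h.s1
  have hs0 := h.s0
  set e := (1 - 2 * σ) / 4 with he
  have he0 : 0 < e := by rw [he]; linarith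
  have he1 : e ≤ 1 / 4 := by rw [he]; linarith
  set J := ∫ y in Set.Ioi (0 : ℝ), (y ^ (-e - 1 / 2) * Real.exp (-y) +
      y ^ (2 * e - 1 / 2) * Real.exp (-y)) with hJ
  have hJ0 : 0 ≤ J := setIntegral_nonneg measurableSet_Ioi fun y hy => by
    have : 0 < y := hy
    positivity
  refine ⟨C * 4 * J, by positivity, fun w κ ε hε h1 h2 => ?_⟩
  set v := w.im with hv
  set x := w.re with hx
  have hv0 : 0 < v := by linarith
  set V := v ^ (1 / 2 - σ - e) + v ^ (1 / 2 - σ + 2 * σ) with hV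
  have hV4 : V ≤ 4 := by
    have e1 : v ^ (1 / 2 - σ - e) ≤ 2 := by
      calc v ^ (1 / 2 - σ - e) ≤ v ^ (1 : ℝ) :=
            Real.rpow_le_rpow_of_exponent_le h1 (by linarith)
        _ = v := Real.rpow_one v
        _ ≤ 2 := h2
    have e2 : v ^ (1 / 2 - σ + 2 * σ) ≤ 2 := by
      calc v ^ (1 / 2 - σ + 2 * σ) ≤ v ^ (1 : ℝ) :=
            Real.rpow_le_rpow_of_exponent_le h1 (by linarith)
        _ = v := Real.rpow_one v
        _ ≤ 2 := h2
    linarith
  rw [YY, norm_neg]
  have hdom : IntegrableOn (fun y : ℝ => C * V * (1 + |x|) * (y ^ (-e - 1 / 2) * Real.exp (-y) +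
      y ^ (2 * e - 1 / 2) * Real.exp (-y))) (Set.Ioi 0) :=
    ((dom_int (by linarith)).add (dom_int (by linarith))).const_mul _
  have hle : ‖∫ y in Set.Ioi (0 : ℝ), FF1 σ k k' ε x v y *
      (y : ℂ) ^ (1 - 2 * (σ : ℂ) - ((1 / 2 : ℝ) + (κ : ℂ) * Complex.I))‖ ≤
      ∫ y in Set.Ioi (0 : ℝ), C * V * (1 + |x|) * (y ^ (-e - 1 / 2) * Real.exp (-y) +
      y ^ (2 * e - 1 / 2) * Real.exp (-y)) := by
    refine norm_integral_le_of_norm_le hdom ?_
    rw [ae_restrict_iff' measurableSet_Ioi]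
    refine Eventually.of_forall fun y hy => ?_
    have hy0 : 0 < y := hy
    rw [norm_mul, Complex.norm_cpow_eq_rpow_re_of_pos hy0]
    have hre : (1 - 2 * (σ : ℂ) - ((1 / 2 : ℝ) + (κ : ℂ) * Complex.I)).re = 4 * e - 1 / 2 := by
      simp only [Complex.sub_re, Complex.one_re, Complex.mul_re, Complex.re_ofNat,
        Complex.ofReal_re, Complex.im_ofNat, Complex.ofReal_im, mul_zero, sub_zero,
        Complex.add_re, Complex.I_re, Complex.I_im, mul_one, zero_mul]
      rw [he]; ring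
    rw [hre]
    have h1 := hb v hv0 ε x hε y hy0
    have hp : 0 ≤ y ^ (4 * e - 1 / 2) := Real.rpow_nonneg hy0.le _
    calc ‖FF1 σ k k' ε x v y‖ * y ^ (4 * e - 1 / 2)
        ≤ (C * V * ((1 + |x|) * (y ^ (-(5 * e)) + y ^ (-(2 * e)))) * Real.exp (-y)) *
          y ^ (4 * e - 1 / 2) := mul_le_mul_of_nonneg_right h1 hp
      _ = C * V * (1 + |x|) * ((y ^ (-(5 * e)) * y ^ (4 * e - 1 / 2)) * Real.exp (-y) +
          (y ^ (-(2 * e)) * y ^ (4 * e - 1 / 2)) * Real.exp (-y)) := by ring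
      _ = _ := by
          rw [← Real.rpow_add hy0, ← Real.rpow_add hy0]
          ring_nf
  refine hle.trans ?_
  rw [integral_const_mul]
  have hx0 : 0 ≤ 1 + |x| := by positivity
  calc C * V * (1 + |x|) * J ≤ C * 4 * (1 + |x|) * J := by gcongr
    _ = _ := by ring

/-- holomorphy -/
theorem YY_diff (h : KHyp σ k k') {ε : ℝ} (hε : |ε| = 1) (w : UpperHalfPlane) {s : ℂ}
    (hs : s.re < 1 - (1 - 2 * σ) / 4) : DifferentiableAt ℂ (YY σ k k' ε w) s := by
  obtain ⟨C, hC, hb⟩ := FF1_bound h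
  have hs1 := h.s1
  set e := (1 - 2 * σ) / 4 with he
  have he0 : 0 < e := by rw [he]; linarith
  set v := w.im with hv
  set x := w.re with hx
  have hv0 : 0 < v := w.im_pos
  set V := v ^ (1 / 2 - σ - e) + v ^ (1 / 2 - σ + 2 * σ) with hV
  have hV0 : 0 ≤ V := by positivity
  have hx0 : 0 ≤ 1 + |x| := by positivity
  have hYY : YY σ k k' ε w = fun s => -mellin (FF1 σ k k' ε x v) (2 - 2 * (σ : ℂ) - s) := by
    funext s
    rw [YY, mellin]
    congr 1
    refine setIntegral_congr_fun measurableSet_Ioi fun y _ => ?_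
    simp only [smul_eq_mul]
    rw [mul_comm]
    congr 2
    ring
  rw [hYY]
  have hm : DifferentiableAt ℂ (mellin (FF1 σ k k' ε x v)) (2 - 2 * (σ : ℂ) - s) := by
    have hloc : LocallyIntegrableOn (FF1 σ k k' ε x v) (Set.Ioi 0) :=
      (FF1_cont h ε x hv0).locallyIntegrableOn measurableSet_Ioi
    refine mellin_differentiableAt_of_isBigO_rpow_exp (a := 1) (b := 5 * e) one_pos hloc ?_ ?_ ?_
    · refine Asymptotics.IsBigO.of_bound (C * V * ((1 + |x|) * 2)) ?_
      filter_upwards [eventually_ge_atTop (1 : ℝ)] with y hy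
      have hy0 : 0 < y := by linarith
      rw [Real.norm_of_nonneg (Real.exp_pos _).le]
      have e1 : y ^ (-(5 * e)) ≤ 1 := Real.rpow_le_one_of_one_le_of_nonpos hy (by linarith)
      have e2 : y ^ (-(2 * e)) ≤ 1 := Real.rpow_le_one_of_one_le_of_nonpos hy (by linarith)
      refine (hb v hv0 ε x hε y hy0).trans ?_
      rw [neg_one_mul]
      have hex := (Real.exp_pos (-y)).le
      gcongr
      linarith
    · refine Asymptotics.IsBigO.of_bound (C * V * ((1 + |x|) * 2)) ?_
      have h1 : ∀ᶠ y : ℝ in 𝓝[>] 0, y < 1 := by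
        filter_upwards [Ioo_mem_nhdsGT one_pos] with y hy using hy.2
      filter_upwards [self_mem_nhdsWithin, h1] with y hy hy1
      have hy0 : 0 < y := hy
      rw [Real.norm_of_nonneg (Real.rpow_nonneg hy0.le _)]
      have e1 : y ^ (-(2 * e)) ≤ y ^ (-(5 * e)) :=
        Real.rpow_le_rpow_of_exponent_ge hy0 hy1.le (by linarith)
      have e2 : Real.exp (-y) ≤ 1 := Real.exp_le_one_iff.2 (by linarith)
      have e3 : 0 ≤ y ^ (-(5 * e)) := Real.rpow_nonneg hy0.le _
      refine (hb v hv0 ε x hε y hy0).trans ?_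
      calc C * V * ((1 + |x|) * (y ^ (-(5 * e)) + y ^ (-(2 * e)))) * Real.exp (-y)
          ≤ C * V * ((1 + |x|) * (y ^ (-(5 * e)) + y ^ (-(5 * e)))) * 1 := by gcongr
        _ = _ := by ring
    · simp only [Complex.sub_re, Complex.mul_re, Complex.re_ofNat,
        Complex.ofReal_re, Complex.im_ofNat, Complex.ofReal_im, mul_zero, sub_zero]
      linarith
  have hm2 : DifferentiableAt ℂ (fun s => mellin (FF1 σ k k' ε x v) (2 - 2 * (σ : ℂ) - s)) s :=
    DifferentiableAt.comp (g := mellin (FF1 σ k k' ε x v))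
      (f := fun s : ℂ => 2 - 2 * (σ : ℂ) - s) s hm (by fun_prop)
  exact hm2.neg

end Pool.Agent.JOL
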