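import Pool.Agent.Lib_helper87.JO.L3b

/-!
# Project JO, part L3: integration by parts, measurability
-/

set_option autoImplicit false

namespace Pool.Agent.JOL

open MeasureTheory Filter Topology
open Pool.Agent.JO
open scoped ComplexConjugate ENNReal

variable {σ : ℝ} {k k' : ℝ → ℂ}

theorem re_exp (σ : ℝ) (s : ℂ) : (1 - 2 * (σ : ℂ) - s).re = 1 - 2 * σ - s.re := by
  simp only [Complex.sub_re, Complex.one_re, Complex.mul_re, Complex.re_ofNat,
    Complex.ofReal_re, Complex.im_ofNat, Complex.ofReal_im, mul_zero, sub_zero]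

/-- integration by parts -/
theorem YY_parts (h : KHyp σ k k') {ε : ℝ} (hε : |ε| = 1) (w : UpperHalfPlane) {s : ℂ}
    (hs : s.re < 0) : YY σ k k' ε w s = (1 - 2 * (σ : ℂ) - s) *
      ∫ y in Set.Ioi (0 : ℝ), (y : ℂ) ^ (-(2 * (σ : ℂ)) - s) *
        (gg0 σ k w.im y * EE0 ε w.re y) := by
  obtain ⟨C, hC, hb⟩ := gg_bounds h
  have hs1 := h.s1
  have hs0 := h.s0
  set e := (1 - 2 * σ) / 4 with he
  have he0 : 0 < e := by rw [he]; linarith
  set v := w.im with hv
  set x := w.re with hx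
  have hv0 : 0 < v := w.im_pos
  set V := v ^ (1 / 2 - σ - e) + v ^ (1 / 2 - σ + 2 * σ) with hV
  have hV0 : 0 ≤ V := by positivity
  set r : ℂ := 1 - 2 * (σ : ℂ) - s with hr
  have hre : r.re = 4 * e - s.re := by rw [hr, re_exp, he]; ring
  have hr0 : 0 < r.re := by rw [hre]; linarith
  set u : ℝ → ℂ := fun y => (y : ℂ) ^ r with hu
  set u' : ℝ → ℂ := fun y => r * (y : ℂ) ^ (r - 1) with hu'
  set F : ℝ → ℂ := fun y => gg0 σ k v y * EE0 ε x y with hF
  have hud : ∀ y ∈ Set.Ioi (0 : ℝ), HasDerivAt u (u' y) y := by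
    intro y hy
    have h1 : HasDerivAt (fun z : ℂ => z ^ r) (r * (y : ℂ) ^ (r - 1) * 1) (y : ℂ) :=
      (hasDerivAt_id (y : ℂ)).cpow_const (Or.inl (by simpa using hy))
    rw [mul_one] at h1
    exact h1.comp_ofReal
  have hFd : ∀ y ∈ Set.Ioi (0 : ℝ), HasDerivAt F (FF1 σ k k' ε x v y) y := fun y hy =>
    hasDerivAt_F h ε x hv0 hy
  have hnF : ∀ y : ℝ, 0 < y → ‖F y‖ ≤ C * V * y ^ (-(2 * e)) * Real.exp (-y) := by
    intro y hy
    simp only [hF]
    rw [norm_mul, norm_EE0, mul_one]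
    exact (hb v hv0 y hy).1
  have hnu : ∀ y : ℝ, 0 < y → ‖u y‖ = y ^ (4 * e - s.re) := by
    intro y hy
    simp only [hu]
    rw [Complex.norm_cpow_eq_rpow_re_of_pos hy, hre]
  have hnuF : ∀ y : ℝ, 0 < y → ‖(u * F) y‖ ≤ C * V * (y ^ (2 * e - s.re) * Real.exp (-y)) := by
    intro y hy
    rw [Pi.mul_apply, norm_mul, hnu y hy]
    have hp : 0 ≤ y ^ (4 * e - s.re) := Real.rpow_nonneg hy.le _
    calc y ^ (4 * e - s.re) * ‖F y‖ ≤ y ^ (4 * e - s.re) *
          (C * V * y ^ (-(2 * e)) * Real.exp (-y)) := mul_le_mul_of_nonneg_left (hnF y hy) hp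
      _ = C * V * ((y ^ (4 * e - s.re) * y ^ (-(2 * e))) * Real.exp (-y)) := by ring
      _ = _ := by rw [← Real.rpow_add hy]; ring_nf
  have hint1 : IntegrableOn (u * FF1 σ k k' ε x v) (Set.Ioi 0) := by
    have := YY_int h hε (x := x) hv0 (s := s) (by linarith)
    refine this.congr_fun (fun y _ => ?_) measurableSet_Ioi
    simp only [hu, Pi.mul_apply, hr]
    ring
  have hu'c : ContinuousOn u' (Set.Ioi 0) := by
    intro y hy
    refine ContinuousAt.continuousWithinAt ?_
    exact continuousAt_const.mul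
      (Complex.continuousAt_ofReal_cpow_const y _ (Or.inr (ne_of_gt hy)))
  have hFc : ContinuousOn F (Set.Ioi 0) := (gg0_cont h hv0).mul (EE0_cont ε x).continuousOn
  have hint2 : IntegrableOn (u' * F) (Set.Ioi 0) := by
    have hdom : IntegrableOn (fun y : ℝ => ‖r‖ * (C * V) * (y ^ (2 * e - s.re - 1) *
        Real.exp (-y))) (Set.Ioi 0) := (dom_int (by linarith)).const_mul _
    refine Integrable.mono' hdom ((hu'c.mul hFc).aestronglyMeasurable measurableSet_Ioi) ?_
    rw [ae_restrict_iff' measurableSet_Ioi]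
    refine Eventually.of_forall fun y hy => ?_
    have hy0 : 0 < y := hy
    rw [Pi.mul_apply, norm_mul]
    simp only [hu']
    rw [norm_mul, Complex.norm_cpow_eq_rpow_re_of_pos hy0]
    have hre2 : (r - 1).re = 4 * e - s.re - 1 := by
      rw [Complex.sub_re, hre, Complex.one_re]
    rw [hre2]
    have hp : 0 ≤ y ^ (4 * e - s.re - 1) := Real.rpow_nonneg hy0.le _
    calc ‖r‖ * y ^ (4 * e - s.re - 1) * ‖F y‖ ≤ ‖r‖ * y ^ (4 * e - s.re - 1) *
          (C * V * y ^ (-(2 * e)) * Real.exp (-y)) :=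
          mul_le_mul_of_nonneg_left (hnF y hy0) (by positivity)
      _ = ‖r‖ * (C * V) * ((y ^ (4 * e - s.re - 1) * y ^ (-(2 * e))) * Real.exp (-y)) := by ring
      _ = _ := by rw [← Real.rpow_add hy0]; ring_nf
  have hz : Tendsto (u * F) (𝓝[>] 0) (𝓝 0) := by
    have h1 : Tendsto (fun y : ℝ => C * V * (y ^ (2 * e - s.re) * Real.exp (-y))) (𝓝[>] 0)
        (𝓝 (C * V * (0 * Real.exp (-0)))) := by
      refine Tendsto.const_mul _ (Tendsto.mul ?_ ?_)
      · have h2 : ContinuousAt (fun y : ℝ => y ^ (2 * e - s.re)) 0 :=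
          Real.continuousAt_rpow_const 0 _ (Or.inr (by linarith))
        have h3 := h2.tendsto
        rw [Real.zero_rpow (by linarith)] at h3
        exact h3.mono_left nhdsWithin_le_nhds
      · have h2 : Continuous (fun y : ℝ => Real.exp (-y)) := by fun_prop
        exact (h2.tendsto 0).mono_left nhdsWithin_le_nhds
    rw [zero_mul, mul_zero] at h1
    refine squeeze_zero_norm' ?_ h1
    filter_upwards [self_mem_nhdsWithin] with y hy
    exact hnuF y hy
  have hi : Tendsto (u * F) atTop (𝓝 0) := by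
    have h1 : Tendsto (fun y : ℝ => C * V * (y ^ (2 * e - s.re) * Real.exp (-y))) atTop
        (𝓝 (C * V * 0)) := by
      refine Tendsto.const_mul _ ?_
      have := tendsto_rpow_mul_exp_neg_mul_atTop_nhds_zero (2 * e - s.re) 1 one_pos
      refine this.congr fun y => ?_
      ring_nf
    rw [mul_zero] at h1
    refine squeeze_zero_norm' ?_ h1
    filter_upwards [eventually_gt_atTop (0 : ℝ)] with y hy
    exact hnuF y hy
  have hparts := integral_Ioi_mul_deriv_eq_deriv_mul hud hFd hint1 hint2 hz hi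
  rw [YY]
  have e1 : ∫ y in Set.Ioi (0 : ℝ), FF1 σ k k' ε w.re w.im y *
      (y : ℂ) ^ (1 - 2 * (σ : ℂ) - s) = ∫ y in Set.Ioi (0 : ℝ), u y * FF1 σ k k' ε x v y := by
    refine setIntegral_congr_fun measurableSet_Ioi fun y _ => ?_
    simp only [hu, ← hx, ← hv, ← hr]
    ring
  rw [e1, hparts, sub_zero, zero_sub, neg_neg]
  have e2 : ∀ y ∈ Set.Ioi (0 : ℝ), u' y * F y = r * ((y : ℂ) ^ (-(2 * (σ : ℂ)) - s) *
      (gg0 σ k v y * EE0 ε x y)) := by
    intro y _
    simp only [hu', hF]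
    have : r - 1 = -(2 * (σ : ℂ)) - s := by rw [hr]; ring
    rw [this]
    ring
  rw [setIntegral_congr_fun measurableSet_Ioi e2, integral_const_mul]

/-- the relation with the Mellin transform of `fLoc` -/
theorem YY_mellin (h : KHyp σ k k') {ε : ℝ} (hε : |ε| = 1) {W : ℝ → ℂ}
    (hW : ∀ y : ℝ, 0 < y → W y = ((y ^ (1 / 2 - σ) : ℝ) : ℂ) * k y) (w : UpperHalfPlane) {s : ℂ}
    (hs : s.re < 0) : YY σ k k' ε w s = (1 - 2 * (σ : ℂ) - s) * mellin (fLoc W ε w) (-s) := by
  rw [YY_parts h hε w hs, mellin]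
  congr 1
  refine setIntegral_congr_fun measurableSet_Ioi fun y hy => ?_
  have hy0 : 0 < y := hy
  have hv0 : 0 < w.im := w.im_pos
  simp only [smul_eq_mul]
  rw [fLoc, hW y hy0, hW _ (by positivity), gg0, EE0, map_mul, Complex.conj_ofReal,
    Real.mul_rpow hv0.le hy0.le]
  have e1 : (y : ℂ) ^ (-(2 * (σ : ℂ)) - s) = (y : ℂ) ^ (-s - 1) *
      (((y ^ (1 / 2 - σ) : ℝ) : ℂ) * ((y ^ (1 / 2 - σ) : ℝ) : ℂ)) := by
    have hyc : (y : ℂ) ≠ 0 := by exact_mod_cast hy0.ne'
    rw [← Complex.ofReal_mul, ← Real.rpow_add hy0, Complex.ofReal_cpow hy0.le,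
      ← Complex.cpow_add _ _ hyc]
    congr 1
    push_cast
    ring
  rw [e1]
  push_cast
  ring

/-- measurability on the critical line -/
theorem YY_meas (h : KHyp σ k k') (ε : ℝ) : Measurable fun q : UpperHalfPlane × ℝ =>
    YY σ k k' ε q.1 ((1 / 2 : ℝ) + (q.2 : ℂ) * Complex.I) := by
  have hm0 := h.m0
  have hm1 := h.m1
  have him : Measurable (fun w : UpperHalfPlane => w.im) :=
    UpperHalfPlane.continuous_im.measurable
  have hre : Measurable (fun w : UpperHalfPlane => w.re) :=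
    UpperHalfPlane.continuous_re.measurable
  have hF : Measurable fun p : (UpperHalfPlane × ℝ) × ℝ =>
      FF1 σ k k' ε p.1.1.re p.1.1.im p.2 *
        (p.2 : ℂ) ^ (1 - 2 * (σ : ℂ) - ((1 / 2 : ℝ) + (p.1.2 : ℂ) * Complex.I)) := by
    have m1 : Measurable fun p : (UpperHalfPlane × ℝ) × ℝ => p.1.1.im :=
      him.comp (measurable_fst.comp measurable_fst)
    have m2 : Measurable fun p : (UpperHalfPlane × ℝ) × ℝ => p.1.1.re :=
      hre.comp (measurable_fst.comp measurable_fst)
    have m3 : Measurable fun p : (UpperHalfPlane × ℝ) × ℝ => p.1.2 :=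
      measurable_snd.comp measurable_fst
    have m4 : Measurable fun p : (UpperHalfPlane × ℝ) × ℝ => p.2 := measurable_snd
    have mv : Measurable fun p : (UpperHalfPlane × ℝ) × ℝ =>
        (((p.1.1.im) ^ (1 / 2 - σ) : ℝ) : ℂ) := Complex.measurable_ofReal.comp (m1.pow_const _)
    have mk1 : Measurable fun p : (UpperHalfPlane × ℝ) × ℝ => k p.2 := hm0.comp m4
    have mk2 : Measurable fun p : (UpperHalfPlane × ℝ) × ℝ => conj (k (p.1.1.im * p.2)) :=
      Complex.continuous_conj.measurable.comp (hm0.comp (m1.mul m4))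
    have mk3 : Measurable fun p : (UpperHalfPlane × ℝ) × ℝ => k' p.2 := hm1.comp m4
    have mk4 : Measurable fun p : (UpperHalfPlane × ℝ) × ℝ => conj (k' (p.1.1.im * p.2)) :=
      Complex.continuous_conj.measurable.comp (hm1.comp (m1.mul m4))
    have mE : Measurable fun p : (UpperHalfPlane × ℝ) × ℝ => EE0 ε p.1.1.re p.2 := by
      unfold EE0
      refine Complex.continuous_exp.measurable.comp ?_
      exact (measurable_const.mul (Complex.measurable_ofReal.comp
        ((measurable_const.mul m2).mul m4))).neg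
    have mg0 : Measurable fun p : (UpperHalfPlane × ℝ) × ℝ => gg0 σ k p.1.1.im p.2 := by
      unfold gg0
      exact mv.mul (mk1.mul mk2)
    have mg1 : Measurable fun p : (UpperHalfPlane × ℝ) × ℝ => gg1 σ k k' p.1.1.im p.2 := by
      unfold gg1
      exact mv.mul ((mk3.mul mk2).add (mk1.mul ((Complex.measurable_ofReal.comp m1).mul mk4)))
    have mp : Measurable fun p : (UpperHalfPlane × ℝ) × ℝ =>
        (p.2 : ℂ) ^ (1 - 2 * (σ : ℂ) - ((1 / 2 : ℝ) + (p.1.2 : ℂ) * Complex.I)) := by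
      refine (Complex.measurable_ofReal.comp m4).pow ?_
      exact measurable_const.sub (measurable_const.add
        ((Complex.measurable_ofReal.comp m3).mul measurable_const))
    unfold FF1
    refine Measurable.mul (Measurable.mul (mg1.sub (Measurable.mul ?_ mg0)) mE) mp
    exact measurable_const.mul (Complex.measurable_ofReal.comp (measurable_const.mul m2))
  unfold YY
  have h2 := hF.stronglyMeasurable.integral_prod_right' (ν := volume.restrict (Set.Ioi (0 : ℝ)))
  exact h2.measurable.neg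

end Pool.Agent.JOL
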