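import Pool.Agent.Lib_helper87.JO.L3c

/-!
# Project JO, part L3: the test function and the pairing
-/

set_option autoImplicit false

namespace Pool.Agent.JOL

open MeasureTheory Filter Topology FourierTransform SchwartzMap
open Pool.Agent.JO
open scoped ComplexConjugate ENNReal ContDiff InnerProductSpace

/-! ## Pairing of Fourier transforms -/

theorem pair_schwartz (h : ℝ → ℂ) (hh : Integrable h) (γ : 𝓢(ℝ, ℂ)) :
    ∫ ξ, 𝓕 h ξ * conj ((𝓕 γ : 𝓢(ℝ, ℂ)) ξ) = ∫ y, h y * conj (γ y) := by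
  have key := VectorFourier.integral_sesq_fourierIntegral_eq_neg_flip (μ := (volume : Measure ℝ))
    (ν := (volume : Measure ℝ)) (L := innerₗ ℝ) (e := Real.fourierChar) (innerSL ℂ)
    (f := h) (g := fun x => (𝓕 γ : 𝓢(ℝ, ℂ)) x)
    Real.continuous_fourierChar (by exact (innerSL ℝ (E := ℝ)).continuous₂) hh
    (𝓕 γ : 𝓢(ℝ, ℂ)).integrable
  rw [flip_innerₗ] at key
  have e1 : ∀ y : ℝ, VectorFourier.fourierIntegral Real.fourierChar volume (-innerₗ ℝ)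
      (fun x => (𝓕 γ : 𝓢(ℝ, ℂ)) x) y = γ y := by
    intro y
    have e2 : VectorFourier.fourierIntegral Real.fourierChar volume (-innerₗ ℝ)
      (fun x => (𝓕 γ : 𝓢(ℝ, ℂ)) x) y = (𝓕⁻ (𝓕 γ) : 𝓢(ℝ, ℂ)) y := by
      rw [SchwartzMap.fourierInv_coe]
      rfl
    rw [e2, FourierTransform.fourierInv_fourier_eq]
  simp only [e1] at key
  have key2 := congrArg conj key
  rw [← integral_conj, ← integral_conj] at key2
  simp only [innerSL_apply_apply, RCLike.inner_apply, map_mul, Complex.conj_conj] at key2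
  rw [show (∫ ξ, 𝓕 h ξ * conj ((𝓕 γ : 𝓢(ℝ, ℂ)) ξ)) = ∫ ξ, conj ((𝓕 γ : 𝓢(ℝ, ℂ)) ξ) * 𝓕 h ξ from
    integral_congr_ae (Filter.Eventually.of_forall fun ξ => mul_comm _ _)]
  rw [show (∫ y, h y * conj (γ y)) = ∫ y, conj (γ y) * h y from
    integral_congr_ae (Filter.Eventually.of_forall fun ξ => mul_comm _ _)]
  exact key2

theorem four_cont {h : ℝ → ℂ} (hh : Integrable h) : Continuous (𝓕 h) :=
  VectorFourier.fourierIntegral_continuous Real.continuous_fourierChar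
    (by exact (innerSL ℝ (E := ℝ)).continuous₂) hh

theorem four_bdd (h : ℝ → ℂ) (ξ : ℝ) : ‖𝓕 h ξ‖ ≤ ∫ y, ‖h y‖ :=
  VectorFourier.norm_fourierIntegral_le_integral_norm _ _ _ _ _

theorem int_four_mul {h : ℝ → ℂ} (hh : Integrable h) (γ : 𝓢(ℝ, ℂ)) :
    Integrable fun ξ => 𝓕 h ξ * conj (γ ξ) := by
  refine Integrable.bdd_mul (c := ∫ y, ‖h y‖) ?_ (four_cont hh).aestronglyMeasurable ?_
  · exact (Complex.conjCLE : ℂ →L[ℝ] ℂ).integrable_comp (γ.integrable (μ := volume))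
  · exact Eventually.of_forall (four_bdd h)

/-- the transform of the derivative of a Schwartz function -/
theorem four_deriv (γ : 𝓢(ℝ, ℂ)) (ξ : ℝ) :
    (𝓕 (derivCLM ℝ ℂ γ) : 𝓢(ℝ, ℂ)) ξ = (2 * Real.pi * Complex.I * ξ) * (𝓕 γ : 𝓢(ℝ, ℂ)) ξ := by
  have h1 : (𝓕 (derivCLM ℝ ℂ γ) : 𝓢(ℝ, ℂ)) ξ = 𝓕 (deriv (γ : ℝ → ℂ)) ξ := by
    rw [SchwartzMap.fourier_coe]
    congr 1
  have h2 := Real.fourier_deriv (f := (γ : ℝ → ℂ)) γ.integrable γ.differentiable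
    (by
      have := (derivCLM ℝ ℂ γ).integrable (μ := volume)
      exact this)
  rw [h1, h2, SchwartzMap.fourier_coe]
  simp only [smul_eq_mul]

/-- pairing of a first order expression -/
theorem pair_first (h1 h2 : ℝ → ℂ) (hh1 : Integrable h1) (hh2 : Integrable h2) (γ : 𝓢(ℝ, ℂ)) :
    (Integrable fun ξ => (-(𝓕 h1 ξ) + 2 * Real.pi * Complex.I * ξ * 𝓕 h2 ξ) *
      conj ((𝓕 γ : 𝓢(ℝ, ℂ)) ξ)) ∧
    ∫ ξ, (-(𝓕 h1 ξ) + 2 * Real.pi * Complex.I * ξ * 𝓕 h2 ξ) * conj ((𝓕 γ : 𝓢(ℝ, ℂ)) ξ) =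
      -(∫ y, h1 y * conj (γ y)) - ∫ y, h2 y * conj ((derivCLM ℝ ℂ γ) y) := by
  have e1 : ∀ ξ : ℝ, (-(𝓕 h1 ξ) + 2 * Real.pi * Complex.I * ξ * 𝓕 h2 ξ) *
      conj ((𝓕 γ : 𝓢(ℝ, ℂ)) ξ) = -(𝓕 h1 ξ * conj ((𝓕 γ : 𝓢(ℝ, ℂ)) ξ)) -
        𝓕 h2 ξ * conj ((𝓕 (derivCLM ℝ ℂ γ) : 𝓢(ℝ, ℂ)) ξ) := by
    intro ξ
    rw [four_deriv, map_mul]
    have : conj (2 * (Real.pi : ℂ) * Complex.I * (ξ : ℂ)) = -(2 * Real.pi * Complex.I * ξ) := by
      rw [show 2 * (Real.pi : ℂ) * Complex.I * (ξ : ℂ) = ((2 * Real.pi * ξ : ℝ) : ℂ) * Complex.I by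
        push_cast; ring, map_mul, Complex.conj_ofReal, Complex.conj_I]
      push_cast
      ring
    rw [this]
    ring
  have i1 := int_four_mul hh1 (𝓕 γ : 𝓢(ℝ, ℂ))
  have i1' : Integrable fun ξ => -(𝓕 h1 ξ * conj ((𝓕 γ : 𝓢(ℝ, ℂ)) ξ)) := i1.neg
  have i2 := int_four_mul hh2 (𝓕 (derivCLM ℝ ℂ γ) : 𝓢(ℝ, ℂ))
  constructor
  · exact (i1'.sub i2).congr (Eventually.of_forall fun ξ => (e1 ξ).symm)
  · rw [integral_congr_ae (Eventually.of_forall e1), integral_sub i1' i2, integral_neg,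
      pair_schwartz _ hh1, pair_schwartz _ hh2]

/-! ## The test function -/

/-- the bump -/
noncomputable def bB : ContDiffBump (33 / 200 : ℝ) := ⟨1 / 200, 3 / 200, by norm_num, by norm_num⟩

theorem bB_pos {y : ℝ} (h1 : 3 / 20 < y) (h2 : y < 9 / 50) : 0 < bB y := by
  apply bB.pos_of_mem_ball
  rw [Metric.mem_ball, Real.dist_eq, abs_lt]
  change -(3 / 200) < y - 33 / 200 ∧ y - 33 / 200 < 3 / 200
  constructor <;> linarith

theorem bB_zero {y : ℝ} (h : y ≤ 3 / 20 ∨ 9 / 50 ≤ y) : bB y = 0 := by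
  apply bB.zero_of_le_dist
  rw [Real.dist_eq, le_abs]
  change 3 / 200 ≤ y - 33 / 200 ∨ 3 / 200 ≤ -(y - 33 / 200)
  rcases h with h | h
  · right; linarith
  · left; linarith

theorem bB_nonneg (y : ℝ) : 0 ≤ bB y := bB.nonneg

/-- `G(y) = b(y) y^(-3/2)` -/
noncomputable def GG (y : ℝ) : ℂ := (bB y : ℂ) * (y : ℂ) ^ (-(3 / 2) : ℂ)

/-- `γ(y) = b(y) y^(-3/2-iκ)` -/
noncomputable def gam (κ y : ℝ) : ℂ := (bB y : ℂ) * (y : ℂ) ^ (-(3 / 2) - (κ : ℂ) * Complex.I)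

theorem gen_smooth (c : ℂ) : ContDiff ℝ ∞ (fun y : ℝ => (bB y : ℂ) * (y : ℂ) ^ c) := by
  rw [contDiff_iff_contDiffAt]
  intro y
  rcases lt_or_ge y (1 / 10) with h | h
  · have : (fun y : ℝ => (bB y : ℂ) * (y : ℂ) ^ c) =ᶠ[𝓝 y] fun _ => 0 := by
      filter_upwards [Iio_mem_nhds h] with z hz
      have hz' : z < 1 / 10 := hz
      rw [bB_zero (Or.inl (by linarith)), Complex.ofReal_zero, zero_mul]
    exact contDiffAt_const.congr_of_eventuallyEq this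
  · have hy : 0 < y := by linarith
    have h1 : ContDiffAt ℝ ∞ (fun y : ℝ => (bB y : ℂ)) y :=
      (Complex.ofRealCLM.contDiff.comp bB.contDiff).contDiffAt
    have h2 : ContDiffAt ℝ ∞ (fun y : ℝ => (y : ℂ) ^ c) y := by
      have h3 : (fun y : ℝ => (y : ℂ) ^ c) =ᶠ[𝓝 y]
          fun y : ℝ => Complex.exp ((Real.log y : ℝ) * c) := by
        filter_upwards [Ioi_mem_nhds hy] with z hz
        have hz' : 0 < z := hz
        rw [Complex.cpow_def_of_ne_zero (by exact_mod_cast hz'.ne'), ← Complex.ofReal_log hz'.le]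
      refine ContDiffAt.congr_of_eventuallyEq ?_ h3
      refine ContDiffAt.cexp ?_
      refine ContDiffAt.mul ?_ contDiffAt_const
      exact Complex.ofRealCLM.contDiff.contDiffAt.comp y (Real.contDiffAt_log.2 hy.ne')
    exact h1.mul h2

theorem gen_supp (c : ℂ) : HasCompactSupport (fun y : ℝ => (bB y : ℂ) * (y : ℂ) ^ c) := by
  refine HasCompactSupport.intro (K := Set.Icc (3 / 20 : ℝ) (9 / 50)) isCompact_Icc ?_
  intro y hy
  rw [Set.mem_Icc, not_and_or, not_le, not_le] at hy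
  rw [bB_zero (hy.imp le_of_lt le_of_lt), Complex.ofReal_zero, zero_mul]

/-- the test function as a Schwartz function -/
noncomputable def gS (κ : ℝ) : 𝓢(ℝ, ℂ) :=
  HasCompactSupport.toSchwartzMap (gen_supp (-(3 / 2) - (κ : ℂ) * Complex.I))
    (gen_smooth (-(3 / 2) - (κ : ℂ) * Complex.I))

theorem gS_apply (κ y : ℝ) : gS κ y = (bB y : ℂ) * (y : ℂ) ^ (-(3 / 2) - (κ : ℂ) * Complex.I) := rfl

/-- the reflected test function -/
noncomputable def gR (κ : ℝ) : 𝓢(ℝ, ℂ) :=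
  HasCompactSupport.toSchwartzMap
    (f := fun y : ℝ => (bB (-y) : ℂ) * ((-y : ℝ) : ℂ) ^ (-(3 / 2) - (κ : ℂ) * Complex.I))
    ((gen_supp (-(3 / 2) - (κ : ℂ) * Complex.I)).comp_homeomorph (Homeomorph.neg ℝ))
    ((gen_smooth (-(3 / 2) - (κ : ℂ) * Complex.I)).comp contDiff_neg)

theorem gR_apply (κ y : ℝ) : gR κ y = gS κ (-y) := rfl

theorem four_gR (κ ξ : ℝ) : (𝓕 (gR κ) : 𝓢(ℝ, ℂ)) ξ = (𝓕 (gS κ) : 𝓢(ℝ, ℂ)) (-ξ) := by
  rw [SchwartzMap.fourier_coe, SchwartzMap.fourier_coe, Real.fourier_real_eq_integral_exp_smul,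
    Real.fourier_real_eq_integral_exp_smul]
  rw [← integral_neg_eq_self]
  refine integral_congr_ae (Eventually.of_forall fun y => ?_)
  simp only [gR_apply, neg_neg]
  congr 2
  push_cast
  ring

end Pool.Agent.JOL
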