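import Pool.Agent.Lib_helper87.JO.L3d

/-!
# Project JO, part L3: the local factor as a Fourier transform, pairing with the test function
-/

set_option autoImplicit false

namespace Pool.Agent.JOL

open MeasureTheory Filter Topology FourierTransform SchwartzMap
open Pool.Agent.JO
open scoped ComplexConjugate ENNReal ContDiff InnerProductSpace

variable {σ : ℝ} {k k' : ℝ → ℂ}

/-- the exponent `1 - 2σ - s`, `s = 1/2 + iκ` -/
noncomputable def rr (σ κ : ℝ) : ℂ := 1 - 2 * (σ : ℂ) - ((1 / 2 : ℝ) + (κ : ℂ) * Complex.I)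

theorem rr_re (σ κ : ℝ) : (rr σ κ).re = 1 - 2 * σ - 1 / 2 := by
  rw [rr, re_exp]
  simp

noncomputable def hh1 (σ : ℝ) (k k' : ℝ → ℂ) (v κ : ℝ) : ℝ → ℂ :=
  (Set.Ioi (0 : ℝ)).indicator fun y => gg1 σ k k' v y * (y : ℂ) ^ (rr σ κ)

noncomputable def hh2 (σ : ℝ) (k : ℝ → ℂ) (v κ : ℝ) : ℝ → ℂ :=
  (Set.Ioi (0 : ℝ)).indicator fun y => gg0 σ k v y * (y : ℂ) ^ (rr σ κ)

theorem cpow_cont (c : ℂ) : ContinuousOn (fun y : ℝ => (y : ℂ) ^ c) (Set.Ioi 0) := fun y hy =>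
  (Complex.continuousAt_ofReal_cpow_const y _ (Or.inr (ne_of_gt hy))).continuousWithinAt

theorem hh_int (h : KHyp σ k k') {v : ℝ} (hv : 0 < v) (κ : ℝ) :
    Integrable (hh1 σ k k' v κ) ∧ Integrable (hh2 σ k v κ) := by
  obtain ⟨C, hC, hb⟩ := gg_bounds h
  have hs1 := h.s1
  have hs0 := h.s0
  set e := (1 - 2 * σ) / 4 with he
  have he0 : 0 < e := by rw [he]; linarith
  have he1 : e ≤ 1 / 4 := by rw [he]; linarith
  set V := v ^ (1 / 2 - σ - e) + v ^ (1 / 2 - σ + 2 * σ) with hV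
  have hre : (rr σ κ).re = 4 * e - 1 / 2 := by rw [rr_re, he]; ring
  constructor
  · rw [hh1, integrable_indicator_iff measurableSet_Ioi]
    have hdom : IntegrableOn (fun y : ℝ => C * V * (y ^ (-e - 1 / 2) * Real.exp (-y)))
        (Set.Ioi 0) := (dom_int (by linarith)).const_mul _
    refine Integrable.mono' hdom (((gg1_cont h hv).mul (cpow_cont _)).aestronglyMeasurable
      measurableSet_Ioi) ?_
    rw [ae_restrict_iff' measurableSet_Ioi]
    refine Eventually.of_forall fun y hy => ?_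
    have hy0 : 0 < y := hy
    rw [norm_mul, Complex.norm_cpow_eq_rpow_re_of_pos hy0, hre]
    have hp : 0 ≤ y ^ (4 * e - 1 / 2) := Real.rpow_nonneg hy0.le _
    calc ‖gg1 σ k k' v y‖ * y ^ (4 * e - 1 / 2)
        ≤ (C * V * y ^ (-(5 * e)) * Real.exp (-y)) * y ^ (4 * e - 1 / 2) :=
          mul_le_mul_of_nonneg_right (hb v hv y hy0).2 hp
      _ = C * V * ((y ^ (-(5 * e)) * y ^ (4 * e - 1 / 2)) * Real.exp (-y)) := by ring
      _ = _ := by rw [← Real.rpow_add hy0]; ring_nf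
  · rw [hh2, integrable_indicator_iff measurableSet_Ioi]
    have hdom : IntegrableOn (fun y : ℝ => C * V * (y ^ (2 * e - 1 / 2) * Real.exp (-y)))
        (Set.Ioi 0) := (dom_int (by linarith)).const_mul _
    refine Integrable.mono' hdom (((gg0_cont h hv).mul (cpow_cont _)).aestronglyMeasurable
      measurableSet_Ioi) ?_
    rw [ae_restrict_iff' measurableSet_Ioi]
    refine Eventually.of_forall fun y hy => ?_
    have hy0 : 0 < y := hy
    rw [norm_mul, Complex.norm_cpow_eq_rpow_re_of_pos hy0, hre]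
    have hp : 0 ≤ y ^ (4 * e - 1 / 2) := Real.rpow_nonneg hy0.le _
    calc ‖gg0 σ k v y‖ * y ^ (4 * e - 1 / 2)
        ≤ (C * V * y ^ (-(2 * e)) * Real.exp (-y)) * y ^ (4 * e - 1 / 2) :=
          mul_le_mul_of_nonneg_right (hb v hv y hy0).1 hp
      _ = C * V * ((y ^ (-(2 * e)) * y ^ (4 * e - 1 / 2)) * Real.exp (-y)) := by ring
      _ = _ := by rw [← Real.rpow_add hy0]; ring_nf

/-- the local factor as a function of `x` -/
noncomputable def Phi (σ : ℝ) (k k' : ℝ → ℂ) (v κ ξ : ℝ) : ℂ :=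
  -(𝓕 (hh1 σ k k' v κ) ξ) + 2 * Real.pi * Complex.I * ξ * 𝓕 (hh2 σ k v κ) ξ

theorem Phi_cont (h : KHyp σ k k') {v : ℝ} (hv : 0 < v) (κ : ℝ) :
    Continuous (Phi σ k k' v κ) := by
  obtain ⟨h1, h2⟩ := hh_int h hv κ
  unfold Phi
  exact (four_cont h1).neg.add ((by fun_prop : Continuous fun ξ : ℝ =>
    2 * (Real.pi : ℂ) * Complex.I * (ξ : ℂ)).mul (four_cont h2))

theorem four_hh (f : ℝ → ℂ) (ξ : ℝ) : 𝓕 ((Set.Ioi (0 : ℝ)).indicator f) ξ =
    ∫ y in Set.Ioi (0 : ℝ), EE0 1 ξ y * f y := by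
  rw [Real.fourier_real_eq_integral_exp_smul, ← integral_indicator measurableSet_Ioi]
  refine integral_congr_ae (Eventually.of_forall fun y => ?_)
  by_cases hy : y ∈ Set.Ioi (0 : ℝ)
  · simp only [Set.indicator_of_mem hy, smul_eq_mul]
    congr 1
    rw [EE0]
    congr 1
    push_cast
    ring
  · simp only [Set.indicator_of_notMem hy, smul_zero]

theorem YY_eq_Phi (h : KHyp σ k k') (ε : ℝ) (w : UpperHalfPlane) (κ : ℝ) :
    YY σ k k' ε w ((1 / 2 : ℝ) + (κ : ℂ) * Complex.I) = Phi σ k k' w.im κ (ε * w.re) := by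
  have hv : 0 < w.im := w.im_pos
  obtain ⟨h1, h2⟩ := hh_int h hv κ
  rw [hh1, integrable_indicator_iff measurableSet_Ioi] at h1
  rw [hh2, integrable_indicator_iff measurableSet_Ioi] at h2
  rw [Phi, hh1, hh2, four_hh, four_hh, YY]
  have i1 : IntegrableOn (fun y : ℝ => EE0 1 (ε * w.re) y * (gg1 σ k k' w.im y *
      (y : ℂ) ^ (rr σ κ))) (Set.Ioi 0) := by
    refine Integrable.bdd_mul (c := 1) h1 (EE0_cont _ _).aestronglyMeasurable ?_
    exact Eventually.of_forall fun y => by rw [norm_EE0]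
  have i2 : IntegrableOn (fun y : ℝ => EE0 1 (ε * w.re) y * (gg0 σ k w.im y *
      (y : ℂ) ^ (rr σ κ))) (Set.Ioi 0) := by
    refine Integrable.bdd_mul (c := 1) h2 (EE0_cont _ _).aestronglyMeasurable ?_
    exact Eventually.of_forall fun y => by rw [norm_EE0]
  have e1 : ∀ y ∈ Set.Ioi (0 : ℝ), FF1 σ k k' ε w.re w.im y *
      (y : ℂ) ^ (1 - 2 * (σ : ℂ) - ((1 / 2 : ℝ) + (κ : ℂ) * Complex.I)) =
      EE0 1 (ε * w.re) y * (gg1 σ k k' w.im y * (y : ℂ) ^ (rr σ κ)) -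
      2 * Real.pi * Complex.I * ((ε * w.re : ℝ) : ℂ) *
        (EE0 1 (ε * w.re) y * (gg0 σ k w.im y * (y : ℂ) ^ (rr σ κ))) := by
    intro y _
    have e2 : EE0 ε w.re y = EE0 1 (ε * w.re) y := by
      rw [EE0, EE0, one_mul]
    rw [FF1, e2, rr]
    ring
  rw [setIntegral_congr_fun measurableSet_Ioi e1, integral_sub i1 (i2.const_mul _),
    integral_const_mul]
  ring

/-- the main term -/
noncomputable def I0 (σ : ℝ) (k : ℝ → ℂ) (v : ℝ) : ℂ :=
  ∫ y in (1 / 10 : ℝ)..(1 / 5), gg0 σ k v y * ((bB y * y ^ (-(2 * σ) - 2) : ℝ) : ℂ)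

theorem gS_zero (κ : ℝ) {y : ℝ} (hy : y ≤ 3 / 20 ∨ 9 / 50 ≤ y) : gS κ y = 0 := by
  rw [gS_apply, bB_zero hy, Complex.ofReal_zero, zero_mul]

theorem gS_deriv_zero (κ : ℝ) {y : ℝ} (hy : y < 3 / 20 ∨ 9 / 50 < y) :
    deriv (gS κ) y = 0 := by
  have : (gS κ : ℝ → ℂ) =ᶠ[𝓝 y] fun _ => 0 := by
    rcases hy with hy | hy
    · filter_upwards [Iio_mem_nhds hy] with z hz
      exact gS_zero κ (Or.inl (le_of_lt hz))
    · filter_upwards [Ioi_mem_nhds hy] with z hz
      exact gS_zero κ (Or.inr (le_of_lt hz))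
  rw [this.deriv_eq]
  simp

theorem conj_cpow {y : ℝ} (hy : 0 < y) (c : ℂ) : conj ((y : ℂ) ^ c) = (y : ℂ) ^ (conj c) := by
  have hy' : (y : ℂ) ≠ 0 := by exact_mod_cast hy.ne'
  rw [Complex.cpow_def_of_ne_zero hy', Complex.cpow_def_of_ne_zero hy', ← Complex.exp_conj,
    map_mul, ← Complex.ofReal_log hy.le, Complex.conj_ofReal]

/-- the pairing with the test function -/
theorem pair_gS (h : KHyp σ k k') {v : ℝ} (hv : 0 < v) (κ : ℝ) :
    (Integrable fun ξ => Phi σ k k' v κ ξ * conj ((𝓕 (gS κ) : 𝓢(ℝ, ℂ)) ξ)) ∧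
    ∫ ξ, Phi σ k k' v κ ξ * conj ((𝓕 (gS κ) : 𝓢(ℝ, ℂ)) ξ) = rr σ κ * I0 σ k v := by
  obtain ⟨i1, i2⟩ := hh_int h hv κ
  obtain ⟨j1, j2⟩ := pair_first _ _ i1 i2 (gS κ)
  refine ⟨j1, ?_⟩
  unfold Phi
  rw [j2]
  set r := rr σ κ with hr
  -- reduce to an interval
  have hsub : ∀ f : ℝ → ℂ, (∀ y : ℝ, y < 3 / 20 ∨ 9 / 50 < y → f y = 0) →
      ∫ y, f y = ∫ y in (1 / 10 : ℝ)..(1 / 5), f y := by
    intro f hf
    refine (intervalIntegral.integral_eq_integral_of_support_subset ?_).symm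
    intro y hy
    rw [Function.mem_support] at hy
    by_contra hcon
    rw [Set.mem_Ioc, not_and_or, not_lt, not_le] at hcon
    apply hy
    apply hf
    rcases hcon with hc | hc
    · left; linarith
    · right; linarith
  have e1 : ∫ y, hh1 σ k k' v κ y * conj (gS κ y) =
      ∫ y in (1 / 10 : ℝ)..(1 / 5), (y : ℂ) ^ r * (gg1 σ k k' v y * conj (gS κ y)) := by
    rw [hsub _ (fun y hy => by
      rw [gS_zero κ (hy.imp le_of_lt le_of_lt), map_zero, mul_zero])]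
    refine intervalIntegral.integral_congr fun y hy => ?_
    rw [Set.uIcc_of_le (by norm_num)] at hy
    have hy0 : y ∈ Set.Ioi (0 : ℝ) := by
      have := hy.1
      simp only [Set.mem_Ioi]; linarith
    simp only [hh1, Set.indicator_of_mem hy0]
    ring
  have e2 : ∫ y, hh2 σ k v κ y * conj ((derivCLM ℝ ℂ (gS κ)) y) =
      ∫ y in (1 / 10 : ℝ)..(1 / 5), (y : ℂ) ^ r * (gg0 σ k v y * conj (deriv (gS κ) y)) := by
    rw [hsub _ (fun y hy => by
      rw [derivCLM_apply, gS_deriv_zero κ hy, map_zero, mul_zero])]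
    refine intervalIntegral.integral_congr fun y hy => ?_
    rw [Set.uIcc_of_le (by norm_num)] at hy
    have hy0 : y ∈ Set.Ioi (0 : ℝ) := by
      have := hy.1
      simp only [Set.mem_Ioi]; linarith
    simp only [hh2, Set.indicator_of_mem hy0, derivCLM_apply]
    ring
  have hpos : ∀ y ∈ Set.uIcc (1 / 10 : ℝ) (1 / 5), 0 < y := by
    intro y hy
    rw [Set.uIcc_of_le (by norm_num)] at hy
    linarith [hy.1]
  have hsubs : Set.uIcc (1 / 10 : ℝ) (1 / 5) ⊆ Set.Ioi 0 := fun y hy => hpos y hy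
  have hcγ : Continuous (fun y => conj (gS κ y)) :=
    Complex.continuous_conj.comp (gS κ).continuous
  have hcγ' : Continuous (fun y => conj (deriv (gS κ) y)) :=
    Complex.continuous_conj.comp ((gS κ).smooth 1 |>.continuous_deriv le_rfl)
  have ci1 : IntervalIntegrable (fun y : ℝ => (y : ℂ) ^ r * (gg1 σ k k' v y * conj (gS κ y)))
      volume (1 / 10) (1 / 5) := by
    apply ContinuousOn.intervalIntegrable
    exact ((cpow_cont r).mono hsubs).mul (((gg1_cont h hv).mono hsubs).mul hcγ.continuousOn)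
  have ci2 : IntervalIntegrable
      (fun y : ℝ => (y : ℂ) ^ r * (gg0 σ k v y * conj (deriv (gS κ) y)))
      volume (1 / 10) (1 / 5) := by
    apply ContinuousOn.intervalIntegrable
    exact ((cpow_cont r).mono hsubs).mul (((gg0_cont h hv).mono hsubs).mul hcγ'.continuousOn)
  have hcomb : -(∫ y, hh1 σ k k' v κ y * conj (gS κ y)) -
      ∫ y, hh2 σ k v κ y * conj ((derivCLM ℝ ℂ (gS κ)) y) =
      -∫ y in (1 / 10 : ℝ)..(1 / 5), (y : ℂ) ^ r *
        (gg1 σ k k' v y * conj (gS κ y) + gg0 σ k v y * conj (deriv (gS κ) y)) := by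
    rw [e1, e2, ← neg_add', ← intervalIntegral.integral_add ci1 ci2]
    congr 1
    refine intervalIntegral.integral_congr fun y _ => ?_
    ring
  rw [hcomb]
  have hu : ∀ y ∈ Set.uIcc (1 / 10 : ℝ) (1 / 5), HasDerivAt (fun y : ℝ => (y : ℂ) ^ r)
      (r * (y : ℂ) ^ (r - 1)) y := by
    intro y hy
    have h1 : HasDerivAt (fun z : ℂ => z ^ r) (r * (y : ℂ) ^ (r - 1) * 1) (y : ℂ) :=
      (hasDerivAt_id (y : ℂ)).cpow_const (Or.inl (by simpa using hpos y hy))
    rw [mul_one] at h1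
    exact h1.comp_ofReal
  have hV : ∀ y ∈ Set.uIcc (1 / 10 : ℝ) (1 / 5), HasDerivAt
      (fun y : ℝ => gg0 σ k v y * conj (gS κ y))
      (gg1 σ k k' v y * conj (gS κ y) + gg0 σ k v y * conj (deriv (gS κ) y)) y := by
    intro y hy
    have h1 : HasDerivAt (gS κ) (deriv (gS κ) y) y := (gS κ).differentiableAt.hasDerivAt
    have h2 := h1.star
    exact (hasDerivAt_gg0 h hv (hpos y hy)).mul h2
  have hparts := intervalIntegral.integral_mul_deriv_eq_deriv_mul hu hV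
    (ContinuousOn.intervalIntegrable (continuousOn_const.mul ((cpow_cont (r - 1)).mono hsubs)))
    (ContinuousOn.intervalIntegrable ((((gg1_cont h hv).mono hsubs).mul hcγ.continuousOn).add
      (((gg0_cont h hv).mono hsubs).mul hcγ'.continuousOn)))
  rw [hparts, gS_zero κ (Or.inr (by norm_num)), gS_zero κ (Or.inl (by norm_num)), map_zero,
    mul_zero, mul_zero, mul_zero, mul_zero, sub_zero, zero_sub, neg_neg, I0,
    ← intervalIntegral.integral_const_mul]
  refine intervalIntegral.integral_congr fun y hy => ?_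
  have hy0 := hpos y hy
  have hyc : (y : ℂ) ≠ 0 := by exact_mod_cast hy0.ne'
  rw [gS_apply, map_mul, Complex.conj_ofReal, conj_cpow hy0]
  have e3 : (y : ℂ) ^ (r - 1) * (y : ℂ) ^ (conj (-(3 / 2) - (κ : ℂ) * Complex.I)) =
      ((y ^ (-(2 * σ) - 2) : ℝ) : ℂ) := by
    rw [← Complex.cpow_add _ _ hyc, Complex.ofReal_cpow hy0.le]
    congr 1
    have : conj (-(3 / 2 : ℂ) - (κ : ℂ) * Complex.I) = -(3 / 2) + κ * Complex.I := by
      rw [show (-(3 / 2 : ℂ) - (κ : ℂ) * Complex.I) =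
        ((-(3 / 2) : ℝ) : ℂ) - (κ : ℂ) * Complex.I by push_cast; ring]
      rw [map_sub, map_mul, Complex.conj_ofReal, Complex.conj_ofReal, Complex.conj_I]
      push_cast; ring
    rw [this, hr, rr]
    push_cast
    ring
  push_cast
  push_cast at e3
  linear_combination (r * gg0 σ k v y * (bB y : ℂ)) * e3

/-- the pairing with the reflected test function -/
theorem pair_gR (h : KHyp σ k k') {v : ℝ} (hv : 0 < v) (κ : ℝ) :
    (Integrable fun ξ => Phi σ k k' v κ ξ * conj ((𝓕 (gR κ) : 𝓢(ℝ, ℂ)) ξ)) ∧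
    ∫ ξ, Phi σ k k' v κ ξ * conj ((𝓕 (gR κ) : 𝓢(ℝ, ℂ)) ξ) = 0 := by
  obtain ⟨i1, i2⟩ := hh_int h hv κ
  obtain ⟨j1, j2⟩ := pair_first _ _ i1 i2 (gR κ)
  refine ⟨j1, ?_⟩
  unfold Phi
  rw [j2]
  have e1 : ∀ y : ℝ, hh1 σ k k' v κ y * conj (gR κ y) = 0 := by
    intro y
    by_cases hy : y ∈ Set.Ioi (0 : ℝ)
    · have hy0 : 0 < y := hy
      rw [gR_apply, gS_zero κ (Or.inl (by linarith)), map_zero, mul_zero]
    · rw [hh1, Set.indicator_of_notMem hy, zero_mul]
  have e2 : ∀ y : ℝ, hh2 σ k v κ y * conj ((derivCLM ℝ ℂ (gR κ)) y) = 0 := by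
    intro y
    by_cases hy : y ∈ Set.Ioi (0 : ℝ)
    · have hy0 : 0 < y := hy
      have h3 : (gR κ : ℝ → ℂ) =ᶠ[𝓝 y] fun _ => 0 := by
        filter_upwards [Ioi_mem_nhds hy0] with z hz
        have hz0 : 0 < z := hz
        rw [gR_apply]
        exact gS_zero κ (Or.inl (by linarith))
      rw [derivCLM_apply, h3.deriv_eq]
      simp
    · rw [hh2, Set.indicator_of_notMem hy, zero_mul]
  simp only [e1, e2, integral_zero, neg_zero, sub_zero]

end Pool.Agent.JOL
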