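import Pool.Agent.Lib_helper87.JO.L3e
import Pool.Agent.Lib_helper87.JOL.All

/-!
# Project JO, part L3: the lower bound for a fixed height
-/

set_option autoImplicit false

namespace Pool.Agent.JOL

open MeasureTheory Filter Topology FourierTransform SchwartzMap
open Pool.Agent.JO
open scoped ComplexConjugate ENNReal ContDiff InnerProductSpace

variable {σ : ℝ} {kp kp' km km' : ℝ → ℂ}

/-- the region -/
def SK (K : ℝ) : Set ℝ := {x : ℝ | 3 / 4 * K ≤ |x| ∧ |x| ≤ 29 / 10 * K}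

theorem SK_meas (K : ℝ) : MeasurableSet (SK K) := by
  have h1 : MeasurableSet {x : ℝ | 3 / 4 * K ≤ |x|} :=
    (isClosed_le continuous_const continuous_abs).measurableSet
  have h2 : MeasurableSet {x : ℝ | |x| ≤ 29 / 10 * K} :=
    (isClosed_le continuous_abs continuous_const).measurableSet
  exact h1.inter h2

theorem SK_compact (K : ℝ) : IsCompact (SK K) := by
  have h1 : IsClosed {x : ℝ | 3 / 4 * K ≤ |x|} := isClosed_le continuous_const continuous_abs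
  have h2 : IsCompact {x : ℝ | |x| ≤ 29 / 10 * K} := by
    have : {x : ℝ | |x| ≤ 29 / 10 * K} = Set.Icc (-(29 / 10 * K)) (29 / 10 * K) := by
      ext x
      exact ⟨fun h => abs_le.1 h, fun h => abs_le.2 h⟩
    rw [this]
    exact isCompact_Icc
  exact h2.inter_left h1

theorem GG_supp : ∀ y, y ∉ Set.Icc (3 / 20 : ℝ) (9 / 50) → GG y = 0 := by
  intro y hy
  rw [Set.mem_Icc, not_and_or, not_le, not_le] at hy
  rw [GG, bB_zero (hy.imp le_of_lt le_of_lt), Complex.ofReal_zero, zero_mul]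

/-- the Fourier transform of the test function -/
theorem four_gS (κ x : ℝ) : (𝓕 (gS κ) : 𝓢(ℝ, ℂ)) x =
    ∫ y in (3 / 20 : ℝ)..(9 / 50), GG y *
        Complex.exp (-(Complex.I * ((κ * Real.log y + 2 * Real.pi * x * y : ℝ) : ℂ))) := by
  rw [SchwartzMap.fourier_coe, Real.fourier_real_eq_integral_exp_smul]
  have h1 : ∫ y, Complex.exp (((-2 * Real.pi * y * x : ℝ) : ℂ) * Complex.I) • gS κ y =
      ∫ y in (3 / 20 : ℝ)..(9 / 50),
        Complex.exp (((-2 * Real.pi * y * x : ℝ) : ℂ) * Complex.I) • gS κ y := by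
    refine (intervalIntegral.integral_eq_integral_of_support_subset ?_).symm
    intro y hy
    rw [Function.mem_support] at hy
    by_contra hcon
    rw [Set.mem_Ioc, not_and_or, not_lt, not_le] at hcon
    apply hy
    rw [gS_zero κ (hcon.imp id le_of_lt), smul_zero]
  rw [h1]
  refine intervalIntegral.integral_congr fun y hy => ?_
  rw [Set.uIcc_of_le (by norm_num)] at hy
  have hy0 : 0 < y := by linarith [hy.1]
  have hyc : (y : ℂ) ≠ 0 := by exact_mod_cast hy0.ne'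
  simp only [smul_eq_mul]
  rw [gS_apply, GG, sub_eq_add_neg, Complex.cpow_add _ _ hyc]
  have e1 : (y : ℂ) ^ (-((κ : ℂ) * Complex.I)) =
      Complex.exp (-(Complex.I * ((κ * Real.log y : ℝ) : ℂ))) := by
    rw [Complex.cpow_def_of_ne_zero hyc, ← Complex.ofReal_log hy0.le]
    congr 1
    push_cast
    ring
  have e2 : Complex.exp (-(Complex.I * ((κ * Real.log y + 2 * Real.pi * x * y : ℝ) : ℂ))) =
      Complex.exp (-(Complex.I * ((κ * Real.log y : ℝ) : ℂ))) *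
        Complex.exp (((-2 * Real.pi * y * x : ℝ) : ℂ) * Complex.I) := by
    rw [← Complex.exp_add]
    congr 1
    push_cast
    ring
  rw [e1, e2]
  ring

theorem four_gS_neg (κ x : ℝ) : ‖(𝓕 (gS (-κ)) : 𝓢(ℝ, ℂ)) x‖ = ‖(𝓕 (gS κ) : 𝓢(ℝ, ℂ)) (-x)‖ := by
  have h1 : (𝓕 (gS (-κ)) : 𝓢(ℝ, ℂ)) x = conj ((𝓕 (gS κ) : 𝓢(ℝ, ℂ)) (-x)) := by
    rw [four_gS, four_gS, intervalIntegral.integral_of_le (by norm_num),
      intervalIntegral.integral_of_le (by norm_num), ← integral_conj]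
    refine setIntegral_congr_fun measurableSet_Ioc fun y hy => ?_
    have hy0 : 0 < y := by linarith [hy.1]
    rw [map_mul, ← Complex.exp_conj, GG, map_mul, Complex.conj_ofReal, conj_cpow hy0]
    have e1 : conj (-(3 / 2) : ℂ) = -(3 / 2) := by
      rw [show (-(3 / 2) : ℂ) = ((-(3 / 2) : ℝ) : ℂ) by push_cast; ring, Complex.conj_ofReal]
    rw [e1, map_neg, map_mul, Complex.conj_ofReal, Complex.conj_I]
    congr 2
    push_cast
    ring
  rw [h1, RCLike.norm_conj]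

/-- decay off the region -/
theorem gS_decay : ∃ C : ℝ, 0 ≤ C ∧ ∀ K κ x : ℝ, 1 ≤ K → K ≤ |κ| → |κ| ≤ 2 * K → x ∉ SK K →
    ‖(𝓕 (gS κ) : 𝓢(ℝ, ℂ)) x‖ ≤ C / (1 + |x|) ^ 3 := by
  obtain ⟨C, hC, h⟩ := nsp_decay GG (gen_smooth _) GG_supp 3
  have main : ∀ K κ x : ℝ, 1 ≤ K → K ≤ κ → κ ≤ 2 * K → x ∉ SK K →
      ‖(𝓕 (gS κ) : 𝓢(ℝ, ℂ)) x‖ ≤ C / (1 + |x|) ^ 3 := by
    intro K κ x hK h1 h2 hx
    have hreg : -(3 / 4 * K) ≤ x ∨ x ≤ -(29 / 10 * K) := by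
      by_contra hcon
      rw [not_or, not_le, not_le] at hcon
      apply hx
      have hx0 : x < 0 := by linarith [hcon.1]
      change 3 / 4 * K ≤ |x| ∧ |x| ≤ 29 / 10 * K
      rw [abs_of_neg hx0]
      constructor <;> linarith [hcon.1, hcon.2]
    rw [four_gS]
    refine (h K κ x (by linarith) h1 h2 hreg).trans ?_
    apply div_le_div_of_nonneg_left hC (by positivity)
    gcongr
  refine ⟨C, hC, fun K κ x hK h1 h2 hx => ?_⟩
  rcases le_or_gt 0 κ with hκ | hκ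
  · rw [abs_of_nonneg hκ] at h1 h2
    exact main K κ x hK h1 h2 hx
  · rw [abs_of_neg hκ] at h1 h2
    have h3 := main K (-κ) (-x) hK h1 h2 (by
      intro hcon
      apply hx
      change 3 / 4 * K ≤ |x| ∧ |x| ≤ 29 / 10 * K
      have hcon' : 3 / 4 * K ≤ |-x| ∧ |-x| ≤ 29 / 10 * K := hcon
      rwa [abs_neg] at hcon')
    rw [abs_neg] at h3
    have h4 := four_gS_neg κ (-x)
    rw [neg_neg] at h4
    rw [← h4]
    exact h3

/-- the square mean of the test function -/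
noncomputable def G2 : ℝ := ∫ y, ‖GG y‖ ^ 2

theorem gS_norm (κ y : ℝ) : ‖gS κ y‖ = ‖GG y‖ := by
  rcases le_or_gt y (3 / 20) with h | h
  · rw [gS_zero κ (Or.inl h), GG, bB_zero (Or.inl h)]
    simp
  · have hy : 0 < y := by linarith
    rw [gS_apply, GG, norm_mul, norm_mul, Complex.norm_cpow_eq_rpow_re_of_pos hy,
      Complex.norm_cpow_eq_rpow_re_of_pos hy]
    congr 2
    simp

theorem gS_L2 (κ : ℝ) : (Integrable fun x => ‖(𝓕 (gS κ) : 𝓢(ℝ, ℂ)) x‖ ^ 2) ∧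
    ∫ x, ‖(𝓕 (gS κ) : 𝓢(ℝ, ℂ)) x‖ ^ 2 = G2 := by
  have h1 := pair_schwartz (gS κ) (gS κ).integrable (gS κ)
  have e1 : ∀ x : ℝ, 𝓕 (gS κ : ℝ → ℂ) x * conj ((𝓕 (gS κ) : 𝓢(ℝ, ℂ)) x) =
      ((‖(𝓕 (gS κ) : 𝓢(ℝ, ℂ)) x‖ ^ 2 : ℝ) : ℂ) := by
    intro x
    rw [SchwartzMap.fourier_coe, Complex.mul_conj, Complex.normSq_eq_norm_sq]
  have e2 : ∀ y : ℝ, gS κ y * conj (gS κ y) = ((‖GG y‖ ^ 2 : ℝ) : ℂ) := by
    intro y
    rw [Complex.mul_conj, Complex.normSq_eq_norm_sq, gS_norm]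
  constructor
  · have h2 := int_four_mul (gS κ).integrable (𝓕 (gS κ) : 𝓢(ℝ, ℂ))
    have h3 := h2.congr (Eventually.of_forall e1)
    refine h3.re.congr (Eventually.of_forall fun x => ?_)
    exact Complex.ofReal_re _
  · rw [integral_congr_ae (Eventually.of_forall e1), integral_congr_ae (Eventually.of_forall e2),
      integral_complex_ofReal, integral_complex_ofReal] at h1
    exact Complex.ofReal_injective h1

theorem G2_nonneg : 0 ≤ G2 := integral_nonneg fun y => by positivity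

theorem rr_norm (σ κ : ℝ) : |κ| ≤ ‖rr σ κ‖ := by
  have h1 : (rr σ κ).im = -κ := by
    rw [rr]
    simp
  have := Complex.abs_im_le_norm (rr σ κ)
  rwa [h1, abs_neg] at this

theorem Phi_bound {k k' : ℝ → ℂ} (h : KHyp σ k k') : ∃ C : ℝ, 0 ≤ C ∧ ∀ v κ ξ : ℝ, 1 ≤ v → v ≤ 2 →
    ‖Phi σ k k' v κ ξ‖ ≤ C * (1 + |ξ|) := by
  obtain ⟨C, hC, hb⟩ := YY_bound h
  refine ⟨C, hC, fun v κ ξ h1 h2 => ?_⟩
  have hv : 0 < v := by linarith
  have h3 := hb ⟨⟨ξ, v⟩, hv⟩ κ 1 (by simp) h1 h2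
  rw [YY_eq_Phi h] at h3
  have e1 : (UpperHalfPlane.mk ⟨ξ, v⟩ hv : UpperHalfPlane).re = ξ := rfl
  have e2 : (UpperHalfPlane.mk ⟨ξ, v⟩ hv : UpperHalfPlane).im = v := rfl
  rw [e1, e2, one_mul] at h3
  exact h3

/-- one half of the lower bound -/
theorem half_bound {T : ℝ → ℂ} (hT : Continuous T) {g : 𝓢(ℝ, ℂ)} {K D C C' t : ℝ}
    (ht : 0 < t) (hC : 0 ≤ C) (hC' : 0 ≤ C')
    (hD : 0 ≤ D) (hTb : ∀ x, ‖T x‖ ≤ D * (C * (1 + |x|)))
    (hg : ∀ x, x ∉ SK K → ‖g x‖ ≤ C' / (1 + |x|) ^ 3)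
    (hg2 : Integrable fun x => ‖g x‖ ^ 2) (hg3 : ∫ x, ‖g x‖ ^ 2 = G2)
    (hint : Integrable fun x => T x * conj (g x)) :
    ‖∫ x, T x * conj (g x)‖ ≤ t / 2 * G2 + 1 / (2 * t) * (∫ x in SK K, ‖T x‖ ^ 2) +
      D * (C * C' * Real.pi) := by
  have h1 : ‖∫ x, T x * conj (g x)‖ ≤ ∫ x, ‖T x * conj (g x)‖ := norm_integral_le_integral_norm _
  have hin : Integrable fun x => ‖T x * conj (g x)‖ := hint.norm
  rw [← integral_add_compl (SK_meas K) hin] at h1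
  have hTS : IntegrableOn (fun x => ‖T x‖ ^ 2) (SK K) :=
    (hT.norm.pow 2).continuousOn.integrableOn_compact (SK_compact K)
  have h2 : ∫ x in SK K, ‖T x * conj (g x)‖ ≤
      t / 2 * G2 + 1 / (2 * t) * (∫ x in SK K, ‖T x‖ ^ 2) := by
    have e1 : ∫ x in SK K, ‖T x * conj (g x)‖ ≤
        ∫ x in SK K, (t / 2 * ‖g x‖ ^ 2 + 1 / (2 * t) * ‖T x‖ ^ 2) := by
      refine setIntegral_mono_on hin.integrableOn
        ((hg2.integrableOn.const_mul _).add (hTS.const_mul _)) (SK_meas K) fun x _ => ?_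
      rw [norm_mul, RCLike.norm_conj]
      have e2 : 0 ≤ (1 / (2 * t)) * (t * ‖g x‖ - ‖T x‖) ^ 2 := by positivity
      have e3 : (1 / (2 * t)) * (t * ‖g x‖ - ‖T x‖) ^ 2 =
          t / 2 * ‖g x‖ ^ 2 + 1 / (2 * t) * ‖T x‖ ^ 2 - ‖T x‖ * ‖g x‖ := by
        field_simp; ring
      linarith
    rw [integral_add (hg2.integrableOn.const_mul _) (hTS.const_mul _), integral_const_mul,
      integral_const_mul] at e1
    have e4 : ∫ x in SK K, ‖g x‖ ^ 2 ≤ G2 := by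
      rw [← hg3]
      exact setIntegral_le_integral hg2 (Eventually.of_forall fun x => by positivity)
    have e5 : t / 2 * ∫ x in SK K, ‖g x‖ ^ 2 ≤ t / 2 * G2 :=
      mul_le_mul_of_nonneg_left e4 (by positivity)
    linarith
  have h3 : ∫ x in (SK K)ᶜ, ‖T x * conj (g x)‖ ≤ D * (C * C' * Real.pi) := by
    have e1 : ∫ x in (SK K)ᶜ, ‖T x * conj (g x)‖ ≤
        ∫ x in (SK K)ᶜ, D * (C * C') * (1 + x ^ 2)⁻¹ := by
      refine setIntegral_mono_on hin.integrableOn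
        ((integrable_inv_one_add_sq.const_mul _).integrableOn) (SK_meas K).compl fun x hx => ?_
      rw [norm_mul, RCLike.norm_conj]
      have hx1 : 0 < 1 + |x| := by positivity
      calc ‖T x‖ * ‖g x‖ ≤ (D * (C * (1 + |x|))) * (C' / (1 + |x|) ^ 3) := by
            gcongr
            · exact hTb x
            · exact hg x hx
        _ = D * (C * C') * ((1 + |x|) ^ 2)⁻¹ := by field_simp
        _ ≤ D * (C * C') * (1 + x ^ 2)⁻¹ := by
            gcongr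
            have := abs_nonneg x
            nlinarith [sq_abs x]
    have e2 : ∫ x in (SK K)ᶜ, D * (C * C') * (1 + x ^ 2)⁻¹ ≤
        ∫ x, D * (C * C') * (1 + x ^ 2)⁻¹ :=
      setIntegral_le_integral (integrable_inv_one_add_sq.const_mul _)
        (Eventually.of_forall fun x => by positivity)
    have e3 : ∫ x : ℝ, D * (C * C') * (1 + x ^ 2)⁻¹ = D * (C * C') * Real.pi := by
      rw [integral_const_mul, integral_univ_inv_one_add_sq]
    calc _ ≤ _ := e1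
      _ ≤ _ := e2
      _ = D * (C * C') * Real.pi := e3
      _ = _ := by ring
  linarith

/-- **The lower bound for a fixed height.** -/
theorem lower_fixed (hp : KHyp σ kp kp') (hm : KHyp σ km km') {c0 : ℝ} (hc0 : 0 < c0) :
    ∃ c K0 : ℝ, 0 < c ∧ 1 ≤ K0 ∧ ∀ K κ : ℝ, K0 ≤ K → K ≤ |κ| → |κ| ≤ 2 * K →
      ∀ v : ℝ, 1 ≤ v → v ≤ 2 → c0 ≤ ‖I0 σ kp v‖ → c0 ≤ ‖I0 σ km v‖ → ∀ Dp Dm : ℂ,
        c * (‖rr σ κ‖ * (‖Dp‖ + ‖Dm‖)) ^ 2 ≤
          ∫ x in SK K, ‖Dp * Phi σ kp kp' v κ x + Dm * Phi σ km km' v κ (-x)‖ ^ 2 := by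
  obtain ⟨C', hC', hdec⟩ := gS_decay
  obtain ⟨Cp, hCp, hbp⟩ := Phi_bound hp
  obtain ⟨Cm, hCm, hbm⟩ := Phi_bound hm
  have hG := G2_nonneg
  set C := Cp + Cm with hCdef
  have hC : 0 ≤ C := by positivity
  set E := C * C' * Real.pi with hE
  have hE0 : 0 ≤ E := by positivity
  set Γ := G2 + 1 with hΓ
  have hΓ0 : 0 < Γ := by positivity
  refine ⟨c0 ^ 2 / (16 * Γ), max 1 (4 * E / c0), by positivity, le_max_left _ _, ?_⟩
  intro K κ hK hκ1 hκ2 v hv1 hv2 hIp hIm Dp Dm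
  have hK1 : 1 ≤ K := (le_max_left _ _).trans hK
  have hKE : 4 * E / c0 ≤ K := (le_max_right _ _).trans hK
  have hv : 0 < v := by linarith
  set D := ‖Dp‖ + ‖Dm‖ with hD
  have hD0 : 0 ≤ D := by positivity
  set T : ℝ → ℂ := fun x => Dp * Phi σ kp kp' v κ x + Dm * Phi σ km km' v κ (-x) with hTdef
  have hcp := Phi_cont hp hv κ
  have hcm := Phi_cont hm hv κ
  have hT : Continuous T :=
    (continuous_const.mul hcp).add (continuous_const.mul (hcm.comp continuous_neg))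
  have hTb : ∀ x, ‖T x‖ ≤ D * (C * (1 + |x|)) := by
    intro x
    simp only [hTdef]
    refine (norm_add_le _ _).trans ?_
    rw [norm_mul, norm_mul]
    have e1 := hbp v κ x hv1 hv2
    have e2 := hbm v κ (-x) hv1 hv2
    rw [abs_neg] at e2
    have hx : 0 ≤ 1 + |x| := by positivity
    calc ‖Dp‖ * ‖Phi σ kp kp' v κ x‖ + ‖Dm‖ * ‖Phi σ km km' v κ (-x)‖
        ≤ ‖Dp‖ * (Cp * (1 + |x|)) + ‖Dm‖ * (Cm * (1 + |x|)) := by gcongr
      _ ≤ (‖Dp‖ + ‖Dm‖) * ((Cp + Cm) * (1 + |x|)) := by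
          have a1 : 0 ≤ ‖Dp‖ * (Cm * (1 + |x|)) := by positivity
          have a2 : 0 ≤ ‖Dm‖ * (Cp * (1 + |x|)) := by positivity
          nlinarith
  -- the two pairings
  obtain ⟨ip1, ip2⟩ := pair_gS hp hv κ
  obtain ⟨ip3, ip4⟩ := pair_gR hp hv κ
  obtain ⟨im1, im2⟩ := pair_gS hm hv κ
  obtain ⟨im3, im4⟩ := pair_gR hm hv κ
  have jm1 : Integrable fun ξ => Phi σ km km' v κ (-ξ) * conj ((𝓕 (gS κ) : 𝓢(ℝ, ℂ)) ξ) := by
    have := im3.comp_neg
    refine this.congr (Eventually.of_forall fun ξ => ?_)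
    simp only [four_gR, neg_neg]
  have jm2 : ∫ ξ, Phi σ km km' v κ (-ξ) * conj ((𝓕 (gS κ) : 𝓢(ℝ, ℂ)) ξ) = 0 := by
    rw [← im4, ← integral_neg_eq_self]
    refine integral_congr_ae (Eventually.of_forall fun ξ => ?_)
    simp only [four_gR, neg_neg]
  have jm3 : Integrable fun ξ => Phi σ km km' v κ (-ξ) * conj ((𝓕 (gR κ) : 𝓢(ℝ, ℂ)) ξ) := by
    have := im1.comp_neg
    refine this.congr (Eventually.of_forall fun ξ => ?_)
    simp only [four_gR]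
  have jm4 : ∫ ξ, Phi σ km km' v κ (-ξ) * conj ((𝓕 (gR κ) : 𝓢(ℝ, ℂ)) ξ) =
      rr σ κ * I0 σ km v := by
    rw [← im2, ← integral_neg_eq_self]
    refine integral_congr_ae (Eventually.of_forall fun ξ => ?_)
    simp only [four_gR, neg_neg]
  have hA1i : Integrable fun ξ => T ξ * conj ((𝓕 (gS κ) : 𝓢(ℝ, ℂ)) ξ) := by
    refine ((ip1.const_mul Dp).add (jm1.const_mul Dm)).congr (Eventually.of_forall fun ξ => ?_)
    simp only [hTdef, Pi.add_apply]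
    ring
  have hA1 : ∫ ξ, T ξ * conj ((𝓕 (gS κ) : 𝓢(ℝ, ℂ)) ξ) = Dp * (rr σ κ * I0 σ kp v) := by
    have e1 : ∫ ξ, T ξ * conj ((𝓕 (gS κ) : 𝓢(ℝ, ℂ)) ξ) =
        ∫ ξ, (Dp * (Phi σ kp kp' v κ ξ * conj ((𝓕 (gS κ) : 𝓢(ℝ, ℂ)) ξ)) +
          Dm * (Phi σ km km' v κ (-ξ) * conj ((𝓕 (gS κ) : 𝓢(ℝ, ℂ)) ξ))) := by
      refine integral_congr_ae (Eventually.of_forall fun ξ => ?_)
      simp only [hTdef]
      ring
    rw [e1, integral_add (ip1.const_mul Dp) (jm1.const_mul Dm), integral_const_mul,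
      integral_const_mul, ip2, jm2, mul_zero, add_zero]
  have hA2i : Integrable fun ξ => T ξ * conj ((𝓕 (gR κ) : 𝓢(ℝ, ℂ)) ξ) := by
    refine ((ip3.const_mul Dp).add (jm3.const_mul Dm)).congr (Eventually.of_forall fun ξ => ?_)
    simp only [hTdef, Pi.add_apply]
    ring
  have hA2 : ∫ ξ, T ξ * conj ((𝓕 (gR κ) : 𝓢(ℝ, ℂ)) ξ) = Dm * (rr σ κ * I0 σ km v) := by
    have e1 : ∫ ξ, T ξ * conj ((𝓕 (gR κ) : 𝓢(ℝ, ℂ)) ξ) =
        ∫ ξ, (Dp * (Phi σ kp kp' v κ ξ * conj ((𝓕 (gR κ) : 𝓢(ℝ, ℂ)) ξ)) +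
          Dm * (Phi σ km km' v κ (-ξ) * conj ((𝓕 (gR κ) : 𝓢(ℝ, ℂ)) ξ))) := by
      refine integral_congr_ae (Eventually.of_forall fun ξ => ?_)
      simp only [hTdef]
      ring
    rw [e1, integral_add (ip3.const_mul Dp) (jm3.const_mul Dm), integral_const_mul,
      integral_const_mul, ip4, jm4, mul_zero, zero_add]
  -- norms of the test functions
  obtain ⟨gs1, gs2⟩ := gS_L2 κ
  have gr1 : Integrable fun x => ‖(𝓕 (gR κ) : 𝓢(ℝ, ℂ)) x‖ ^ 2 := by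
    refine gs1.comp_neg.congr (Eventually.of_forall fun ξ => ?_)
    simp only [four_gR]
  have gr2 : ∫ x, ‖(𝓕 (gR κ) : 𝓢(ℝ, ℂ)) x‖ ^ 2 = G2 := by
    rw [← gs2, ← integral_neg_eq_self]
    refine integral_congr_ae (Eventually.of_forall fun ξ => ?_)
    simp only [four_gR, neg_neg]
  have hdS : ∀ x, x ∉ SK K → ‖(𝓕 (gS κ) : 𝓢(ℝ, ℂ)) x‖ ≤ C' / (1 + |x|) ^ 3 := fun x hx =>
    hdec K κ x hK1 hκ1 hκ2 hx
  have hdR : ∀ x, x ∉ SK K → ‖(𝓕 (gR κ) : 𝓢(ℝ, ℂ)) x‖ ≤ C' / (1 + |x|) ^ 3 := by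
    intro x hx
    rw [four_gR]
    have := hdec K κ (-x) hK1 hκ1 hκ2 (by
      intro hcon
      apply hx
      have hcon' : 3 / 4 * K ≤ |-x| ∧ |-x| ≤ 29 / 10 * K := hcon
      rw [abs_neg] at hcon'
      exact hcon')
    rwa [abs_neg] at this
  set Q := ∫ x in SK K, ‖T x‖ ^ 2 with hQ
  have hQ0 : 0 ≤ Q := integral_nonneg fun x => by positivity
  set ρ := ‖rr σ κ‖ with hρ
  have hρK : K ≤ ρ := hκ1.trans (rr_norm σ κ)
  have hρ0 : 0 < ρ := by linarith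
  have hmain : ∀ t : ℝ, 0 < t → c0 * ρ * D ≤ t * G2 + 1 / t * Q + 2 * (D * E) := by
    intro t ht
    have b1 := half_bound (K := K) hT ht hC hC' hD0 hTb hdS gs1 gs2 hA1i
    have b2 := half_bound (K := K) hT ht hC hC' hD0 hTb hdR gr1 gr2 hA2i
    rw [hA1, norm_mul, norm_mul] at b1
    rw [hA2, norm_mul, norm_mul] at b2
    have b3 : c0 * ρ * ‖Dp‖ ≤ ‖Dp‖ * (ρ * ‖I0 σ kp v‖) := by
      have := mul_le_mul_of_nonneg_left hIp (show 0 ≤ ‖Dp‖ * ρ by positivity)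
      linarith
    have b4 : c0 * ρ * ‖Dm‖ ≤ ‖Dm‖ * (ρ * ‖I0 σ km v‖) := by
      have := mul_le_mul_of_nonneg_left hIm (show 0 ≤ ‖Dm‖ * ρ by positivity)
      linarith
    have b5 : 1 / (2 * t) * Q + 1 / (2 * t) * Q = 1 / t * Q := by field_simp; ring
    have b6 : c0 * ρ * D = c0 * ρ * ‖Dp‖ + c0 * ρ * ‖Dm‖ := by rw [hD]; ring
    rw [b6]
    calc c0 * ρ * ‖Dp‖ + c0 * ρ * ‖Dm‖
        ≤ (t / 2 * G2 + 1 / (2 * t) * Q + D * E) + (t / 2 * G2 + 1 / (2 * t) * Q + D * E) := by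
          linarith
      _ = t * G2 + (1 / (2 * t) * Q + 1 / (2 * t) * Q) + 2 * (D * E) := by ring
      _ = _ := by rw [b5]
  rcases hD0.eq_or_lt with hDz | hDpos
  · rw [← hDz]
    simp only [mul_zero, ne_eq, OfNat.ofNat_ne_zero, not_false_eq_true, zero_pow]
    exact hQ0
  · have hEK : 2 * (D * E) ≤ c0 * ρ * D / 2 := by
      rw [div_le_iff₀ hc0] at hKE
      have e1 : 4 * E ≤ ρ * c0 := hKE.trans (mul_le_mul_of_nonneg_right hρK hc0.le)
      nlinarith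
    set t := c0 * ρ * D / (4 * Γ) with ht
    have ht0 : 0 < t := by positivity
    have h1 := hmain t ht0
    have h2 : t * G2 ≤ c0 * ρ * D / 4 := by
      calc t * G2 ≤ t * Γ := mul_le_mul_of_nonneg_left (by linarith) ht0.le
        _ = c0 * ρ * D / 4 := by rw [ht]; field_simp
    have h3 : c0 * ρ * D / 4 ≤ 1 / t * Q := by linarith
    have h4 : t * (c0 * ρ * D / 4) ≤ Q := by
      have := mul_le_mul_of_nonneg_left h3 ht0.le
      rwa [← mul_assoc, mul_one_div_cancel ht0.ne', one_mul] at this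
    calc c0 ^ 2 / (16 * Γ) * (ρ * D) ^ 2 = t * (c0 * ρ * D / 4) := by
          rw [ht]; field_simp; ring
      _ ≤ Q := h4

end Pool.Agent.JOL
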