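import Pool.Agent.Lib_helper87.JO.L3f

/-!
# Project JO, part L3: the lower bound on the region
-/

set_option autoImplicit false

namespace Pool.Agent.JOL

open MeasureTheory Filter Topology
open Pool.Agent.JO Pool.Agent.JO.FM
open scoped ComplexConjugate ENNReal

variable {σ : ℝ} {k k' kp kp' km km' : ℝ → ℂ}

theorem I0_pos (h : KHyp σ k k') (hn : ∃ y ∈ Set.Ioo (3 / 20 : ℝ) (9 / 50), k y ≠ 0) :
    0 < ‖I0 σ k 1‖ := by
  obtain ⟨y0, hy0, hk0⟩ := hn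
  have hpos : ∀ y ∈ Set.Icc (1 / 10 : ℝ) (1 / 5), 0 < y := fun y hy => by linarith [hy.1]
  have e1 : I0 σ k 1 = ((∫ y in (1 / 10 : ℝ)..(1 / 5),
      ‖k y‖ ^ 2 * (bB y * y ^ (-(2 * σ) - 2)) : ℝ) : ℂ) := by
    rw [I0, ← intervalIntegral.integral_ofReal]
    refine intervalIntegral.integral_congr fun y _ => ?_
    rw [gg0]
    simp only [Real.one_rpow, one_mul, Complex.ofReal_one]
    rw [Complex.mul_conj, Complex.normSq_eq_norm_sq]
    push_cast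
    ring
  have hc : ContinuousOn (fun y : ℝ => ‖k y‖ ^ 2 * (bB y * y ^ (-(2 * σ) - 2)))
      (Set.Icc (1 / 10 : ℝ) (1 / 5)) := by
    refine ContinuousOn.mul ?_ (ContinuousOn.mul ?_ ?_)
    · exact (((k_cont h).mono fun y hy => hpos y hy).norm).pow 2
    · exact bB.continuous.continuousOn
    · exact ContinuousOn.rpow_const continuousOn_id fun y hy => Or.inl (hpos y hy).ne'
  have e2 : 0 < ∫ y in (1 / 10 : ℝ)..(1 / 5), ‖k y‖ ^ 2 * (bB y * y ^ (-(2 * σ) - 2)) := by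
    refine intervalIntegral.integral_pos (by norm_num) hc ?_ ⟨y0, ⟨?_, ?_⟩, ?_⟩
    · intro y hy
      have : 0 < y := by linarith [hy.1]
      have := bB_nonneg y
      positivity
    · linarith [hy0.1]
    · linarith [hy0.2]
    · have h1 : 0 < y0 := by linarith [hy0.1]
      have h2 := bB_pos hy0.1 hy0.2
      have h3 : 0 < ‖k y0‖ := norm_pos_iff.2 hk0
      positivity
  rw [e1, Complex.norm_real, Real.norm_of_nonneg e2.le]
  exact e2

theorem I0_cont (h : KHyp σ k k') : ContinuousAt (fun v => I0 σ k v) 1 := by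
  have hcomp : IsCompact (Set.Icc (1 / 20 : ℝ) (2 / 5)) := isCompact_Icc
  obtain ⟨M, hM⟩ := hcomp.exists_bound_of_continuousOn
    ((k_cont h).mono fun y (hy : y ∈ Set.Icc (1 / 20 : ℝ) (2 / 5)) => by
      have : 0 < y := by linarith [hy.1]
      exact this)
  have hc2 : ContinuousOn (fun y : ℝ => bB y * y ^ (-(2 * σ) - 2))
      (Set.uIcc (1 / 10 : ℝ) (1 / 5)) := by
    rw [Set.uIcc_of_le (by norm_num)]
    refine ContinuousOn.mul bB.continuous.continuousOn ?_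
    exact ContinuousOn.rpow_const continuousOn_id fun y hy => Or.inl (by
      have : 0 < y := by linarith [hy.1]
      exact this.ne')
  have hs0 := h.s0
  have hs1 := h.s1
  unfold I0
  refine intervalIntegral.continuousAt_of_dominated_interval
    (bound := fun y => 2 * (M * M) * |bB y * y ^ (-(2 * σ) - 2)|) ?_ ?_ ?_ ?_
  · filter_upwards [Ioi_mem_nhds (show (0 : ℝ) < 1 by norm_num)] with v hv
    have hv0 : 0 < v := hv
    rw [Set.uIoc_of_le (by norm_num)]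
    refine ContinuousOn.aestronglyMeasurable ?_ measurableSet_Ioc
    refine ContinuousOn.mul ((gg0_cont h hv0).mono fun y hy => by
      have : 0 < y := by linarith [hy.1]
      exact this) ?_
    refine Complex.continuous_ofReal.comp_continuousOn ?_
    refine hc2.mono ?_
    rw [Set.uIcc_of_le (by norm_num)]
    exact Set.Ioc_subset_Icc_self
  · filter_upwards [Icc_mem_nhds (show (1 / 2 : ℝ) < 1 by norm_num) (show (1 : ℝ) < 2 by norm_num)]
      with v hv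
    refine Eventually.of_forall fun y hy => ?_
    rw [Set.uIoc_of_le (by norm_num)] at hy
    have hy0 : 0 < y := by linarith [hy.1]
    have hv0 : 0 < v := by linarith [hv.1]
    rw [norm_mul, Complex.norm_real, Real.norm_eq_abs, gg0, norm_mul, norm_mul, Complex.norm_real,
      RCLike.norm_conj, Real.norm_of_nonneg (Real.rpow_nonneg hv0.le _)]
    have hk1 : ‖k y‖ ≤ M := hM y ⟨by linarith [hy.1], by linarith [hy.2]⟩
    have hk2 : ‖k (v * y)‖ ≤ M := hM (v * y) ⟨by nlinarith [hy.1, hv.1], by nlinarith [hy.2, hv.2]⟩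
    have hM0 : 0 ≤ M := (norm_nonneg _).trans hk1
    have hv3 : v ^ (1 / 2 - σ) ≤ 2 := by
      rcases le_or_gt v 1 with h1 | h1
      · exact (Real.rpow_le_one hv0.le h1 (by linarith)).trans (by norm_num)
      · calc v ^ (1 / 2 - σ) ≤ v ^ (1 : ℝ) :=
              Real.rpow_le_rpow_of_exponent_le h1.le (by linarith)
          _ = v := Real.rpow_one v
          _ ≤ 2 := hv.2
    gcongr
  · exact (hc2.abs.intervalIntegrable).const_mul _
  · refine Eventually.of_forall fun y hy => ?_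
    rw [Set.uIoc_of_le (by norm_num)] at hy
    have hy0 : 0 < y := by linarith [hy.1]
    refine ContinuousAt.mul ?_ continuousAt_const
    unfold gg0
    refine ContinuousAt.mul ?_ (ContinuousAt.mul continuousAt_const ?_)
    · refine Complex.continuous_ofReal.continuousAt.comp ?_
      exact Real.continuousAt_rpow_const 1 _ (Or.inl one_ne_zero)
    · refine Complex.continuous_conj.continuousAt.comp ?_
      have h1 : ContinuousAt k (1 * y) := (h.hd (1 * y) (by linarith)).continuousAt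
      exact ContinuousAt.comp (f := fun v : ℝ => v * y) (g := k) h1 (by fun_prop)

theorem I0_lower (h : KHyp σ k k') (hn : ∃ y ∈ Set.Ioo (3 / 20 : ℝ) (9 / 50), k y ≠ 0) :
    ∃ δ c0 : ℝ, 0 < δ ∧ 0 < c0 ∧ ∀ v : ℝ, 1 ≤ v → v ≤ 1 + δ → c0 ≤ ‖I0 σ k v‖ := by
  have h1 := I0_pos h hn
  have h2 := (I0_cont h).norm
  have h3 : ∀ᶠ v in 𝓝 (1 : ℝ), ‖I0 σ k 1‖ / 2 < ‖I0 σ k v‖ :=
    h2.eventually_const_lt (by linarith)
  obtain ⟨δ, hδ, hb⟩ := Metric.eventually_nhds_iff.1 h3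
  refine ⟨δ / 2, ‖I0 σ k 1‖ / 2, by positivity, by positivity, fun v hv1 hv2 => ?_⟩
  refine (hb ?_).le
  rw [Real.dist_eq, abs_lt]
  constructor <;> linarith

theorem pz_re_im (x : ℝ) {v : ℝ} (hv : 0 < v) : (pz x v).re = x ∧ (pz x v).im = v := by
  have him : 0 < ((x : ℂ) + v * Complex.I).im := by simpa using hv
  rw [pz, UpperHalfPlane.ofComplex_apply_of_im_pos him]
  constructor
  · change ((x : ℂ) + v * Complex.I).re = x
    simp
  · change ((x : ℂ) + v * Complex.I).im = v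
    simp

theorem YY_meas1 (h : KHyp σ k k') (ε κ : ℝ) : Measurable fun w : UpperHalfPlane =>
    YY σ k k' ε w ((1 / 2 : ℝ) + (κ : ℂ) * Complex.I) := by
  have h1 := YY_meas h ε
  have h2 : Measurable fun w : UpperHalfPlane => (w, κ) := measurable_prodMk_right
  have h3 := h1.comp h2
  exact h3

/-- **The lower bound on the region.** -/
theorem lower_main (hp : KHyp σ kp kp') (hm : KHyp σ km km')
    (hnp : ∃ y ∈ Set.Ioo (3 / 20 : ℝ) (9 / 50), kp y ≠ 0)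
    (hnm : ∃ y ∈ Set.Ioo (3 / 20 : ℝ) (9 / 50), km y ≠ 0) :
    ∃ c K0 : ℝ, 0 < c ∧ 1 ≤ K0 ∧ ∀ K κ : ℝ, K0 ≤ K → K ≤ |κ| → |κ| ≤ 2 * K →
      ∀ Dp Dm : ℂ, ENNReal.ofReal (c * (‖rr σ κ‖ * (‖Dp‖ + ‖Dm‖)) ^ 2) ≤
        ∫⁻ w in Reg K, ENNReal.ofReal
          (‖Dp * YY σ kp kp' 1 w ((1 / 2 : ℝ) + (κ : ℂ) * Complex.I) +
            Dm * YY σ km km' (-1) w ((1 / 2 : ℝ) + (κ : ℂ) * Complex.I)‖ ^ 2) := by
  obtain ⟨δ1, c1, hδ1, hc1, hI1⟩ := I0_lower hp hnp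
  obtain ⟨δ2, c2, hδ2, hc2, hI2⟩ := I0_lower hm hnm
  set c0 := min c1 c2 with hc0
  have hc00 : 0 < c0 := lt_min hc1 hc2
  obtain ⟨c, K0, hc, hK0, hlow⟩ := lower_fixed hp hm hc00
  set δ := min (1 / 10) (min δ1 δ2) with hδ
  have hδ0 : 0 < δ := lt_min (by norm_num) (lt_min hδ1 hδ2)
  have hδ10 : δ ≤ 1 / 10 := min_le_left _ _
  have hδa : δ ≤ δ1 := (min_le_right _ _).trans (min_le_left _ _)
  have hδb : δ ≤ δ2 := (min_le_right _ _).trans (min_le_right _ _)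
  refine ⟨c * δ / 2, max K0 4, by positivity, hK0.trans (le_max_left _ _), ?_⟩
  intro K κ hK hκ1 hκ2 Dp Dm
  have hKK0 : K0 ≤ K := (le_max_left _ _).trans hK
  have hK4 : 4 ≤ K := (le_max_right _ _).trans hK
  set s : ℂ := (1 / 2 : ℝ) + (κ : ℂ) * Complex.I with hs
  set f : UpperHalfPlane → ℝ≥0∞ := fun w => ENNReal.ofReal
    (‖Dp * YY σ kp kp' 1 w s + Dm * YY σ km km' (-1) w s‖ ^ 2) with hf
  have hmp : Measurable fun w : UpperHalfPlane => YY σ kp kp' 1 w s := YY_meas1 hp 1 κ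
  have hmm : Measurable fun w : UpperHalfPlane => YY σ km km' (-1) w s := YY_meas1 hm (-1) κ
  have hfm : Measurable f := by
    refine ENNReal.measurable_ofReal.comp ?_
    exact (((measurable_const.mul hmp).add (measurable_const.mul hmm)).norm).pow_const 2
  have h1 := hme_region δ K hδ0 hδ10 hK4 f hfm
  have h2 : ∀ v ∈ Set.Icc (1 : ℝ) (1 + δ),
      ENNReal.ofReal (c * (‖rr σ κ‖ * (‖Dp‖ + ‖Dm‖)) ^ 2) ≤
      ∫⁻ x in {x : ℝ | 3 / 4 * K ≤ |x| ∧ |x| ≤ 29 / 10 * K}, f (pz x v) := by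
    intro v hv
    have hv0 : 0 < v := by linarith [hv.1]
    have h3 := hlow K κ hKK0 hκ1 hκ2 v hv.1 (by linarith [hv.2])
      ((min_le_left _ _).trans (hI1 v hv.1 (by linarith [hv.2])))
      ((min_le_right _ _).trans (hI2 v hv.1 (by linarith [hv.2]))) Dp Dm
    have h4 : ∀ x : ℝ, f (pz x v) = ENNReal.ofReal
        (‖Dp * Phi σ kp kp' v κ x + Dm * Phi σ km km' v κ (-x)‖ ^ 2) := by
      intro x
      obtain ⟨e1, e2⟩ := pz_re_im x hv0
      simp only [hf, hs]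
      rw [YY_eq_Phi hp, YY_eq_Phi hm, e1, e2, one_mul, neg_one_mul]
    simp only [h4]
    have hcont : Continuous fun x : ℝ =>
        ‖Dp * Phi σ kp kp' v κ x + Dm * Phi σ km km' v κ (-x)‖ ^ 2 :=
      ((continuous_const.mul (Phi_cont hp hv0 κ)).add
        (continuous_const.mul ((Phi_cont hm hv0 κ).comp continuous_neg))).norm.pow 2
    have h5 := ofReal_integral_eq_lintegral_ofReal
      (μ := volume.restrict (SK K))
      (hcont.continuousOn.integrableOn_compact (SK_compact K))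
      (Eventually.of_forall fun x => by positivity)
    refine (ENNReal.ofReal_le_ofReal h3).trans ?_
    exact le_of_eq h5
  have h6 : ENNReal.ofReal (c * (‖rr σ κ‖ * (‖Dp‖ + ‖Dm‖)) ^ 2) * ENNReal.ofReal δ ≤
      ∫⁻ v in Set.Icc (1 : ℝ) (1 + δ),
        ∫⁻ x in {x : ℝ | 3 / 4 * K ≤ |x| ∧ |x| ≤ 29 / 10 * K}, f (pz x v) := by
    calc ENNReal.ofReal (c * (‖rr σ κ‖ * (‖Dp‖ + ‖Dm‖)) ^ 2) * ENNReal.ofReal δ
        = ∫⁻ _v in Set.Icc (1 : ℝ) (1 + δ),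
            ENNReal.ofReal (c * (‖rr σ κ‖ * (‖Dp‖ + ‖Dm‖)) ^ 2) := by
          rw [setLIntegral_const, Real.volume_Icc]
          congr 2
          ring
      _ ≤ _ := setLIntegral_mono' measurableSet_Icc h2
  have h7 := h6.trans h1
  have h8 : ENNReal.ofReal (c * δ / 2 * (‖rr σ κ‖ * (‖Dp‖ + ‖Dm‖)) ^ 2) * 2 =
      ENNReal.ofReal (c * (‖rr σ κ‖ * (‖Dp‖ + ‖Dm‖)) ^ 2) * ENNReal.ofReal δ := by
    rw [show (2 : ℝ≥0∞) = ENNReal.ofReal 2 by simp, ← ENNReal.ofReal_mul (by positivity),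
      ← ENNReal.ofReal_mul (by positivity)]
    congr 1
    ring
  rw [← h8, mul_comm] at h7
  exact (ENNReal.mul_le_mul_iff_right (by norm_num) (by norm_num)).1 h7

/-- the lower bound in the form of `LocData` -/
theorem lower_loc (hp : KHyp σ kp kp') (hm : KHyp σ km km')
    (hnp : ∃ y ∈ Set.Ioo (3 / 20 : ℝ) (9 / 50), kp y ≠ 0)
    (hnm : ∃ y ∈ Set.Ioo (3 / 20 : ℝ) (9 / 50), km y ≠ 0) (n : ℕ)
    (hup : ∃ C κ0 : ℝ, 0 ≤ C ∧ ∀ κ : ℝ, κ0 ≤ |κ| →
      ‖YY σ kp kp' 1 UpperHalfPlane.I ((1 / 2 : ℝ) + (κ : ℂ) * Complex.I)‖ ≤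
        C * ‖rr σ κ‖ * |κ| ^ ((n : ℝ) - 1) * Real.exp (-(Real.pi / 2 * |κ|)) ∧
      ‖YY σ km km' (-1) UpperHalfPlane.I ((1 / 2 : ℝ) + (κ : ℂ) * Complex.I)‖ ≤
        C * ‖rr σ κ‖ * |κ| ^ ((n : ℝ) - 1) * Real.exp (-(Real.pi / 2 * |κ|))) :
    ∃ c K₀ : ℝ, 0 < c ∧ 1 ≤ K₀ ∧ ∀ K : ℝ, K₀ ≤ K → ∀ κ : ℝ, K ≤ |κ| → |κ| ≤ 2 * K →
    ∀ Dp Dm : ℂ, ENNReal.ofReal (c * K ^ (2 - 2 * (n : ℝ)) * Real.exp (Real.pi * |κ|) *
        ‖Dp * YY σ kp kp' 1 UpperHalfPlane.I ((1 / 2 : ℝ) + (κ : ℂ) * Complex.I) +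
          Dm * YY σ km km' (-1) UpperHalfPlane.I ((1 / 2 : ℝ) + (κ : ℂ) * Complex.I)‖ ^ 2) ≤
      ∫⁻ w in Reg K, ENNReal.ofReal
          (‖Dp * YY σ kp kp' 1 w ((1 / 2 : ℝ) + (κ : ℂ) * Complex.I) +
            Dm * YY σ km km' (-1) w ((1 / 2 : ℝ) + (κ : ℂ) * Complex.I)‖ ^ 2) := by
  obtain ⟨c, K0, hc, hK0, hlow⟩ := lower_main hp hm hnp hnm
  obtain ⟨C, κ0, hC, hb⟩ := hup
  refine ⟨c / (4 ^ n * (C + 1) ^ 2), max K0 κ0, by positivity, hK0.trans (le_max_left _ _), ?_⟩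
  intro K hK' κ hκ1 hκ2 Dp Dm
  have hK : K0 ≤ K := (le_max_left _ _).trans hK'
  have hκ0' : κ0 ≤ K := (le_max_right _ _).trans hK'
  have hK1 : 1 ≤ K := hK0.trans hK
  have hK0' : 0 < K := by linarith
  have hκ0 : 0 < |κ| := by linarith
  refine (ENNReal.ofReal_le_ofReal ?_).trans (hlow K κ hK hκ1 hκ2 Dp Dm)
  obtain ⟨b1, b2⟩ := hb κ (hκ0'.trans hκ1)
  set s : ℂ := (1 / 2 : ℝ) + (κ : ℂ) * Complex.I with hs
  set ρ := ‖rr σ κ‖ with hρ
  set X := Real.exp (-(Real.pi / 2 * |κ|)) with hX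
  set D := ‖Dp‖ + ‖Dm‖ with hD
  have hX0 : 0 < X := Real.exp_pos _
  set p := |κ| ^ ((n : ℝ) - 1) with hp'
  have hp0 : 0 < p := Real.rpow_pos_of_pos hκ0 _
  have hnorm : ‖Dp * YY σ kp kp' 1 UpperHalfPlane.I s + Dm * YY σ km km' (-1) UpperHalfPlane.I s‖ ≤
      D * (C * ρ * p * X) := by
    refine (norm_add_le _ _).trans ?_
    rw [norm_mul, norm_mul, hD, add_mul]
    gcongr
  have hXX : Real.exp (Real.pi * |κ|) * X ^ 2 = 1 := by
    rw [hX, ← Real.exp_nat_mul, ← Real.exp_add]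
    have : Real.pi * |κ| + ((2 : ℕ) : ℝ) * -(Real.pi / 2 * |κ|) = 0 := by push_cast; ring
    rw [this, Real.exp_zero]
  have hpK : K ^ (2 - 2 * (n : ℝ)) * p ^ 2 ≤ 4 ^ n := by
    have e1 : p ^ 2 = |κ| ^ (2 * (n : ℝ) - 2) := by
      rw [hp', ← Real.rpow_natCast, ← Real.rpow_mul hκ0.le]
      congr 1; push_cast; ring
    rw [e1]
    have e2 : K ^ (2 - 2 * (n : ℝ)) = (K ^ (2 * (n : ℝ) - 2))⁻¹ := by
      rw [← Real.rpow_neg hK0'.le]; congr 1; ring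
    rw [e2, inv_mul_le_iff₀ (Real.rpow_pos_of_pos hK0' _)]
    rcases Nat.eq_zero_or_pos n with hn | hn
    · rw [hn]
      simp only [Nat.cast_zero, mul_zero, zero_sub, pow_zero, mul_one]
      exact Real.rpow_le_rpow_of_nonpos hK0' hκ1 (by norm_num)
    · have hn1 : (1 : ℝ) ≤ n := by exact_mod_cast hn
      calc |κ| ^ (2 * (n : ℝ) - 2) ≤ (2 * K) ^ (2 * (n : ℝ) - 2) :=
            Real.rpow_le_rpow hκ0.le hκ2 (by linarith)
        _ = 2 ^ (2 * (n : ℝ) - 2) * K ^ (2 * (n : ℝ) - 2) :=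
            Real.mul_rpow (by norm_num) hK0'.le
        _ ≤ 4 ^ n * K ^ (2 * (n : ℝ) - 2) := by
            have e3 : (2 : ℝ) ^ (2 * (n : ℝ) - 2) ≤ 4 ^ n := by
              calc (2 : ℝ) ^ (2 * (n : ℝ) - 2) ≤ 2 ^ (2 * (n : ℝ)) :=
                    Real.rpow_le_rpow_of_exponent_le (by norm_num) (by linarith)
                _ = 4 ^ n := by
                    rw [Real.rpow_mul (by norm_num), Real.rpow_natCast]
                    norm_num
            have : 0 ≤ K ^ (2 * (n : ℝ) - 2) := Real.rpow_nonneg hK0'.le _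
            gcongr
        _ = _ := by ring
  have hKn : 0 ≤ K ^ (2 - 2 * (n : ℝ)) := Real.rpow_nonneg hK0'.le _
  have hex : 0 < Real.exp (Real.pi * |κ|) := Real.exp_pos _
  calc c / (4 ^ n * (C + 1) ^ 2) * K ^ (2 - 2 * (n : ℝ)) * Real.exp (Real.pi * |κ|) *
        ‖Dp * YY σ kp kp' 1 UpperHalfPlane.I s + Dm * YY σ km km' (-1) UpperHalfPlane.I s‖ ^ 2
      ≤ c / (4 ^ n * (C + 1) ^ 2) * K ^ (2 - 2 * (n : ℝ)) * Real.exp (Real.pi * |κ|) *
        (D * (C * ρ * p * X)) ^ 2 := by gcongr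
    _ = c / (4 ^ n * (C + 1) ^ 2) * (ρ * D) ^ 2 * C ^ 2 * (K ^ (2 - 2 * (n : ℝ)) * p ^ 2) *
        (Real.exp (Real.pi * |κ|) * X ^ 2) := by ring
    _ ≤ c / (4 ^ n * (C + 1) ^ 2) * (ρ * D) ^ 2 * (C + 1) ^ 2 * 4 ^ n * 1 := by
        rw [hXX]
        gcongr
        linarith
    _ = c * (ρ * D) ^ 2 := by
        field_simp

end Pool.Agent.JOL
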