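import Pool.Agent.Lib_helper87.JO.L3g

/-!
# Project JO, part L3: inversion, and the abstract theorem
-/

set_option autoImplicit false

namespace Pool.Agent.JOL

open MeasureTheory Filter Topology
open Pool.Agent.JO Pool.Agent.JO.FM
open scoped ComplexConjugate ENNReal

variable {σ : ℝ} {k k' kp kp' km km' : ℝ → ℂ}

theorem line_analytic {F : ℂ → ℂ} {a : ℝ} (ha : 1 / 2 < a)
    (hF : DifferentiableOn ℂ F {s | s.re < a}) :
    AnalyticOnNhd ℝ (fun κ : ℝ => F ((1 / 2 : ℝ) + (κ : ℂ) * Complex.I)) Set.univ := by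
  intro κ _
  have hopen : IsOpen {s : ℂ | s.re < a} := isOpen_lt Complex.continuous_re continuous_const
  have h1 : AnalyticAt ℂ F ((1 / 2 : ℝ) + (κ : ℂ) * Complex.I) := by
    refine (hF.analyticOnNhd hopen) _ ?_
    change ((1 / 2 : ℝ) + (κ : ℂ) * Complex.I).re < a
    simpa using ha
  have h2 : AnalyticAt ℝ (fun κ : ℝ => (((1 / 2 : ℝ) : ℂ) + (κ : ℂ) * Complex.I)) κ := by
    refine AnalyticAt.add analyticAt_const (AnalyticAt.mul ?_ analyticAt_const)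
    exact Complex.ofRealCLM.analyticAt κ
  have h3 : AnalyticAt ℝ F ((fun κ : ℝ => (((1 / 2 : ℝ) : ℂ) + (κ : ℂ) * Complex.I)) κ) :=
    h1.restrictScalars
  exact AnalyticAt.comp (g := F) (f := fun κ : ℝ => (((1 / 2 : ℝ) : ℂ) + (κ : ℂ) * Complex.I))
    h3 h2

theorem ae_ne_zero {F : ℂ → ℂ} {a : ℝ} (ha : 1 / 2 < a)
    (hF : DifferentiableOn ℂ F {s | s.re < a}) {κ0 : ℝ}
    (h0 : F ((1 / 2 : ℝ) + (κ0 : ℂ) * Complex.I) ≠ 0) :
    ∀ᵐ κ : ℝ, F ((1 / 2 : ℝ) + (κ : ℂ) * Complex.I) ≠ 0 := by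
  have h1 := line_analytic ha hF
  rcases h1.eqOn_zero_or_eventually_ne_zero_of_preconnected isPreconnected_univ with h2 | h2
  · exact absurd (h2 (Set.mem_univ κ0)) h0
  · have h3 := ae_restrict_le_codiscreteWithin (μ := (volume : Measure ℝ))
      MeasurableSet.univ h2
    rwa [Measure.restrict_univ] at h3

/-- base points with nonzero determinant -/
theorem exists_det (hp : KHyp σ kp kp') (hm : KHyp σ km km')
    (hnp : ∃ y ∈ Set.Ioo (3 / 20 : ℝ) (9 / 50), kp y ≠ 0)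
    (hnm : ∃ y ∈ Set.Ioo (3 / 20 : ℝ) (9 / 50), km y ≠ 0)
    (S : Set UpperHalfPlane) (hS : ∀ᵐ w : UpperHalfPlane, w ∈ S) :
    ∃ b1 ∈ S, ∃ b2 ∈ S, ∃ κ : ℝ,
      YY σ kp kp' 1 b1 ((1 / 2 : ℝ) + (κ : ℂ) * Complex.I) *
        YY σ km km' (-1) b2 ((1 / 2 : ℝ) + (κ : ℂ) * Complex.I) -
      YY σ km km' (-1) b1 ((1 / 2 : ℝ) + (κ : ℂ) * Complex.I) *
        YY σ kp kp' 1 b2 ((1 / 2 : ℝ) + (κ : ℂ) * Complex.I) ≠ 0 := by
  obtain ⟨c, K0, hc, hK0, hlow⟩ := lower_main hp hm hnp hnm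
  have hK0' : 0 < K0 := by linarith
  set s : ℂ := (1 / 2 : ℝ) + (K0 : ℂ) * Complex.I with hs
  have hρ : 0 < ‖rr σ K0‖ := by
    have := rr_norm σ K0
    rw [abs_of_pos hK0'] at this
    linarith
  have key : ∀ Dp Dm : ℂ, (Dp ≠ 0 ∨ Dm ≠ 0) → ∃ w ∈ S,
      Dp * YY σ kp kp' 1 w s + Dm * YY σ km km' (-1) w s ≠ 0 := by
    intro Dp Dm hD
    by_contra hcon
    push Not at hcon
    have h1 := hlow K0 K0 le_rfl (le_abs_self _) (by rw [abs_of_pos hK0']; linarith) Dp Dm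
    have h2 : ∫⁻ w in Reg K0, ENNReal.ofReal
        (‖Dp * YY σ kp kp' 1 w s + Dm * YY σ km km' (-1) w s‖ ^ 2) = 0 := by
      have h3 : ∀ᵐ w ∂(volume.restrict (Reg K0)), ENNReal.ofReal
          (‖Dp * YY σ kp kp' 1 w s + Dm * YY σ km km' (-1) w s‖ ^ 2) = 0 := by
        refine ae_restrict_of_ae ?_
        filter_upwards [hS] with w hw
        rw [hcon w hw]
        simp
      rw [lintegral_congr_ae h3]
      simp
    rw [h2, nonpos_iff_eq_zero, ENNReal.ofReal_eq_zero] at h1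
    have h4 : 0 < ‖Dp‖ + ‖Dm‖ := by
      rcases hD with h | h
      · have := norm_pos_iff.2 h
        positivity
      · have := norm_pos_iff.2 h
        positivity
    have h5 : 0 < c * (‖rr σ K0‖ * (‖Dp‖ + ‖Dm‖)) ^ 2 := by positivity
    linarith
  obtain ⟨b1, hb1, h1⟩ := key 1 0 (Or.inl one_ne_zero)
  rw [one_mul, zero_mul, add_zero] at h1
  obtain ⟨b2, hb2, h2⟩ := key (-(YY σ km km' (-1) b1 s)) (YY σ kp kp' 1 b1 s) (Or.inr h1)
  refine ⟨b1, hb1, b2, hb2, K0, ?_⟩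
  rw [← hs]
  intro h3
  apply h2
  rw [← h3]
  ring

theorem YY_diffOn (h : KHyp σ k k') {ε : ℝ} (hε : |ε| = 1) (w : UpperHalfPlane) :
    DifferentiableOn ℂ (YY σ k k' ε w) {s | s.re < 3 / 4} := by
  intro s hs
  have hs' : s.re < 3 / 4 := hs
  have := h.s0
  exact (YY_diff h hε w (by linarith)).differentiableWithinAt

theorem YY_bd (h : KHyp σ k k') {ε : ℝ} (hε : |ε| = 1) (w : UpperHalfPlane) (κ : ℝ) :
    ContinuousAt (YY σ k k' ε w) ((1 / 2 : ℝ) + (κ : ℂ) * Complex.I) := by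
  have := h.s0
  refine (YY_diff h hε w ?_).continuousAt
  have : ((1 / 2 : ℝ) + (κ : ℂ) * Complex.I).re = 1 / 2 := by simp
  rw [this]
  linarith

theorem W_cont (h : KHyp σ k k') {W : ℝ → ℂ}
    (hW : ∀ y : ℝ, 0 < y → W y = ((y ^ (1 / 2 - σ) : ℝ) : ℂ) * k y) :
    ContinuousOn W (Set.Ioi 0) := by
  have h1 : ContinuousOn (fun y : ℝ => ((y ^ (1 / 2 - σ) : ℝ) : ℂ) * k y) (Set.Ioi 0) := by
    refine ContinuousOn.mul ?_ (k_cont h)
    refine Complex.continuous_ofReal.comp_continuousOn ?_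
    exact ContinuousOn.rpow_const continuousOn_id fun y hy => Or.inl (ne_of_gt hy)
  exact h1.congr fun y hy => hW y hy

theorem W_sq (h : KHyp σ k k') {W : ℝ → ℂ}
    (hW : ∀ y : ℝ, 0 < y → W y = ((y ^ (1 / 2 - σ) : ℝ) : ℂ) * k y) (τ : ℝ) (hτ : 0 < τ) :
    IntegrableOn (fun y => ‖W y‖ ^ 2 * y ^ (τ - 1)) (Set.Ioi 0) := by
  have hs0 := h.s0
  have hs1 := h.s1
  obtain ⟨C, hC, hb⟩ := h.bd ((1 - 2 * σ) / 4) (by linarith)
  have hdom : IntegrableOn (fun y : ℝ => C ^ 2 * (y ^ (τ - 2 * σ - (1 - 2 * σ) / 2) *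
      Real.exp (-y))) (Set.Ioi 0) := (dom_int (by linarith)).const_mul _
  refine Integrable.mono' hdom ?_ ?_
  · refine ContinuousOn.aestronglyMeasurable ?_ measurableSet_Ioi
    refine ((W_cont h hW).norm.pow 2).mul ?_
    exact ContinuousOn.rpow_const continuousOn_id fun y hy => Or.inl (ne_of_gt hy)
  · rw [ae_restrict_iff' measurableSet_Ioi]
    refine Eventually.of_forall fun y hy => ?_
    have hy0 : 0 < y := hy
    have hexp : Real.exp (-y) ≤ 1 := Real.exp_le_one_iff.2 (by linarith)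
    have hex0 : 0 < Real.exp (-y) := Real.exp_pos _
    rw [Real.norm_of_nonneg (by positivity), hW y hy0, norm_mul, Complex.norm_real,
      Real.norm_of_nonneg (Real.rpow_nonneg hy0.le _), mul_pow]
    have h1 : ‖k y‖ ^ 2 ≤ (C * y ^ (-((1 - 2 * σ) / 4)) * Real.exp (-y)) ^ 2 :=
      pow_le_pow_left₀ (norm_nonneg _) (hb y hy0) 2
    have h2 : (y ^ (1 / 2 - σ)) ^ 2 = y ^ (1 - 2 * σ) := by
      rw [← Real.rpow_natCast, ← Real.rpow_mul hy0.le]; congr 1; push_cast; ring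
    have h3 : (y ^ (-((1 - 2 * σ) / 4))) ^ 2 = y ^ (-((1 - 2 * σ) / 2)) := by
      rw [← Real.rpow_natCast, ← Real.rpow_mul hy0.le]; congr 1; push_cast; ring
    have p1 : 0 ≤ y ^ (1 - 2 * σ) := Real.rpow_nonneg hy0.le _
    have p2 : 0 ≤ y ^ (τ - 1) := Real.rpow_nonneg hy0.le _
    have p3 : 0 ≤ y ^ (-((1 - 2 * σ) / 2)) := Real.rpow_nonneg hy0.le _
    rw [h2]
    calc y ^ (1 - 2 * σ) * ‖k y‖ ^ 2 * y ^ (τ - 1)
        ≤ y ^ (1 - 2 * σ) * (C * y ^ (-((1 - 2 * σ) / 4)) * Real.exp (-y)) ^ 2 *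
          y ^ (τ - 1) := by gcongr
      _ = C ^ 2 * (y ^ (1 - 2 * σ) * (y ^ (-((1 - 2 * σ) / 4))) ^ 2 * y ^ (τ - 1)) *
          Real.exp (-y) ^ 2 := by ring
      _ = C ^ 2 * y ^ (τ - 2 * σ - (1 - 2 * σ) / 2) * Real.exp (-y) ^ 2 := by
          rw [h3, ← Real.rpow_add hy0, ← Real.rpow_add hy0]
          congr 3
          ring
      _ ≤ C ^ 2 * y ^ (τ - 2 * σ - (1 - 2 * σ) / 2) * Real.exp (-y) := by
          have : Real.exp (-y) ^ 2 ≤ Real.exp (-y) := by nlinarith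
          have : 0 ≤ C ^ 2 * y ^ (τ - 2 * σ - (1 - 2 * σ) / 2) := by positivity
          gcongr
      _ = _ := by ring

/-- **The abstract theorem.** -/
theorem locData_of (hp : KHyp σ kp kp') (hm : KHyp σ km km') {Wp Wm : ℝ → ℂ}
    (hWp : ∀ y : ℝ, 0 < y → Wp y = ((y ^ (1 / 2 - σ) : ℝ) : ℂ) * kp y)
    (hWm : ∀ y : ℝ, 0 < y → Wm y = ((y ^ (1 / 2 - σ) : ℝ) : ℂ) * km y)
    (hnp : ∃ y ∈ Set.Ioo (3 / 20 : ℝ) (9 / 50), kp y ≠ 0)
    (hnm : ∃ y ∈ Set.Ioo (3 / 20 : ℝ) (9 / 50), km y ≠ 0) (n : ℕ)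
    (hup : ∃ C κ0 : ℝ, 0 ≤ C ∧ ∀ κ : ℝ, κ0 ≤ |κ| →
      ‖YY σ kp kp' 1 UpperHalfPlane.I ((1 / 2 : ℝ) + (κ : ℂ) * Complex.I)‖ ≤
        C * ‖rr σ κ‖ * |κ| ^ ((n : ℝ) - 1) * Real.exp (-(Real.pi / 2 * |κ|)) ∧
      ‖YY σ km km' (-1) UpperHalfPlane.I ((1 / 2 : ℝ) + (κ : ℂ) * Complex.I)‖ ≤
        C * ‖rr σ κ‖ * |κ| ^ ((n : ℝ) - 1) * Real.exp (-(Real.pi / 2 * |κ|))) :
    LocData n Wp Wm (YY σ kp kp' 1) (YY σ km km' (-1)) := by
  have e1 : |(1 : ℝ)| = 1 := abs_one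
  have e2 : |(-1 : ℝ)| = 1 := by rw [abs_neg, abs_one]
  have hs1 := hp.s1
  have hs0 := hp.s0
  refine ⟨W_cont hp hWp, W_cont hm hWm, W_sq hp hWp, W_sq hm hWm, ?_, ?_, ?_, ?_, ?_,
    YY_meas hp 1, YY_meas hm (-1), ?_, lower_loc hp hm hnp hnm n hup⟩
  · refine ⟨-1, fun s => 1 - 2 * (σ : ℂ) - s, by norm_num, ?_, ?_, ?_⟩
    · exact ((differentiable_const _).sub differentiable_id).differentiableOn
    · intro s hs hcon
      have h1 := congrArg Complex.re hcon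
      rw [re_exp, Complex.zero_re] at h1
      linarith
    · intro w
      exact ⟨fun s hs => YY_mellin hp e1 hWp w (by linarith),
        fun s hs => YY_mellin hm e2 hWm w (by linarith)⟩
  · exact fun w => (YY_diffOn hp e1 w).mono fun s hs => by
      have : s.re < 1 / 2 := hs
      change s.re < 3 / 4
      linarith
  · exact fun w => (YY_diffOn hm e2 w).mono fun s hs => by
      have : s.re < 1 / 2 := hs
      change s.re < 3 / 4
      linarith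
  · exact fun w κ => (YY_bd hp e1 w κ).continuousWithinAt
  · exact fun w κ => (YY_bd hm e2 w κ).continuousWithinAt
  · intro S hS _
    obtain ⟨b1, hb1, b2, hb2, κ0, hdet⟩ := exists_det hp hm hnp hnm S hS
    have dp1 := YY_diffOn hp e1 b1
    have dp2 := YY_diffOn hp e1 b2
    have dm1 := YY_diffOn hm e2 b1
    have dm2 := YY_diffOn hm e2 b2
    have hsub : {s : ℂ | s.re < 1 / 2} ⊆ {s : ℂ | s.re < 3 / 4} := fun s hs => by
      have : s.re < 1 / 2 := hs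
      change s.re < 3 / 4
      linarith
    refine ⟨2, ![b1, b2], ![YY σ km km' (-1) b2, fun s => -(YY σ km km' (-1) b1 s)],
      ![fun s => -(YY σ kp kp' 1 b2 s), YY σ kp kp' 1 b1],
      fun s => YY σ kp kp' 1 b1 s * YY σ km km' (-1) b2 s -
        YY σ km km' (-1) b1 s * YY σ kp kp' 1 b2 s, ?_, ?_, ?_, ?_, ?_, ?_, ?_, ?_, ?_, ?_⟩
    · intro j
      fin_cases j
      · exact hb1
      · exact hb2
    · intro j
      fin_cases j
      · exact dm2.mono hsub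
      · exact (dm1.mono hsub).neg
    · intro j
      fin_cases j
      · exact (dp2.mono hsub).neg
      · exact dp1.mono hsub
    · exact ((dp1.mul dm2).sub (dm1.mul dp2)).mono hsub
    · intro j κ
      fin_cases j
      · exact (YY_bd hm e2 b2 κ).continuousWithinAt
      · exact (YY_bd hm e2 b1 κ).neg.continuousWithinAt
    · intro j κ
      fin_cases j
      · exact (YY_bd hp e1 b2 κ).neg.continuousWithinAt
      · exact (YY_bd hp e1 b1 κ).continuousWithinAt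
    · intro κ
      exact (((YY_bd hp e1 b1 κ).mul (YY_bd hm e2 b2 κ)).sub
        ((YY_bd hm e2 b1 κ).mul (YY_bd hp e1 b2 κ))).continuousWithinAt
    · exact ae_ne_zero (a := 3 / 4) (by norm_num) ((dp1.mul dm2).sub (dm1.mul dp2)) hdet
    · intro w s _
      rw [Fin.sum_univ_two, Fin.sum_univ_two]
      simp only [Matrix.cons_val_zero, Matrix.cons_val_one]
      ring
    · intro w s _
      rw [Fin.sum_univ_two, Fin.sum_univ_two]
      simp only [Matrix.cons_val_zero, Matrix.cons_val_one]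
      ring

end Pool.Agent.JOL
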