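import Pool.Agent.Lib_helper87.JO.L3h
import Pool.Agent.Lib_helper87.JOL.All

/-!
# Project JO, part L3: Gamma bounds, the functions `y^β K_μ(2πy)`, the identity theorem
-/

set_option autoImplicit false

namespace Pool.Agent.JOL

open MeasureTheory Filter Topology
open Pool.Agent.JO Pool.Agent.JO.FM
open scoped ComplexConjugate ENNReal

/-! ## Gamma -/

theorem gam_shift1 (a t : ℝ) (h1 : -1 < a) (h2 : a ≤ 1) : ∃ C : ℝ, 0 ≤ C ∧ ∀ κ : ℝ,
    4 * |t| + 4 ≤ |κ| → ‖Complex.Gamma ((a : ℂ) + ((t - κ / 2 : ℝ) : ℂ) * Complex.I)‖ ≤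
      C * |κ| ^ (a - 1 / 2) * Real.exp (-(Real.pi / 4 * |κ|)) := by
  obtain ⟨C, hC, h⟩ := gup_upper a h1 h2
  refine ⟨C * 4 ^ |a - 1 / 2| * Real.exp (Real.pi / 2 * |t|), by positivity, fun κ hκ => ?_⟩
  have ht := abs_nonneg t
  have hb1 : |κ| / 2 - |t| ≤ |t - κ / 2| := by
    have := abs_sub_abs_le_abs_sub (κ / 2) t
    rw [abs_sub_comm, abs_div, abs_of_pos (two_pos : (0 : ℝ) < 2)] at this
    exact this
  have hb2 : |t - κ / 2| ≤ |κ| := by
    have := abs_sub t (κ / 2)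
    rw [abs_div, abs_of_pos (two_pos : (0 : ℝ) < 2)] at this
    linarith
  set b := t - κ / 2 with hb
  have hκ0 : 0 < |κ| := by linarith
  have hb3 : |κ| / 4 ≤ |b| := by linarith
  have hb0 : 0 < |b| := by linarith
  refine (h b (by linarith)).trans ?_
  have e1 : |b| ^ (a - 1 / 2) ≤ 4 ^ |a - 1 / 2| * |κ| ^ (a - 1 / 2) := by
    rcases le_total 0 (a - 1 / 2) with he | he
    · rw [abs_of_nonneg he]
      have h3 : |b| ^ (a - 1 / 2) ≤ |κ| ^ (a - 1 / 2) := Real.rpow_le_rpow hb0.le hb2 he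
      have h4 : (1 : ℝ) ≤ 4 ^ (a - 1 / 2) := Real.one_le_rpow (by norm_num) he
      have h5 : 0 ≤ |κ| ^ (a - 1 / 2) := by positivity
      nlinarith
    · rw [abs_of_nonpos he]
      have h3 : |b| ^ (a - 1 / 2) ≤ (|κ| / 4) ^ (a - 1 / 2) :=
        Real.rpow_le_rpow_of_nonpos (by positivity) hb3 he
      have h4 : (|κ| / 4) ^ (a - 1 / 2) = 4 ^ (-(a - 1 / 2)) * |κ| ^ (a - 1 / 2) := by
        rw [Real.div_rpow hκ0.le (by norm_num), Real.rpow_neg (by norm_num)]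
        field_simp
      rw [← h4]
      exact h3
  have e2 : Real.exp (-(Real.pi / 2 * |b|)) ≤
      Real.exp (Real.pi / 2 * |t|) * Real.exp (-(Real.pi / 4 * |κ|)) := by
    rw [← Real.exp_add]
    apply Real.exp_le_exp.2
    have hpi := Real.pi_pos
    nlinarith
  calc C * |b| ^ (a - 1 / 2) * Real.exp (-(Real.pi / 2 * |b|))
      ≤ C * (4 ^ |a - 1 / 2| * |κ| ^ (a - 1 / 2)) *
        (Real.exp (Real.pi / 2 * |t|) * Real.exp (-(Real.pi / 4 * |κ|))) := by gcongr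
    _ = _ := by ring

theorem gam_shift (a t : ℝ) (h1 : -1 < a) (h2 : a ≤ 2) : ∃ C : ℝ, 0 ≤ C ∧ ∀ κ : ℝ,
    4 * |t| + 4 ≤ |κ| → ‖Complex.Gamma ((a : ℂ) + ((t - κ / 2 : ℝ) : ℂ) * Complex.I)‖ ≤
      C * |κ| ^ (a - 1 / 2) * Real.exp (-(Real.pi / 4 * |κ|)) := by
  rcases le_total a 1 with ha | ha
  · exact gam_shift1 a t h1 ha
  obtain ⟨C, hC, h⟩ := gam_shift1 (a - 1) t (by linarith) (by linarith)
  refine ⟨2 * C, by positivity, fun κ hκ => ?_⟩
  have ht := abs_nonneg t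
  have hκ0 : 0 < |κ| := by linarith
  have hz : (a : ℂ) + ((t - κ / 2 : ℝ) : ℂ) * Complex.I =
      (((a - 1 : ℝ) : ℂ) + ((t - κ / 2 : ℝ) : ℂ) * Complex.I) + 1 := by push_cast; ring
  set z : ℂ := ((a - 1 : ℝ) : ℂ) + ((t - κ / 2 : ℝ) : ℂ) * Complex.I with hz'
  have him : z.im = t - κ / 2 := by simp [hz']
  have hz0 : z ≠ 0 := by
    intro h0
    have h3 : t - κ / 2 = 0 := by rw [← him, h0, Complex.zero_im]
    have h4 : κ = 2 * t := by linarith
    rw [h4, abs_mul, abs_of_pos (two_pos : (0 : ℝ) < 2)] at hκ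
    linarith
  have hzn : ‖z‖ ≤ 2 * |κ| := by
    rw [hz']
    refine (norm_add_le _ _).trans ?_
    rw [norm_mul, Complex.norm_I, mul_one, Complex.norm_real, Complex.norm_real,
      Real.norm_eq_abs, Real.norm_eq_abs]
    have h3 : |a - 1| ≤ 1 := by rw [abs_of_nonneg (by linarith)]; linarith
    have h4 : |t - κ / 2| ≤ |κ| := by
      have := abs_sub t (κ / 2)
      rw [abs_div, abs_of_pos (two_pos : (0 : ℝ) < 2)] at this
      linarith
    linarith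
  rw [hz, Complex.Gamma_add_one z hz0, norm_mul]
  have h5 := h κ hκ
  have h6 : |κ| ^ (a - 1 / 2) = |κ| * |κ| ^ (a - 1 - 1 / 2) := by
    rw [show a - 1 / 2 = 1 + (a - 1 - 1 / 2) by ring, Real.rpow_add hκ0, Real.rpow_one]
  rw [h6]
  calc ‖z‖ * ‖Complex.Gamma z‖
      ≤ (2 * |κ|) * (C * |κ| ^ (a - 1 - 1 / 2) * Real.exp (-(Real.pi / 4 * |κ|))) := by
        gcongr
    _ = _ := by ring

theorem gam_half_low (κ : ℝ) :
    Real.exp (-(Real.pi / 2 * |κ|)) ≤ ‖Complex.Gamma (1 / 2 + (κ : ℂ) * Complex.I)‖ := by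
  have h1 := Pool.Agent.H3.norm_Gamma_half_pr κ
  have hpi := Real.pi_gt_three
  have h2 : Real.cosh (Real.pi * κ) ≤ Real.exp (Real.pi * |κ|) := by
    rw [← Real.cosh_abs, abs_mul, abs_of_pos Real.pi_pos, Real.cosh_eq]
    have h3 : Real.exp (-(Real.pi * |κ|)) ≤ Real.exp (Real.pi * |κ|) :=
      Real.exp_le_exp.2 (by have := mul_nonneg Real.pi_pos.le (abs_nonneg κ); linarith)
    linarith
  refine (sq_le_sq₀ (Real.exp_pos _).le (norm_nonneg _)).1 ?_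
  rw [h1, le_div_iff₀ (Real.cosh_pos _), ← Real.exp_nat_mul]
  calc Real.exp (((2 : ℕ) : ℝ) * -(Real.pi / 2 * |κ|)) * Real.cosh (Real.pi * κ)
      ≤ Real.exp (((2 : ℕ) : ℝ) * -(Real.pi / 2 * |κ|)) * Real.exp (Real.pi * |κ|) := by
        gcongr
    _ = 1 := by
        rw [← Real.exp_add]
        have : ((2 : ℕ) : ℝ) * -(Real.pi / 2 * |κ|) + Real.pi * |κ| = 0 := by
          push_cast; ring
        rw [this, Real.exp_zero]
    _ ≤ Real.pi := by linarith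

/-! ## the functions `y^β K_μ(2πy)` -/

/-- `y^β K_μ(2πy)` -/
noncomputable def kb (β : ℝ) (μ : ℂ) (y : ℝ) : ℂ := ((y ^ β : ℝ) : ℂ) * KK μ (2 * Real.pi * y)

/-- its derivative -/
noncomputable def kb' (β : ℝ) (μ : ℂ) (y : ℝ) : ℂ :=
  ((β * y ^ (β - 1) : ℝ) : ℂ) * KK μ (2 * Real.pi * y) -
    ((Real.pi * y ^ β : ℝ) : ℂ) * (KK (μ - 1) (2 * Real.pi * y) + KK (μ + 1) (2 * Real.pi * y))

theorem kb_deriv (β : ℝ) (μ : ℂ) {y : ℝ} (hy : 0 < y) : HasDerivAt (kb β μ) (kb' β μ y) y := by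
  have hpi := Real.pi_pos
  have h1 : HasDerivAt (fun y : ℝ => ((y ^ β : ℝ) : ℂ)) ((β * y ^ (β - 1) : ℝ) : ℂ) y :=
    (Real.hasDerivAt_rpow_const (Or.inl hy.ne')).ofReal_comp
  have h2 : HasDerivAt (fun y : ℝ => KK μ (2 * Real.pi * y))
      ((2 * Real.pi : ℝ) • (-(KK (μ - 1) (2 * Real.pi * y) + KK (μ + 1) (2 * Real.pi * y)) / 2))
      y := by
    have h3 := (kdv_deriv μ (2 * Real.pi * y) (by positivity)).scomp y
      ((hasDerivAt_id y).const_mul (2 * Real.pi))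
    rw [mul_one] at h3
    exact h3
  refine (h1.mul h2).congr_deriv ?_
  rw [kb', Complex.real_smul]
  push_cast
  ring

theorem kk_cont (μ : ℂ) : ContinuousOn (fun y : ℝ => KK μ (2 * Real.pi * y)) (Set.Ioi 0) := by
  intro y hy
  have hy0 : 0 < y := hy
  have hpi := Real.pi_pos
  have h1 := (kdv_deriv μ (2 * Real.pi * y) (by positivity)).continuousAt
  have h2 : ContinuousAt (fun y : ℝ => 2 * Real.pi * y) y := by fun_prop
  exact (ContinuousAt.comp (g := KK μ) (f := fun y : ℝ => 2 * Real.pi * y) h1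
    h2).continuousWithinAt

theorem kb'_cont (β : ℝ) (μ : ℂ) : ContinuousOn (kb' β μ) (Set.Ioi 0) := by
  unfold kb'
  have h0 : ∀ γ : ℝ, ContinuousOn (fun y : ℝ => y ^ γ) (Set.Ioi 0) := fun γ =>
    ContinuousOn.rpow_const continuousOn_id fun y hy => Or.inl (ne_of_gt hy)
  refine ContinuousOn.sub ?_ ?_
  · exact (Complex.continuous_ofReal.comp_continuousOn ((h0 _).const_mul _)).mul (kk_cont μ)
  · exact (Complex.continuous_ofReal.comp_continuousOn ((h0 _).const_mul _)).mul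
      ((kk_cont _).add (kk_cont _))

theorem kb_meas (β : ℝ) (μ : ℂ) : Measurable (kb β μ) := by
  unfold kb
  have h1 : Measurable fun y : ℝ => KK μ (2 * Real.pi * y) :=
    (kbd_meas μ).comp (measurable_id.const_mul _)
  have h2 : Measurable fun y : ℝ => ((y ^ β : ℝ) : ℂ) :=
    Complex.measurable_ofReal.comp (measurable_id.pow_const β)
  exact h2.mul h1

theorem kb'_meas (β : ℝ) (μ : ℂ) : Measurable (kb' β μ) := by
  unfold kb'
  have h1 : ∀ μ : ℂ, Measurable fun y : ℝ => KK μ (2 * Real.pi * y) := fun μ =>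
    (kbd_meas μ).comp (measurable_id.const_mul _)
  have h2 : Measurable fun y : ℝ => ((β * y ^ (β - 1) : ℝ) : ℂ) :=
    Complex.measurable_ofReal.comp ((measurable_id.pow_const _).const_mul _)
  have h3 : Measurable fun y : ℝ => ((Real.pi * y ^ β : ℝ) : ℂ) :=
    Complex.measurable_ofReal.comp ((measurable_id.pow_const _).const_mul _)
  exact (h2.mul (h1 _)).sub (h3.mul ((h1 _).add (h1 _)))

theorem kk_bd (μ : ℂ) (a : ℝ) (ha : 0 < a) (hμ : |μ.re| ≤ a) : ∃ C : ℝ, 0 ≤ C ∧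
    ∀ y : ℝ, 0 < y → ‖KK μ (2 * Real.pi * y)‖ ≤ C * y ^ (-a) * Real.exp (-y) := by
  obtain ⟨C, hC, h⟩ := kbd_bound μ a ha hμ
  have hpi := Real.pi_gt_three
  refine ⟨C * (2 * Real.pi) ^ (-a), by positivity, fun y hy => ?_⟩
  refine (h (2 * Real.pi * y) (by positivity)).trans ?_
  rw [Real.mul_rpow (by positivity) hy.le, ← mul_assoc]
  have : Real.exp (-(2 * Real.pi * y / 2)) ≤ Real.exp (-y) := by
    apply Real.exp_le_exp.2
    nlinarith
  gcongr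

theorem kb_bd (β : ℝ) (μ : ℂ) (a : ℝ) (ha : 0 < a) (hμ : |μ.re| ≤ a) : ∃ C : ℝ, 0 ≤ C ∧
    ∀ y : ℝ, 0 < y → ‖kb β μ y‖ ≤ C * y ^ (β - a) * Real.exp (-y) := by
  obtain ⟨C, hC, h⟩ := kk_bd μ a ha hμ
  refine ⟨C, hC, fun y hy => ?_⟩
  rw [kb, norm_mul, Complex.norm_real, Real.norm_of_nonneg (Real.rpow_nonneg hy.le _)]
  have h1 := h y hy
  have h2 : y ^ (β - a) = y ^ β * y ^ (-a) := by rw [← Real.rpow_add hy]; congr 1
  rw [h2]
  calc y ^ β * ‖KK μ (2 * Real.pi * y)‖ ≤ y ^ β * (C * y ^ (-a) * Real.exp (-y)) := by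
        have : 0 ≤ y ^ β := Real.rpow_nonneg hy.le _
        gcongr
    _ = _ := by ring

/-- the trivial bound for the derivative -/
theorem kb'_bd (β : ℝ) (μ : ℂ) (a : ℝ) (ha : 0 < a) (hμ : |μ.re| ≤ a) : ∃ C : ℝ, 0 ≤ C ∧
    ∀ y : ℝ, 0 < y → ‖kb' β μ y‖ ≤ C * y ^ (β - a - 1) * Real.exp (-y) := by
  obtain ⟨C0, hC0, h0⟩ := kk_bd μ a ha hμ
  have hm := abs_le.1 hμ
  obtain ⟨C1, hC1, h1⟩ := kk_bd (μ - 1) (a + 1) (by linarith) (by
    rw [Complex.sub_re, Complex.one_re, abs_le]; constructor <;> linarith [hm.1, hm.2])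
  obtain ⟨C2, hC2, h2⟩ := kk_bd (μ + 1) (a + 1) (by linarith) (by
    rw [Complex.add_re, Complex.one_re, abs_le]; constructor <;> linarith [hm.1, hm.2])
  have hpi := Real.pi_pos
  refine ⟨|β| * C0 + Real.pi * (C1 + C2), by positivity, fun y hy => ?_⟩
  have q0 : 0 ≤ y ^ (β - 1) := Real.rpow_nonneg hy.le _
  have q1 : 0 ≤ y ^ β := Real.rpow_nonneg hy.le _
  have e1 : y ^ (β - a - 1) = y ^ (β - 1) * y ^ (-a) := by
    rw [← Real.rpow_add hy]; congr 1; ring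
  have e2 : y ^ (β - a - 1) = y ^ β * y ^ (-(a + 1)) := by
    rw [← Real.rpow_add hy]; congr 1; ring
  rw [kb']
  refine (norm_sub_le _ _).trans ?_
  rw [norm_mul, norm_mul, Complex.norm_real, Complex.norm_real, Real.norm_eq_abs,
    Real.norm_eq_abs, abs_mul, abs_mul, abs_of_nonneg q0, abs_of_nonneg q1, abs_of_pos hpi]
  have t1 : |β| * y ^ (β - 1) * ‖KK μ (2 * Real.pi * y)‖ ≤
      |β| * C0 * y ^ (β - a - 1) * Real.exp (-y) := by
    rw [e1]
    calc |β| * y ^ (β - 1) * ‖KK μ (2 * Real.pi * y)‖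
        ≤ |β| * y ^ (β - 1) * (C0 * y ^ (-a) * Real.exp (-y)) := by
          gcongr
          exact h0 y hy
      _ = _ := by ring
  have t2 : Real.pi * y ^ β * ‖KK (μ - 1) (2 * Real.pi * y) + KK (μ + 1) (2 * Real.pi * y)‖ ≤
      Real.pi * (C1 + C2) * y ^ (β - a - 1) * Real.exp (-y) := by
    rw [e2]
    calc Real.pi * y ^ β * ‖KK (μ - 1) (2 * Real.pi * y) + KK (μ + 1) (2 * Real.pi * y)‖
        ≤ Real.pi * y ^ β * (C1 * y ^ (-(a + 1)) * Real.exp (-y) +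
            C2 * y ^ (-(a + 1)) * Real.exp (-y)) := by
          gcongr
          exact (norm_add_le _ _).trans (add_le_add (h1 y hy) (h2 y hy))
      _ = _ := by ring
  calc _ ≤ |β| * C0 * y ^ (β - a - 1) * Real.exp (-y) +
        Real.pi * (C1 + C2) * y ^ (β - a - 1) * Real.exp (-y) := add_le_add t1 t2
    _ = _ := by ring

/-- `ν` purely imaginary -/
theorem kb'_bd0 (μ : ℂ) (hμ : μ.re = 0) : ∃ C : ℝ, 0 ≤ C ∧
    ∀ y : ℝ, 0 < y → ‖kb' 0 μ y‖ ≤ C * y ^ (-1 : ℝ) * Real.exp (-y) := by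
  obtain ⟨C1, hC1, h1⟩ := kk_bd (μ - 1) 1 (by linarith) (by
    rw [Complex.sub_re, Complex.one_re, hμ]; norm_num)
  obtain ⟨C2, hC2, h2⟩ := kk_bd (μ + 1) 1 (by linarith) (by
    rw [Complex.add_re, Complex.one_re, hμ]; norm_num)
  have hpi := Real.pi_pos
  refine ⟨Real.pi * (C1 + C2), by positivity, fun y hy => ?_⟩
  rw [kb', zero_mul, Complex.ofReal_zero, zero_mul, zero_sub, norm_neg, Real.rpow_zero, mul_one,
    norm_mul, Complex.norm_real, Real.norm_of_nonneg hpi.le]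
  calc Real.pi * ‖KK (μ - 1) (2 * Real.pi * y) + KK (μ + 1) (2 * Real.pi * y)‖
      ≤ Real.pi * (C1 * y ^ (-1 : ℝ) * Real.exp (-y) + C2 * y ^ (-1 : ℝ) * Real.exp (-y)) := by
        gcongr
        exact (norm_add_le _ _).trans (add_le_add (h1 y hy) (h2 y hy))
    _ = _ := by ring

/-- `ν = σ` real -/
theorem kb'_real (σ : ℝ) {y : ℝ} (hy : 0 < y) :
    kb' σ (σ : ℂ) y = -((2 * Real.pi * y ^ σ : ℝ) : ℂ) * KK ((σ : ℂ) - 1) (2 * Real.pi * y) := by
  have hpi := Real.pi_pos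
  have h1 := kdv_rec (σ : ℂ) (2 * Real.pi * y) (by positivity)
  have h2 : KK ((σ : ℂ) + 1) (2 * Real.pi * y) = KK ((σ : ℂ) - 1) (2 * Real.pi * y) +
      2 * σ / ((2 * Real.pi * y : ℝ) : ℂ) * KK σ (2 * Real.pi * y) := by
    rw [← h1]; ring
  have h3 : y ^ σ = y * y ^ (σ - 1) := by
    rw [Real.rpow_sub_one hy.ne']; field_simp
  have hyc : (y : ℂ) ≠ 0 := by exact_mod_cast hy.ne'
  have hpc : (Real.pi : ℂ) ≠ 0 := by exact_mod_cast hpi.ne'
  rw [kb', h2, h3]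
  push_cast
  field_simp
  ring

theorem kb'_bd1 (σ : ℝ) (h1 : σ < 1 / 2) : ∃ C : ℝ, 0 ≤ C ∧
    ∀ y : ℝ, 0 < y → ‖kb' σ (σ : ℂ) y‖ ≤ C * y ^ (2 * σ - 1) * Real.exp (-y) := by
  obtain ⟨C1, hC1, hb⟩ := kk_bd ((σ : ℂ) - 1) (1 - σ) (by linarith) (by
    rw [Complex.sub_re, Complex.one_re, Complex.ofReal_re, abs_of_nonpos (by linarith)]
    linarith)
  have hpi := Real.pi_pos
  refine ⟨2 * Real.pi * C1, by positivity, fun y hy => ?_⟩
  rw [kb'_real σ hy, norm_mul, norm_neg, Complex.norm_real,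
    Real.norm_of_nonneg (by positivity)]
  have e1 : y ^ (2 * σ - 1) = y ^ σ * y ^ (-(1 - σ)) := by
    rw [← Real.rpow_add hy]; congr 1; ring
  rw [e1]
  calc 2 * Real.pi * y ^ σ * ‖KK ((σ : ℂ) - 1) (2 * Real.pi * y)‖
      ≤ 2 * Real.pi * y ^ σ * (C1 * y ^ (-(1 - σ)) * Real.exp (-y)) := by
        gcongr
        exact hb y hy
    _ = _ := by ring

/-! ## the identity theorem -/

theorem ident {F Z : ℂ → ℂ} (hF : DifferentiableOn ℂ F {s | s.re < 3 / 4})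
    (hZ : DifferentiableOn ℂ Z {s | s.re < 3 / 4 ∧ s.im ≠ 0})
    (h : ∀ s : ℂ, s.re < 0 → s.im ≠ 0 → F s = Z s) (κ : ℝ) (hκ : κ ≠ 0) :
    F ((1 / 2 : ℝ) + (κ : ℂ) * Complex.I) = Z ((1 / 2 : ℝ) + (κ : ℂ) * Complex.I) := by
  set U : Set ℂ := {s | s.re < 3 / 4 ∧ 0 < κ * s.im} with hU
  have hUo : IsOpen U := by
    refine IsOpen.and (isOpen_lt Complex.continuous_re continuous_const) ?_
    exact isOpen_lt continuous_const (Complex.continuous_im.const_mul κ)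
  have hUc : Convex ℝ U := by
    have h1 : Convex ℝ {s : ℂ | s.re < 3 / 4} := convex_halfSpace_re_lt _
    have h2 : Convex ℝ {s : ℂ | 0 < κ * s.im} := by
      have h3 : IsLinearMap ℝ (fun s : ℂ => κ * s.im) :=
        ⟨fun x y => by rw [Complex.add_im, mul_add], fun c x => by
          rw [Complex.smul_im, smul_eq_mul, smul_eq_mul]; ring⟩
      exact convex_halfSpace_gt h3 0
    exact h1.inter h2
  have hne : ∀ s ∈ U, s.im ≠ 0 := fun s hs h0 => by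
    have := hs.2
    rw [h0, mul_zero] at this
    exact lt_irrefl _ this
  have hFU : AnalyticOnNhd ℂ F U := (hF.mono fun s hs => hs.1).analyticOnNhd hUo
  have hZU : AnalyticOnNhd ℂ Z U := (hZ.mono fun s hs => ⟨hs.1, hne s hs⟩).analyticOnNhd hUo
  have hκ2 : 0 < κ * κ := mul_self_pos.2 hκ
  set s0 : ℂ := ((-1 : ℝ) : ℂ) + (κ : ℂ) * Complex.I with hs0
  have r0 : s0.re = -1 := by simp [hs0]
  have i0 : s0.im = κ := by simp [hs0]
  have hs0U : s0 ∈ U := ⟨by rw [r0]; norm_num, by rw [i0]; exact hκ2⟩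
  have hev : F =ᶠ[𝓝 s0] Z := by
    have h1 : {s : ℂ | s.re < 0} ∩ U ∈ 𝓝 s0 := by
      refine inter_mem ?_ (hUo.mem_nhds hs0U)
      exact (isOpen_lt Complex.continuous_re continuous_const).mem_nhds
        (by change s0.re < 0; rw [r0]; norm_num)
    filter_upwards [h1] with s hs
    exact h s hs.1 (hne s hs.2)
  have hfin := hFU.eqOn_of_preconnected_of_eventuallyEq hZU hUc.isPreconnected hs0U hev
  refine hfin ?_
  refine ⟨?_, ?_⟩
  · have : (((1 / 2 : ℝ) : ℂ) + (κ : ℂ) * Complex.I).re = 1 / 2 := by simp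
    rw [this]; norm_num
  · have : (((1 / 2 : ℝ) : ℂ) + (κ : ℂ) * Complex.I).im = κ := by simp
    rw [this]; exact hκ2

end Pool.Agent.JOL
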