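import Pool.Agent.Lib_helper87.JO.L3j

/-!
# Project JO, part L3: Maass forms of weight 1

`W(y) = B x (K_(1/2+ν)(x) + c K_(1/2-ν)(x))`, `x = 2πy`, `c = ± 1`, `ν` purely imaginary.
-/

set_option autoImplicit false

namespace Pool.Agent.JOL

open MeasureTheory Filter Topology
open Pool.Agent.JO Pool.Agent.JO.FM
open scoped ComplexConjugate ENNReal

/-- `x (K_(1/2+ν)(x) + c K_(1/2-ν)(x))` -/
noncomputable def uc (c ν : ℂ) (x : ℝ) : ℂ := (x : ℂ) * (KK (1 / 2 + ν) x + c * KK (1 / 2 - ν) x)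

noncomputable def k1 (B c ν : ℂ) (y : ℝ) : ℂ :=
  2 * Real.pi * B * (kb (1 / 2) (1 / 2 + ν) y + c * kb (1 / 2) (1 / 2 - ν) y)

noncomputable def k1' (B c ν : ℂ) (y : ℝ) : ℂ :=
  2 * Real.pi * B * (kb' (1 / 2) (1 / 2 + ν) y + c * kb' (1 / 2) (1 / 2 - ν) y)

theorem half_re {ν : ℂ} (h : ν.re = 0) : |(1 / 2 + ν).re| = 1 / 2 ∧ |(1 / 2 - ν).re| = 1 / 2 := by
  have h1 : ((1 : ℂ) / 2).re = 1 / 2 := by norm_num
  rw [Complex.add_re, Complex.sub_re, h, h1, add_zero, sub_zero]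
  refine ⟨?_, ?_⟩ <;> rw [abs_of_pos (by norm_num)]

theorem khyp1 (B c : ℂ) {ν : ℂ} (h : ν.re = 0) : KHyp 0 (k1 B c ν) (k1' B c ν) := by
  obtain ⟨r1, r2⟩ := half_re h
  refine ⟨le_rfl, by norm_num, ?_, ?_, ?_, ?_, ?_, ?_⟩
  · intro y hy
    exact ((kb_deriv _ _ hy).add ((kb_deriv _ _ hy).const_mul c)).const_mul _
  · have h1 := kb'_cont (1 / 2) (1 / 2 + ν)
    have h2 := kb'_cont (1 / 2) (1 / 2 - ν)
    unfold k1'
    exact continuousOn_const.mul (h1.add (continuousOn_const.mul h2))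
  · exact ((kb_meas _ _).add ((kb_meas _ _).const_mul _)).const_mul _
  · exact ((kb'_meas _ _).add ((kb'_meas _ _).const_mul _)).const_mul _
  · intro ε hε
    obtain ⟨C1, hC1, b1⟩ := kb_bd (1 / 2) (1 / 2 + ν) (1 / 2 + ε) (by linarith) (by linarith)
    obtain ⟨C2, hC2, b2⟩ := kb_bd (1 / 2) (1 / 2 - ν) (1 / 2 + ε) (by linarith) (by linarith)
    refine ⟨‖2 * Real.pi * B‖ * (C1 + ‖c‖ * C2), by positivity, fun y hy => ?_⟩
    have e1 : (1 / 2 : ℝ) - (1 / 2 + ε) = -ε := by ring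
    have c1 := b1 y hy
    have c2 := b2 y hy
    rw [e1] at c1 c2
    rw [k1, norm_mul]
    calc ‖2 * Real.pi * B‖ * ‖kb (1 / 2) (1 / 2 + ν) y + c * kb (1 / 2) (1 / 2 - ν) y‖
        ≤ ‖2 * Real.pi * B‖ * (C1 * y ^ (-ε) * Real.exp (-y) +
            ‖c‖ * (C2 * y ^ (-ε) * Real.exp (-y))) := by
          gcongr
          refine (norm_add_le _ _).trans ?_
          rw [norm_mul]
          gcongr
      _ = _ := by ring
  · obtain ⟨C1, hC1, b1⟩ := kb'_bd (1 / 2) (1 / 2 + ν) (1 / 2) (by norm_num) (by linarith)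
    obtain ⟨C2, hC2, b2⟩ := kb'_bd (1 / 2) (1 / 2 - ν) (1 / 2) (by norm_num) (by linarith)
    refine ⟨‖2 * Real.pi * B‖ * (C1 + ‖c‖ * C2), by positivity, fun y hy => ?_⟩
    have e1 : (1 / 2 : ℝ) - 1 / 2 - 1 = 2 * 0 - 1 := by ring
    have c1 := b1 y hy
    have c2 := b2 y hy
    rw [e1] at c1 c2
    rw [k1', norm_mul]
    calc ‖2 * Real.pi * B‖ * ‖kb' (1 / 2) (1 / 2 + ν) y + c * kb' (1 / 2) (1 / 2 - ν) y‖
        ≤ ‖2 * Real.pi * B‖ * (C1 * y ^ (2 * 0 - 1 : ℝ) * Real.exp (-y) +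
            ‖c‖ * (C2 * y ^ (2 * 0 - 1 : ℝ) * Real.exp (-y))) := by
          gcongr
          refine (norm_add_le _ _).trans ?_
          rw [norm_mul]
          gcongr
      _ = _ := by ring

theorem uc_k1 (B c ν : ℂ) {y : ℝ} (hy : 0 < y) :
    B * uc c ν (2 * Real.pi * y) = ((y ^ (1 / 2 - (0 : ℝ)) : ℝ) : ℂ) * k1 B c ν y := by
  have e1 : ((y ^ (1 / 2 - (0 : ℝ)) : ℝ) : ℂ) * ((y ^ (1 / 2 : ℝ) : ℝ) : ℂ) = (y : ℂ) := by
    rw [← Complex.ofReal_mul, ← Real.rpow_add hy]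
    norm_num
  rw [uc, k1, kb, kb]
  push_cast
  push_cast at e1
  linear_combination (-(2 * Real.pi * B * (KK (1 / 2 + ν) (2 * Real.pi * y) +
    c * KK (1 / 2 - ν) (2 * Real.pi * y)))) * e1

theorem nonzero_sum (ν : ℂ) {a b : ℝ} (ha : 0 < a) (hab : a < b) :
    ∃ x ∈ Set.Ioo a b, KK (1 / 2 + ν) x + KK (1 / 2 - ν) x ≠ 0 := by
  obtain ⟨x, hx, h⟩ := kan_nonzero (Finset.univ : Finset (Fin 2)) ![1 / 2 + ν, 1 / 2 - ν]
    (fun _ => 1) (by simp) a b ha hab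
  refine ⟨x, hx, ?_⟩
  rw [Fin.sum_univ_two] at h
  simpa using h

theorem kk_deriv1 (μ : ℂ) {x : ℝ} (hx : 0 < x) :
    HasDerivAt (KK μ) (-KK (μ - 1) x - μ / x * KK μ x) x := by
  refine (kdv_deriv μ x hx).congr_deriv ?_
  have h := kdv_rec μ x hx
  linear_combination (-1 / 2 : ℂ) * h

theorem nonzero_diff {ν : ℂ} (hν : ν ≠ 0) {a b : ℝ} (ha : 0 < a) (hab : a < b) :
    ∃ x ∈ Set.Ioo a b, KK (1 / 2 + ν) x - KK (1 / 2 - ν) x ≠ 0 := by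
  by_contra hcon
  push Not at hcon
  obtain ⟨x, hx, h⟩ := nonzero_sum ν ha hab
  have hx0 : 0 < x := ha.trans hx.1
  have h1 : HasDerivAt (fun x => KK (1 / 2 + ν) x - KK (1 / 2 - ν) x) 0 x := by
    have h2 : (fun x => KK (1 / 2 + ν) x - KK (1 / 2 - ν) x) =ᶠ[𝓝 x] fun _ => 0 := by
      filter_upwards [isOpen_Ioo.mem_nhds hx] with z hz
      exact hcon z hz
    exact (hasDerivAt_const x (0 : ℂ)).congr_of_eventuallyEq h2
  have h3 := (kk_deriv1 (1 / 2 + ν) hx0).sub (kk_deriv1 (1 / 2 - ν) hx0)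
  have h4 := h1.unique h3
  have e1 : KK (1 / 2 + ν - 1) x = KK (1 / 2 - ν) x := by
    rw [show (1 / 2 : ℂ) + ν - 1 = -(1 / 2 - ν) by ring, kdv_neg]
  have e2 : KK (1 / 2 - ν - 1) x = KK (1 / 2 + ν) x := by
    rw [show (1 / 2 : ℂ) - ν - 1 = -(1 / 2 + ν) by ring, kdv_neg]
  have e3 : KK (1 / 2 + ν) x = KK (1 / 2 - ν) x := sub_eq_zero.1 (hcon x hx)
  rw [e1, e2, e3] at h4
  have hxc : (x : ℂ) ≠ 0 := by exact_mod_cast hx0.ne'
  have h5 : ν * KK (1 / 2 - ν) x = 0 := by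
    generalize KK (1 / 2 - ν) x = A at h4
    have h6 : (2 * ν / x) * A = 0 := by linear_combination h4
    have h7 : ν * A = ((2 * ν / x) * A) * x / 2 := by field_simp
    rw [h7, h6, zero_mul, zero_div]
  rcases mul_eq_zero.1 h5 with h6 | h6
  · exact hν h6
  · apply h
    rw [e3, h6, add_zero]

theorem k1_nonzero {B c ν : ℂ} (hB : B ≠ 0)
    (hc : ∃ x ∈ Set.Ioo (2 * Real.pi * (3 / 20)) (2 * Real.pi * (9 / 50)),
      KK (1 / 2 + ν) x + c * KK (1 / 2 - ν) x ≠ 0) :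
    ∃ y ∈ Set.Ioo (3 / 20 : ℝ) (9 / 50), k1 B c ν y ≠ 0 := by
  have hpi := Real.pi_pos
  obtain ⟨x, hx, h⟩ := hc
  have hxy : 2 * Real.pi * (x / (2 * Real.pi)) = x := by field_simp
  have h1 : 3 / 20 < x / (2 * Real.pi) := by
    rw [lt_div_iff₀ (by positivity)]; linarith [hx.1]
  have h2 : x / (2 * Real.pi) < 9 / 50 := by
    rw [div_lt_iff₀ (by positivity)]; linarith [hx.2]
  refine ⟨x / (2 * Real.pi), ⟨h1, h2⟩, ?_⟩
  have hy : 0 < x / (2 * Real.pi) := by linarith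
  have hA : ((x / (2 * Real.pi)) ^ (1 / 2 : ℝ) : ℝ) ≠ 0 := (Real.rpow_pos_of_pos hy _).ne'
  have hA' : (((x / (2 * Real.pi)) ^ (1 / 2 : ℝ) : ℝ) : ℂ) ≠ 0 := by exact_mod_cast hA
  have hpc : (Real.pi : ℂ) ≠ 0 := by exact_mod_cast hpi.ne'
  have e : k1 B c ν (x / (2 * Real.pi)) = 2 * Real.pi * B *
      ((((x / (2 * Real.pi)) ^ (1 / 2 : ℝ) : ℝ) : ℂ) *
        (KK (1 / 2 + ν) x + c * KK (1 / 2 - ν) x)) := by
    rw [k1, kb, kb, hxy]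
    ring
  rw [e]
  exact mul_ne_zero (mul_ne_zero (mul_ne_zero two_ne_zero hpc) hB) (mul_ne_zero hA' h)

/-- the Gamma factors -/
noncomputable def PP (c ν s : ℂ) : ℂ :=
  2 * ((Complex.Gamma ((3 - s) / 2) * Complex.Gamma ((1 - s) / 2)) *
    (Complex.Gamma ((2 - s) / 2 + ν) * Complex.Gamma ((2 - s) / 2 - ν))) +
  c * ((Complex.Gamma ((3 - s) / 2 + ν) * Complex.Gamma ((1 - s) / 2 - ν)) *
    (Complex.Gamma ((2 - s) / 2) * Complex.Gamma ((2 - s) / 2)) +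
    (Complex.Gamma ((3 - s) / 2 - ν) * Complex.Gamma ((1 - s) / 2 + ν)) *
    (Complex.Gamma ((2 - s) / 2) * Complex.Gamma ((2 - s) / 2)))

/-- the closed form -/
noncomputable def Z1 (B c ν s : ℂ) : ℂ :=
  (1 - 2 * ((0 : ℝ) : ℂ) - s) * (((2 * Real.pi : ℝ) : ℂ) ^ s * (B * conj B *
    ((2 : ℂ) ^ (-1 - s) * PP c ν s * (Complex.Gamma (2 - s))⁻¹)))

theorem Z1_mellin (B : ℂ) {c ν : ℂ} (h : ν.re = 0) (hc : c = 1 ∨ c = -1) {s : ℂ}
    (hs : s.re < 0) :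
    mellin (fLoc (fun y => B * uc c ν (2 * Real.pi * y)) 1 UpperHalfPlane.I) (-s) =
      ((2 * Real.pi : ℝ) : ℂ) ^ s * (B * conj B *
    ((2 : ℂ) ^ (-1 - s) * PP c ν s * (Complex.Gamma (2 - s))⁻¹)) := by
  have hpi := Real.pi_pos
  obtain ⟨r1, r2⟩ := half_re h
  have hνc : conj ν = -ν := by
    apply Complex.ext
    · simp [h]
    · simp
  have hcc : conj c = c := by
    rcases hc with h1 | h1 <;> rw [h1] <;> simp
  have hc2 : c * c = 1 := by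
    rcases hc with h1 | h1 <;> rw [h1] <;> ring
  have hhalf : conj ((1 : ℂ) / 2) = 1 / 2 := by
    rw [map_div₀, map_one, map_ofNat]
  have ca : ∀ x : ℝ, conj (KK (1 / 2 + ν) x) = KK (1 / 2 - ν) x := fun x => by
    rw [kdv_conj, map_add, hνc, hhalf, ← sub_eq_add_neg]
  have cb : ∀ x : ℝ, conj (KK (1 / 2 - ν) x) = KK (1 / 2 + ν) x := fun x => by
    rw [kdv_conj, map_sub, hνc, hhalf, sub_neg_eq_add]
  set g : ℝ → ℂ := fun x => (B * conj B) * ((x : ℂ) ^ 2 *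
    (2 * (KK (1 / 2 + ν) x * KK (1 / 2 - ν) x) + c * (KK (1 / 2 + ν) x * KK (1 / 2 + ν) x +
      KK (1 / 2 - ν) x * KK (1 / 2 - ν) x))) with hg
  have h1 : ∀ y ∈ Set.Ioi (0 : ℝ), fLoc (fun y => B * uc c ν (2 * Real.pi * y)) 1
      UpperHalfPlane.I y = g (2 * Real.pi * y) := by
    intro y hy
    rw [fLoc, UpperHalfPlane.I_im, UpperHalfPlane.I_re]
    simp only [zero_mul, Complex.ofReal_zero, mul_zero, neg_zero, Complex.exp_zero,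
      mul_one, one_mul, uc, map_mul, map_add, Complex.conj_ofReal, ca, cb, hcc, hg]
    linear_combination (B * conj B * (((2 * Real.pi * y : ℝ) : ℂ)) ^ 2 *
      (KK (1 / 2 + ν) (2 * Real.pi * y) * KK (1 / 2 - ν) (2 * Real.pi * y))) * hc2
  have h2 : mellin (fLoc (fun y => B * uc c ν (2 * Real.pi * y)) 1 UpperHalfPlane.I) (-s) =
      mellin (fun y => g (2 * Real.pi * y)) (-s) := by
    rw [mellin, mellin]
    exact setIntegral_congr_fun measurableSet_Ioi fun y hy => by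
      simp only [h1 y hy]
  rw [h2, mellin_comp_mul_left g (-s) (by positivity : (0 : ℝ) < 2 * Real.pi), neg_neg,
    smul_eq_mul, mellin]
  congr 1
  have hre : (2 - s).re = 2 - s.re := by
    rw [Complex.sub_re]
    norm_num
  have m1 := kpr_mellin (1 / 2 + ν) (1 / 2 - ν) (2 - s) (by rw [r1, r2, hre]; linarith)
  have m2 := kpr_mellin (1 / 2 + ν) (1 / 2 + ν) (2 - s) (by rw [r1, hre]; linarith)
  have m3 := kpr_mellin (1 / 2 - ν) (1 / 2 - ν) (2 - s) (by rw [r2, hre]; linarith)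
  have i1 := kpr_int (1 / 2 + ν) (1 / 2 - ν) (2 - s) (by rw [r1, r2, hre]; linarith)
  have i2 := kpr_int (1 / 2 + ν) (1 / 2 + ν) (2 - s) (by rw [r1, hre]; linarith)
  have i3 := kpr_int (1 / 2 - ν) (1 / 2 - ν) (2 - s) (by rw [r2, hre]; linarith)
  have h5 : ∫ t in Set.Ioi (0 : ℝ), (t : ℂ) ^ (-s - 1) • g t =
      ∫ x in Set.Ioi (0 : ℝ), (B * conj B) *
        (2 * (KK (1 / 2 + ν) x * KK (1 / 2 - ν) x * (x : ℂ) ^ ((2 - s) - 1)) +
        c * (KK (1 / 2 + ν) x * KK (1 / 2 + ν) x * (x : ℂ) ^ ((2 - s) - 1) +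
          KK (1 / 2 - ν) x * KK (1 / 2 - ν) x * (x : ℂ) ^ ((2 - s) - 1))) := by
    refine setIntegral_congr_fun measurableSet_Ioi fun x hx => ?_
    have hx0 : (0 : ℝ) < x := hx
    have hxc : (x : ℂ) ≠ 0 := by exact_mod_cast hx0.ne'
    have e3 : (x : ℂ) ^ ((2 - s) - 1) = (x : ℂ) ^ (-s - 1) * (x : ℂ) ^ 2 := by
      rw [show (2 - s) - 1 = (-s - 1) + (2 : ℂ) by ring, Complex.cpow_add _ _ hxc]
      congr 1
      exact_mod_cast Complex.cpow_natCast (x : ℂ) 2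
    simp only [hg, smul_eq_mul]
    rw [e3]
    ring
  rw [h5, integral_const_mul]
  congr 1
  have h7 : ∫ x in Set.Ioi (0 : ℝ), (2 * (KK (1 / 2 + ν) x * KK (1 / 2 - ν) x *
      (x : ℂ) ^ ((2 - s) - 1)) + c * (KK (1 / 2 + ν) x * KK (1 / 2 + ν) x *
      (x : ℂ) ^ ((2 - s) - 1) + KK (1 / 2 - ν) x * KK (1 / 2 - ν) x *
      (x : ℂ) ^ ((2 - s) - 1))) =
      (∫ x in Set.Ioi (0 : ℝ), 2 * (KK (1 / 2 + ν) x * KK (1 / 2 - ν) x *
      (x : ℂ) ^ ((2 - s) - 1))) + ∫ x in Set.Ioi (0 : ℝ),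
      c * (KK (1 / 2 + ν) x * KK (1 / 2 + ν) x *
      (x : ℂ) ^ ((2 - s) - 1) + KK (1 / 2 - ν) x * KK (1 / 2 - ν) x *
      (x : ℂ) ^ ((2 - s) - 1)) := by
    exact integral_add (i1.const_mul 2) ((i2.add i3).const_mul c)
  rw [h7, integral_const_mul, integral_const_mul]
  have h6 : ∫ x in Set.Ioi (0 : ℝ), (KK (1 / 2 + ν) x * KK (1 / 2 + ν) x *
      (x : ℂ) ^ ((2 - s) - 1) + KK (1 / 2 - ν) x * KK (1 / 2 - ν) x * (x : ℂ) ^ ((2 - s) - 1)) =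
      (∫ x in Set.Ioi (0 : ℝ), KK (1 / 2 + ν) x * KK (1 / 2 + ν) x *
      (x : ℂ) ^ ((2 - s) - 1)) + ∫ x in Set.Ioi (0 : ℝ),
      KK (1 / 2 - ν) x * KK (1 / 2 - ν) x * (x : ℂ) ^ ((2 - s) - 1) := integral_add i2 i3
  rw [h6, m1, m2, m3, PP]
  rw [show (2 - s + (1 / 2 + ν) + (1 / 2 - ν)) / 2 = (3 - s) / 2 by ring,
    show (2 - s - (1 / 2 + ν) - (1 / 2 - ν)) / 2 = (1 - s) / 2 by ring,
    show (2 - s + (1 / 2 + ν) - (1 / 2 - ν)) / 2 = (2 - s) / 2 + ν by ring,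
    show (2 - s - (1 / 2 + ν) + (1 / 2 - ν)) / 2 = (2 - s) / 2 - ν by ring,
    show (2 - s + (1 / 2 + ν) + (1 / 2 + ν)) / 2 = (3 - s) / 2 + ν by ring,
    show (2 - s - (1 / 2 + ν) - (1 / 2 + ν)) / 2 = (1 - s) / 2 - ν by ring,
    show (2 - s + (1 / 2 + ν) - (1 / 2 + ν)) / 2 = (2 - s) / 2 by ring,
    show (2 - s - (1 / 2 + ν) + (1 / 2 + ν)) / 2 = (2 - s) / 2 by ring,
    show (2 - s + (1 / 2 - ν) + (1 / 2 - ν)) / 2 = (3 - s) / 2 - ν by ring,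
    show (2 - s - (1 / 2 - ν) - (1 / 2 - ν)) / 2 = (1 - s) / 2 + ν by ring,
    show (2 - s + (1 / 2 - ν) - (1 / 2 - ν)) / 2 = (2 - s) / 2 by ring,
    show (2 - s - (1 / 2 - ν) + (1 / 2 - ν)) / 2 = (2 - s) / 2 by ring,
    show (2 : ℂ) - s - 3 = -1 - s by ring]
  ring

theorem gam_diff {f : ℂ → ℂ} {s : ℂ} (hf : DifferentiableAt ℂ f s) (h : 0 < (f s).re) :
    DifferentiableAt ℂ (fun s => Complex.Gamma (f s)) s := by
  refine DifferentiableAt.comp (g := Complex.Gamma) s (Complex.differentiableAt_Gamma _ ?_) hf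
  intro m hm
  have h1 := congrArg Complex.re hm
  rw [Complex.neg_re, Complex.natCast_re] at h1
  have h2 : (0 : ℝ) ≤ m := Nat.cast_nonneg m
  linarith

theorem Z1_diff (B c : ℂ) {ν : ℂ} (h : ν.re = 0) :
    DifferentiableOn ℂ (Z1 B c ν) {s | s.re < 3 / 4 ∧ s.im ≠ 0} := by
  intro s hs
  have hre : s.re < 3 / 4 := hs.1
  have hpi := Real.pi_pos
  have q1 : ((3 - s) / 2).re = (3 - s.re) / 2 := by
    rw [Complex.div_ofNat_re, Complex.sub_re]; norm_num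
  have q2 : ((2 - s) / 2).re = (2 - s.re) / 2 := by
    rw [Complex.div_ofNat_re, Complex.sub_re]; norm_num
  have q3 : ((1 - s) / 2).re = (1 - s.re) / 2 := by
    rw [Complex.div_ofNat_re, Complex.sub_re]; norm_num
  have l1 : DifferentiableAt ℂ (fun s : ℂ => (3 - s) / 2) s := by fun_prop
  have l2 : DifferentiableAt ℂ (fun s : ℂ => (2 - s) / 2) s := by fun_prop
  have l3 : DifferentiableAt ℂ (fun s : ℂ => (1 - s) / 2) s := by fun_prop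
  have d1 := gam_diff l1 (by rw [q1]; linarith)
  have d2 := gam_diff l3 (by rw [q3]; linarith)
  have d3 := gam_diff (l2.add_const ν) (by rw [Complex.add_re, q2, h]; linarith)
  have d4 := gam_diff (l2.sub_const ν) (by rw [Complex.sub_re, q2, h]; linarith)
  have d5 := gam_diff (l1.add_const ν) (by rw [Complex.add_re, q1, h]; linarith)
  have d6 := gam_diff (l3.sub_const ν) (by rw [Complex.sub_re, q3, h]; linarith)
  have d7 := gam_diff l2 (by rw [q2]; linarith)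
  have d8 := gam_diff (l1.sub_const ν) (by rw [Complex.sub_re, q1, h]; linarith)
  have d9 := gam_diff (l3.add_const ν) (by rw [Complex.add_re, q3, h]; linarith)
  have dP : DifferentiableAt ℂ (PP c ν) s := by
    unfold PP
    exact (((d1.mul d2).mul (d3.mul d4)).const_mul 2).add
      ((((d5.mul d6).mul (d7.mul d7)).add ((d8.mul d9).mul (d7.mul d7))).const_mul c)
  have dG : DifferentiableAt ℂ (fun s : ℂ => (Complex.Gamma (2 - s))⁻¹) s := by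
    have l4 : DifferentiableAt ℂ (fun s : ℂ => 2 - s) s := by fun_prop
    exact DifferentiableAt.comp (g := fun s : ℂ => (Complex.Gamma s)⁻¹) s
      (Complex.differentiable_one_div_Gamma _) l4
  have dp : DifferentiableAt ℂ (fun s : ℂ => ((2 * Real.pi : ℝ) : ℂ) ^ s) s := by
    refine DifferentiableAt.const_cpow differentiableAt_id (Or.inl ?_)
    exact_mod_cast (by positivity : (2 * Real.pi : ℝ) ≠ 0)
  have dt : DifferentiableAt ℂ (fun s : ℂ => (2 : ℂ) ^ (-1 - s)) s := by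
    refine DifferentiableAt.const_cpow (by fun_prop) (Or.inl two_ne_zero)
  have dl : DifferentiableAt ℂ (fun s : ℂ => 1 - 2 * ((0 : ℝ) : ℂ) - s) s := by fun_prop
  unfold Z1
  exact (dl.mul (dp.mul (((dt.mul dP).mul dG).const_mul (B * conj B)))).differentiableWithinAt

theorem YY1_eq (B : ℂ) {c ν : ℂ} (h : ν.re = 0) (hc : c = 1 ∨ c = -1) (κ : ℝ) (hκ : κ ≠ 0) :
    YY 0 (k1 B c ν) (k1' B c ν) 1 UpperHalfPlane.I ((1 / 2 : ℝ) + (κ : ℂ) * Complex.I) =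
      Z1 B c ν ((1 / 2 : ℝ) + (κ : ℂ) * Complex.I) := by
  refine ident (YY_diffOn (khyp1 B c h) abs_one _) (Z1_diff B c h) (fun s hs _ => ?_) κ hκ
  rw [YY_mellin (khyp1 B c h) abs_one (W := fun y => B * uc c ν (2 * Real.pi * y))
    (fun y hy => uc_k1 B c ν hy) UpperHalfPlane.I hs, Z1_mellin B h hc hs, Z1]

theorem hup1 (B : ℂ) {c ν : ℂ} (h : ν.re = 0) (hc : c = 1 ∨ c = -1) :
    ∃ C κ0 : ℝ, 0 ≤ C ∧ ∀ κ : ℝ, κ0 ≤ |κ| →
    ‖YY 0 (k1 B c ν) (k1' B c ν) 1 UpperHalfPlane.I ((1 / 2 : ℝ) + (κ : ℂ) * Complex.I)‖ ≤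
      C * ‖rr 0 κ‖ * |κ| ^ (((1 : ℕ) : ℝ) - 1) * Real.exp (-(Real.pi / 2 * |κ|)) := by
  have hpi := Real.pi_pos
  obtain ⟨C1, hC1, g1⟩ := gam_shift (5 / 4) 0 (by norm_num) (by norm_num)
  obtain ⟨C2, hC2, g2⟩ := gam_shift (1 / 4) 0 (by norm_num) (by norm_num)
  obtain ⟨C3, hC3, g3⟩ := gam_shift (3 / 4) ν.im (by norm_num) (by norm_num)
  obtain ⟨C4, hC4, g4⟩ := gam_shift (3 / 4) (-ν.im) (by norm_num) (by norm_num)
  obtain ⟨C5, hC5, g5⟩ := gam_shift (5 / 4) ν.im (by norm_num) (by norm_num)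
  obtain ⟨C6, hC6, g6⟩ := gam_shift (1 / 4) (-ν.im) (by norm_num) (by norm_num)
  obtain ⟨C7, hC7, g7⟩ := gam_shift (3 / 4) 0 (by norm_num) (by norm_num)
  obtain ⟨C8, hC8, g8⟩ := gam_shift (5 / 4) (-ν.im) (by norm_num) (by norm_num)
  obtain ⟨C9, hC9, g9⟩ := gam_shift (1 / 4) ν.im (by norm_num) (by norm_num)
  obtain ⟨b, hb⟩ : ∃ b : ℂ, b = B * conj B := ⟨_, rfl⟩
  refine ⟨(2 * Real.pi) ^ (1 / 2 : ℝ) * (‖b‖ * (2 * (C1 * C2 * (C3 * C4)) +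
    (C5 * C6 * (C7 * C7) + C8 * C9 * (C7 * C7)))), 4 * |ν.im| + 4, by positivity,
    fun κ hκ => ?_⟩
  have ht := abs_nonneg ν.im
  have hκ0 : 0 < |κ| := by linarith
  have hκne : κ ≠ 0 := abs_pos.1 hκ0
  rw [YY1_eq B h hc κ hκne, Z1, ← hb]
  set s : ℂ := ((1 / 2 : ℝ) : ℂ) + (κ : ℂ) * Complex.I with hs
  have hsre : s.re = 1 / 2 := by simp [hs]
  have hνe : ν = ((ν.im : ℝ) : ℂ) * Complex.I := by
    conv_lhs => rw [← Complex.re_add_im ν, h, Complex.ofReal_zero, zero_add]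
  have e1 : (3 - s) / 2 = ((5 / 4 : ℝ) : ℂ) + ((0 - κ / 2 : ℝ) : ℂ) * Complex.I := by
    rw [hs]; push_cast; ring
  have e2 : (1 - s) / 2 = ((1 / 4 : ℝ) : ℂ) + ((0 - κ / 2 : ℝ) : ℂ) * Complex.I := by
    rw [hs]; push_cast; ring
  have e3 : (2 - s) / 2 + ν = ((3 / 4 : ℝ) : ℂ) + ((ν.im - κ / 2 : ℝ) : ℂ) * Complex.I := by
    conv_lhs => rw [hνe, hs]
    push_cast; ring
  have e4 : (2 - s) / 2 - ν = ((3 / 4 : ℝ) : ℂ) + ((-ν.im - κ / 2 : ℝ) : ℂ) * Complex.I := by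
    conv_lhs => rw [hνe, hs]
    push_cast; ring
  have e5 : (3 - s) / 2 + ν = ((5 / 4 : ℝ) : ℂ) + ((ν.im - κ / 2 : ℝ) : ℂ) * Complex.I := by
    conv_lhs => rw [hνe, hs]
    push_cast; ring
  have e6 : (1 - s) / 2 - ν = ((1 / 4 : ℝ) : ℂ) + ((-ν.im - κ / 2 : ℝ) : ℂ) * Complex.I := by
    conv_lhs => rw [hνe, hs]
    push_cast; ring
  have e7 : (2 - s) / 2 = ((3 / 4 : ℝ) : ℂ) + ((0 - κ / 2 : ℝ) : ℂ) * Complex.I := by
    rw [hs]; push_cast; ring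
  have e8 : (3 - s) / 2 - ν = ((5 / 4 : ℝ) : ℂ) + ((-ν.im - κ / 2 : ℝ) : ℂ) * Complex.I := by
    conv_lhs => rw [hνe, hs]
    push_cast; ring
  have e9 : (1 - s) / 2 + ν = ((1 / 4 : ℝ) : ℂ) + ((ν.im - κ / 2 : ℝ) : ℂ) * Complex.I := by
    conv_lhs => rw [hνe, hs]
    push_cast; ring
  have e0 : 1 - s = 1 / 2 + ((-κ : ℝ) : ℂ) * Complex.I := by
    rw [hs]; push_cast; ring
  have hz : 4 * |(0 : ℝ)| + 4 ≤ |κ| := by rw [abs_zero]; linarith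
  have hm : 4 * |-ν.im| + 4 ≤ |κ| := by rw [abs_neg]; exact hκ
  have b1 := g1 κ hz
  have b2 := g2 κ hz
  have b3 := g3 κ hκ
  have b4 := g4 κ hm
  have b5 := g5 κ hκ
  have b6 := g6 κ hm
  have b7 := g7 κ hz
  have b8 := g8 κ hm
  have b9 := g9 κ hκ
  rw [← e1] at b1
  rw [← e2] at b2
  rw [← e3] at b3
  rw [← e4] at b4
  rw [← e5] at b5
  rw [← e6] at b6
  rw [← e7] at b7
  rw [← e8] at b8
  rw [← e9] at b9
  have b0 := gam_half_low (-κ)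
  rw [abs_neg, ← e0] at b0
  have n1 : ‖((2 * Real.pi : ℝ) : ℂ) ^ s‖ = (2 * Real.pi) ^ (1 / 2 : ℝ) := by
    rw [Complex.norm_cpow_eq_rpow_re_of_pos (by positivity), hsre]
  have n2 : ‖(2 : ℂ) ^ (-1 - s)‖ ≤ 1 := by
    have h2 : ((2 : ℝ) : ℂ) = 2 := by norm_num
    rw [← h2, Complex.norm_cpow_eq_rpow_re_of_pos (by norm_num)]
    refine Real.rpow_le_one_of_one_le_of_nonpos (by norm_num) ?_
    rw [Complex.sub_re, hsre]
    norm_num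
  have n3 : ‖(Complex.Gamma (2 - s))⁻¹‖ ≤ |κ|⁻¹ * Real.exp (Real.pi / 2 * |κ|) := by
    have h1s : (1 - s).im = -κ := by rw [e0]; simp
    have hne : 1 - s ≠ 0 := by
      intro h0
      rw [h0, Complex.zero_im] at h1s
      exact hκne (by linarith)
    have h3 : |κ| ≤ ‖1 - s‖ := by
      have := Complex.abs_im_le_norm (1 - s)
      rwa [h1s, abs_neg] at this
    rw [show 2 - s = (1 - s) + 1 by ring, Complex.Gamma_add_one _ hne, norm_inv, norm_mul,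
      mul_inv]
    have h4 : ‖1 - s‖⁻¹ ≤ |κ|⁻¹ := inv_anti₀ hκ0 h3
    have h5 : ‖Complex.Gamma (1 - s)‖⁻¹ ≤ Real.exp (Real.pi / 2 * |κ|) := by
      refine inv_le_of_inv_le₀ (Real.exp_pos _) ?_
      rw [← Real.exp_neg]
      exact b0
    have h6 : 0 ≤ ‖Complex.Gamma (1 - s)‖⁻¹ := inv_nonneg.2 (norm_nonneg _)
    have h7 : 0 ≤ |κ|⁻¹ := inv_nonneg.2 hκ0.le
    exact mul_le_mul h4 h5 h6 h7
  have hcn : ‖c‖ = 1 := by
    rcases hc with h1 | h1 <;> rw [h1] <;> simp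
  set E := Real.exp (-(Real.pi / 4 * |κ|)) with hE
  have hE0 : 0 < E := Real.exp_pos _
  have x1 : |κ| ^ ((5 / 4 : ℝ) - 1 / 2) * |κ| ^ ((1 / 4 : ℝ) - 1 / 2) *
      (|κ| ^ ((3 / 4 : ℝ) - 1 / 2) * |κ| ^ ((3 / 4 : ℝ) - 1 / 2)) = |κ| := by
    rw [← Real.rpow_add hκ0, ← Real.rpow_add hκ0, ← Real.rpow_add hκ0]
    norm_num
  set p5 := |κ| ^ ((5 / 4 : ℝ) - 1 / 2) with hp5
  set p1 := |κ| ^ ((1 / 4 : ℝ) - 1 / 2) with hp1
  set p3 := |κ| ^ ((3 / 4 : ℝ) - 1 / 2) with hp3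
  have q5 : 0 ≤ p5 := by positivity
  have q1 : 0 ≤ p1 := by positivity
  have q3 : 0 ≤ p3 := by positivity
  have nP : ‖PP c ν s‖ ≤ (2 * (C1 * C2 * (C3 * C4)) +
      (C5 * C6 * (C7 * C7) + C8 * C9 * (C7 * C7))) * |κ| * (E * E * (E * E)) := by
    rw [PP]
    refine (norm_add_le _ _).trans ?_
    rw [norm_mul, norm_mul, norm_mul, norm_mul, norm_mul, hcn, one_mul,
      show ‖(2 : ℂ)‖ = 2 by norm_num]
    calc 2 * (‖Complex.Gamma ((3 - s) / 2)‖ * ‖Complex.Gamma ((1 - s) / 2)‖ *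
          (‖Complex.Gamma ((2 - s) / 2 + ν)‖ * ‖Complex.Gamma ((2 - s) / 2 - ν)‖)) +
          ‖Complex.Gamma ((3 - s) / 2 + ν) * Complex.Gamma ((1 - s) / 2 - ν) *
            (Complex.Gamma ((2 - s) / 2) * Complex.Gamma ((2 - s) / 2)) +
          Complex.Gamma ((3 - s) / 2 - ν) * Complex.Gamma ((1 - s) / 2 + ν) *
            (Complex.Gamma ((2 - s) / 2) * Complex.Gamma ((2 - s) / 2))‖
        ≤ 2 * ((C1 * p5 * E) * (C2 * p1 * E) * ((C3 * p3 * E) * (C4 * p3 * E))) +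
          ((C5 * p5 * E) * (C6 * p1 * E) * ((C7 * p3 * E) * (C7 * p3 * E)) +
          (C8 * p5 * E) * (C9 * p1 * E) * ((C7 * p3 * E) * (C7 * p3 * E))) := by
          refine add_le_add ?_ ((norm_add_le _ _).trans (add_le_add ?_ ?_))
          · gcongr
          · rw [norm_mul, norm_mul, norm_mul]
            gcongr
          · rw [norm_mul, norm_mul, norm_mul]
            gcongr
      _ = (2 * (C1 * C2 * (C3 * C4)) +
      (C5 * C6 * (C7 * C7) + C8 * C9 * (C7 * C7))) * (p5 * p1 * (p3 * p3)) *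
        (E * E * (E * E)) := by ring
      _ = _ := by rw [x1]
  have hexp : E * E * (E * E) * Real.exp (Real.pi / 2 * |κ|) =
      Real.exp (-(Real.pi / 2 * |κ|)) := by
    rw [hE, ← Real.exp_add, ← Real.exp_add, ← Real.exp_add]
    congr 1
    ring
  have hrr : ‖1 - 2 * ((0 : ℝ) : ℂ) - s‖ = ‖rr 0 κ‖ := by rw [rr, hs]
  have hpow : |κ| ^ (((1 : ℕ) : ℝ) - 1) = 1 := by
    rw [Nat.cast_one, sub_self, Real.rpow_zero]
  rw [norm_mul, hrr, norm_mul, norm_mul, norm_mul, norm_mul, n1, hpow, mul_one]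
  set D := 2 * (C1 * C2 * (C3 * C4)) + (C5 * C6 * (C7 * C7) + C8 * C9 * (C7 * C7)) with hD
  have hD0 : 0 ≤ D := by positivity
  calc ‖rr 0 κ‖ * ((2 * Real.pi) ^ (1 / 2 : ℝ) * (‖b‖ *
        (‖(2 : ℂ) ^ (-1 - s)‖ * ‖PP c ν s‖ * ‖(Complex.Gamma (2 - s))⁻¹‖)))
      ≤ ‖rr 0 κ‖ * ((2 * Real.pi) ^ (1 / 2 : ℝ) * (‖b‖ *
        (1 * (D * |κ| * (E * E * (E * E))) * (|κ|⁻¹ * Real.exp (Real.pi / 2 * |κ|))))) := by
        gcongr
    _ = (2 * Real.pi) ^ (1 / 2 : ℝ) * (‖b‖ * D) * ‖rr 0 κ‖ * (|κ| * |κ|⁻¹) *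
        (E * E * (E * E) * Real.exp (Real.pi / 2 * |κ|)) := by ring
    _ = _ := by rw [hexp, mul_inv_cancel₀ hκ0.ne', mul_one]

/-- **Part L3, weight 1.** -/
theorem locData_maass1 {ν Bp Bm : ℂ} (h : ν.re = 0) (hν : ν ≠ 0) (hBp : Bp ≠ 0) (hBm : Bm ≠ 0)
    {Wp Wm : ℝ → ℂ} (hWp : ∀ y : ℝ, 0 < y → Wp y = Bp * uc 1 ν (2 * Real.pi * y))
    (hWm : ∀ y : ℝ, 0 < y → Wm y = Bm * uc (-1) ν (2 * Real.pi * y)) :
    LocData 1 Wp Wm (YY 0 (k1 Bp 1 ν) (k1' Bp 1 ν) 1)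
      (YY 0 (k1 Bm (-1) ν) (k1' Bm (-1) ν) (-1)) := by
  have hpi := Real.pi_pos
  obtain ⟨C1, κ1, hC1, hb1⟩ := hup1 Bp h (Or.inl (rfl : (1 : ℂ) = 1))
  obtain ⟨C2, κ2, hC2, hb2⟩ := hup1 Bm h (Or.inr (rfl : (-1 : ℂ) = -1))
  have n1 : ∃ y ∈ Set.Ioo (3 / 20 : ℝ) (9 / 50), k1 Bp 1 ν y ≠ 0 := by
    refine k1_nonzero hBp ?_
    obtain ⟨x, hx, hx'⟩ := nonzero_sum ν (a := 2 * Real.pi * (3 / 20))
      (b := 2 * Real.pi * (9 / 50)) (by positivity) (by nlinarith)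
    exact ⟨x, hx, by rwa [one_mul]⟩
  have n2 : ∃ y ∈ Set.Ioo (3 / 20 : ℝ) (9 / 50), k1 Bm (-1) ν y ≠ 0 := by
    refine k1_nonzero hBm ?_
    obtain ⟨x, hx, hx'⟩ := nonzero_diff hν (a := 2 * Real.pi * (3 / 20))
      (b := 2 * Real.pi * (9 / 50)) (by positivity) (by nlinarith)
    exact ⟨x, hx, by rwa [neg_one_mul, ← sub_eq_add_neg]⟩
  refine locData_of (khyp1 Bp 1 h) (khyp1 Bm (-1) h)
    (fun y hy => (hWp y hy).trans (uc_k1 Bp 1 ν hy))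
    (fun y hy => (hWm y hy).trans (uc_k1 Bm (-1) ν hy)) n1 n2 1
    ⟨C1 + C2, max κ1 κ2, by positivity, fun κ hκ => ⟨?_, ?_⟩⟩
  · refine (hb1 κ ((le_max_left _ _).trans hκ)).trans ?_
    have p : 0 ≤ |κ| ^ (((1 : ℕ) : ℝ) - 1) := by positivity
    gcongr
    linarith
  · rw [YY_I_sign]
    refine (hb2 κ ((le_max_right _ _).trans hκ)).trans ?_
    have p : 0 ≤ |κ| ^ (((1 : ℕ) : ℝ) - 1) := by positivity
    gcongr
    linarith

end Pool.Agent.JOL
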